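import Pool.Agent.MP_00906f_gt.H33E.Glue

/-! The numerical lower bound for the closed surface. -/

namespace Pool.Agent.MP_00906f_gt.H91.Lower

open H46 H46.FinAux H33E H33E.GlueA

variable {g : ℕ} (hg : 3 ≤ g) {ρ : HypMCG g →* (Hom1 g ≃ₗ[ℤ] Hom1 g)} (hρ : IsHomologyAction g ρ)

/-- The compatible classes. -/
def GoodS : Submodule ℚ (Additive (XB hg hρ).ρ.ker →+ ℚ) where
  carrier := {φ | Good hg hρ φ}
  add_mem' := fun {a b} ha hb k k' h1 h2 h3 => by
    change a _ + b _ = a _ + b _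
    rw [ha k k' h1 h2 h3, hb k k' h1 h2 h3]
  zero_mem' := fun _ _ _ _ _ => rfl
  smul_mem' := fun c a ha k k' h1 h2 h3 => by
    change c • a _ = c • a _
    rw [ha k k' h1 h2 h3]

theorem card_le (hD : SDesc) [Module.Finite ℚ (Additive ρ.ker →+ ℚ)] {ι : Type} [Fintype ι]
    (φ : ι → (Additive (XB hg hρ).ρ.ker →+ ℚ)) (hφ : ∀ i, Good hg hρ (φ i))
    (hi : LinearIndependent ℚ φ) :
    Fintype.card ι ≤ Module.finrank ℚ (Additive ρ.ker →+ ℚ) + 1 := by
  let D : (XB hg hρ).ρ.ker := ⟨Del4 (2 * g), ker_of hg hρ (hD g).1⟩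
  let W := Submodule.span ℚ (Set.range φ)
  have hW : W ≤ GoodS hg hρ := Submodule.span_le.2 (by rintro _ ⟨i, rfl⟩; exact hφ i)
  have : Module.Finite ℚ W := Module.Finite.span_of_finite ℚ (Set.finite_range _)
  let ev : W →ₗ[ℚ] ℚ :=
    { toFun := fun φ => φ.1 (Additive.ofMul D), map_add' := fun _ _ => rfl,
      map_smul' := fun _ _ => rfl }
  let pull : (Additive ρ.ker →+ ℚ) →ₗ[ℚ] (Additive (XB hg hρ).ρ.ker →+ ℚ) :=
    { toFun := fun φ => φ.comp (MonoidHom.toAdditive (pk hg hρ))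
      map_add' := fun _ _ => rfl, map_smul' := fun _ _ => rfl }
  have hD1 : pk hg hρ D = 1 := Subtype.ext (hD g).1
  have hle : (LinearMap.ker ev).map W.subtype ≤ LinearMap.range pull := by
    rintro _ ⟨ψ, hψ, rfl⟩
    have h0 : ψ.1 (Additive.ofMul D) = 0 := hψ
    obtain ⟨φ', h'⟩ := exists_desc _ (pk_surj hg hρ) ψ.1 fun k hk => by
      obtain ⟨m, hm⟩ := (hD g).2 k (congrArg Subtype.val hk)
      have := hW ψ.2 (k ^ 2) (D ^ m) (by rw [map_pow, hk, one_pow])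
        (by rw [map_zpow, hD1, one_zpow]) hm
      rw [ofMul_pow, ofMul_zpow, map_nsmul, map_zsmul, h0, smul_zero, two_nsmul] at this
      linarith
    exact ⟨φ', AddMonoidHom.ext fun k => h' (Additive.toMul k)⟩
  have h1 := LinearMap.finrank_range_add_finrank_ker ev
  have h2 : Module.finrank ℚ (LinearMap.range ev) ≤ 1 :=
    (Submodule.finrank_le _).trans (Module.finrank_self ℚ).le
  have h3 := Submodule.finrank_mono hle
  rw [Submodule.finrank_map_subtype_eq] at h3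
  have h4 := LinearMap.finrank_range_le pull
  have h5 : Module.finrank ℚ W = Fintype.card ι := finrank_span_eq_card hi
  omega

include hg hρ in
theorem lower (h4 : SH4) (hL : SHL) (hM : SMey) (hD : SDesc) (hk : SLab) (hS : SSpan)
    (hI : SIndep) (hC : SCard) [Module.Finite ℚ (Additive ρ.ker →+ ℚ)] :
    20 * g ^ 4 + 36 * g ^ 3 ≤
      6 * Module.finrank ℚ (Additive ρ.ker →+ ℚ) + 5 * g ^ 2 + 9 * g + 6 := by
  obtain ⟨a, b, hab, hs⟩ := exists_s hg hρ hM
  have kit := hk _ _ (XB hg hρ)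
  have hF : Submodule.span ℚ ((XB hg hρ).Fam a b) ≤ (GoodS hg hρ).map (valL (XB hg hρ)) := by
    refine Submodule.span_le.2 ?_
    rintro v (⟨p, q, r, e, I, rfl⟩ | ⟨A, c, d, h, rfl⟩ | rfl)
    · obtain ⟨φ, h1, h2⟩ := h4 _ _ (XB hg hρ) rfl rfl p q r e I
      exact ⟨φ, fun k k' _ _ h => h1 k k' h, h2⟩
    · obtain ⟨φ, h1, h2⟩ := hL _ _ (XB hg hρ) rfl rfl A c d h
      exact ⟨φ, fun k k' _ _ h => h1 k k' h, h2⟩
    · exact hs
  rw [hS _ _ (XB hg hρ) kit a b] at hF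
  choose φ hφ hφ' using fun i => hF (Submodule.subset_span ⟨i, rfl⟩)
  have hi : LinearIndependent ℚ φ := by
    refine LinearIndependent.of_comp (valL (XB hg hρ)) ?_
    have e : (valL (XB hg hρ)) ∘ φ = (XB hg hρ).bas a b := funext hφ'
    rw [e]
    exact hI _ _ _ kit a b hab
  have h1 := card_le hg hρ hD φ hφ hi
  have h2 := hC g hg
  have h5 : Fintype.card (Ix (XB hg hρ).N) = Fintype.card (Ix (2 * g)) := rfl
  omega

end Pool.Agent.MP_00906f_gt.H91.Lower
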