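import Pool.Agent.MP_00906f_gt.H91.Spec
import Pool.Agent.MP_00906f_gt.H91.Lower
import Pool.Agent.MP_00906f_gt.H33E.Chi

/-! From the two bounds to the exact rank. -/

namespace Pool.Agent.MP_00906f_gt.H91

open H33E

theorem fin_hom (K : Type) [Group K] (h : Group.FG (Abelianization K)) :
    Module.Finite ℚ (Additive K →+ ℚ) := by
  obtain ⟨S, hS, hfin⟩ := Group.fg_iff.1 h
  have : Finite S := hfin
  let f : (Additive K →+ ℚ) →ₗ[ℚ] (S → ℚ) :=
    { toFun := fun φ s => Multiplicative.toAdd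
        (Abelianization.lift (AddMonoidHom.toMultiplicativeRight φ) s.1)
      map_add' := fun a b => by
        funext s
        obtain ⟨x, hx⟩ : ∃ x, Abelianization.of x = s.1 := Quot.exists_rep s.1
        simp [← hx]
      map_smul' := fun c a => by
        funext s
        obtain ⟨x, hx⟩ : ∃ x, Abelianization.of x = s.1 := Quot.exists_rep s.1
        simp [← hx] }
  refine Module.Finite.of_injective f ((injective_iff_map_eq_zero f).2 fun φ hφ => ?_)
  have h1 : Abelianization.lift (AddMonoidHom.toMultiplicativeRight φ) = 1 :=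
    MonoidHom.eq_of_eqOn_dense hS fun s hs => congrFun hφ ⟨s, hs⟩
  ext k
  have := DFunLike.congr_fun h1 (Abelianization.of k)
  simpa using this

theorem exact (hU : StmtFIN) (h4 : SH4) (hL : SHL) (hM : SMey) (hD : SDesc) (hk : SLab)
    (hS : SSpan) (hI : SIndep) (hC : SCard) (g : ℕ) (hg : 4 ≤ g) :
    ∃ ρ : HT.HypMCG g →* Equiv.Perm (HT.Hom1 g), HT.IsHomologyAction g ρ ∧
      Group.FG (Abelianization ρ.ker) ∧
      6 * Module.finrank ℤ (Additive (Abelianization ρ.ker)) + 5 * g ^ 2 + 9 * g + 6 =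
        20 * g ^ 4 + 36 * g ^ 3 := by
  obtain ⟨ρ, hρ⟩ := H46.exists_action g
  have h := H46.reduction H46.abstractFG g (by omega) ρ hρ
  let ι : (H46.Hom1 g ≃ₗ[ℤ] H46.Hom1 g) →* Equiv.Perm (H46.Hom1 g) := MulAction.toPermHom _ _
  have hι : Function.Injective ι := fun a b e => LinearEquiv.ext fun x => by
    exact congrArg (fun f : Equiv.Perm (H46.Hom1 g) => f x) e
  have hk' : (ι.comp ρ).ker = ρ.ker := MonoidHom.ker_comp_of_injective ρ ι hι
  have h1 := hU g hg (ι.comp ρ) hρ
  have := fin_hom _ h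
  have h2 := Lower.lower (by omega) hρ h4 hL hM hD hk hS hI hC
  rw [← sRank _ h] at h2
  refine ⟨ι.comp ρ, hρ, ?_⟩
  have h3 : Group.FG (Abelianization (ι.comp ρ).ker) ∧
      20 * g ^ 4 + 36 * g ^ 3 ≤ 6 * Module.finrank ℤ (Additive (Abelianization (ι.comp ρ).ker)) +
        5 * g ^ 2 + 9 * g + 6 := by
    rw [hk']; exact ⟨h, h2⟩
  exact ⟨h3.1, le_antisymm h1 h3.2⟩

end Pool.Agent.MP_00906f_gt.H91
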