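import Pool.Agent.MP_00906f_gt.H91.Spec

/-! Row FIN: from the bound on data to the hyperelliptic Torelli group. -/

namespace Pool.Agent.MP_00906f_gt.H91

open H46 H46.FinAux
open scoped TensorProduct

namespace FIN

/-- The braid relators on `N` generators. -/
def brRels (N : ℕ) : Set (FreeGroup (Fin N)) :=
  {r | (∃ i j : Fin N, i.val + 1 = j.val ∧
          r = .of i * .of j * .of i * (.of j * .of i * .of j)⁻¹) ∨
       (∃ i j : Fin N, i.val + 2 ≤ j.val ∧ r = .of i * .of j * (.of j * .of i)⁻¹)}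

abbrev Br (N : ℕ) : Type := PresentedGroup (brRels N)

def s (N : ℕ) (i : ℕ) : Br N := if h : i < N then PresentedGroup.of ⟨i, h⟩ else 1

theorem s_of {N : ℕ} (i : Fin N) : PresentedGroup.of i = s N i := by simp only [s, dif_pos i.2]

theorem s_bf (N : ℕ) : IsBF (s N) N := by
  refine ⟨fun i hi => ?_, fun i j hij hj => ?_⟩
  · have h := PresentedGroup.one_of_mem (rels := brRels N)
      (Or.inl ⟨⟨i, by omega⟩, ⟨i + 1, hi⟩, rfl, rfl⟩)
    simp only [map_mul, map_inv, mul_inv_eq_one] at h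
    rw [← s_of ⟨i, by omega⟩, ← s_of ⟨i + 1, hi⟩]
    exact h
  · have h := PresentedGroup.one_of_mem (rels := brRels N)
      (Or.inr ⟨⟨i, by omega⟩, ⟨j, hj⟩, hij, rfl⟩)
    simp only [map_mul, map_inv, mul_inv_eq_one] at h
    rw [← s_of ⟨i, by omega⟩, ← s_of ⟨j, hj⟩]
    exact h

theorem s_lift (N : ℕ) (Q : Type) [Group Q] (τ : ℕ → Q) (h : IsBF τ N) :
    ∃ f : Br N →* Q, ∀ i, i < N → f (s N i) = τ i := by
  have hr : ∀ r ∈ brRels N, FreeGroup.lift (fun i : Fin N => τ i) r = 1 := by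
    rintro r (⟨i, j, hij, rfl⟩ | ⟨i, j, hij, rfl⟩)
    · simp only [map_mul, map_inv, FreeGroup.lift_apply_of, mul_inv_eq_one, ← hij]
      exact h.braid i (by omega)
    · simp only [map_mul, map_inv, FreeGroup.lift_apply_of, mul_inv_eq_one]
      exact h.comm i j hij j.2
  exact ⟨PresentedGroup.toGroup hr, fun i hi => by
    rw [← s_of ⟨i, hi⟩, PresentedGroup.toGroup.of]⟩

theorem s_top (N : ℕ) (x : Br N) : x ∈ BB (s N) N :=
  PresentedGroup.generated_by _ _ (fun i => by rw [s_of]; exact mem_BB i.2) x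

theorem swap_bf (N : ℕ) : IsBF (fun i : ℕ => Equiv.swap i (i + 1)) N := by
  refine ⟨fun i _ => Equiv.ext fun x => ?_, fun i j hij _ => Equiv.ext fun x => ?_⟩ <;>
    simp only [Equiv.Perm.mul_apply, Equiv.swap_apply_def] <;> split_ifs <;> omega

theorem up_sq {G : Type*} [Group G] {τ : ℕ → G} {m : ℕ} (h : BH τ (m + 1)) :
    (up (fun i => τ (i + 1)) m ^ (m + 1)) ^ 2 = 1 := by
  have h1 : ∀ k, k < m + 1 → up τ (m + 1) ^ k * τ 0 = τ k * up τ (m + 1) ^ k := by
    intro k hk
    induction k with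
    | zero => simp
    | succ k ih =>
      rw [pow_succ', mul_assoc, ih (by omega), ← mul_assoc, up_conj h.bf (by omega) le_rfl,
        mul_assoc]
  have h2 : ∀ k, k ≤ m + 1 → aa τ k * up (fun i => τ (i + 1)) m ^ k = up τ (m + 1) ^ k := by
    intro k hk
    induction k with
    | zero => simp [aa]
    | succ k ih =>
      rw [aa, pow_succ, mul_assoc, ← mul_assoc (aa τ k), ih (by omega), ← mul_assoc,
        ← h1 k (by omega), mul_assoc, ← up_succ, pow_succ]
  have h3 : up τ (m + 1) * aa τ (m + 1) = (up (fun i => τ (i + 1)) m ^ (m + 1))⁻¹ := by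
    rw [eq_inv_iff_mul_eq_one, mul_assoc, h2 _ le_rfl, ← pow_succ', h.pw]
  have h4 := h.sq
  rwa [h3, inv_pow, inv_eq_one] at h4

theorem map_up {G Q : Type*} [Group G] [Group Q] (f : G →* Q) {σ : ℕ → G} {τ : ℕ → Q} {N : ℕ}
    (h : ∀ i, i < N → f (σ i) = τ i) {j : ℕ} (hj : j ≤ N) : f (up σ j) = up τ j := by
  induction j with
  | zero => simp [up]
  | succ j ih => rw [up, up, map_mul, ih (by omega), h j (by omega)]

theorem up_const {Q : Type*} [Group Q] (x : Q) (j : ℕ) : up (fun _ => x) j = x ^ j := by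
  induction j with
  | zero => simp [up]
  | succ j ih => rw [up, ih, pow_succ]

section mod

variable (K : Type) [Group K]

/-- The rational abelianisation with one more coordinate. -/
abbrev MM : Type := (ℚ ⊗[ℤ] Additive (Abelianization K)) × ℚ

variable {K}

def br (x : K) : ℚ ⊗[ℤ] Additive (Abelianization K) :=
  (1 : ℚ) ⊗ₜ Additive.ofMul (Abelianization.of x)

theorem br_mul (x y : K) : br (x * y) = br x + br y := by
  simp only [br, map_mul, ofMul_mul, TensorProduct.tmul_add]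

theorem br_mem (U : Submodule ℚ (ℚ ⊗[ℤ] Additive (Abelianization K))) (h : ∀ x, br x ∈ U) (v) :
    v ∈ U := by
  induction v with
  | zero => exact zero_mem _
  | add x y hx hy => exact add_mem hx hy
  | tmul a b =>
    obtain ⟨x, hx⟩ : ∃ x, Abelianization.of x = Additive.toMul b := Quot.exists_rep _
    have e : a ⊗ₜ[ℤ] b = a • br x := by
      rw [br, hx, TensorProduct.smul_tmul', smul_eq_mul, mul_one]; rfl
    rw [e]
    exact U.smul_mem _ (h x)

noncomputable def act0 (φ : K →* K) : Module.End ℚ (ℚ ⊗[ℤ] Additive (Abelianization K)) :=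
  (MonoidHom.toAdditive (Abelianization.map φ)).toIntLinearMap.baseChange ℚ

theorem act0_br (φ : K →* K) (x : K) : act0 φ (br x) = br (φ x) := rfl

noncomputable def act : MulAut K →* Module.End ℚ (MM K) where
  toFun φ := LinearMap.prodMap (act0 φ.toMonoidHom) LinearMap.id
  map_one' := by
    refine LinearMap.ext fun v => Prod.ext ?_ rfl
    exact br_mem (LinearMap.eqLocus (act0 (1 : MulAut K).toMonoidHom) LinearMap.id)
      (fun x => act0_br _ x) v.1
  map_mul' φ ψ := by
    refine LinearMap.ext fun v => Prod.ext ?_ rfl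
    exact br_mem (LinearMap.eqLocus (act0 (φ * ψ).toMonoidHom)
      (act0 φ.toMonoidHom ∘ₗ act0 ψ.toMonoidHom)) (fun x => act0_br _ x) v.1

theorem act_br (φ : MulAut K) (x : K) (a : ℚ) : act φ (br x, a) = (br (φ x), a) := rfl

theorem rank_MM [Group.FG (Abelianization K)] :
    Module.Finite ℚ (MM K) ∧
      Module.finrank ℚ (MM K) = Module.finrank ℤ (Additive (Abelianization K)) + 1 := by
  have : Module.Finite ℤ (Additive (Abelianization K)) :=
    Module.Finite.iff_addGroup_fg.2 inferInstance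
  refine ⟨inferInstance, ?_⟩
  rw [Module.finrank_prod, Module.finrank_self,
    (TensorProduct.isBaseChange ℤ (Additive (Abelianization K)) ℚ).finrank_eq]

end mod

end FIN

open FIN

theorem rowFIN : OfFIN := by
  intro hUP g hg ρ hρ
  classical
  obtain ⟨ρ', hρ'⟩ := exists_action g
  have hfg := reduction abstractFG g (by omega) ρ' hρ'
  have hker : ρ.ker = ρ'.ker := by
    let ι : (Hom1 g ≃ₗ[ℤ] Hom1 g) →* Equiv.Perm (Hom1 g) := MulAction.toPermHom _ _
    have hι : Function.Injective ι := fun a b e => LinearEquiv.ext fun x => by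
      exact congrArg (fun f : Equiv.Perm (Hom1 g) => f x) e
    have e : ρ = ι.comp ρ' :=
      PresentedGroup.ext fun i => Equiv.ext fun x => (hρ i x).trans (hρ' i x).symm
    rw [e]
    exact MonoidHom.ker_comp_of_injective ρ' ι hι
  rw [hker]
  change 6 * Module.finrank ℤ (Additive (Abelianization ρ'.ker)) + 5 * g ^ 2 + 9 * g + 6 ≤ _
  let ρ₀ : HypMCG g →* Module.End ℤ (Hom1 g) :=
    LinearEquiv.automorphismGroup.toLinearMapMonoidHom.comp ρ'
  have hk : ∀ x, ρ₀ x = 1 ↔ x ∈ ρ'.ker := fun x =>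
    ⟨fun h => LinearEquiv.ext fun y => LinearMap.congr_fun h y, fun h => by
      simp only [ρ₀, MonoidHom.comp_apply, MonoidHom.mem_ker.1 h, map_one]⟩
  let τ : ℕ → HypMCG g := fun i => if h : i < 2 * g + 1 then PresentedGroup.of ⟨i, h⟩ else 1
  have hτ : ∀ i : Fin (2 * g + 1), PresentedGroup.of i = τ i := fun i => by
    simp only [τ, dif_pos i.2]
  have hB : BH τ (2 * g + 1) :=
    (rels_iff g (PresentedGroup.mk _) τ hτ).1 fun r hr => PresentedGroup.one_of_mem hr
  have h1 : ∀ i, i < 2 * g + 1 → ∀ x, ρ₀ (τ i) x = x + om g x (chain g i) • chain g i :=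
    fun i hi x => by rw [← hτ ⟨i, hi⟩]; exact hρ' ⟨i, hi⟩ x
  have htop : ∀ x, x ∈ BB τ (2 * g + 1) := fun x =>
    PresentedGroup.generated_by _ _ (fun i => by rw [hτ]; exact mem_BB i.2) x
  let S := sys τ hB.bf ρ₀ h1
  obtain ⟨f, hf⟩ := s_lift (2 * g) _ _ S.bf
  obtain ⟨pm, hpm⟩ := s_lift (2 * g) _ _ (swap_bf (2 * g))
  obtain ⟨len, hlen⟩ := s_lift (2 * g) (Multiplicative ℚ) (fun _ => Multiplicative.ofAdd 1)
    ⟨fun _ _ => rfl, fun _ _ _ _ => rfl⟩
  have hmem : ∀ {k}, k ∈ (ρ₀.comp f).ker → f k ∈ ρ'.ker := fun h => (hk _).1 h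
  let cl : Br (2 * g) → MM ρ'.ker := fun k =>
    if h : f k ∈ ρ'.ker then (br ⟨f k, h⟩, Multiplicative.toAdd (len k)) else 0
  have hcl : ∀ k (h : f k ∈ ρ'.ker), cl k = (br ⟨f k, h⟩, Multiplicative.toAdd (len k)) :=
    fun k h => dif_pos h
  have hrange : ∀ x ∈ ρ'.ker, ∃ k, f k = x := fun x hx => by
    have h2 : BB (fun i => τ (i + 1)) (2 * g) ≤ f.range := by
      rw [BB, Subgroup.closure_le]
      rintro _ ⟨i, hi, rfl⟩
      exact ⟨_, hf i hi⟩
    exact h2 (ker_le (by omega) τ hB ρ₀ h1 htop ((hk x).2 hx))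
  have hspan : Submodule.span ℚ (cl '' (ρ₀.comp f).ker) = ⊤ := by
    set U := Submodule.span ℚ (cl '' (ρ₀.comp f).ker)
    have hU : ∀ k (h : f k ∈ ρ'.ker), (br ⟨f k, h⟩, Multiplicative.toAdd (len k)) ∈ U :=
      fun k h => Submodule.subset_span ⟨k, (hk _).2 h, hcl k h⟩
    have hz : f ((up (s (2 * g)) (2 * g) ^ (2 * g + 1)) ^ 2) = 1 := by
      rw [map_pow, map_pow, map_up f hf le_rfl]
      exact up_sq hB
    have h01 : ∀ a : ℚ, ((0, a) : MM ρ'.ker) ∈ U := fun a => by
      have h3 := hU _ (hz ▸ one_mem _)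
      have e1 : br (⟨f ((up (s (2 * g)) (2 * g) ^ (2 * g + 1)) ^ 2), hz ▸ one_mem _⟩ : ρ'.ker)
          = 0 := by
        rw [show (⟨f ((up (s (2 * g)) (2 * g) ^ (2 * g + 1)) ^ 2), hz ▸ one_mem _⟩ : ρ'.ker) = 1
          from Subtype.ext hz]
        simp [br]
      have e2 : Multiplicative.toAdd (len ((up (s (2 * g)) (2 * g) ^ (2 * g + 1)) ^ 2)) ≠ 0 := by
        rw [map_pow len, map_pow len, map_up len hlen le_rfl, up_const]
        simp only [toAdd_pow, toAdd_ofAdd, nsmul_eq_mul]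
        have : (0 : ℚ) < ((2 * g : ℕ) : ℚ) := by exact_mod_cast (by omega : 0 < 2 * g)
        positivity
      rw [e1] at h3
      have h4 := U.smul_mem
        (a / Multiplicative.toAdd (len ((up (s (2 * g)) (2 * g) ^ (2 * g + 1)) ^ 2))) h3
      rwa [Prod.smul_mk, smul_zero, smul_eq_mul, div_mul_cancel₀ _ e2] at h4
    refine Submodule.eq_top_iff'.2 fun v => ?_
    have h5 : ((v.1, 0) : MM ρ'.ker) ∈ U :=
      br_mem (U.comap (LinearMap.inl ℚ _ _)) (fun x => by
        obtain ⟨k, hk'⟩ := hrange x x.2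
        have h6 := sub_mem (hU k (hk' ▸ x.2)) (h01 (Multiplicative.toAdd (len k)))
        rw [show (⟨f k, hk' ▸ x.2⟩ : ρ'.ker) = x from Subtype.ext hk'] at h6
        simpa using h6) v.1
    simpa using add_mem h5 (h01 v.2)
  let D : Dat (Br (2 * g)) (Hom1 g) (MM ρ'.ker) :=
    { N := 2 * g
      σ := s (2 * g)
      c := S.c
      ω := S.ω
      ρ := ρ₀.comp f
      pt := S.pt
      bf := s_bf _
      alt := S.alt
      ch1 := S.ch1
      ch2 := S.ch2
      ρσ := fun i hi x => by rw [MonoidHom.comp_apply, hf i hi]; exact S.ρσ i hi x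
      pt_c := S.pt_c
      hN := even_two_mul g
      h8 := by omega
      hB := s_top _
      hL := mem_of_chain _ fun i hi => Submodule.subset_span ⟨i, hi, rfl⟩
      lift := s_lift _
      perm := pm
      perm_σ := hpm
      π := act.comp (MulAut.conjNormal.comp f)
      cl := cl
      cl_mul := fun a ha b hb => by
        rw [hcl _ (hmem ha), hcl _ (hmem hb), hcl _ (hmem (mul_mem ha hb)), Prod.mk_add_mk,
          ← br_mul, map_mul len, toAdd_mul]
        exact Prod.ext (congrArg br (Subtype.ext (map_mul f a b))) rfl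
      π_cl := fun x k hk' => by
        rw [hcl _ (hmem hk'), hcl _ (hmem (MonoidHom.normal_ker _ |>.conj_mem k hk' x))]
        refine (act_br _ _ _).trans (Prod.ext (congrArg br (Subtype.ext ?_)) ?_)
        · simp
        · simp
      span := hspan
      fin := rank_MM.1 }
  have h := hUP _ _ _ D g rfl
  rw [rank_MM.2] at h
  omega

end Pool.Agent.MP_00906f_gt.H91
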