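import Pool.Agent.MP_00906f_gt.H91.Spec

/-! Basic facts on `π`, `t3`, `t5`. -/

namespace Pool.Agent.MP_00906f_gt.H91

open H46

namespace K1

section braid

variable {G : Type} [Group G] {σ : ℕ → G} {N : ℕ}

theorem par3_comm (h : IsBF σ N) (hN : 2 ≤ N) {g : G} (hg : g ∈ Par σ N 2) :
    T3 σ * g = g * T3 σ := by
  refine comm_closure ?_ hg
  rintro _ ⟨i, ⟨hi, hi2⟩, rfl⟩
  by_cases h2 : i < 2
  · exact (h.T3_comm hN (mem_BB h2)).symm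
  · have c0 : Commute (σ 0) (σ i) := h.comm 0 i (by omega) hi
    have c1 : Commute (σ 1) (σ i) := h.comm 1 i (by omega) hi
    exact ((c0.mul_left c1).pow_left 6).eq

theorem par5_comm (h : IsBF σ N) (hN : 4 ≤ N) {g : G} (hg : g ∈ Par σ N 4) :
    T5 σ * g = g * T5 σ := by
  refine comm_closure ?_ hg
  rintro _ ⟨i, ⟨hi, hi2⟩, rfl⟩
  by_cases h2 : i < 4
  · exact (h.T5_comm hN (mem_BB h2)).symm
  · have c0 : Commute (σ 0) (σ i) := h.comm 0 i (by omega) hi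
    have c1 : Commute (σ 1) (σ i) := h.comm 1 i (by omega) hi
    have c2 : Commute (σ 2) (σ i) := h.comm 2 i (by omega) hi
    have c3 : Commute (σ 3) (σ i) := h.comm 3 i (by omega) hi
    exact ((((c0.mul_left c1).mul_left c2).mul_left c3).pow_left 10).eq

theorem CC_T3 (h : IsBF σ N) (hN : 2 ≤ N) {c : G} (hc : c ∈ CC σ N) : T3 σ * c = c * T3 σ := by
  obtain ⟨h0, h1⟩ := h.CC_comm hN hc
  have c0 : Commute (σ 0) c := h0.symm
  have c1 : Commute (σ 1) c := h1.symm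
  exact ((c0.mul_left c1).pow_left 6).eq

open BW in
theorem D6_comm (h : IsBF σ N) (hN : 5 ≤ N) :
    T5 σ * (σ 0 * σ 1 * σ 2 * σ 3 * σ 4) ^ 6 = (σ 0 * σ 1 * σ 2 * σ 3 * σ 4) ^ 6 * T5 σ := by
  have c0 : Commute (σ 0) ((σ 0 * σ 1 * σ 2 * σ 3 * σ 4) ^ 6) := by
    have := eq_of_test h 5 100000 (g 0 * (g 0 * g 1 * g 2 * g 3 * g 4) ^ 6)
      ((g 0 * g 1 * g 2 * g 3 * g 4) ^ 6 * g 0) hN (by decide +kernel)
    exact this
  have c1 : Commute (σ 1) ((σ 0 * σ 1 * σ 2 * σ 3 * σ 4) ^ 6) := by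
    have := eq_of_test h 5 100000 (g 1 * (g 0 * g 1 * g 2 * g 3 * g 4) ^ 6)
      ((g 0 * g 1 * g 2 * g 3 * g 4) ^ 6 * g 1) hN (by decide +kernel)
    exact this
  have c2 : Commute (σ 2) ((σ 0 * σ 1 * σ 2 * σ 3 * σ 4) ^ 6) := by
    have := eq_of_test h 5 100000 (g 2 * (g 0 * g 1 * g 2 * g 3 * g 4) ^ 6)
      ((g 0 * g 1 * g 2 * g 3 * g 4) ^ 6 * g 2) hN (by decide +kernel)
    exact this
  have c3 : Commute (σ 3) ((σ 0 * σ 1 * σ 2 * σ 3 * σ 4) ^ 6) := by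
    have := eq_of_test h 5 100000 (g 3 * (g 0 * g 1 * g 2 * g 3 * g 4) ^ 6)
      ((g 0 * g 1 * g 2 * g 3 * g 4) ^ 6 * g 3) hN (by decide +kernel)
    exact this
  exact ((((c0.mul_left c1).mul_left c2).mul_left c3).pow_left 10).eq

end braid

section lat

variable {G H : Type} [Group G] [AddCommGroup H] (S : Sys G H)

theorem step3 (h : 3 ≤ S.N) (x : H) (a0 a1 a2 : ℤ) :
    S.ρ (S.σ 0 * S.σ 1 * S.σ 2) (x + a0 • S.c 0 + a1 • S.c 1 + a2 • S.c 2) =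
      x + (a2 + S.ω x (S.c 0) - S.ω x (S.c 1) + S.ω x (S.c 2)) • S.c 0 +
        (a0 - a2 + S.ω x (S.c 1) - S.ω x (S.c 2)) • S.c 1 + (a1 + a2 + S.ω x (S.c 2)) • S.c 2 := by
  have w := fun i j (hi : i < 3) (hj : j < 3) =>
    S.lat_ωcc (i := i) (j := j) (by omega) (by omega)
  rw [S.ρ_mul, S.ρ_mul, S.ρσ 2 (by omega), S.ρσ 1 (by omega), S.ρσ 0 (by omega)]
  simp only [map_add, map_smul, LinearMap.add_apply, LinearMap.smul_apply, smul_eq_mul,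
    w 0 0 (by omega) (by omega), w 0 1 (by omega) (by omega), w 0 2 (by omega) (by omega),
    w 1 0 (by omega) (by omega), w 1 1 (by omega) (by omega), w 1 2 (by omega) (by omega),
    w 2 0 (by omega) (by omega), w 2 1 (by omega) (by omega), w 2 2 (by omega) (by omega)]
  norm_num
  module

theorem ρ_D4 (h : 3 ≤ S.N) (x : H) : S.ρ ((S.σ 0 * S.σ 1 * S.σ 2) ^ 4) x =
    x + (2 * S.ω x (S.c 0 + S.c 2)) • (S.c 0 + S.c 2) := by
  have e : x = x + (0 : ℤ) • S.c 0 + (0 : ℤ) • S.c 1 + (0 : ℤ) • S.c 2 := by simp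
  generalize hd : S.σ 0 * S.σ 1 * S.σ 2 = d
  have st := step3 S h x
  rw [hd] at st
  have e4 : d ^ 4 = d * (d * (d * d)) := by simp only [pow_succ, pow_zero, one_mul, mul_assoc]
  rw [e4, S.ρ_mul, S.ρ_mul, S.ρ_mul]
  conv_lhs => rw [e]
  rw [st, st, st, st, map_add]
  module

theorem one5 (h : 5 ≤ S.N) (x : H) (a0 a1 a2 a3 a4 : ℤ) (i : ℕ) (hi : i < 5) :
    S.ω (x + a0 • S.c 0 + a1 • S.c 1 + a2 • S.c 2 + a3 • S.c 3 + a4 • S.c 4) (S.c i) =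
      S.ω x (S.c i) + ((if i = 1 then a0 else 0) + (if i = 2 then a1 else 0) +
        (if i = 3 then a2 else 0) + (if i = 4 then a3 else 0)) - ((if i = 0 then a1 else 0) +
        (if i = 1 then a2 else 0) + (if i = 2 then a3 else 0) + (if i = 3 then a4 else 0)) := by
  have w := fun j (hj : j < 5) => S.lat_ωcc (i := j) (j := i) (by omega) (by omega)
  simp only [map_add, map_smul, LinearMap.add_apply, LinearMap.smul_apply, smul_eq_mul,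
    w 0 (by omega), w 1 (by omega), w 2 (by omega), w 3 (by omega), w 4 (by omega)]
  interval_cases i <;> norm_num <;> ring

theorem step5 (h : 5 ≤ S.N) (x : H) (a0 a1 a2 a3 a4 : ℤ) :
    S.ρ (S.σ 0 * S.σ 1 * S.σ 2 * S.σ 3 * S.σ 4)
        (x + a0 • S.c 0 + a1 • S.c 1 + a2 • S.c 2 + a3 • S.c 3 + a4 • S.c 4) =
      x + (a4 + S.ω x (S.c 0) - S.ω x (S.c 1) + S.ω x (S.c 2) - S.ω x (S.c 3) +
          S.ω x (S.c 4)) • S.c 0 +
        (a0 - a4 + S.ω x (S.c 1) - S.ω x (S.c 2) + S.ω x (S.c 3) - S.ω x (S.c 4)) • S.c 1 +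
        (a1 + a4 + S.ω x (S.c 2) - S.ω x (S.c 3) + S.ω x (S.c 4)) • S.c 2 +
        (a2 - a4 + S.ω x (S.c 3) - S.ω x (S.c 4)) • S.c 3 + (a3 + a4 + S.ω x (S.c 4)) • S.c 4 := by
  have s4 : ∀ a0 a1 a2 a3 a4 : ℤ, S.ρ (S.σ 4)
      (x + a0 • S.c 0 + a1 • S.c 1 + a2 • S.c 2 + a3 • S.c 3 + a4 • S.c 4) =
      x + a0 • S.c 0 + a1 • S.c 1 + a2 • S.c 2 + a3 • S.c 3 +
        (a4 + S.ω x (S.c 4) + a3) • S.c 4 := by
    intro a0 a1 a2 a3 a4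
    rw [S.ρσ 4 (by omega), one5 S h x _ _ _ _ _ 4 (by omega)]
    norm_num
    module
  have s3 : ∀ a0 a1 a2 a3 a4 : ℤ, S.ρ (S.σ 3)
      (x + a0 • S.c 0 + a1 • S.c 1 + a2 • S.c 2 + a3 • S.c 3 + a4 • S.c 4) =
      x + a0 • S.c 0 + a1 • S.c 1 + a2 • S.c 2 + (a3 + S.ω x (S.c 3) + a2 - a4) • S.c 3 +
        a4 • S.c 4 := by
    intro a0 a1 a2 a3 a4
    rw [S.ρσ 3 (by omega), one5 S h x _ _ _ _ _ 3 (by omega)]
    norm_num
    module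
  have s2 : ∀ a0 a1 a2 a3 a4 : ℤ, S.ρ (S.σ 2)
      (x + a0 • S.c 0 + a1 • S.c 1 + a2 • S.c 2 + a3 • S.c 3 + a4 • S.c 4) =
      x + a0 • S.c 0 + a1 • S.c 1 + (a2 + S.ω x (S.c 2) + a1 - a3) • S.c 2 + a3 • S.c 3 +
        a4 • S.c 4 := by
    intro a0 a1 a2 a3 a4
    rw [S.ρσ 2 (by omega), one5 S h x _ _ _ _ _ 2 (by omega)]
    norm_num
    module
  have s1 : ∀ a0 a1 a2 a3 a4 : ℤ, S.ρ (S.σ 1)
      (x + a0 • S.c 0 + a1 • S.c 1 + a2 • S.c 2 + a3 • S.c 3 + a4 • S.c 4) =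
      x + a0 • S.c 0 + (a1 + S.ω x (S.c 1) + a0 - a2) • S.c 1 + a2 • S.c 2 + a3 • S.c 3 +
        a4 • S.c 4 := by
    intro a0 a1 a2 a3 a4
    rw [S.ρσ 1 (by omega), one5 S h x _ _ _ _ _ 1 (by omega)]
    norm_num
    module
  have s0 : ∀ a0 a1 a2 a3 a4 : ℤ, S.ρ (S.σ 0)
      (x + a0 • S.c 0 + a1 • S.c 1 + a2 • S.c 2 + a3 • S.c 3 + a4 • S.c 4) =
      x + (a0 + S.ω x (S.c 0) - a1) • S.c 0 + a1 • S.c 1 + a2 • S.c 2 + a3 • S.c 3 +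
        a4 • S.c 4 := by
    intro a0 a1 a2 a3 a4
    rw [S.ρσ 0 (by omega), one5 S h x _ _ _ _ _ 0 (by omega)]
    norm_num
    module
  rw [S.ρ_mul, S.ρ_mul, S.ρ_mul, S.ρ_mul, s4, s3, s2, s1, s0]
  module

theorem ρ_D6 (h : 5 ≤ S.N) (x : H) : S.ρ ((S.σ 0 * S.σ 1 * S.σ 2 * S.σ 3 * S.σ 4) ^ 6) x =
    x + (2 * S.ω x (S.c 0 + S.c 2 + S.c 4)) • (S.c 0 + S.c 2 + S.c 4) := by
  have e : x = x + (0 : ℤ) • S.c 0 + (0 : ℤ) • S.c 1 + (0 : ℤ) • S.c 2 + (0 : ℤ) • S.c 3 +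
      (0 : ℤ) • S.c 4 := by simp
  generalize hd : S.σ 0 * S.σ 1 * S.σ 2 * S.σ 3 * S.σ 4 = d
  have st := step5 S h x
  rw [hd] at st
  have e6 : d ^ 6 = d * (d * (d * (d * (d * d)))) := by
    simp only [pow_succ, pow_zero, one_mul, mul_assoc]
  rw [e6, S.ρ_mul, S.ρ_mul, S.ρ_mul, S.ρ_mul, S.ρ_mul]
  conv_lhs => rw [e]
  rw [st, st, st, st, st, st, map_add, map_add]
  module

theorem exists_γ (h2 : 2 ≤ S.N) (y : H) : ∃ γ ∈ BB S.σ 2, S.ω (S.ρ γ (S.c 0)) y = 0 := by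
  by_cases h0 : S.ω (S.c 0) y = 0
  · exact ⟨1, one_mem _, by rw [Sys.ρ_one, h0]⟩
  obtain ⟨a, b, hab, ea, eb⟩ := Int.exists_gcd_one
    (m := S.ω (S.c 0) y) (n := S.ω (S.c 1) y) (Int.gcd_pos_of_ne_zero_left _ h0)
  have hV := (S.trunc 2 h2).V_two_dim rfl b (-a)
    (IsCoprime.neg_right (Int.isCoprime_iff_gcd_eq_one.2 hab).symm)
  obtain ⟨γ, hγ, e⟩ := (Sys.main 1 (S.trunc 2 h2) rfl).1 _ hV
  refine ⟨γ, hγ, ?_⟩
  have e' : PM (S.ρ γ (S.c 0)) (b • S.c 0 + (-a) • S.c 1) := e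
  rw [← abs_eq_zero, S.PM_ω e' (PM.refl y), abs_eq_zero, map_add, map_smul, map_smul,
    LinearMap.add_apply, LinearMap.smul_apply, LinearMap.smul_apply, smul_eq_mul, smul_eq_mul]
  generalize (Int.gcd (S.ω (S.c 0) y) (S.ω (S.c 1) y) : ℤ) = d at ea eb
  rw [ea, eb]; ring

theorem y0_c0 (h2 : 2 ≤ S.N) : S.ρ (yy S.σ 0) (S.c 0) = -S.c 0 := by
  rw [S.ρ_y0 h2, S.Rf_c0 (S.ω01 h2)]

theorem y0_c1 (h2 : 2 ≤ S.N) : S.ρ (yy S.σ 0) (S.c 1) = -S.c 1 := by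
  rw [S.ρ_y0 h2, S.Rf_self (S.ω01 h2)]

end lat

variable {G H M : Type} [Group G] [AddCommGroup H] [AddCommGroup M] [Module ℚ M] (D : Dat G H M)

theorem h2 : 2 ≤ D.N := le_trans (by norm_num) D.h8

theorem mainS : D.toSys.Main := by
  obtain ⟨k, hk⟩ := D.hN
  exact Sys.main k _ (by omega)

theorem cl_one : D.cl 1 = 0 := by
  have := D.cl_mul 1 (one_mem _) 1 (one_mem _)
  rw [mul_one] at this
  exact left_eq_add.1 this

theorem cl_inv (k : G) (hk : k ∈ D.ρ.ker) : D.cl k⁻¹ = -D.cl k := by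
  have := D.cl_mul k hk k⁻¹ (inv_mem hk)
  rw [mul_inv_cancel, cl_one] at this
  exact (neg_eq_of_add_eq_zero_right this.symm).symm

theorem π_ker {k : G} (hk : k ∈ D.ρ.ker) : D.π k = 1 := by
  refine LinearMap.ext_on D.span ?_
  rintro _ ⟨k', hk', rfl⟩
  rw [D.π_cl k k' hk', D.cl_mul _ (mul_mem hk hk') _ (inv_mem hk), D.cl_mul _ hk _ hk',
    cl_inv D k hk]
  simp

theorem π_congr (g g' : G) (h : D.ρ g = D.ρ g') : D.π g = D.π g' := by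
  have hk : g'⁻¹ * g ∈ D.ρ.ker := by
    rw [MonoidHom.mem_ker, map_mul, h, ← map_mul, inv_mul_cancel, map_one]
  have e : g = g' * (g'⁻¹ * g) := by group
  rw [e, map_mul, π_ker D hk, mul_one]

theorem π_comm {g k : G} (hk : k ∈ D.ρ.ker) (h : k * g = g * k) : D.π g (D.cl k) = D.cl k := by
  rw [D.π_cl g k hk, ← h, mul_inv_cancel_right]

theorem T3_ker : T3 D.σ ∈ D.ρ.ker := D.toSys.T3_ker (h2 D)

theorem T5_ker : T5 D.σ ∈ D.ρ.ker :=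
  D.toSys.K0_le_ker (T5_mem (le_trans (by norm_num) D.h8))

theorem par3 (g : G) (hg : g ∈ Par D.σ D.N 2) : D.π g D.t3 = D.t3 :=
  π_comm D (T3_ker D) (par3_comm D.bf (h2 D) hg)

theorem π_mul (a b : G) (m : M) : D.π (a * b) m = D.π a (D.π b m) := by
  rw [map_mul]; rfl

theorem gen : Submodule.span ℚ
    (Set.range (fun g => D.π g D.t3) ∪ Set.range fun g => D.π g D.t5) = ⊤ := by
  rw [eq_top_iff, ← D.span, Submodule.span_le]
  rintro _ ⟨k, hk, rfl⟩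
  have hk0 := (mainS D).2.2 k (D.hB k) hk
  clear hk
  induction hk0 using Subgroup.closure_induction with
  | mem x hx =>
    obtain ⟨g, -, ⟨-, rfl⟩ | ⟨-, rfl⟩⟩ := hx
    · exact Submodule.subset_span (Or.inl ⟨g, D.π_cl g _ (T3_ker D)⟩)
    · exact Submodule.subset_span (Or.inr ⟨g, D.π_cl g _ (T5_ker D)⟩)
  | one =>
    rw [cl_one]
    exact zero_mem _
  | mul x y hx hy ihx ihy =>
    rw [D.cl_mul x (D.toSys.K0_le_ker hx) y (D.toSys.K0_le_ker hy)]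
    exact add_mem ihx ihy
  | inv x hx ih =>
    rw [cl_inv D x (D.toSys.K0_le_ker hx)]
    exact neg_mem ih

theorem MU_π (g : G) (m : M) (hm : m ∈ D.MU) : D.π g m ∈ D.MU := by
  have : D.MU ≤ D.MU.comap (D.π g) := by
    refine Submodule.span_le.2 ?_
    rintro _ ⟨a, rfl⟩
    exact Submodule.subset_span ⟨g * a, π_mul D g a _⟩
  exact this hm

theorem trans (v : H) (hv : D.toSys.V v) : ∃ g, D.ρ g (D.c 0) = v := by
  obtain ⟨b, -, h | h⟩ := (mainS D).1 v hv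
  · exact ⟨b, h⟩
  · exact ⟨b * yy D.σ 0, by rw [D.toSys.ρ_mul, y0_c0 _ (h2 D), map_neg, h, neg_neg]⟩

theorem adj (x y : H) (hx : D.toSys.V x) (hy : D.toSys.V y) (h : D.ω x y = 1) :
    ∃ g, D.ρ g (D.c 0) = x ∧ D.ρ g (D.c 1) = y := by
  obtain ⟨a, ha⟩ := trans D x hx
  have hw := D.toSys.ρ_V (D.hB a⁻¹) hy
  have h1 : D.ω (D.c 0) (D.ρ a⁻¹ y) = 1 := by
    rw [← D.toSys.ρ_ω (D.hB a), D.toSys.ρ_ρ_inv, ha, h]
  obtain ⟨b, hb, e1⟩ := D.toSys.C1 D.hN (h2 D) hw (by rw [h1]; simp)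
  have e0 := D.toSys.Ga_c0 (h2 D) hb
  have e2 := D.toSys.ρ_ω (D.hB b) (D.c 0) (D.c 1)
  rw [D.toSys.ω01 (h2 D)] at e2
  rcases e0 with e0 | e0 <;> rcases e1 with e1 | e1
  · exact ⟨a * b, by rw [D.toSys.ρ_mul, e0, ha], by rw [D.toSys.ρ_mul, e1, D.toSys.ρ_ρ_inv]⟩
  · rw [e0, e1, map_neg, h1] at e2
    omega
  · rw [e0, e1, map_neg, LinearMap.neg_apply, h1] at e2
    omega
  · refine ⟨a * (b * yy D.σ 0), ?_, ?_⟩
    · rw [D.toSys.ρ_mul, D.toSys.ρ_mul, y0_c0 _ (h2 D), map_neg, e0, neg_neg, ha]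
    · rw [D.toSys.ρ_mul, D.toSys.ρ_mul, y0_c1 _ (h2 D), map_neg, e1, neg_neg, D.toSys.ρ_ρ_inv]

theorem BB_le_Par : BB D.σ 2 ≤ Par D.σ D.N 2 :=
  Subgroup.closure_mono (Set.image_mono fun i (hi : i < 2) =>
    ⟨lt_of_lt_of_le hi (h2 D), by omega⟩)

theorem fix {h : G} (h0 : D.ρ h (D.c 0) = D.c 0) (h1 : D.ρ h (D.c 1) = D.c 1) :
    D.π h D.t3 = D.t3 := by
  obtain ⟨k, hk, g, hg, rfl⟩ := D.toSys.J_form (h2 D) ((mainS D).2.1 h (D.hB h) (Or.inl h0))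
  have hk' := D.toSys.K0_le_ker hk
  rw [D.toSys.ρ_mul, D.toSys.ρ_of_ker hk'] at h1
  obtain ⟨l, hl, c, hc, rfl⟩ := D.toSys.C2 D.hN (h2 D) hg (Or.inl h1)
  rw [map_mul, map_mul, π_ker D hk', π_ker D (D.toSys.LL_le_ker hl), one_mul, one_mul]
  exact π_comm D (T3_ker D) (CC_T3 D.bf (h2 D) hc)

theorem twd (g g' : G) (i : ℤ) (h0 : D.ρ g (D.c 0) = D.ρ g' (D.c 0))
    (h1 : D.ρ g (D.c 1) = D.ρ g' (D.c 1) + i • D.ρ g' (D.c 0)) : D.π g D.t3 = D.π g' D.t3 := by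
  have hN := h2 D
  have f := fix D (h := D.σ 0 ^ i * (g'⁻¹ * g)) (by
    rw [D.toSys.ρ_mul, D.toSys.ρ_mul, h0, D.toSys.ρ_inv_ρ, D.toSys.ρσ_zpow (by omega), D.alt]
    simp) (by
    rw [D.toSys.ρ_mul, D.toSys.ρ_mul, h1, map_add, map_smul, D.toSys.ρ_inv_ρ, D.toSys.ρ_inv_ρ,
      D.toSys.ρσ_zpow (by omega)]
    simp only [map_add, map_smul, LinearMap.add_apply, LinearMap.smul_apply, D.alt,
      D.toSys.ω10 hN, smul_eq_mul]
    module)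
  have e : g = g' * (D.σ 0 ^ (-i) * (D.σ 0 ^ i * (g'⁻¹ * g))) := by group
  rw [e, π_mul, π_mul D (D.σ 0 ^ (-i)), f,
    par3 D _ (zpow_mem (BB_le_Par D (mem_BB (by norm_num))) _)]

end K1

open K1 in
theorem rowK1 : OfK1 := by
  intro G H M _ _ _ _ D
  have h8 := D.h8
  exact
    { π_congr := π_congr D
      cl_one := cl_one D
      cl_inv := cl_inv D
      T3_ker := T3_ker D
      T5_ker := T5_ker D
      par3 := par3 D
      par5 := fun g hg => π_comm D (T5_ker D) (par5_comm D.bf (by omega) hg)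
      D4_t3 := π_comm D (T3_ker D) (CC_T3 D.bf (h2 D)
        (Subgroup.subset_closure (Or.inl (Or.inr ⟨by omega, rfl⟩))))
      D6_t5 := π_comm D (T5_ker D) (D6_comm D.bf (by omega))
      ρ_D4 := ρ_D4 D.toSys (by omega)
      ρ_D6 := ρ_D6 D.toSys (by omega)
      gen := gen D
      MU_π := MU_π D
      conjσ := fun g n x => by
        rw [← conj_zpow]
        exact D.toSys.ρ_conj_σ (D.hB g) (by omega) (PM.refl _) n x
      trans := K1.trans D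
      adj := adj D
      gam := fun y => by
        obtain ⟨γ, hγ, e⟩ := exists_γ D.toSys (h2 D) y
        exact ⟨γ, BB_le_Par D hγ, e⟩
      twd := twd D }

end Pool.Agent.MP_00906f_gt.H91
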