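import Pool.Agent.MP_00906f_gt.H91.Spec

/-! The four-point relation. -/

namespace Pool.Agent.MP_00906f_gt.H91

open H46 BW

namespace REL

variable {G H M : Type} [Group G] [AddCommGroup H] [AddCommGroup M] [Module ℚ M] (D : Dat G H M)

abbrev Z5 : Type := ℤ × ℤ × ℤ × ℤ × ℤ

/-- The vector with the given coordinates. -/
def vv (a : Z5) : H :=
  a.1 • D.c 0 + a.2.1 • D.c 1 + a.2.2.1 • D.c 2 + a.2.2.2.1 • D.c 3 + a.2.2.2.2 • D.c 4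

/-- A power of a transvection in coordinates. -/
def tv (i : ℕ) (e : ℤ) (a : Z5) : Z5 :=
  match i with
  | 0 => (a.1 + e * (-a.2.1), a.2)
  | 1 => (a.1, a.2.1 + e * (a.1 - a.2.2.1), a.2.2)
  | 2 => (a.1, a.2.1, a.2.2.1 + e * (a.2.1 - a.2.2.2.1), a.2.2.2)
  | 3 => (a.1, a.2.1, a.2.2.1, a.2.2.2.1 + e * (a.2.2.1 - a.2.2.2.2), a.2.2.2.2)
  | _ => (a.1, a.2.1, a.2.2.1, a.2.2.2.1, a.2.2.2.2 + e * a.2.2.2.1)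

def act : List (ℕ × Bool) → Z5 → Z5
  | [], a => a
  | x :: w, a => tv x.1 (if x.2 then 1 else -1) (act w a)

theorem vv_tv {i : ℕ} (hi : i < 5) (e : ℤ) (a : Z5) :
    vv D a + e • D.ω (vv D a) (D.c i) • D.c i = vv D (tv i e a) := by
  have h8 := D.h8
  have h : ∀ j k, j < 5 → k < 5 → D.ω (D.c j) (D.c k) =
      (if k = j + 1 then 1 else 0) - (if j = k + 1 then 1 else 0) :=
    fun j k hj hk => D.toSys.lat_ωcc (by omega) (by omega)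
  simp only [vv, map_add, map_smul, LinearMap.add_apply, LinearMap.smul_apply,
    h 0 i (by omega) hi, h 1 i (by omega) hi, h 2 i (by omega) hi, h 3 i (by omega) hi,
    h 4 i (by omega) hi, smul_eq_mul]
  interval_cases i <;> simp only [tv] <;> norm_num <;> module

theorem ρ_ev (w : List (ℕ × Bool)) (hw : ∀ x ∈ w, x.1 < 5) (a : Z5) :
    D.ρ (ev D.σ w) (vv D a) = vv D (act w a) := by
  have h8 := D.h8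
  induction w with
  | nil => exact D.toSys.ρ_one _
  | cons x w ih =>
    obtain ⟨i, b⟩ := x
    have hi : i < 5 := hw (i, b) (by simp)
    rw [ev_cons, D.toSys.ρ_mul, ih fun x hx => hw x (List.mem_cons_of_mem _ hx), act,
      ← vv_tv D hi]
    cases b
    · simp only [lt1]
      rw [D.toSys.ρσ_inv (by omega)]
      simp [sub_eq_add_neg]
    · simp only [lt1]
      rw [D.ρσ i (by omega)]
      simp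

/-- The test for `cmp`. -/
def chk (e e' : BW) (i : ℤ) : Bool :=
  (toL e).all (fun x => decide (x.1 < 5)) && (toL e').all (fun x => decide (x.1 < 5)) &&
    decide (act (toL e) (1, 0, 0, 0, 0) = act (toL e') (1, 0, 0, 0, 0)) &&
    decide (act (toL e) (0, 1, 0, 0, 0) = act (toL e') (i, 1, 0, 0, 0))

theorem cmp (K : Kit1 D) (e e' : BW) (i : ℤ) (h : chk e e' i = true) :
    D.π (eval D.σ e) D.t3 = D.π (eval D.σ e') D.t3 := by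
  simp only [chk, Bool.and_eq_true, List.all_eq_true, decide_eq_true_eq] at h
  obtain ⟨⟨⟨h1, h2⟩, h3⟩, h4⟩ := h
  have c0 : D.c 0 = vv D (1, 0, 0, 0, 0) := by simp [vv]
  have c1 : D.c 1 = vv D (0, 1, 0, 0, 0) := by simp [vv]
  have c2 : D.c 1 + i • D.c 0 = vv D (i, 1, 0, 0, 0) := by simp [vv, add_comm]
  refine K.twd _ _ i ?_ ?_
  · rw [← ev_toL, ← ev_toL, c0, ρ_ev D _ h1, ρ_ev D _ h2, h3]
  · rw [← map_smul, ← map_add, c2, ← ev_toL, ← ev_toL, c1, ρ_ev D _ h1, ρ_ev D _ h2, h4]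

theorem key {σ : ℕ → G} {N : ℕ} (h : IsBF σ N) (hN : 5 ≤ N) (q : G)
    (hq : q = T5 σ * (g0 σ * T3 σ * (g0 σ)⁻¹)⁻¹) (c : G → G → G) (hc : ∀ g k, c g k = g * k * g⁻¹) :
    c (σ 2 * σ 3 * σ 4) q * (c (σ 3 * σ 4) q)⁻¹ =
      c (yy σ 1 * yy σ 2 * (σ 4 * σ 3 * σ 2)) (T3 σ) *
      c (yy σ 1 * yy σ 2 * (yy σ 3)⁻¹ * σ 2) (T3 σ) *
      (c (yy σ 1 * yy σ 2 * (yy σ 3)⁻¹ * (yy σ 1)⁻¹ * (yy σ 0)⁻¹ * (yy σ 3)⁻¹ * (σ 3 * σ 2))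
        (T3 σ))⁻¹ *
      (c (yy σ 1 * yy σ 2 * (yy σ 3)⁻¹ * (yy σ 1)⁻¹ * (yy σ 0)⁻¹ * (yy σ 3)⁻¹ * yy σ 2)
        (T3 σ))⁻¹ *
      ((c (yy σ 1 * yy σ 2 * σ 4) q)⁻¹ * c (yy σ 1 * yy σ 2) q) := by
  have e0 : T3 (sh σ) = g0 σ * T3 σ * (g0 σ)⁻¹ := by
    have := eq_of_test h 5 100000 ((g 2 * g 3) ^ 6) (g 1 * g 2 * g 3 * g 0 * g 1 * g 2 * (g 0 * g 1) ^ 6 *
      (g 1 * g 2 * g 3 * g 0 * g 1 * g 2)⁻¹) hN (by decide +kernel)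
    exact this
  have e1 : q = cc σ 0 1 2 := by rw [hq, ← e0, h.cc012 (by omega)]
  have e2 : σ 4 * cc σ 0 1 2 * (σ 4)⁻¹ = cc σ 0 1 3 := by
    have := eq_of_test h 5 1000000 (g 4 * ((Y 0 * Y 1 * Y 2) ^ 2 * (g 0 ^ 8)⁻¹) * (g 4)⁻¹)
      ((Y 0 * Y 1 * Y 3) ^ 2 * (g 0 ^ 8)⁻¹) hN (by decide +kernel)
    exact this
  have e3 : σ 3 * cc σ 0 1 3 * (σ 3)⁻¹ = cc σ 0 2 3 := by
    have := eq_of_test h 5 1000000 (g 3 * ((Y 0 * Y 1 * Y 3) ^ 2 * (g 0 ^ 8)⁻¹) * (g 3)⁻¹)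
      ((Y 0 * Y 2 * Y 3) ^ 2 * (g 0 ^ 8)⁻¹) hN (by decide +kernel)
    exact this
  have e4 : σ 2 * cc σ 0 2 3 * (σ 2)⁻¹ = cc σ 1 2 3 := by
    have := eq_of_test h 5 1000000 (g 2 * ((Y 0 * Y 2 * Y 3) ^ 2 * (g 0 ^ 8)⁻¹) * (g 2)⁻¹)
      ((Y 1 * Y 2 * Y 3) ^ 2 * (g 0 ^ 8)⁻¹) hN (by decide +kernel)
    exact this
  have k0 : Commute (σ 0) (yy σ 0) :=
    eq_of_test h 5 100000 (g 0 * Y 0) (Y 0 * g 0) hN (by decide +kernel)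
  have k1 : Commute (σ 0) (yy σ 1) :=
    eq_of_test h 5 100000 (g 0 * Y 1) (Y 1 * g 0) hN (by decide +kernel)
  have k2 : Commute (σ 0) (yy σ 2) :=
    eq_of_test h 5 100000 (g 0 * Y 2) (Y 2 * g 0) hN (by decide +kernel)
  have k3 : Commute (σ 0) (yy σ 3) :=
    eq_of_test h 5 100000 (g 0 * Y 3) (Y 3 * g 0) hN (by decide +kernel)
  have k4 : Commute (σ 0 ^ 8) (((yy σ 0 * yy σ 1 * yy σ 3) ^ 2)⁻¹ *
      (yy σ 0 * yy σ 1 * yy σ 2) ^ 2) :=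
    ((((k0.mul_right k1).mul_right k3).pow_right 2).inv_right.mul_right
      (((k0.mul_right k1).mul_right k2).pow_right 2)).pow_left 8
  have t0 : T3 σ = yy σ 0 ^ 2 := by simp only [T3, yy]; group
  have t1 : yy σ 1 ^ 2 = σ 2 * T3 σ * (σ 2)⁻¹ := by
    rw [t0, show yy σ 1 = σ 2 * yy σ 0 * (σ 2)⁻¹ from rfl, conj_pow]
  have t2 : yy σ 2 ^ 2 = σ 3 * (σ 2 * T3 σ * (σ 2)⁻¹) * (σ 3)⁻¹ := by
    rw [← t1, show yy σ 2 = σ 3 * yy σ 1 * (σ 3)⁻¹ from rfl, conj_pow]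
  have t3 : yy σ 3 ^ 2 = σ 4 * (σ 3 * (σ 2 * T3 σ * (σ 2)⁻¹) * (σ 3)⁻¹) * (σ 4)⁻¹ := by
    rw [← t2, show yy σ 3 = σ 4 * yy σ 2 * (σ 4)⁻¹ from rfl, conj_pow]
  have s1 : c (σ 2 * σ 3 * σ 4) q * (c (σ 3 * σ 4) q)⁻¹ =
      (yy σ 1 * yy σ 2 * yy σ 3) ^ 2 * ((yy σ 0 * yy σ 2 * yy σ 3) ^ 2)⁻¹ := by
    calc _ = (σ 2 * (σ 3 * (σ 4 * q * (σ 4)⁻¹) * (σ 3)⁻¹) * (σ 2)⁻¹) *
          (σ 3 * (σ 4 * q * (σ 4)⁻¹) * (σ 3)⁻¹)⁻¹ := by simp only [hc]; group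
      _ = _ := by rw [e1, e2, e3, e4]; simp only [cc]; group
  have s2 : (c (yy σ 1 * yy σ 2 * σ 4) q)⁻¹ * c (yy σ 1 * yy σ 2) q =
      yy σ 1 * yy σ 2 * (((yy σ 0 * yy σ 1 * yy σ 2) ^ 2)⁻¹ * (yy σ 0 * yy σ 1 * yy σ 3) ^ 2)⁻¹ *
        (yy σ 1 * yy σ 2)⁻¹ := by
    calc _ = yy σ 1 * yy σ 2 * ((σ 4 * q * (σ 4)⁻¹)⁻¹ * q) * (yy σ 1 * yy σ 2)⁻¹ := by
          simp only [hc]; group
      _ = yy σ 1 * yy σ 2 * (σ 0 ^ 8 * (((yy σ 0 * yy σ 1 * yy σ 3) ^ 2)⁻¹ *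
          (yy σ 0 * yy σ 1 * yy σ 2) ^ 2) * (σ 0 ^ 8)⁻¹) * (yy σ 1 * yy σ 2)⁻¹ := by
          rw [e1, e2]; simp only [cc]; group
      _ = _ := by rw [k4.eq]; group
  rw [s1, s2, adam, t1, t2, t3, ← t0]
  simp only [hc]
  group

end REL

theorem rowREL : OfREL := by
  intro hK G H M _ _ _ _ D
  have K := hK G H M D
  have h8 := D.h8
  have nm := MonoidHom.normal_ker D.ρ
  have c3 : ∀ g, g * T3 D.σ * g⁻¹ ∈ D.ρ.ker := nm.conj_mem _ K.T3_ker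
  have hq : T5 D.σ * (g0 D.σ * T3 D.σ * (g0 D.σ)⁻¹)⁻¹ ∈ D.ρ.ker :=
    mul_mem K.T5_ker (inv_mem (c3 _))
  have cq := nm.conj_mem _ hq
  have v3 : ∀ g, D.cl (g * T3 D.σ * g⁻¹) = D.π g D.t3 := fun g => (D.π_cl g _ K.T3_ker).symm
  have vq : ∀ g, D.cl (g * (T5 D.σ * (g0 D.σ * T3 D.σ * (g0 D.σ)⁻¹)⁻¹) * g⁻¹) =
      D.π g D.t5 - D.π (g * g0 D.σ) D.t3 := by
    intro g
    rw [← D.π_cl g _ hq, D.cl_mul _ K.T5_ker _ (inv_mem (c3 _)), K.cl_inv _ (c3 _), v3, map_add,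
      map_neg, map_mul D.π g, ← sub_eq_add_neg]
    rfl
  have h := congrArg D.cl (REL.key D.bf (by omega) _ rfl (fun g k => g * k * g⁻¹) fun _ _ => rfl)
  rw [D.cl_mul _ (cq _) _ (inv_mem (cq _)),
    D.cl_mul _ (mul_mem (mul_mem (mul_mem (c3 _) (c3 _)) (inv_mem (c3 _))) (inv_mem (c3 _))) _
      (mul_mem (inv_mem (cq _)) (cq _)),
    D.cl_mul _ (mul_mem (mul_mem (c3 _) (c3 _)) (inv_mem (c3 _))) _ (inv_mem (c3 _)),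
    D.cl_mul _ (mul_mem (c3 _) (c3 _)) _ (inv_mem (c3 _)), D.cl_mul _ (c3 _) _ (c3 _),
    D.cl_mul _ (inv_mem (cq _)) _ (cq _), K.cl_inv _ (cq _), K.cl_inv _ (cq _),
    K.cl_inv _ (c3 _), K.cl_inv _ (c3 _)] at h
  simp only [v3, vq] at h
  have y0 : ∀ g, D.π (g * yy D.σ 0) D.t3 = D.π g D.t3 := by
    intro g
    rw [map_mul, Module.End.mul_apply, K.par3]
    have m : ∀ i, i < 2 → D.σ i ∈ Par D.σ D.N 2 := fun i hi =>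
      Subgroup.subset_closure ⟨i, ⟨by omega, by omega⟩, rfl⟩
    exact pow_mem (mul_mem (m 0 (by omega)) (m 1 (by omega))) 3
  have a1 : D.π (yy D.σ 1 * yy D.σ 2 * (D.σ 4 * D.σ 3 * D.σ 2)) D.t3 = D.π (w3 D.σ) D.t3 :=
    REL.cmp D K (Y 1 * Y 2 * (g 4 * g 3 * g 2)) ((g 4)⁻¹ * (g 3)⁻¹ * g 2) (-4) (by decide +kernel)
  have a2 : D.π (yy D.σ 1 * yy D.σ 2 * (yy D.σ 3)⁻¹ * D.σ 2 * yy D.σ 0) D.t3 =
      D.π (w1 D.σ) D.t3 :=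
    REL.cmp D K (Y 1 * Y 2 * (Y 3)⁻¹ * g 2 * Y 0)
      ((g 3)⁻¹ * (g 4)⁻¹ * (g 4)⁻¹ * (g 3)⁻¹ * g 2) (-4) (by decide +kernel)
  have a3 : D.π (yy D.σ 1 * yy D.σ 2 * (yy D.σ 3)⁻¹ * (yy D.σ 1)⁻¹ * (yy D.σ 0)⁻¹ *
      (yy D.σ 3)⁻¹ * (D.σ 3 * D.σ 2)) D.t3 = D.π (w2 D.σ) D.t3 :=
    REL.cmp D K (Y 1 * Y 2 * (Y 3)⁻¹ * (Y 1)⁻¹ * (Y 0)⁻¹ * (Y 3)⁻¹ * (g 3 * g 2))
      (g 3 * (g 2)⁻¹) (-2) (by decide +kernel)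
  have a4 : D.π (yy D.σ 1 * yy D.σ 2 * (yy D.σ 3)⁻¹ * (yy D.σ 1)⁻¹ * (yy D.σ 0)⁻¹ *
      (yy D.σ 3)⁻¹ * yy D.σ 2 * yy D.σ 0) D.t3 = D.π 1 D.t3 :=
    REL.cmp D K (Y 1 * Y 2 * (Y 3)⁻¹ * (Y 1)⁻¹ * (Y 0)⁻¹ * (Y 3)⁻¹ * Y 2 * Y 0) BW.one 0
      (by decide +kernel)
  rw [y0] at a2 a4
  rw [map_one, Module.End.one_apply] at a4
  rw [a1, a2, a3, a4] at h
  unfold Rel
  linear_combination (norm := module) h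

end Pool.Agent.MP_00906f_gt.H91
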