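import Pool.Agent.MP_00906f_gt.H91.Spec

/-! The bilinear extension of the logarithms of the fourth powers of the twists. -/

namespace Pool.Agent.MP_00906f_gt.H91

open H46 IsNilpotent
open scoped TensorProduct

namespace BIL

section comm

variable {M : Type} [AddCommGroup M] [Module ℚ M]

/-- The diagonal action on three copies. -/
def dg3 : Module.End ℚ M →+* Module.End ℚ (M × M × M) :=
  (LinearMap.prodMapRingHom ℚ M (M × M)).comp ((RingHom.id _).prod
    ((LinearMap.prodMapRingHom ℚ M M).comp ((RingHom.id _).prod (RingHom.id _))))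

theorem dg3_apply (a : Module.End ℚ M) (m : M × M × M) :
    dg3 a m = (a m.1, a m.2.1, a m.2.2) := rfl

/-- The shift on three copies. -/
def sf3 : Module.End ℚ (M × M × M) :=
  (0 : M × M × M →ₗ[ℚ] M).prod ((LinearMap.fst ℚ M (M × M)).prod
    ((2 : ℚ) • (LinearMap.fst ℚ M M).comp (LinearMap.snd ℚ M (M × M))))

theorem sf3_apply (m : M × M × M) : sf3 m = (0, m.1, (2 : ℚ) • m.2.1) := rfl

theorem sf3_cube : (sf3 : Module.End ℚ (M × M × M)) ^ 3 = 0 := by
  refine LinearMap.ext fun m => ?_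
  simp [_root_.pow_succ, sf3_apply]

theorem exp_sf3 (m : M × M × M) :
    exp (sf3 : Module.End ℚ (M × M × M)) m = (m.1, m.2.1 + m.1, m.2.2 + (2 : ℚ) • m.2.1 + m.1) := by
  rw [exp_eq_sum sf3_cube]
  simp only [Finset.sum_range_succ, Finset.sum_range_zero, LinearMap.add_apply,
    LinearMap.smul_apply, _root_.pow_succ, pow_zero, Module.End.mul_apply, Module.End.one_apply,
    sf3_apply, LinearMap.zero_apply, Nat.factorial]
  refine Prod.ext ?_ (Prod.ext ?_ ?_)
  · simp
  · simp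
  · simp only [Prod.snd_add, Prod.smul_snd, Prod.snd_zero]
    norm_num
    module

theorem comm_of_exp (hL : Log) (Y Z0 Z1 Z2 : Module.End ℚ M) (hY : IsNilpotent Y)
    (h0 : exp Y * Z0 = (Z0 + Z1 + Z2) * exp Y) (h1 : exp Y * Z1 = (Z1 + (2 : ℚ) • Z2) * exp Y)
    (h2 : exp Y * Z2 = Z2 * exp Y) : Y * Z0 - Z0 * Y = Z1 := by
  let φ : M × M × M →ₗ[ℚ] M := Z0.coprod (Z1.coprod Z2)
  have hφ : ∀ m, φ m = Z0 m.1 + (Z1 m.2.1 + Z2 m.2.2) := fun _ => rfl
  have hc : Commute (dg3 Y) (sf3 : Module.End ℚ (M × M × M)) := by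
    refine LinearMap.ext fun m => ?_
    simp [dg3_apply, sf3_apply]
  have hd : IsNilpotent (dg3 Y) := hY.map dg3
  have hs : IsNilpotent (sf3 : Module.End ℚ (M × M × M)) := ⟨3, sf3_cube⟩
  have key := hL.tw _ _ φ (dg3 Y + sf3) Y (hc.isNilpotent_add hd hs) hY (by
    rw [exp_add_of_commute hc hd hs, ← map_exp hY dg3]
    refine LinearMap.ext fun m => ?_
    have e0 := LinearMap.congr_fun h0 m.1
    have e1 := LinearMap.congr_fun h1 m.2.1
    have e2 := LinearMap.congr_fun h2 m.2.2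
    simp only [Module.End.mul_apply, LinearMap.add_apply, LinearMap.smul_apply] at e0 e1 e2
    simp only [LinearMap.comp_apply, Module.End.mul_apply, exp_sf3, dg3_apply, hφ, map_add,
      map_smul, e0, e1, e2]
    module)
  refine LinearMap.ext fun m => ?_
  have e := LinearMap.congr_fun key (m, 0, 0)
  simp only [LinearMap.comp_apply, LinearMap.add_apply, dg3_apply, sf3_apply, hφ, map_zero,
    add_zero, smul_zero, Prod.mk_add_mk, zero_add] at e
  simp only [LinearMap.sub_apply, Module.End.mul_apply, ← e]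
  abel

end comm

variable {G H M : Type} [Group G] [AddCommGroup H] [AddCommGroup M] [Module ℚ M] {D : Dat G H M}

theorem π_inv (D : Dat G H M) (g : G) : D.π g * D.π g⁻¹ = 1 := by
  rw [← map_mul, mul_inv_cancel, map_one]

theorem π_cancel (D : Dat G H M) (g : G) {a b : Module.End ℚ M} (h : a * D.π g = b * D.π g) :
    a = b := by
  rw [← mul_one a, ← mul_one b, ← π_inv D g, ← mul_assoc, h, mul_assoc]

theorem ρ_four (K : Kit1 D) (g : G) (x : H) :
    D.ρ (g * D.σ 0 ^ 4 * g⁻¹) x = x + (4 * D.ω x (D.ρ g (D.c 0))) • D.ρ g (D.c 0) := by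
  have := K.conjσ g 4 x
  rwa [zpow_ofNat] at this

/-- The logarithms. -/
structure Lg (D : Dat G H M) (Y : H → Module.End ℚ M) : Prop where
  nil : ∀ v, IsNilpotent (Y v)
  out : ∀ v, ¬ D.toSys.V v → Y v = 0
  ex : ∀ v g, (D.ρ g (D.c 0) = v ∨ D.ρ g (D.c 0) = -v) → exp (Y v) = D.π (g * D.σ 0 ^ 4 * g⁻¹)

theorem V_c (D : Dat G H M) {i : ℕ} (hi : i < D.N) : D.toSys.V (D.c i) := D.toSys.V_c D.hN hi

theorem V_ρ (D : Dat G H M) (g : G) {v : H} (hv : D.toSys.V v) : D.toSys.V (D.ρ g v) :=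
  D.toSys.ρ_V (D.hB g) hv

theorem exists_lg (K : Kit1 D) (hL : Log) (hU : Unip D) : ∃ Y, Lg D Y := by
  have h8 := D.h8
  have key : ∀ v, ∃ y : Module.End ℚ M, IsNilpotent y ∧ (¬ D.toSys.V v → y = 0) ∧
      ∀ g, (D.ρ g (D.c 0) = v ∨ D.ρ g (D.c 0) = -v) → exp y = D.π (g * D.σ 0 ^ 4 * g⁻¹) := by
    intro v
    by_cases hv : D.toSys.V v
    · obtain ⟨g0, hg0⟩ := K.trans v hv
      have hn : IsNilpotent (D.π (g0 * D.σ 0 ^ 4 * g0⁻¹) - 1) := by
        obtain ⟨k, hk⟩ := hU
        refine ⟨k, ?_⟩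
        have e : D.π (g0 * D.σ 0 ^ 4 * g0⁻¹) - 1 =
            D.π g0 * (D.π (D.σ 0 ^ 4) - 1) * D.π g0⁻¹ := by
          rw [map_mul, map_mul, mul_sub, sub_mul, mul_one, π_inv]
        have e2 : ∀ j : ℕ, (D.π g0 * (D.π (D.σ 0 ^ 4) - 1) * D.π g0⁻¹) ^ j * D.π g0 =
            D.π g0 * (D.π (D.σ 0 ^ 4) - 1) ^ j := by
          generalize D.π (D.σ 0 ^ 4) - 1 = t
          intro j
          induction j with
          | zero => simp
          | succ j ih =>
            rw [pow_succ', mul_assoc, ih, mul_assoc, ← mul_assoc (D.π g0⁻¹), ← map_mul,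
              inv_mul_cancel, map_one, one_mul, pow_succ', mul_assoc]
        refine π_cancel D g0 ?_
        rw [e, e2, hk, mul_zero, zero_mul]
      obtain ⟨y, hy, hy'⟩ := hL.ex M _ hn
      refine ⟨y, hy, fun h => (h hv).elim, fun g hg => ?_⟩
      rw [hy']
      refine K.π_congr _ _ (LinearMap.ext fun x => ?_)
      rw [ρ_four K, ρ_four K, hg0]
      rcases hg with hg | hg <;> rw [hg]
      simp
    · refine ⟨0, IsNilpotent.zero, fun _ => rfl, fun g hg => (hv ?_).elim⟩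
      have h1 := V_ρ D g (V_c D (i := 0) (by omega))
      rcases hg with hg | hg
      · rwa [hg] at h1
      · have h2 := D.toSys.V_neg h1
        rwa [hg, neg_neg] at h2
  choose Y h1 h2 h3 using key
  exact ⟨Y, h1, h2, h3⟩

variable {Y : H → Module.End ℚ M}

theorem Lg.zero (h : Lg D Y) : Y 0 = 0 := by
  refine h.out 0 ?_
  rintro ⟨-, ⟨y, -, hy⟩, -⟩
  simp at hy

theorem Lg.neg (h : Lg D Y) (K : Kit1 D) (hL : Log) (v : H) : Y (-v) = Y v := by
  by_cases hv : D.toSys.V v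
  · obtain ⟨g, hg⟩ := K.trans v hv
    refine hL.inj M _ _ (h.nil _) (h.nil _) ?_
    rw [h.ex v g (Or.inl hg), h.ex (-v) g (Or.inr (by rw [hg, neg_neg]))]
  · rw [h.out v hv, h.out]
    intro h1
    have h2 := D.toSys.V_neg h1
    rw [neg_neg] at h2
    exact hv h2

theorem Lg.conj (h : Lg D Y) (K : Kit1 D) (hL : Log) (k : G) {v : H} (hv : D.toSys.V v) :
    D.π k * Y v = Y (D.ρ k v) * D.π k := by
  obtain ⟨g, hg⟩ := K.trans v hv
  refine hL.tw M M (D.π k) _ _ (h.nil _) (h.nil _) ?_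
  rw [h.ex v g (Or.inl hg), h.ex (D.ρ k v) (k * g) (Or.inl (by rw [D.toSys.ρ_mul, hg]))]
  change D.π k * D.π _ = D.π _ * D.π k
  rw [← map_mul, ← map_mul]
  refine congrArg D.π ?_
  group

theorem Lg.par1 (h : Lg D Y) (K : Kit1 D) (hL : Log) (hP : Par4 D) {x y : H} (hx : D.toSys.V x)
    (hy : D.toSys.V y) (hxy : D.ω x y = 1) :
    Y (x + y) + Y (x - y) = (2 : ℚ) • Y x + (2 : ℚ) • Y y := by
  have h8 := D.h8
  have h01 : D.ω (D.c 0) (D.c 1) = 1 := D.ch1 0 (by omega)
  have e2 : D.ρ (D.σ 1) (D.c 0) = D.c 0 + D.c 1 := by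
    rw [D.ρσ 1 (by omega), h01, one_smul]
  have e3 : D.ρ (D.σ 1)⁻¹ (D.c 0) = D.c 0 - D.c 1 := by
    rw [D.toSys.ρσ_inv (by omega), h01, one_smul]
  have base := hP (Y (D.c 0)) (Y (D.c 1)) (Y (D.c 0 + D.c 1)) (Y (D.c 0 - D.c 1)) (h.nil _)
    (h.nil _) (h.nil _) (h.nil _)
    (by rw [h.ex _ 1 (Or.inl (D.toSys.ρ_one _))]; simp)
    (by
      have e := D.toSys.ρ_δ_c0 (by omega)
      rw [h.ex _ _ (Or.inl e)]
      refine K.π_congr _ _ (LinearMap.ext fun z => ?_)
      have e' := D.toSys.ρσ_zpow (i := 1) (by omega) 4 z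
      rw [zpow_ofNat] at e'
      rw [ρ_four K, e, e'])
    (h.ex _ _ (Or.inl e2))
    (by rw [h.ex _ _ (Or.inl e3), inv_inv])
  obtain ⟨g, hg0, hg1⟩ := K.adj x y hx hy hxy
  have v0 := V_c D (i := 0) (by omega)
  have v1 := V_c D (i := 1) (by omega)
  have c0 := h.conj K hL g v0
  have c1 := h.conj K hL g v1
  have c2 := h.conj K hL g (e2 ▸ V_ρ D (D.σ 1) v0)
  have c3 := h.conj K hL g (e3 ▸ V_ρ D (D.σ 1)⁻¹ v0)
  rw [map_add, hg0, hg1] at c2
  rw [map_sub, hg0, hg1] at c3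
  rw [hg0] at c0
  rw [hg1] at c1
  refine π_cancel D g ?_
  rw [add_mul, add_mul, smul_mul_assoc, smul_mul_assoc, ← c0, ← c1, ← c2, ← c3, ← mul_add, base,
    mul_add, mul_smul_comm, mul_smul_comm]

theorem Lg.par (h : Lg D Y) (K : Kit1 D) (hL : Log) (hP : Par4 D) {x y : H} (hx : D.toSys.V x)
    (hy : D.toSys.V y) (hxy : D.ω x y = 1 ∨ D.ω x y = -1) :
    Y (x + y) + Y (x - y) = (2 : ℚ) • Y x + (2 : ℚ) • Y y := by
  rcases hxy with hxy | hxy
  · exact h.par1 K hL hP hx hy hxy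
  · have := h.par1 K hL hP hy hx (by rw [D.toSys.skew, hxy, neg_neg])
    rw [← h.neg K hL (y - x), neg_sub, add_comm y x] at this
    rw [this, add_comm]

/-- The initial sums of the chain. -/
def ff (D : Dat G H M) : ℕ → H
  | 0 => 0
  | j + 1 => ff D j + D.c j

theorem ω_ff (D : Dat G H M) {j k : ℕ} (hj : j ≤ D.N) (hk : k < D.N) :
    D.ω (ff D j) (D.c k) = (if k = j ∨ k + 1 = j then 1 else 0) - (if k = 0 then 1 else 0) := by
  induction j with
  | zero =>
    simp only [ff, map_zero, LinearMap.zero_apply]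
    by_cases h : k = 0 <;> simp [h]
  | succ j ih =>
    rw [ff, map_add, LinearMap.add_apply, ih (by omega), D.toSys.lat_ωcc (by omega) hk]
    split_ifs <;> omega

theorem ω_e (D : Dat G H M) {i j k : ℕ} (hi : i ≤ D.N) (hj : j ≤ D.N) (hk : k < D.N) :
    D.ω (ff D j - ff D i) (D.c k) =
      (if k = j ∨ k + 1 = j then 1 else 0) - (if k = i ∨ k + 1 = i then 1 else 0) := by
  rw [map_sub, LinearMap.sub_apply, ω_ff D hi hk, ω_ff D hj hk]
  ring

theorem V_e (D : Dat G H M) {i j : ℕ} (hij : i < j) (hj : j ≤ D.N) :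
    D.toSys.V (ff D j - ff D i) := by
  induction j with
  | zero => omega
  | succ j ih =>
    by_cases h : i = j
    · subst h
      rw [ff, add_sub_cancel_left]
      exact V_c D (by omega)
    · have h1 := D.toSys.V_add (V_c D (i := j) (by omega)) (ih (by omega) (by omega)) (by
        rw [D.toSys.skew, abs_neg, ω_e D (by omega) (by omega) (by omega)]
        split_ifs <;> first | rfl | omega)
      rwa [ff, add_sub_right_comm]

/-- A rational form of the lattice. -/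
structure Rt (D : Dat G H M) (E : Type) [AddCommGroup E] [Module ℚ E] where
  ι : H →+ E
  w : E →ₗ[ℚ] E →ₗ[ℚ] ℚ
  r : G →* Module.End ℚ E
  w_ι : ∀ x y, w (ι x) (ι y) = (D.ω x y : ℚ)
  top : Submodule.span ℚ (Set.range ι) = ⊤
  r_ι : ∀ g x, r g (ι x) = ι (D.ρ g x)

variable {E : Type} [AddCommGroup E] [Module ℚ E] (R : Rt D E)

theorem Rt.ext1 {Z : Type} [AddCommGroup Z] [Module ℚ Z] {φ ψ : E →ₗ[ℚ] Z}
    (h : ∀ x, φ (R.ι x) = ψ (R.ι x)) : φ = ψ :=
  LinearMap.ext_on_range R.top h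

theorem Rt.extc {Z : Type} [AddCommGroup Z] [Module ℚ Z] {φ ψ : E →ₗ[ℚ] Z}
    (h : ∀ i, i < D.N → φ (R.ι (D.c i)) = ψ (R.ι (D.c i))) : φ = ψ := by
  refine R.ext1 fun x => ?_
  refine D.toSys.lat_ind (P := fun x => φ (R.ι x) = ψ (R.ι x)) h (by simp) ?_ ?_ (D.hL x)
  · intro a b _ _ ha hb
    simp only [map_add, ha, hb]
  · intro n a _ ha
    simp only [map_zsmul, ha]

theorem Rt.extf {Z : Type} [AddCommGroup Z] [Module ℚ Z] {φ ψ : E →ₗ[ℚ] Z}
    (h : ∀ i, i ≤ D.N → φ (R.ι (ff D i)) = ψ (R.ι (ff D i))) : φ = ψ := by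
  refine R.extc fun i hi => ?_
  have h1 := h (i + 1) hi
  simp only [ff, map_add, h i hi.le] at h1
  exact add_left_cancel h1

theorem Rt.ext2 {Z : Type} [AddCommGroup Z] [Module ℚ Z] {P : E →ₗ[ℚ] E →ₗ[ℚ] Z}
    (hs : ∀ a b, P a b = P b a)
    (h : ∀ i j, i < j → j ≤ D.N →
      P (R.ι (ff D j - ff D i)) (R.ι (ff D j - ff D i)) = 0) : ∀ a b, P a b = 0 := by
  have h1 : ∀ i, i ≤ D.N → P (R.ι (ff D i)) (R.ι (ff D i)) = 0 := by
    intro i hi
    rcases Nat.eq_zero_or_pos i with rfl | h0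
    · simp [ff]
    · simpa [ff] using h 0 i h0 hi
  have h2 : ∀ i j, i < j → j ≤ D.N → P (R.ι (ff D i)) (R.ι (ff D j)) = 0 := by
    intro i j hij hj
    have e := h i j hij hj
    simp only [map_sub, LinearMap.sub_apply, h1 j hj, h1 i (by omega)] at e
    rw [hs (R.ι (ff D j))] at e
    have e' : (2 : ℚ) • P (R.ι (ff D i)) (R.ι (ff D j)) = 0 := by
      rw [two_smul, ← neg_eq_zero, ← e]
      abel
    exact (smul_eq_zero.1 e').resolve_left two_ne_zero
  have h3 : P = 0 := by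
    refine R.extf fun i hi => R.extf fun j hj => ?_
    change _ = (0 : Z)
    rcases lt_trichotomy i j with h4 | rfl | h4
    · exact h2 i j h4 hj
    · exact h1 i hi
    · rw [hs]
      exact h2 j i h4 hi
  intro a b
  rw [h3]
  rfl

theorem exists_dual (D : Dat G H M) : ∃ d : ℕ → H, ∀ i, i < D.N → ∀ j, j < D.N →
    D.ω (D.c j) (d i) = if j = i then 1 else 0 := by
  have : ∀ i, ∃ d : H, i < D.N → ∀ j, j < D.N → D.ω (D.c j) d = if j = i then 1 else 0 := by
    intro i
    by_cases hi : i < D.N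
    · obtain ⟨d, -, hd⟩ := D.toSys.lat_dual D.hN hi
      exact ⟨d, fun _ => hd⟩
    · exact ⟨0, fun h => (hi h).elim⟩
  choose d hd using this
  exact ⟨d, hd⟩

theorem Rt.mkc {Z : Type} [AddCommGroup Z] [Module ℚ Z] {d : ℕ → H}
    (hd : ∀ i, i < D.N → ∀ j, j < D.N → D.ω (D.c j) (d i) = if j = i then 1 else 0) (z : ℕ → Z)
    {k : ℕ} (hk : k < D.N) :
    (∑ i ∈ Finset.range D.N, (R.w.flip (R.ι (d i))).smulRight (z i)) (R.ι (D.c k)) = z k := by
  rw [LinearMap.sum_apply, Finset.sum_eq_single k]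
  · simp [R.w_ι, hd k hk k hk]
  · intro i hi hik
    simp [R.w_ι, hd i (Finset.mem_range.1 hi) k hk, hik.symm]
  · intro h
    exact (h (Finset.mem_range.2 hk)).elim

theorem Rt.mkf {Z : Type} [AddCommGroup Z] [Module ℚ Z] (z : ℕ → Z) (h0 : z 0 = 0) :
    ∃ φ : E →ₗ[ℚ] Z, ∀ i, i ≤ D.N → φ (R.ι (ff D i)) = z i := by
  obtain ⟨d, hd⟩ := exists_dual D
  refine ⟨∑ i ∈ Finset.range D.N, (R.w.flip (R.ι (d i))).smulRight (z (i + 1) - z i),
    fun i hi => ?_⟩
  induction i with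
  | zero => rw [ff, map_zero, map_zero, h0]
  | succ i ih =>
    rw [ff, map_add, map_add, ih (by omega), R.mkc hd (fun i => z (i + 1) - z i) hi]
    abel

theorem Rt.nd (x : E) (hx : x ≠ 0) : ∃ y, R.w x y = 1 := by
  obtain ⟨d, hd⟩ := exists_dual D
  have e : ∑ i ∈ Finset.range D.N, (R.w.flip (R.ι (d i))).smulRight (R.ι (D.c i)) =
      LinearMap.id := R.extc fun k hk => R.mkc hd (fun i => R.ι (D.c i)) hk
  by_contra hne
  apply hx
  have e' := LinearMap.congr_fun e x
  rw [LinearMap.id_apply, LinearMap.sum_apply] at e'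
  rw [← e']
  refine Finset.sum_eq_zero fun i _ => ?_
  have h0 : R.w x (R.ι (d i)) = 0 := by
    by_contra h1
    exact hne ⟨(R.w x (R.ι (d i)))⁻¹ • R.ι (d i), by rw [map_smul, smul_eq_mul, inv_mul_cancel₀ h1]⟩
  simp [h0]

theorem Rt.alt (x : E) : R.w x x = 0 := by
  have e : R.w + R.w.flip = 0 := by
    refine R.ext1 fun a => R.ext1 fun b => ?_
    simp only [LinearMap.add_apply, LinearMap.flip_apply, R.w_ι, LinearMap.zero_apply]
    rw [D.toSys.skew a b]
    simp
  have e' := LinearMap.congr_fun (LinearMap.congr_fun e x) x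
  simp only [LinearMap.add_apply, LinearMap.flip_apply, LinearMap.zero_apply] at e'
  linarith

theorem Rt.exB (h : Lg D Y) (K : Kit1 D) (hL : Log) :
    ∃ B : E →ₗ[ℚ] E →ₗ[ℚ] Module.End ℚ M, (∀ a b, B a b = B b a) ∧
      ∀ i j, i ≤ D.N → j ≤ D.N → (2 : ℚ) • B (R.ι (ff D j - ff D i)) (R.ι (ff D j - ff D i)) =
        Y (ff D j - ff D i) := by
  let β : ℕ → ℕ → Module.End ℚ M := fun i j =>
    (1 / 4 : ℚ) • (Y (ff D i) + Y (ff D j) - Y (ff D j - ff D i))
  have βs : ∀ i j, β i j = β j i := by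
    intro i j
    simp only [β]
    rw [← h.neg K hL (ff D j - ff D i), neg_sub, add_comm]
  have β0 : ∀ j, β 0 j = 0 := by
    intro j
    simp [β, ff, h.zero]
  have h1 : ∀ i, ∃ φ : E →ₗ[ℚ] Module.End ℚ M, ∀ j, j ≤ D.N → φ (R.ι (ff D j)) = β i j :=
    fun i => R.mkf (β i) (by rw [βs, β0])
  choose φ hφ using h1
  obtain ⟨B, hB⟩ := R.mkf φ (R.extf fun j hj => by rw [hφ 0 j hj, β0]; rfl)
  have hB' : ∀ i j, i ≤ D.N → j ≤ D.N → B (R.ι (ff D i)) (R.ι (ff D j)) = β i j :=
    fun i j hi hj => by rw [hB i hi, hφ i j hj]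
  refine ⟨B, fun a b => ?_, fun i j hi hj => ?_⟩
  · have e : B = B.flip := R.extf fun i hi => R.extf fun j hj => by
      rw [LinearMap.flip_apply, hB' i j hi hj, hB' j i hj hi, βs]
    exact LinearMap.congr_fun (LinearMap.congr_fun e a) b
  · simp only [map_sub, LinearMap.sub_apply]
    rw [hB' j j hj hj, hB' j i hj hi, hB' i j hi hj, hB' i i hi hi, βs j i]
    simp only [β, sub_self, h.zero]
    module

theorem Rt.eqv (h : Lg D Y) (K : Kit1 D) (hL : Log) (hP : Par4 D)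
    {B : E →ₗ[ℚ] E →ₗ[ℚ] Module.End ℚ M} (hs : ∀ a b, B a b = B b a)
    (hB : ∀ i j, i ≤ D.N → j ≤ D.N →
      (2 : ℚ) • B (R.ι (ff D j - ff D i)) (R.ι (ff D j - ff D i)) = Y (ff D j - ff D i))
    (g : G) : ∀ a b, D.π g * B a b = B (R.r g a) (R.r g b) * D.π g := by
  let Gd : H → Prop := fun v => (2 : ℚ) • B (R.ι v) (R.ι v) = Y v
  have par : ∀ x y, D.toSys.V x → D.toSys.V y → (D.ω x y = 1 ∨ D.ω x y = -1) → Gd x → Gd y →
      (Gd (x + y) ↔ Gd (x - y)) := by
    intro x y hx hy hxy gx gy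
    have e := h.par K hL hP hx hy hxy
    have e2 : (2 : ℚ) • B (R.ι (x + y)) (R.ι (x + y)) + (2 : ℚ) • B (R.ι (x - y)) (R.ι (x - y)) =
        Y (x + y) + Y (x - y) := by
      rw [e, ← gx, ← gy]
      simp only [map_add, map_sub, LinearMap.add_apply, LinearMap.sub_apply]
      module
    constructor
    · intro h1
      rw [show (2 : ℚ) • B (R.ι (x + y)) (R.ι (x + y)) = Y (x + y) from h1] at e2
      exact add_left_cancel e2
    · intro h1
      rw [show (2 : ℚ) • B (R.ι (x - y)) (R.ι (x - y)) = Y (x - y) from h1] at e2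
      exact add_right_cancel e2
  have gc : ∀ k, k < D.N → Gd (D.c k) := by
    intro k hk
    have := hB k (k + 1) hk.le hk
    rwa [ff, add_sub_cancel_left] at this
  have step : ∀ k, k < D.N → ∀ i j, i < j → j ≤ D.N → Gd (D.ρ (D.σ k) (ff D j - ff D i)) := by
    intro k hk i j hij hj
    have hw := ω_e D (i := i) (by omega) hj hk
    have ge : Gd (ff D j - ff D i) := hB i j (by omega) hj
    have hpar := fun hxy => par _ _ (V_e D hij hj) (V_c D hk) hxy ge (gc k hk)
    rw [D.ρσ k hk]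
    by_cases h1 : k = j ∨ k + 1 = j
    · by_cases h2 : k = i ∨ k + 1 = i
      · rw [hw, if_pos h1, if_pos h2, sub_self, zero_smul, add_zero]
        exact ge
      · rw [if_pos h1, if_neg h2, sub_zero] at hw
        rw [hw, one_smul]
        rcases h1 with rfl | rfl
        · have := hB i (k + 1) (by omega) hk
          rwa [ff, add_sub_right_comm] at this
        · refine (hpar (Or.inl hw)).2 ?_
          have e : ff D (k + 1) - ff D i - D.c k = ff D k - ff D i := by
            rw [ff]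
            abel
          rw [e]
          exact hB i k (by omega) (by omega)
    · by_cases h2 : k = i ∨ k + 1 = i
      · rw [if_neg h1, if_pos h2, zero_sub] at hw
        rw [hw, neg_smul, one_smul, ← sub_eq_add_neg]
        rcases h2 with rfl | rfl
        · have e : ff D j - ff D k - D.c k = ff D j - ff D (k + 1) := by
            rw [ff]
            abel
          rw [e]
          exact hB (k + 1) j (by omega) hj
        · refine (hpar (Or.inr hw)).1 ?_
          have e : ff D j - ff D (k + 1) + D.c k = ff D j - ff D k := by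
            rw [ff]
            abel
          rw [e]
          exact hB k j (by omega) hj
      · rw [hw, if_neg h1, if_neg h2, sub_self, zero_smul, add_zero]
        exact ge
  have hg := D.hB g
  unfold BB at hg
  induction hg using Subgroup.closure_induction with
  | mem g hg =>
    obtain ⟨k, hk, rfl⟩ := hg
    let P : E →ₗ[ℚ] E →ₗ[ℚ] Module.End ℚ M :=
      B.compr₂ (LinearMap.mulLeft ℚ (D.π (D.σ k))) -
        (B.compl₁₂ (R.r (D.σ k)) (R.r (D.σ k))).compr₂ (LinearMap.mulRight ℚ (D.π (D.σ k)))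
    have hP' : ∀ a b, P a b =
        D.π (D.σ k) * B a b - B (R.r (D.σ k) a) (R.r (D.σ k) b) * D.π (D.σ k) := fun _ _ => rfl
    intro a b
    rw [← sub_eq_zero, ← hP']
    refine R.ext2 (fun a b => by rw [hP', hP', hs a b, hs (R.r (D.σ k) a)]) ?_ a b
    intro i j hij hj
    have e1 := hB i j (by omega) hj
    have e2 : (2 : ℚ) • B _ _ = Y _ := step k hk i j hij hj
    have e3 := h.conj K hL (D.σ k) (V_e D hij hj)
    rw [← e1, ← e2, mul_smul_comm, smul_mul_assoc] at e3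
    rw [hP', R.r_ι, sub_eq_zero]
    exact smul_right_injective _ (two_ne_zero (α := ℚ)) e3
  | one => simp
  | mul x y _ _ hx hy =>
    intro a b
    rw [map_mul, mul_assoc, hy, ← mul_assoc, hx, map_mul, mul_assoc]
    rfl
  | inv x _ hx =>
    intro a b
    have e := hx (R.r x⁻¹ a) (R.r x⁻¹ b)
    have e1 : ∀ a, R.r x (R.r x⁻¹ a) = a := fun a => by
      rw [← Module.End.mul_apply, ← map_mul, mul_inv_cancel, map_one, Module.End.one_apply]
    have e2 : D.π x⁻¹ * D.π x = 1 := by rw [← map_mul, inv_mul_cancel, map_one]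
    rw [e1, e1] at e
    refine π_cancel D x ?_
    rw [mul_assoc, ← e, ← mul_assoc, e2, mul_assoc, e2, one_mul, mul_one]

include R in
theorem Rt.lie (K : Kit1 D) (hL : Log) (hU : Unip D) (hP : Par4 D) : Nonempty (Lie D E) := by
  have h8 := D.h8
  obtain ⟨Y, h⟩ := exists_lg K hL hU
  obtain ⟨B, hs, hB⟩ := R.exB h K hL
  have eqv := R.eqv h K hL hP hs hB
  have g0 : (2 : ℚ) • B (R.ι (D.c 0)) (R.ι (D.c 0)) = Y (D.c 0) := by
    have := hB 0 1 (by omega) (by omega)
    rwa [show ff D 1 - ff D 0 = D.c 0 by simp [ff]] at this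
  have brv : ∀ i j, i < j → j ≤ D.N → ∀ x y,
      B (R.ι (ff D j - ff D i)) (R.ι (ff D j - ff D i)) * B x y -
        B x y * B (R.ι (ff D j - ff D i)) (R.ι (ff D j - ff D i)) =
      (2 * R.w x (R.ι (ff D j - ff D i))) • B (R.ι (ff D j - ff D i)) y +
        (2 * R.w y (R.ι (ff D j - ff D i))) • B x (R.ι (ff D j - ff D i)) := by
    intro i j hij hj x y
    have e1 := hB i j (by omega) hj
    obtain ⟨g, hg⟩ := K.trans _ (V_e D hij hj)
    have e2 := h.ex _ g (Or.inl hg)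
    have e3 := ρ_four K g
    rw [hg] at e3
    generalize ff D j - ff D i = v at e1 e2 e3 ⊢
    have e4 : ∀ a, R.r (g * D.σ 0 ^ 4 * g⁻¹) a = a + (4 * R.w a (R.ι v)) • R.ι v := by
      have : R.r (g * D.σ 0 ^ 4 * g⁻¹) =
          LinearMap.id + ((4 : ℚ) • R.w.flip (R.ι v)).smulRight (R.ι v) := by
        refine R.ext1 fun z => ?_
        rw [R.r_ι, e3, map_add, map_zsmul, ← Int.cast_smul_eq_zsmul ℚ]
        simp [R.w_ι]
      intro a
      rw [this]
      simp
    have e5 := eqv (g * D.σ 0 ^ 4 * g⁻¹)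
    rw [← e2] at e5
    have ev : R.r (g * D.σ 0 ^ 4 * g⁻¹) (R.ι v) = R.ι v := by
      rw [e4, R.alt, mul_zero, zero_smul, add_zero]
    have key := comm_of_exp hL (Y v) (B x y)
      ((4 * R.w x (R.ι v)) • B (R.ι v) y + (4 * R.w y (R.ι v)) • B x (R.ι v))
      ((16 * R.w x (R.ι v) * R.w y (R.ι v)) • B (R.ι v) (R.ι v)) (h.nil v)
      (by
        rw [e5, e4 x, e4 y]
        refine congrArg (· * exp (Y v)) ?_
        simp only [map_add, map_smul, LinearMap.add_apply, LinearMap.smul_apply]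
        module)
      (by
        rw [mul_add, mul_smul_comm, mul_smul_comm, e5, e5, ev, e4 x, e4 y, ← smul_mul_assoc,
          ← smul_mul_assoc, ← add_mul]
        refine congrArg (· * exp (Y v)) ?_
        simp only [map_add, map_smul, LinearMap.add_apply, LinearMap.smul_apply]
        module)
      (by rw [mul_smul_comm, e5, ev, smul_mul_assoc])
    rw [← e1, smul_mul_assoc, mul_smul_comm, ← smul_sub] at key
    refine smul_right_injective _ (two_ne_zero (α := ℚ)) ?_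
    change (2 : ℚ) • _ = (2 : ℚ) • _
    rw [key]
    module
  refine ⟨{
    ω := R.w, B := B, alt := R.alt, nd := R.nd, symm := hs, br := ?_, fin := D.fin, ι := R.ι,
    ω_ι := R.w_ι, top := R.top, ρ := R.r, ρ_ι := R.r_ι, eqv := eqv, four := ?_ }⟩
  · intro a b x y
    let P : E →ₗ[ℚ] E →ₗ[ℚ] Module.End ℚ M :=
      B.compr₂ (LinearMap.mulRight ℚ (B x y) - LinearMap.mulLeft ℚ (B x y)) -
        ((R.w x).smulRight (B.flip y) + ((R.w x).smulRight (B.flip y)).flip +
          (R.w y).smulRight (B x) + ((R.w y).smulRight (B x)).flip)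
    have hP' : ∀ a b, P a b = B a b * B x y - B x y * B a b -
        (R.w x a • B b y + R.w x b • B a y + R.w y a • B x b + R.w y b • B x a) := fun _ _ => rfl
    rw [← sub_eq_zero, ← hP']
    refine R.ext2 (fun a b => ?_) ?_ a b
    · rw [hP', hP', hs a b]
      abel
    · intro i j hij hj
      rw [hP', brv i j hij hj]
      module
  · rw [g0, h.ex _ 1 (Or.inl (D.toSys.ρ_one _))]
    simp

/-- The base change to the rationals. -/
noncomputable def rt (D : Dat G H M) : Rt D (ℚ ⊗[ℤ] H) where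
  ι := (TensorProduct.mk ℤ ℚ H 1).toAddMonoidHom
  w := LinearMap.BilinForm.baseChange ℚ D.ω
  r := ((Module.End.baseChangeHom ℤ ℚ H : Module.End ℤ H →+* Module.End ℚ (ℚ ⊗[ℤ] H)) :
    Module.End ℤ H →* Module.End ℚ (ℚ ⊗[ℤ] H)).comp D.ρ
  w_ι := fun x y => by
    change LinearMap.BilinForm.baseChange ℚ D.ω (1 ⊗ₜ x) (1 ⊗ₜ y) = _
    rw [LinearMap.BilinForm.baseChange_tmul]
    simp
  top := by
    rw [eq_top_iff]
    rintro z -
    induction z using TensorProduct.induction_on with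
    | zero => exact Submodule.zero_mem _
    | tmul q x =>
      have e : q ⊗ₜ[ℤ] x = q • ((1 : ℚ) ⊗ₜ[ℤ] x) := by
        rw [TensorProduct.smul_tmul', smul_eq_mul, mul_one]
      rw [e]
      exact Submodule.smul_mem _ _ (Submodule.subset_span ⟨x, rfl⟩)
    | add a b ha hb => exact Submodule.add_mem _ ha hb
  r_ι := fun _ _ => rfl

end BIL

theorem rowBIL : OfBIL := fun hK hL hU hP G H M _ _ _ _ D =>
  (BIL.rt D).lie (hK G H M D) hL (hU G H M D) (hP G H M D)

end Pool.Agent.MP_00906f_gt.H91
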