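import Pool.Agent.MP_00906f_gt.H91.F1

/-! Construction of the action of the symplectic Lie algebra. -/

namespace Pool.Agent.MP_00906f_gt.H91.BIL2

open H46 IsNilpotent F1
open scoped TensorProduct

theorem log_conj (hL : Log) {M : Type} [AddCommGroup M] [Module ℚ M] {a X P Q : Module.End ℚ M}
    (ha : IsNilpotent a) (h0 : exp a * X = (X + P + Q) * exp a)
    (h1 : exp a * P = (P + (2 : ℚ) • Q) * exp a) (h2 : exp a * Q = Q * exp a) :
    a * X - X * a = P := by
  obtain ⟨n, hn⟩ := ha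
  set L := LinearMap.mulLeft ℚ a
  set R := LinearMap.mulRight ℚ a
  have hL' : L ^ n = 0 := by simp [L, LinearMap.pow_mulLeft, hn]
  have hR : R ^ n = 0 := by simp [R, LinearMap.pow_mulRight, hn]
  have hc : Commute L R := LinearMap.commute_mulLeft_right a a
  have hD : IsNilpotent (L - R) := hc.isNilpotent_sub ⟨n, hL'⟩ ⟨n, hR⟩
  have h3 := exp_add_of_commute (hc.symm.sub_right (Commute.refl R)) ⟨n, hR⟩ hD
  have h4 : ∀ Y, exp L Y = exp a * Y := fun Y => by
    simp [exp_eq_sum hL', exp_eq_sum hn, L, LinearMap.pow_mulLeft, Finset.sum_mul]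
  have h5 : ∀ Z, exp R Z = Z * exp a := fun Z => by
    simp [exp_eq_sum hR, exp_eq_sum hn, R, LinearMap.pow_mulRight, Finset.mul_sum]
  have h6 : ∀ Y Z, exp a * Y = Z * exp a → exp (L - R) Y = Z := fun Y Z h => by
    refine (isUnit_exp ⟨n, hn⟩).mul_right_cancel ?_
    rw [← h, ← h5, ← Module.End.mul_apply, ← h3, add_sub_cancel, h4]
  let φ : (ℚ × ℚ × ℚ) →ₗ[ℚ] Module.End ℚ M :=
    { toFun := fun t => t.1 • X + t.2.1 • P + t.2.2 • Q
      map_add' := fun s t => by simp only [Prod.fst_add, Prod.snd_add]; module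
      map_smul' := fun c t => by
        simp only [Prod.smul_fst, Prod.smul_snd, smul_eq_mul, RingHom.id_apply]; module }
  let y : Module.End ℚ (ℚ × ℚ × ℚ) :=
    { toFun := fun t => (0, t.1, 2 * t.2.1)
      map_add' := fun s t => by simp [mul_add]
      map_smul' := fun c t => by simp [mul_left_comm] }
  have hy : y ^ 3 = 0 := by
    refine LinearMap.ext fun t => ?_
    simp [_root_.pow_succ, y]
  have he : ∀ t, exp y t = (t.1, t.1 + t.2.1, t.1 + 2 * t.2.1 + t.2.2) := fun t => by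
    rw [exp_eq_sum hy]
    simp [Finset.sum_range_succ, _root_.pow_succ, y, Nat.factorial, Prod.ext_iff]
    refine ⟨by ring, by ring⟩
  have h7 := hL.tw _ _ φ y (L - R) ⟨3, hy⟩ hD (LinearMap.ext fun t => by
    rw [LinearMap.comp_apply, LinearMap.comp_apply, he]
    change _ = exp (L - R) (t.1 • X + t.2.1 • P + t.2.2 • Q)
    rw [map_add, map_add, map_smul, map_smul, map_smul, h6 _ _ h0, h6 _ _ h1, h6 _ _ h2]
    change t.1 • X + (t.1 + t.2.1) • P + (t.1 + 2 * t.2.1 + t.2.2) • Q = _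
    module)
  have h8 := LinearMap.congr_fun h7 (1, 0, 0)
  simp [φ, y, L, R] at h8
  exact h8.symm

variable {G H M : Type} [Group G] [AddCommGroup H] [AddCommGroup M] [Module ℚ M] {D : Dat G H M}

/-- `y` is half the logarithm of the fourth power of the twist along `v`. -/
def Is (D : Dat G H M) (v : H) (y : Module.End ℚ M) : Prop :=
  IsNilpotent y ∧ ∃ a, (∀ x, D.ρ a x = x + (4 * D.ω x v) • v) ∧ exp ((2 : ℚ) • y) = D.π a

open Classical in
noncomputable def n (D : Dat G H M) (v : H) : Module.End ℚ M :=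
  if h : ∃ y, Is D v y then h.choose else 0

theorem conj_nil {g : G} {y : Module.End ℚ M} (hy : IsNilpotent y) :
    IsNilpotent (D.π g * y * D.π g⁻¹) ∧
      exp (D.π g * y * D.π g⁻¹) = D.π g * exp y * D.π g⁻¹ := by
  have e1 : D.π g⁻¹ * D.π g = 1 := by rw [← map_mul, inv_mul_cancel, map_one]
  have e2 : D.π g * D.π g⁻¹ = 1 := by rw [← map_mul, mul_inv_cancel, map_one]
  let F : Module.End ℚ M →+* Module.End ℚ M :=
    { toFun := fun y => D.π g * y * D.π g⁻¹
      map_one' := by rw [mul_one, e2]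
      map_mul' := fun a b => by
        simp only [mul_assoc]
        rw [← mul_assoc (D.π g⁻¹), e1, one_mul]
      map_zero' := by simp
      map_add' := fun a b => by rw [mul_add, add_mul] }
  exact ⟨hy.map F, (map_exp hy F).symm⟩

theorem Is.conj {v : H} {y : Module.End ℚ M} (h : Is D v y) (g : G) :
    Is D (D.ρ g v) (D.π g * y * D.π g⁻¹) := by
  obtain ⟨hy, a, h1, h2⟩ := h
  refine ⟨(conj_nil hy).1, g * a * g⁻¹, fun x => ?_, ?_⟩
  · rw [D.ρ_mul, D.ρ_mul, h1, map_add, map_zsmul, D.ρ_ρ_inv, ← D.ρ_ω (D.hB g), D.ρ_ρ_inv]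
  · rw [map_mul, map_mul, ← h2, ← (conj_nil (hy.smul _)).2, mul_smul_comm, smul_mul_assoc]

variable (K : Kit1 D) (hL : Log)
include K hL

theorem n_eq {v : H} {y : Module.End ℚ M} (h : Is D v y) : n D v = y := by
  have h' : ∃ y, Is D v y := ⟨y, h⟩
  rw [n, dif_pos h']
  obtain ⟨hy, a, h1, h2⟩ := h'.choose_spec
  obtain ⟨hy', a', h1', h2'⟩ := h
  have := hL.inj M _ _ (hy.smul (2 : ℚ)) (hy'.smul (2 : ℚ)) (by
    rw [h2, h2']; exact K.π_congr _ _ (LinearMap.ext fun x => (h1 x).trans (h1' x).symm))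
  exact smul_right_injective _ (two_ne_zero (α := ℚ)) this

theorem n_zero : n D 0 = 0 :=
  n_eq K hL ⟨IsNilpotent.zero, 1, fun x => by simp, by simp⟩

theorem n_neg (v : H) : n D (-v) = n D v := by
  have e : ∀ y, Is D (-v) y ↔ Is D v y := fun y => by simp [Is]
  by_cases h : ∃ y, Is D v y
  · obtain ⟨y, h⟩ := h
    rw [n_eq K hL h, n_eq K hL ((e y).2 h)]
  · rw [n, n, dif_neg h, dif_neg (by simpa only [e] using h)]

variable (hU : Unip D)
include hU

theorem is0 : Is D (D.c 0) (n D (D.c 0)) := by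
  obtain ⟨y, hy, e⟩ := hL.ex M _ hU
  have h : Is D (D.c 0) ((2 : ℚ)⁻¹ • y) := ⟨hy.smul _, D.σ 0 ^ 4, fun x => by
    have := D.toSys.ρσ_zpow (i := 0) (by have := D.h8; omega) 4 x
    rwa [zpow_ofNat] at this, by rw [smul_inv_smul₀ two_ne_zero, e]⟩
  rwa [n_eq K hL h]

theorem isV {v : H} (hv : D.V v) : Is D v (n D v) := by
  obtain ⟨g, rfl⟩ := K.trans v hv
  have h := (is0 K hL hU).conj g
  rwa [n_eq K hL h]

theorem n_conj {v : H} (hv : D.V v) (g : G) : n D (D.ρ g v) = D.π g * n D v * D.π g⁻¹ :=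
  n_eq K hL ((isV K hL hU hv).conj g)

theorem four {v : H} (hv : D.V v) {a : G} (ha : ∀ x, D.ρ a x = x + (4 * D.ω x v) • v) :
    exp ((2 : ℚ) • n D v) = D.π a := by
  obtain ⟨-, a', h1, h2⟩ := isV K hL hU hv
  rw [h2]; exact K.π_congr _ _ (LinearMap.ext fun x => (h1 x).trans (ha x).symm)

theorem par (hP : Par4 D) {x y : H} (hx : D.V x) (hy : D.V y) (h : D.ω x y = 1) :
    n D (x + y) + n D (x - y) = (2 : ℚ) • n D x + (2 : ℚ) • n D y := by
  have h8 := D.h8
  obtain ⟨g, rfl, rfl⟩ := K.adj x y hx hy h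
  have v0 := D.V_c D.hN (i := 0) (by omega)
  have v1 := D.V_c D.hN (i := 1) (by omega)
  have w01 : D.ω (D.c 0) (D.c 1) = 1 := D.ch1 0 (by omega)
  have e2 : D.ρ (D.σ 1) (D.c 0) = D.c 0 + D.c 1 := by rw [D.ρσ 1 (by omega), w01, one_smul]
  have e3 : D.ρ (D.σ 1)⁻¹ (D.c 0) = D.c 0 - D.c 1 := by
    rw [D.toSys.ρσ_inv (by omega), w01, one_smul]
  have v2 : D.V (D.c 0 + D.c 1) := e2 ▸ D.ρ_V (D.hB _) v0
  have v3 : D.V (D.c 0 - D.c 1) := e3 ▸ D.ρ_V (D.hB _) v0
  have r4 : ∀ i, i < D.N → ∀ x, D.ρ (D.σ i ^ 4) x = x + (4 * D.ω x (D.c i)) • D.c i :=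
    fun i hi x => by
      have := D.toSys.ρσ_zpow hi 4 x
      rwa [zpow_ofNat] at this
  have c4 : ∀ g x, D.ρ (g * D.σ 0 ^ 4 * g⁻¹) x =
      x + (4 * D.ω x (D.ρ g (D.c 0))) • D.ρ g (D.c 0) := fun g x => by
    have := K.conjσ g 4 x
    rwa [zpow_ofNat] at this
  have h0 := hP _ _ _ _ ((isV K hL hU v0).1.smul (2 : ℚ)) ((isV K hL hU v1).1.smul (2 : ℚ))
    ((isV K hL hU v2).1.smul (2 : ℚ)) ((isV K hL hU v3).1.smul (2 : ℚ))
    (four K hL hU v0 (r4 0 (by omega))) (four K hL hU v1 (r4 1 (by omega)))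
    (four K hL hU v2 (by rw [← e2]; exact c4 _))
    (four K hL hU v3 (by rw [← e3]; simpa only [inv_inv] using c4 (D.σ 1)⁻¹))
  have h1 : n D (D.c 0 + D.c 1) + n D (D.c 0 - D.c 1) =
      (2 : ℚ) • n D (D.c 0) + (2 : ℚ) • n D (D.c 1) := by
    linear_combination (norm := module) (1 / 2 : ℚ) • h0
  rw [← map_add, ← map_sub, n_conj K hL hU v0, n_conj K hL hU v1, n_conj K hL hU v2,
    n_conj K hL hU v3, ← add_mul, ← mul_add, h1]
  simp only [mul_add, add_mul, mul_smul_comm, smul_mul_assoc]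

omit K hL hU in
theorem f_span {P : H → Prop} (hf : ∀ i, i ≤ D.N → P (f D i)) (h0 : P 0)
    (ha : ∀ x y, P x → P y → P (x + y)) (hn : ∀ x, P x → P (-x)) (x : H) : P x := by
  refine D.lat_ind (P := P) (fun i hi => ?_) h0 (fun x y _ _ => ha x y) (fun n x _ hx => ?_)
    (D.hL x)
  · have : D.c i = f D (i + 1) + -f D i := by rw [f]; abel
    rw [this]; exact ha _ _ (hf _ hi) (hn _ (hf _ hi.le))
  · induction n using Int.induction_on with
    | zero => simpa using h0
    | succ k ih => rw [add_smul, one_smul]; exact ha _ _ ih hx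
    | pred k ih => rw [sub_smul, one_smul, sub_eq_add_neg]; exact ha _ _ ih (hn _ hx)

omit K hL hU in
theorem bil_ext {Y : Type} [AddCommGroup Y] [Module ℚ Y] (β β' : H →ₗ[ℤ] H →ₗ[ℤ] Y)
    (hs : ∀ x y, β x y = β y x) (hs' : ∀ x y, β' x y = β' y x)
    (h : ∀ i j, i ≠ j → i ≤ D.N → j ≤ D.N →
      β (f D j - f D i) (f D j - f D i) = β' (f D j - f D i) (f D j - f D i)) (x y : H) :
    β x y = β' x y := by
  have h1 : ∀ i, i ≤ D.N → β (f D i) (f D i) = β' (f D i) (f D i) := fun i hi => by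
    rcases Nat.eq_zero_or_pos i with rfl | h0
    · simp [f]
    · simpa [f] using h 0 i (by omega) (by omega) hi
  have h2 : ∀ i j, i ≤ D.N → j ≤ D.N → β (f D i) (f D j) = β' (f D i) (f D j) := by
    intro i j hi hj
    by_cases hij : i = j
    · rw [hij]; exact h1 j hj
    · have := h i j hij hi hj
      simp only [map_sub, LinearMap.sub_apply, h1 i hi, h1 j hj, hs (f D j) (f D i),
        hs' (f D j) (f D i)] at this
      linear_combination (norm := module) (-1 / 2 : ℚ) • this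
  refine f_span (D := D) (P := fun x => β x y = β' x y) (fun i hi => ?_) (by simp)
    (fun a b ha hb => by simp [ha, hb]) (fun a ha => by simp [ha]) x
  exact f_span (D := D) (P := fun y => β (f D i) y = β' (f D i) y) (fun j hj => h2 i j hi hj)
    (by simp) (fun a b ha hb => by simp [ha, hb]) (fun a ha => by simp [ha]) y

omit K hL hU in
theorem coord : ∃ κ : ℕ → H →ₗ[ℤ] ℤ, ∀ i j, 1 ≤ i → i ≤ D.N → j ≤ D.N →
    κ i (f D j) = if i = j then 1 else 0 := by
  have h : ∀ i, ∃ d, ∀ j, j < D.N → D.ω (D.c j) d = if j = i then 1 else 0 := fun i => by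
    by_cases hi : i < D.N
    · obtain ⟨d, -, hd⟩ := D.lat_dual D.hN hi
      exact ⟨d, hd⟩
    · exact ⟨0, fun j hj => by rw [map_zero, if_neg (by omega)]⟩
  choose d hd using h
  have h1 : ∀ i j, j ≤ D.N → D.ω (f D j) (d i) = if i < j then 1 else 0 := fun i j hj => by
    induction j with
    | zero => simp [f]
    | succ j ih =>
      rw [f, map_add, LinearMap.add_apply, ih (by omega), hd i j (by omega)]
      split_ifs <;> omega
  refine ⟨fun i => D.ω.flip (d (i - 1)) - D.ω.flip (d i), fun i j h0 hi hj => ?_⟩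
  rw [LinearMap.sub_apply, LinearMap.flip_apply, LinearMap.flip_apply, h1 _ _ hj, h1 _ _ hj]
  split_ifs <;> omega

omit hU in
theorem exists_B0 : ∃ β : H →ₗ[ℤ] H →ₗ[ℤ] Module.End ℚ M, (∀ x y, β x y = β y x) ∧
    ∀ i j, i ≤ D.N → j ≤ D.N → β (f D j - f D i) (f D j - f D i) = n D (f D j - f D i) := by
  obtain ⟨κ, hκ⟩ := coord (D := D)
  let b : ℕ → ℕ → Module.End ℚ M := fun i j =>
    (1 / 2 : ℚ) • (n D (f D i) + n D (f D j) - n D (f D j - f D i))
  have hb : ∀ i j, b i j = b j i := fun i j => by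
    simp only [b]
    rw [← n_neg K hL (f D j - f D i), neg_sub, add_comm]
  let β : H →ₗ[ℤ] H →ₗ[ℤ] Module.End ℚ M :=
    ∑ i ∈ Finset.Icc 1 D.N, ∑ j ∈ Finset.Icc 1 D.N, (κ i).smulRight ((κ j).smulRight (b i j))
  have hβ : ∀ x y, β x y = ∑ i ∈ Finset.Icc 1 D.N, ∑ j ∈ Finset.Icc 1 D.N,
      (κ i x * κ j y) • b i j := fun x y => by
    simp [β, LinearMap.sum_apply, mul_smul]
  have hf : ∀ i j, i ≤ D.N → j ≤ D.N → β (f D i) (f D j) = b i j := by
    intro i j hi hj
    rcases Nat.eq_zero_or_pos i with rfl | h0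
    · simp [f, b, n_zero K hL]
    rcases Nat.eq_zero_or_pos j with rfl | h0'
    · simp [f, b, n_zero K hL, n_neg K hL]
    rw [hβ, Finset.sum_eq_single i, Finset.sum_eq_single j]
    · rw [hκ i i h0 hi hi, hκ j j h0' hj hj]; simp
    · intro k hk hkj
      rw [Finset.mem_Icc] at hk
      rw [hκ k j hk.1 hk.2 hj, if_neg hkj]; simp
    · intro h; exact absurd (Finset.mem_Icc.2 ⟨h0', hj⟩) h
    · intro k hk hki
      rw [Finset.mem_Icc] at hk
      rw [hκ k i hk.1 hk.2 hi, if_neg hki]; simp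
    · intro h; exact absurd (Finset.mem_Icc.2 ⟨h0, hi⟩) h
  refine ⟨β, fun x y => ?_, fun i j hi hj => ?_⟩
  · rw [hβ, hβ, Finset.sum_comm]
    exact Finset.sum_congr rfl fun i _ => Finset.sum_congr rfl fun j _ => by rw [hb, mul_comm]
  · simp only [map_sub, LinearMap.sub_apply, hf, hi, hj, hb j i]
    simp only [b, sub_self, n_zero K hL]
    module

theorem eqv0 (hP : Par4 D) (β : H →ₗ[ℤ] H →ₗ[ℤ] Module.End ℚ M) (hs : ∀ x y, β x y = β y x)
    (he : ∀ i j, i ≤ D.N → j ≤ D.N →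
      β (f D j - f D i) (f D j - f D i) = n D (f D j - f D i)) (g : G) :
    ∀ x y, D.π g * β x y = β (D.ρ g x) (D.ρ g y) * D.π g := by
  have key : ∀ k, k < D.N → ∀ i j, i ≠ j → i ≤ D.N → j ≤ D.N →
      β (D.ρ (D.σ k) (f D j - f D i)) (D.ρ (D.σ k) (f D j - f D i)) =
        n D (D.ρ (D.σ k) (f D j - f D i)) := by
    intro k hk i j hij hi hj
    wlog h1 : i ≠ k + 1 generalizing i j
    · have := this j i hij.symm hj hi (by omega)
      rw [← neg_sub, map_neg, n_neg K hL] at this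
      simpa only [map_neg, LinearMap.neg_apply, neg_neg] using this
    have hsw : ∀ a, a ≤ D.N → Equiv.swap k (k + 1) a ≤ D.N := fun a ha => by
      rw [Equiv.swap_apply_def]; split_ifs <;> omega
    by_cases h2 : j = k + 1
    · subst h2
      by_cases h3 : i = k
      · subst h3
        have e : f D (i + 1) - f D i = D.c i := by rw [f]; abel
        have := he i (i + 1) hi hj
        rw [e] at this ⊢
        rw [D.ρσ i hk, D.alt, zero_smul, add_zero, this]
      · have ec : f D (k + 1) - f D k = D.c k := by rw [f]; abel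
        have w : D.ω (f D (k + 1) - f D i) (D.c k) = 1 := by
          rw [map_sub, LinearMap.sub_apply, ω_fc hi hk, ω_fc hj hk]
          simp [h1, h3]
        have e1 : f D (k + 1) - f D i - D.c k = f D k - f D i := by rw [f]; abel
        have p := par K hL hU hP (V_e hij hi hj) (D.V_c D.hN hk) w
        have a1 := he i (k + 1) hi hj
        have a2 := he k (k + 1) hk.le hj
        have a3 := he i k hi hk.le
        rw [ec] at a2
        rw [← e1] at a3
        rw [D.ρσ k hk, w, one_smul]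
        rw [← a1, ← a2, ← a3] at p
        generalize f D (k + 1) - f D i = e at p ⊢
        simp only [map_sub, map_add, LinearMap.sub_apply, LinearMap.add_apply] at p ⊢
        linear_combination (norm := module) -p
    · rw [ρ_e hi hj hk h1 h2]
      exact he _ _ (hsw i hi) (hsw j hj)
  have gen : ∀ k, k < D.N → ∀ x y,
      D.π (D.σ k) * β x y = β (D.ρ (D.σ k) x) (D.ρ (D.σ k) y) * D.π (D.σ k) := by
    intro k hk
    refine bil_ext (D := D)
      (β.compr₂ ((LinearMap.mulLeft ℚ (D.π (D.σ k))).restrictScalars ℤ))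
      ((β.compl₁₂ (D.ρ (D.σ k)) (D.ρ (D.σ k))).compr₂
        ((LinearMap.mulRight ℚ (D.π (D.σ k))).restrictScalars ℤ))
      (fun x y => by simp [hs x y]) (fun x y => by simp [hs (D.ρ (D.σ k) x)]) fun i j hij hi hj => ?_
    change D.π (D.σ k) * β _ _ = β (D.ρ (D.σ k) _) (D.ρ (D.σ k) _) * D.π (D.σ k)
    rw [key k hk i j hij hi hj, he i j hi hj, n_conj K hL hU (V_e hij hi hj), mul_assoc,
      ← map_mul, inv_mul_cancel, map_one, mul_one]
  have hg := D.hB g
  induction hg using Subgroup.closure_induction with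
  | mem x hx => obtain ⟨i, hi, rfl⟩ := hx; exact gen i hi
  | one => intro x y; simp
  | mul a b _ _ ha hb =>
    intro x y
    rw [map_mul, mul_assoc, hb, ← mul_assoc, ha, D.ρ_mul, D.ρ_mul, mul_assoc]
  | inv a _ ha =>
    intro x y
    refine cancel (D := D) (g := a) ?_
    have := ha (D.ρ a⁻¹ x) (D.ρ a⁻¹ y)
    rw [D.ρ_ρ_inv, D.ρ_ρ_inv] at this
    rw [mul_assoc, ← this, ← mul_assoc, ← map_mul, mul_assoc, ← map_mul, inv_mul_cancel, map_one,
      one_mul, mul_one]

/-- Base change of a bilinear map. -/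
noncomputable def bc {Y : Type} [AddCommGroup Y] [Module ℚ Y] (β : H →ₗ[ℤ] H →ₗ[ℤ] Y) :
    (ℚ ⊗[ℤ] H) →ₗ[ℚ] (ℚ ⊗[ℤ] H) →ₗ[ℚ] Y :=
  LinearMap.liftBaseChange ℚ
    (((LinearMap.liftBaseChangeEquiv ℚ (R := ℤ) (M := H) (N := Y)).toLinearMap.restrictScalars ℤ) ∘ₗ β)

omit K hL hU in
theorem bc_tmul {Y : Type} [AddCommGroup Y] [Module ℚ Y] (β : H →ₗ[ℤ] H →ₗ[ℤ] Y) (a b : ℚ)
    (x y : H) : bc β (a ⊗ₜ x) (b ⊗ₜ y) = (a * b) • β x y := by
  simp [bc, mul_smul]

omit K hL hU in
theorem ind {P : ℚ ⊗[ℤ] H → Prop} (h : ∀ x, P (1 ⊗ₜ x)) (h0 : P 0)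
    (ha : ∀ x y, P x → P y → P (x + y)) (hs : ∀ (c : ℚ) x, P x → P (c • x)) (x : ℚ ⊗[ℤ] H) :
    P x := by
  induction x using TensorProduct.induction_on with
  | zero => exact h0
  | tmul a x =>
    have : a ⊗ₜ[ℤ] x = a • ((1 : ℚ) ⊗ₜ[ℤ] x) := by rw [TensorProduct.smul_tmul', smul_eq_mul, mul_one]
    rw [this]; exact hs _ _ (h x)
  | add x y hx hy => exact ha _ _ hx hy

omit K hL hU in
theorem ext2 {Y : Type} [AddCommGroup Y] [Module ℚ Y]
    (β β' : (ℚ ⊗[ℤ] H) →ₗ[ℚ] (ℚ ⊗[ℤ] H) →ₗ[ℚ] Y)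
    (h : ∀ x y : H, β (1 ⊗ₜ x) (1 ⊗ₜ y) = β' (1 ⊗ₜ x) (1 ⊗ₜ y)) (x y : ℚ ⊗[ℤ] H) :
    β x y = β' x y := by
  refine ind (P := fun x => β x y = β' x y) (fun x => ?_) (by simp)
    (fun a b ha hb => by simp [ha, hb]) (fun c a ha => by simp [ha]) x
  exact ind (P := fun y => β (1 ⊗ₜ x) y = β' (1 ⊗ₜ x) y) (h x) (by simp)
    (fun a b ha hb => by simp [ha, hb]) (fun c a ha => by simp [ha]) y

theorem br0 (hP : Par4 D) (β : H →ₗ[ℤ] H →ₗ[ℤ] Module.End ℚ M) (hs : ∀ x y, β x y = β y x)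
    (he : ∀ i j, i ≤ D.N → j ≤ D.N →
      β (f D j - f D i) (f D j - f D i) = n D (f D j - f D i)) (a b c d : H) :
    β a b * β c d - β c d * β a b = D.ω c a • β b d + D.ω c b • β a d + D.ω d a • β c b +
      D.ω d b • β c a := by
  let F : Module.End ℚ M →ₗ[ℤ] Module.End ℚ M :=
    (LinearMap.mulRight ℚ (β c d) - LinearMap.mulLeft ℚ (β c d)).restrictScalars ℤ
  let R : H →ₗ[ℤ] H →ₗ[ℤ] Module.End ℚ M := LinearMap.mk₂ ℤ
    (fun a b => D.ω c a • β b d + D.ω c b • β a d + D.ω d a • β c b + D.ω d b • β c a)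
    (fun a a' b => by simp only [map_add, LinearMap.add_apply]; module)
    (fun k a b => by simp only [map_smul, LinearMap.smul_apply, smul_eq_mul]; module)
    (fun a b b' => by simp only [map_add, LinearMap.add_apply]; module)
    (fun k a b => by simp only [map_smul, LinearMap.smul_apply, smul_eq_mul]; module)
  refine bil_ext (D := D) (β.compr₂ F) R (fun x y => by simp [hs x y])
    (fun x y => by simp only [R, LinearMap.mk₂_apply]; abel) (fun i j hij hi hj => ?_) a b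
  have hv := V_e hij hi hj
  have h1 := he i j hi hj
  generalize f D j - f D i = v at hv h1
  obtain ⟨hn, γ, hγ, e⟩ := isV K hL hU hv
  have q := eqv0 K hL hU hP β hs he γ
  rw [← e, ← h1] at q
  rw [← h1] at hn
  have hvv := D.alt v
  have := log_conj hL (a := (2 : ℚ) • β v v) (X := β c d)
    (P := (4 * D.ω c v) • β v d + (4 * D.ω d v) • β c v)
    (Q := (16 * D.ω c v * D.ω d v) • β v v) (hn.smul _)
    (by
      rw [q, hγ, hγ]
      congr 1
      simp only [map_add, map_smul, LinearMap.add_apply, LinearMap.smul_apply]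
      module)
    (by
      rw [mul_add, mul_smul_comm, mul_smul_comm, q, q, hγ, hγ, hγ, ← smul_mul_assoc,
        ← smul_mul_assoc, ← add_mul]
      congr 1
      simp only [map_add, map_smul, LinearMap.add_apply, LinearMap.smul_apply, hvv]
      module)
    (by
      rw [mul_smul_comm, q, hγ, ← smul_mul_assoc]
      simp [hvv])
  change β v v * β c d - β c d * β v v = D.ω c v • β v d + D.ω c v • β v d + D.ω d v • β c v +
    D.ω d v • β c v
  rw [smul_mul_assoc, mul_smul_comm] at this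
  linear_combination (norm := module) (1 / 2 : ℚ) • this

end Pool.Agent.MP_00906f_gt.H91.BIL2

namespace Pool.Agent.MP_00906f_gt.H91

open H46 IsNilpotent F1 BIL2
open scoped TensorProduct

theorem rowBIL2 : OfBIL := by
  intro hK hL hU hP G H M _ _ _ _ D
  have K := hK G H M D
  have U := hU G H M D
  have P := hP G H M D
  have h8 := D.h8
  obtain ⟨β, hs, he⟩ := exists_B0 K hL
  let ω0 : H →ₗ[ℤ] H →ₗ[ℤ] ℚ := D.ω.compr₂ (Int.castAddHom ℚ).toIntLinearMap
  have hω : ∀ x y : H, bc ω0 (1 ⊗ₜ x) (1 ⊗ₜ y) = (D.ω x y : ℚ) := fun x y => by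
    rw [bc_tmul]; simp [ω0]
  have hB : ∀ x y : H, bc β (1 ⊗ₜ x) (1 ⊗ₜ y) = β x y := fun x y => by
    rw [bc_tmul]; simp
  have skew : ∀ x y, bc ω0 x y = -bc ω0 y x :=
    ext2 _ (-(bc ω0).flip) fun x y => by simp [hω, D.skew x y]
  let ρE : G →* Module.End ℚ (ℚ ⊗[ℤ] H) :=
    { toFun := fun g => (D.ρ g).baseChange ℚ
      map_one' := by rw [map_one]; exact LinearMap.baseChange_id
      map_mul' := fun a b => by rw [map_mul]; exact LinearMap.baseChange_comp _ _ }
  have hρ : ∀ g (x : H), ρE g (1 ⊗ₜ x) = 1 ⊗ₜ D.ρ g x := fun g x => rfl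
  refine ⟨{ ω := bc ω0, B := bc β, alt := fun x => by have := skew x x; linarith
            nd := fun x hx => ?_
            symm := ext2 _ (bc β).flip fun x y => by simp [hB, hs x y]
            br := fun a b c d => ?_
            fin := D.fin
            ι := (TensorProduct.mk ℤ ℚ H 1).toAddMonoidHom
            ω_ι := hω
            top := eq_top_iff.2 fun x _ => ind (P := fun x => x ∈ Submodule.span ℚ
                (Set.range (TensorProduct.mk ℤ ℚ H 1).toAddMonoidHom))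
              (fun x => Submodule.subset_span ⟨x, rfl⟩) (zero_mem _) (fun _ _ => add_mem)
              (fun c _ => Submodule.smul_mem _ c) x
            ρ := ρE
            ρ_ι := hρ
            eqv := fun g => ext2
              ((bc β).compr₂ (LinearMap.mulLeft ℚ (D.π g)))
              (((bc β).compl₁₂ (ρE g) (ρE g)).compr₂ (LinearMap.mulRight ℚ (D.π g)))
              fun x y => by
                simp only [LinearMap.compr₂_apply, LinearMap.compl₁₂_apply,
                  LinearMap.mulLeft_apply, LinearMap.mulRight_apply]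
                rw [hρ, hρ, hB, hB, eqv0 K hL U P β hs he]
            four := ?_ }⟩
  · have h : ∀ i, ∃ d, i < D.N → ∀ j, j < D.N → D.ω (D.c j) d = if j = i then 1 else 0 :=
      fun i => by
        by_cases hi : i < D.N
        · obtain ⟨d, -, hd⟩ := D.lat_dual D.hN hi
          exact ⟨d, fun _ => hd⟩
        · exact ⟨0, fun h => absurd h hi⟩
    choose d hd using h
    have hx' : ∀ x : ℚ ⊗[ℤ] H,
        x = ∑ i ∈ Finset.range D.N, bc ω0 x (1 ⊗ₜ d i) • ((1 : ℚ) ⊗ₜ[ℤ] D.c i) := fun x => by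
      refine ind (P := fun x => x = ∑ i ∈ Finset.range D.N,
        bc ω0 x (1 ⊗ₜ d i) • ((1 : ℚ) ⊗ₜ[ℤ] D.c i)) (fun x => ?_) (by simp)
        (fun a b ha hb => ?_) (fun c a ha => ?_) x
      · obtain ⟨a, rfl⟩ := D.lat_coord (D.hL x)
        conv_lhs => rw [TensorProduct.tmul_sum]
        refine Finset.sum_congr rfl fun i hi => ?_
        rw [hω, D.lat_ω_dual a (Finset.mem_range.1 hi) (hd i (Finset.mem_range.1 hi)),
          TensorProduct.tmul_smul, Int.cast_smul_eq_zsmul]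
      · simp only [map_add, LinearMap.add_apply, add_smul, Finset.sum_add_distrib]
        rw [← ha, ← hb]
      · simp only [map_smul, LinearMap.smul_apply, smul_eq_mul, mul_smul, ← Finset.smul_sum]
        rw [← ha]
    by_contra hn
    refine hx ?_
    rw [hx' x]
    refine Finset.sum_eq_zero fun i _ => ?_
    by_cases h0 : bc ω0 x (1 ⊗ₜ d i) = 0
    · rw [h0, zero_smul]
    · exact absurd ⟨(bc ω0 x (1 ⊗ₜ d i))⁻¹ • (1 ⊗ₜ d i), by
        rw [map_smul, smul_eq_mul, inv_mul_cancel₀ h0]⟩ hn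
  · refine ind (P := fun a => bc β a b * bc β c d - bc β c d * bc β a b =
      bc ω0 c a • bc β b d + bc ω0 c b • bc β a d + bc ω0 d a • bc β c b + bc ω0 d b • bc β c a)
      (fun a => ?_) (by simp) (fun x y hx hy => ?_) (fun k x hx => ?_) a
    · refine ind (P := fun b => bc β (1 ⊗ₜ a) b * bc β c d - bc β c d * bc β (1 ⊗ₜ a) b =
        bc ω0 c (1 ⊗ₜ a) • bc β b d + bc ω0 c b • bc β (1 ⊗ₜ a) d + bc ω0 d (1 ⊗ₜ a) • bc β c b +
          bc ω0 d b • bc β c (1 ⊗ₜ a))
        (fun b => ?_) (by simp) (fun x y hx hy => ?_) (fun k x hx => ?_) b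
      · refine ind (P := fun c => bc β (1 ⊗ₜ a) (1 ⊗ₜ b) * bc β c d -
          bc β c d * bc β (1 ⊗ₜ a) (1 ⊗ₜ b) =
          bc ω0 c (1 ⊗ₜ a) • bc β (1 ⊗ₜ b) d + bc ω0 c (1 ⊗ₜ b) • bc β (1 ⊗ₜ a) d +
            bc ω0 d (1 ⊗ₜ a) • bc β c (1 ⊗ₜ b) + bc ω0 d (1 ⊗ₜ b) • bc β c (1 ⊗ₜ a))
          (fun c => ?_) (by simp) (fun x y hx hy => ?_) (fun k x hx => ?_) c
        · refine ind (P := fun d => bc β (1 ⊗ₜ a) (1 ⊗ₜ b) * bc β (1 ⊗ₜ c) d -
            bc β (1 ⊗ₜ c) d * bc β (1 ⊗ₜ a) (1 ⊗ₜ b) =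
            bc ω0 (1 ⊗ₜ c) (1 ⊗ₜ a) • bc β (1 ⊗ₜ b) d + bc ω0 (1 ⊗ₜ c) (1 ⊗ₜ b) • bc β (1 ⊗ₜ a) d +
              bc ω0 d (1 ⊗ₜ a) • bc β (1 ⊗ₜ c) (1 ⊗ₜ b) + bc ω0 d (1 ⊗ₜ b) • bc β (1 ⊗ₜ c) (1 ⊗ₜ a))
            (fun d => ?_) (by simp) (fun x y hx hy => ?_) (fun k x hx => ?_) d
          · simp only [hω, hB, Int.cast_smul_eq_zsmul]
            exact br0 K hL U P β hs he a b c d
          · simp only [map_add, LinearMap.add_apply, mul_add, add_mul]
            linear_combination (norm := module) hx + hy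
          · simp only [map_smul, LinearMap.smul_apply, mul_smul_comm, smul_mul_assoc, smul_eq_mul]
            linear_combination (norm := module) k • hx
        · simp only [map_add, LinearMap.add_apply, mul_add, add_mul]
          linear_combination (norm := module) hx + hy
        · simp only [map_smul, LinearMap.smul_apply, mul_smul_comm, smul_mul_assoc, smul_eq_mul]
          linear_combination (norm := module) k • hx
      · simp only [map_add, LinearMap.add_apply, mul_add, add_mul]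
        linear_combination (norm := module) hx + hy
      · simp only [map_smul, LinearMap.smul_apply, mul_smul_comm, smul_mul_assoc, smul_eq_mul]
        linear_combination (norm := module) k • hx
    · simp only [map_add, LinearMap.add_apply, mul_add, add_mul]
      linear_combination (norm := module) hx + hy
    · simp only [map_smul, LinearMap.smul_apply, mul_smul_comm, smul_mul_assoc, smul_eq_mul]
      linear_combination (norm := module) k • hx
  · change _ = exp ((2 : ℚ) • bc β (1 ⊗ₜ D.c 0) (1 ⊗ₜ D.c 0))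
    have e := he 0 1 (by omega) (by omega)
    have e0 : f D 1 - f D 0 = D.c 0 := by simp [f]
    rw [e0] at e
    rw [hB, e]
    refine (four K hL U (D.V_c D.hN (by omega)) fun x => ?_).symm
    have := D.toSys.ρσ_zpow (i := 0) (by omega) 4 x
    rwa [zpow_ofNat] at this

end Pool.Agent.MP_00906f_gt.H91
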