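import Pool.Agent.MP_00906f_gt.H91.Spec

/-! The number of four-cycles. -/

namespace Pool.Agent.MP_00906f_gt.H91

open Finset

namespace CNT

open Classical in
/-- A chosen point of a nonempty set. -/
noncomputable def pt (F : Finset ℕ) : ℕ := if h : F.Nonempty then h.choose else 0

theorem pt_mem {F : Finset ℕ} (h : F.Nonempty) : pt F ∈ F := by
  rw [pt, dif_pos h]; exact h.choose_spec

/-- The cycle on `F` in which `m` and `o` are opposite. -/
def cyc (N : ℕ) (F : Finset ℕ) (m o : ℕ) : Finset (ℕ × ℕ) :=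
  (pairs N).filter fun p => p.1 ∈ F ∧ p.2 ∈ F ∧ ((p.1 = m ∨ p.1 = o) ↔ ¬(p.2 = m ∨ p.2 = o))

theorem mem_iff {N : ℕ} {χ : Finset (ℕ × ℕ)} (h : χ ⊆ pairs N) (p : ℕ × ℕ) :
    p ∈ χ ↔ p ∈ pairs N ∧ adjX N χ p.1 p.2 := by
  refine ⟨fun hp => ⟨h hp, Or.inl (Or.inl hp)⟩, fun ⟨a, b⟩ => ?_⟩
  simp only [pairs, mem_filter, mem_product, mem_range] at a
  rcases b with (b | b) | b | b
  · exact b
  · have := h b
    simp only [pairs, mem_filter] at this
    omega
  · omega
  · omega

end CNT

open CNT in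
theorem rowCNT : OfCNT := by
  classical
  intro N
  have h1 : ((powersetCard 4 (range (N + 2))).sigma fun F => F.erase (pt F)).card =
      3 * (N + 2).choose 4 := by
    rw [card_sigma, sum_congr rfl (g := fun _ => 3) fun F hF => ?_, sum_const, card_powersetCard,
      card_range, smul_eq_mul, mul_comm]
    have := (mem_powersetCard.1 hF).2
    rw [card_erase_of_mem (pt_mem (card_pos.1 (by omega))), this]
  rw [← h1]
  refine le_trans (card_le_card ?_) (card_image_le (f := fun x => cyc N x.1 (pt x.1) x.2))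
  intro χ hχ
  obtain ⟨hs, u, b, w, c, hn, hb, h⟩ := mem_filter.1 hχ
  have hs := mem_powerset.1 hs
  simp only [List.nodup_cons, List.mem_cons, List.not_mem_nil, or_false, not_or, forall_eq_or_imp,
    forall_eq] at hn hb
  obtain ⟨⟨n1, n2, n3⟩, ⟨n4, n5⟩, n6, -⟩ := hn
  have hF : ({u, b, w, c} : Finset ℕ) ∈ powersetCard 4 (range (N + 2)) := by
    refine mem_powersetCard.2 ⟨fun x hx => ?_, ?_⟩
    · simp only [mem_insert, mem_singleton] at hx
      rw [mem_range]; omega
    · rw [card_insert_of_notMem (by simp [n1, n2, n3]), card_insert_of_notMem (by simp [n4, n5]),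
        card_pair n6]
  have hm := pt_mem (F := {u, b, w, c}) (insert_nonempty _ _)
  have key : ∀ o, o ≠ pt {u, b, w, c} → o ∈ ({u, b, w, c} : Finset ℕ) →
      (∀ i j, ((i = u ∨ i = w) ∧ (j = b ∨ j = c)) ∨ ((j = u ∨ j = w) ∧ (i = b ∨ i = c)) ↔
        (i = u ∨ i = b ∨ i = w ∨ i = c) ∧ (j = u ∨ j = b ∨ j = w ∨ j = c) ∧
          ((i = pt {u, b, w, c} ∨ i = o) ↔ ¬(j = pt {u, b, w, c} ∨ j = o))) →
      χ ∈ image (fun x : (_ : Finset ℕ) × ℕ => cyc N x.1 (pt x.1) x.2)
        ((powersetCard 4 (range (N + 2))).sigma fun F => F.erase (pt F)) := by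
    intro o a1 a2 a3
    refine mem_image.2 ⟨⟨{u, b, w, c}, o⟩, mem_sigma.2 ⟨hF, mem_erase.2 ⟨a1, a2⟩⟩, ?_⟩
    ext p
    rw [mem_iff hs, h, a3, cyc, mem_filter]
    simp only [mem_insert, mem_singleton]
  simp only [mem_insert, mem_singleton] at hm
  rcases hm with e | e | e | e
  · exact key w (by omega) (by simp) fun i j => by rw [e]; omega
  · exact key c (by omega) (by simp) fun i j => by rw [e]; omega
  · exact key u (by omega) (by simp) fun i j => by rw [e]; omega
  · exact key b (by omega) (by simp) fun i j => by rw [e]; omega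

end Pool.Agent.MP_00906f_gt.H91
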