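import Pool.Agent.MP_00906f_gt.H91.Spec

/-! Permutations of the points. -/

namespace Pool.Agent.MP_00906f_gt.H91

open H46 Equiv

namespace COX

section pure

variable {Q : Type} [Group Q]

/-- The product `s j * s (j+1) * ⋯` of `t` letters. -/
def dd (s : ℕ → Q) : ℕ → ℕ → Q
  | _, 0 => 1
  | j, t + 1 => s j * dd s (j + 1) t

variable {s : ℕ → Q} {N : ℕ}

theorem dd_low (h : IsBF s N) (i : ℕ) : ∀ t j, i + 2 ≤ j → j + t ≤ N →
    s i * dd s j t = dd s j t * s i
  | 0, _, _, _ => by simp [dd]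
  | t + 1, j, h1, h2 => by
    rw [dd, ← mul_assoc, h.comm i j h1 (by omega), mul_assoc,
      dd_low h i t (j + 1) (by omega) (by omega), mul_assoc]

theorem dd_high (h : IsBF s N) (i : ℕ) : ∀ t j, j ≤ i → i + 1 < j + t → j + t ≤ N →
    s (i + 1) * dd s j t = dd s j t * s i
  | 0, _, _, _, _ => by omega
  | t + 1, j, h1, h2, h3 => by
    rcases h1.eq_or_lt with rfl | h1
    · obtain ⟨t, rfl⟩ : ∃ u, t = u + 1 := ⟨t - 1, by omega⟩
      rw [dd, dd, ← mul_assoc, ← mul_assoc, ← h.braid j (by omega), mul_assoc, mul_assoc,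
        dd_low h j t (j + 1 + 1) (by omega) (by omega)]
      simp only [mul_assoc]
    · rw [dd, ← mul_assoc, ← h.comm j (i + 1) (by omega) (by omega), mul_assoc,
        dd_high h i t (j + 1) (by omega) (by omega) (by omega), mul_assoc]

theorem coset (h : IsBF s N) (hs : ∀ i, i < N → s i * s i = 1) {n : ℕ} (hn : n + 1 ≤ N) :
    ∀ g ∈ BB s (n + 1), ∃ j t, j + t = n + 1 ∧ ∃ a ∈ BB s n, g = dd s j t * a := by
  have key : ∀ i, i < n + 1 → ∀ g, (∃ j t, j + t = n + 1 ∧ ∃ a ∈ BB s n, g = dd s j t * a) →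
      ∃ j t, j + t = n + 1 ∧ ∃ a ∈ BB s n, s i * g = dd s j t * a := by
    rintro i hi _ ⟨j, t, hj, a, ha, rfl⟩
    rcases Nat.lt_trichotomy (i + 1) j with h1 | h1 | h1
    · refine ⟨j, t, hj, s i * a, mul_mem (Subgroup.subset_closure ⟨i, show i < n by omega, rfl⟩) ha, ?_⟩
      rw [← mul_assoc, dd_low h i t j h1 (by omega), mul_assoc]
    · subst h1
      exact ⟨i, t + 1, by omega, a, ha, by rw [dd, mul_assoc]⟩
    · rcases (Nat.lt_succ_iff.1 h1).eq_or_lt with rfl | h2
      · obtain ⟨t, rfl⟩ : ∃ u, t = u + 1 := ⟨t - 1, by omega⟩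
        refine ⟨j + 1, t, by omega, a, ha, ?_⟩
        rw [dd, ← mul_assoc, ← mul_assoc, hs j (by omega), one_mul]
      · obtain ⟨i, rfl⟩ : ∃ u, i = u + 1 := ⟨i - 1, by omega⟩
        refine ⟨j, t, hj, s i * a,
          mul_mem (Subgroup.subset_closure ⟨i, show i < n by omega, rfl⟩) ha, ?_⟩
        rw [← mul_assoc, dd_high h i t j (by omega) (by omega) (by omega), mul_assoc]
  intro g hg
  induction hg using Subgroup.closure_induction_left with
  | one => exact ⟨n + 1, 0, rfl, 1, one_mem _, by simp [dd]⟩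
  | mul_left x hx y _ ih =>
    obtain ⟨i, hi, rfl⟩ := hx
    exact key i hi y ih
  | inv_mul_cancel x hx y _ ih =>
    obtain ⟨i, hi, rfl⟩ := hx
    have hi' : i < n + 1 := hi
    rw [inv_eq_of_mul_eq_one_right (hs i (by omega))]
    exact key i hi y ih

variable {p : Q →* Perm ℕ}

theorem fix (hp : ∀ i, i < N → p (s i) = swap i (i + 1)) {n : ℕ} (hn : n ≤ N) :
    ∀ g ∈ BB s n, ∀ j, n < j → p g j = j := by
  intro g hg j hj
  induction hg using Subgroup.closure_induction with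
  | mem x hx =>
    obtain ⟨i, hi, rfl⟩ := hx
    have hi' : i < n := hi
    rw [hp i (by omega), swap_apply_of_ne_of_ne (by omega) (by omega)]
  | one => simp
  | mul x y _ _ hx hy => rw [map_mul, Perm.mul_apply, hy, hx]
  | inv x _ hx => rw [map_inv, Perm.inv_eq_iff_eq, hx]

theorem p_dd (hp : ∀ i, i < N → p (s i) = swap i (i + 1)) : ∀ t j, j + t ≤ N →
    p (dd s j t) (j + t) = j
  | 0, _, _ => by simp [dd]
  | t + 1, j, h => by
    rw [dd, map_mul, Perm.mul_apply, show j + (t + 1) = j + 1 + t by omega,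
      p_dd hp t (j + 1) (by omega), hp j (by omega), swap_apply_right]

theorem inj (h : IsBF s N) (hs : ∀ i, i < N → s i * s i = 1)
    (hp : ∀ i, i < N → p (s i) = swap i (i + 1)) : ∀ n, n ≤ N → ∀ g ∈ BB s n, p g = 1 → g = 1
  | 0, _, g, hg, _ => by simpa [BB] using hg
  | n + 1, hn, g, hg, h1 => by
    obtain ⟨j, t, hj, a, ha, rfl⟩ := coset h hs hn g hg
    have h2 : p (dd s j t * a) (n + 1) = n + 1 := by rw [h1]; rfl
    rw [map_mul, Perm.mul_apply, fix hp (by omega : n ≤ N) a ha _ (by omega), ← hj,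
      p_dd hp t j (by omega)] at h2
    obtain rfl : t = 0 := by omega
    rw [dd, one_mul] at h1 ⊢
    exact inj h hs hp n (by omega) a ha h1

theorem swap_mem (hp : ∀ i, i < N → p (s i) = swap i (i + 1)) (k x : ℕ) : ∀ t, x + t ≤ N →
    (x ≤ k ↔ x + t ≤ k) → swap x (x + t) ∈ (Par s N k).map p
  | 0, _, _ => by
    rw [Nat.add_zero, swap_self]
    exact one_mem _
  | t + 1, h1, h2 => by
    have h3 : swap (x + t) (x + t + 1) ∈ (Par s N k).map p :=
      ⟨s (x + t), Subgroup.subset_closure ⟨x + t, ⟨by omega, by omega⟩, rfl⟩, hp _ (by omega)⟩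
    rcases Nat.eq_zero_or_pos t with rfl | ht
    · exact h3
    · rw [swap_comm, ← Nat.add_assoc, ← swap_mul_swap_mul_swap (y := x + t) (by omega) (by omega)]
      exact mul_mem (mul_mem h3 (swap_mem hp k x t (by omega) (by omega))) h3

theorem swap_mem' (hp : ∀ i, i < N → p (s i) = swap i (i + 1)) {k x y : ℕ} (hx : x ≤ N)
    (hy : y ≤ N) (h : x ≤ k ↔ y ≤ k) : swap x y ∈ (Par s N k).map p := by
  rcases le_total x y with h1 | h1
  · obtain ⟨t, rfl⟩ := Nat.exists_eq_add_of_le h1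
    exact swap_mem hp k x t hy h
  · obtain ⟨t, rfl⟩ := Nat.exists_eq_add_of_le h1
    rw [swap_comm]
    exact swap_mem hp k y t hx h.symm

theorem le_of_fix {π : Perm ℕ} {n j : ℕ} (h : ∀ j, n < j → π j = j) (hj : j ≤ n) : π j ≤ n := by
  by_contra h1
  have := π.injective (h _ (not_le.1 h1))
  omega

theorem perm_mem (hp : ∀ i, i < N → p (s i) = swap i (i + 1)) (k : ℕ) : ∀ n, n ≤ N + 1 →
    ∀ π : Perm ℕ, (∀ j, n ≤ j → π j = j) → (∀ j, π j ≤ k ↔ j ≤ k) → π ∈ (Par s N k).map p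
  | 0, _, π, h1, _ => by
    rw [show π = 1 from Equiv.ext fun j => h1 j (Nat.zero_le _)]
    exact one_mem _
  | n + 1, hn, π, h1, h2 => by
    have h3 : π n ≤ n := le_of_fix h1 le_rfl
    have h4 := swap_mem' hp (k := k) (by omega : π n ≤ N) (by omega : n ≤ N) (h2 n)
    have h5 := perm_mem hp k n (by omega) (swap (π n) n * π) (fun j hj => by
      rcases hj.eq_or_lt with rfl | hj
      · simp
      · rw [Perm.mul_apply, h1 j hj, swap_apply_of_ne_of_ne (by omega) (by omega)]) fun j => by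
      rw [← h2 j, Perm.mul_apply, swap_apply_def]
      have := h2 n
      split_ifs with a b
      · rw [a]; exact this.symm
      · rw [b]; exact this
      · rfl
    exact (Subgroup.mul_mem_cancel_left _ h4).1 h5

end pure

variable {G H M : Type} [Group G] [AddCommGroup H] [AddCommGroup M] [Module ℚ M] (D : Dat G H M)

theorem normal (σ : ℕ → G) (N : ℕ) : (PP σ N).Normal := by
  refine ⟨fun x hx g => ?_⟩
  induction hx using Subgroup.closure_induction with
  | mem x hx =>
    obtain ⟨a, i, hi, rfl⟩ := hx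
    exact Subgroup.subset_closure ⟨g * a, i, hi, by group⟩
  | one => simpa using one_mem _
  | mul x y _ _ hx hy =>
    rw [show g * (x * y) * g⁻¹ = g * x * g⁻¹ * (g * y * g⁻¹) by group]
    exact mul_mem hx hy
  | inv x _ hx =>
    rw [show g * x⁻¹ * g⁻¹ = (g * x * g⁻¹)⁻¹ by group]
    exact inv_mem hx

theorem ker (g : G) (hg : D.perm g = 1) : g ∈ PP D.σ D.N := by
  have := normal D.σ D.N
  have hle : PP D.σ D.N ≤ D.perm.ker := by
    refine (Subgroup.closure_le _).2 ?_
    rintro _ ⟨a, i, hi, rfl⟩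
    simp [D.perm_σ i hi, sq]
  rw [← QuotientGroup.eq_one_iff]
  refine inj (s := fun i => (D.σ i : G ⧸ PP D.σ D.N)) (N := D.N)
    (p := QuotientGroup.lift _ D.perm hle) ⟨fun i hi => ?_, fun i j h1 h2 => ?_⟩ (fun i hi => ?_)
    (fun i hi => D.perm_σ i hi) D.N le_rfl _ ?_ hg
  · simp only [← QuotientGroup.mk_mul, D.bf.braid i hi]
  · simp only [← QuotientGroup.mk_mul, D.bf.comm i j h1 h2]
  · rw [← QuotientGroup.mk_mul, QuotientGroup.eq_one_iff]
    exact Subgroup.subset_closure ⟨1, i, hi, by simp [sq]⟩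
  · have h1 := Subgroup.mem_map_of_mem (QuotientGroup.mk' (PP D.σ D.N)) (D.hB g)
    rw [BB, MonoidHom.map_closure, Set.image_image] at h1
    exact h1

theorem fixD (g : G) (j : ℕ) (hj : D.N < j) : D.perm g j = j :=
  fix D.perm_σ le_rfl g (D.hB g) j hj

theorem bnd (g : G) (j : ℕ) : D.perm g j ≤ D.N ↔ j ≤ D.N := by
  refine ⟨fun h => ?_, le_of_fix (fixD D g)⟩
  by_contra h1
  rw [fixD D g j (not_le.1 h1)] at h
  exact h1 h

theorem par (k : ℕ) (g : G) (h : ∀ j, j ≤ k → D.perm g j ≤ k) :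
    ∃ h ∈ Par D.σ D.N k, D.perm h = D.perm g := by
  refine perm_mem D.perm_σ k (D.N + 1) le_rfl _ (fixD D g) fun j => ⟨fun hj => ?_, h j⟩
  have := Perm.perm_symm_mapsTo_of_mapsTo (D.perm g) (s := Set.Iic k) h hj
  simpa using this

theorem label (l : List ℕ) (hl : l.Nodup) (hx : ∀ x ∈ l, x ≤ D.N) :
    ∃ g, ∀ j, (hj : j < l.length) → D.perm g j = l[j] := by
  have hlen : l.length ≤ D.N + 1 := by
    rw [← List.toFinset_card_of_nodup hl, ← Finset.card_range (D.N + 1)]
    exact Finset.card_le_card fun x h =>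
      Finset.mem_range.2 (Nat.lt_succ_of_le (hx x (List.mem_toFinset.1 h)))
  have key : ∀ n, n ≤ l.length → ∃ g, ∀ j, j < n → (hj : j < l.length) → D.perm g j = l[j] := by
    intro n
    induction n with
    | zero => exact fun _ => ⟨1, fun j h => absurd h (Nat.not_lt_zero _)⟩
    | succ n ih =>
      intro hn
      obtain ⟨g, hg⟩ := ih (by omega)
      have h1 : D.perm g n ≤ D.N := (bnd D g n).2 (by omega)
      have h2 : l[n] ≤ D.N := hx _ (List.getElem_mem _)
      obtain ⟨a, -, ha⟩ := swap_mem' D.perm_σ (k := D.N) h1 h2 (iff_of_true h1 h2)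
      refine ⟨a * g, fun j h3 h4 => ?_⟩
      rw [map_mul, Perm.mul_apply, ha]
      rcases (Nat.lt_succ_iff.1 h3).eq_or_lt with rfl | h5
      · exact swap_apply_left _ _
      · rw [swap_apply_of_ne_of_ne ((D.perm g).injective.ne h5.ne), hg j h5 h4]
        rw [hg j h5 h4]
        exact fun h => h5.ne (hl.getElem_inj_iff.1 h)
  obtain ⟨g, hg⟩ := key _ le_rfl
  exact ⟨g, fun j hj => hg j hj hj⟩

theorem card_lab (k : ℕ) (g : G) : (D.lab k g).card = k + 1 := by
  rw [Dat.lab, Finset.card_image_of_injective _ (D.perm g).injective, Finset.card_range]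

theorem pyy : ∀ j, j + 2 ≤ D.N → D.perm (yy D.σ j) = 1
  | 0, h => by
    have h1 := congrArg D.perm (D.bf.braid 0 (by omega))
    rw [yy, map_pow]
    simp only [map_mul, D.perm_σ 0 (by omega), D.perm_σ 1 (by omega), Nat.zero_add] at h1 ⊢
    rw [show ∀ a b : Perm ℕ, (a * b) ^ 3 = a * b * a * (b * a * b) from fun a b => by
      simp only [pow_succ, pow_zero, one_mul, mul_assoc], ← h1]
    simp [mul_assoc]
  | j + 1, h => by rw [yy, map_mul, map_mul, pyy j (by omega), mul_one, ← map_mul, mul_inv_cancel,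
      map_one]

end COX

theorem rowCOX : OfCOX := by
  intro G H M _ _ _ _ D
  have h8 := D.h8
  have p0 := D.perm_σ 0 (by omega)
  have p1 := D.perm_σ 1 (by omega)
  have p2 := D.perm_σ 2 (by omega)
  have p3 := D.perm_σ 3 (by omega)
  have p4 := D.perm_σ 4 (by omega)
  refine ⟨COX.ker D, COX.bnd D, fun k g _ => COX.par D k g, fun Z z k _ h1 h2 => ?_, COX.label D,
    fun k g hk => ⟨fun x hx => ?_, COX.card_lab D k g⟩, fun k g h => ?_, fun k I hI => ?_,
    COX.pyy D, ?_, ?_, ?_, ?_, ?_, ?_, ?_, ?_, ?_, ?_, ?_, ?_⟩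
  · classical
    refine ⟨fun I => if h : ∃ g, D.lab k g = I then z h.choose else z 1, fun g => ?_⟩
    have h : ∃ g', D.lab k g' = D.lab k g := ⟨g, rfl⟩
    simp only [dif_pos h]
    have h3 := h.choose_spec
    generalize h.choose = g' at h3
    obtain ⟨a, ha, e⟩ := COX.par D k (g'⁻¹ * g) fun j hj => by
      have : D.perm g j ∈ D.lab k g' := by
        rw [h3]
        exact Finset.mem_image_of_mem _ (Finset.mem_range.2 (by omega))
      obtain ⟨i, hi, e⟩ := Finset.mem_image.1 this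
      rw [map_mul, Perm.mul_apply, ← e, map_inv, Perm.inv_def, symm_apply_apply]
      exact Nat.lt_succ_iff.1 (Finset.mem_range.1 hi)
    rw [← h1 g' a ha, ← h2 (g' * a) (a⁻¹ * (g'⁻¹ * g)) (by rw [map_mul, map_inv, e, inv_mul_cancel])]
    congr 1
    group
  · obtain ⟨i, hi, rfl⟩ := Finset.mem_image.1 hx
    have := Finset.mem_range.1 hi
    exact Finset.mem_range.2 (Nat.lt_succ_of_le ((COX.bnd D g i).2 (by omega)))
  · rw [Dat.lab, Dat.lab, Finset.image_image, map_mul]
    rfl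
  · obtain ⟨g, hg⟩ := COX.label D I.toList I.nodup_toList fun x hx =>
      Nat.lt_succ_iff.1 (Finset.mem_range.1 (hI.1 (Finset.mem_toList.1 hx)))
    refine ⟨g, Finset.eq_of_subset_of_card_le (fun x hx => ?_) (by rw [COX.card_lab, hI.2])⟩
    obtain ⟨i, hi, rfl⟩ := Finset.mem_image.1 hx
    rw [hg i (by rw [Finset.length_toList, hI.2]; exact Finset.mem_range.1 hi)]
    exact Finset.mem_toList.1 (List.getElem_mem _)
  all_goals
    simp only [Dat.lab, g0, w1, w2, w3, map_mul, map_inv, map_one, p0, p1, p2, p3, p4, swap_inv]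
    decide

end Pool.Agent.MP_00906f_gt.H91
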