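import Pool.Agent.MP_00906f_gt.H91.Spec

/-! The cube relation on triples leaves at most `(N + 1).choose 2` dimensions. -/

namespace Pool.Agent.MP_00906f_gt.H91

open Finset

namespace CUBE

lemma val3 {N x y z : ℕ} (hx : x ≤ N) (hy : y ≤ N) (hz : z ≤ N) (h1 : x ≠ y) (h2 : x ≠ z)
    (h3 : y ≠ z) : Val N 3 {x, y, z} := by
  refine ⟨?_, card_eq_three.2 ⟨x, y, z, h1, h2, h3, rfl⟩⟩
  intro u hu
  simp only [mem_insert, mem_singleton] at hu
  rw [mem_range]
  omega

lemma main {Y : Type} [AddCommGroup Y] [Module ℚ Y] (lam : Finset ℕ → Y) (N : ℕ) (hN : 4 ≤ N) :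
    (∀ a b p q r t, Six N a b p q r t →
      lam {r, t, q} - lam {r, t, p} + (lam {a, b, q} - lam {a, b, p}) =
        lam {a, t, q} - lam {a, t, p} + (lam {r, b, q} - lam {r, b, p})) →
    ∃ S : Finset Y, S.card ≤ (N + 1).choose 2 ∧
      ∀ I, Val N 3 I → lam I ∈ Submodule.span ℚ (S : Set Y) := by
  classical
  induction N, hN using Nat.le_induction with
  | base =>
    intro _
    refine ⟨(powersetCard 3 (range 5)).image lam, card_image_le.trans ?_, fun I hI => ?_⟩
    · rw [card_powersetCard, card_range]; decide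
    · exact Submodule.subset_span (mem_coe.2 (mem_image_of_mem _ (mem_powersetCard.2 hI)))
  | succ N hN ih =>
    intro h
    obtain ⟨S, hS, hold⟩ := ih fun a b p q r t h6 =>
      h a b p q r t ⟨h6.1, fun x hx => (h6.2 x hx).trans (Nat.le_succ N)⟩
    let f : ℕ → Y := fun x => if x = 0 then lam {1, 2, N + 1} else lam {0, x, N + 1}
    refine ⟨S ∪ (range (N + 1)).image f, ?_, ?_⟩
    · refine (card_union_le _ _).trans ?_
      have h1 : ((range (N + 1)).image f).card ≤ N + 1 := card_image_le.trans (card_range _).le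
      have h2 : (N + 1 + 1).choose 2 = (N + 1).choose 1 + (N + 1).choose 2 := Nat.choose_succ_succ' _ _
      rw [Nat.choose_one_right] at h2
      omega
    set U := Submodule.span ℚ ((S ∪ (range (N + 1)).image f : Finset Y) : Set Y) with hU
    have o : ∀ I, Val N 3 I → lam I ∈ U := fun I hI =>
      Submodule.span_mono (coe_subset.2 subset_union_left) (hold I hI)
    have hf : ∀ x, x ≤ N → f x ∈ U := fun x hx => Submodule.subset_span
      (mem_coe.2 (mem_union_right _ (mem_image_of_mem _ (mem_range.2 (by omega)))))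
    have z0 : ∀ x, x ≤ N → x ≠ 0 → lam {0, x, N + 1} ∈ U := fun x hx h0 => by
      simpa only [f, if_neg h0] using hf x hx
    have z12 : lam {1, 2, N + 1} ∈ U := by simpa only [f, if_true] using hf 0 (Nat.zero_le _)
    have step : ∀ r b t, r ≤ N → b ≤ N → t ≤ N → r ≠ 0 → b ≠ 0 → t ≠ 0 → r ≠ b → r ≠ t → b ≠ t →
        lam {r, b, N + 1} ∈ U → lam {r, t, N + 1} ∈ U := by
      intro r b t hr hb ht r0 b0 t0 rb rt bt hm
      obtain ⟨p, hp, p0, pr, pb, pt⟩ : ∃ p, p ≤ 4 ∧ p ≠ 0 ∧ p ≠ r ∧ p ≠ b ∧ p ≠ t := by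
        by_contra hc
        push Not at hc
        have a1 := hc 1
        have a2 := hc 2
        have a3 := hc 3
        have a4 := hc 4
        omega
      have e := h 0 b p (N + 1) r t ⟨by simp; omega, by simp; omega⟩
      have e' : lam {r, t, N + 1} = lam {r, t, p} - (lam {0, b, N + 1} - lam {0, b, p}) +
          (lam {0, t, N + 1} - lam {0, t, p} + (lam {r, b, N + 1} - lam {r, b, p})) := by
        rw [← e]; abel
      rw [e']
      refine add_mem (sub_mem (o _ ?_) (sub_mem (z0 b hb b0) (o _ ?_)))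
        (add_mem (sub_mem (z0 t ht t0) (o _ ?_)) (sub_mem hm (o _ ?_))) <;>
      exact val3 (by omega) (by omega) (by omega) (by omega) (by omega) (by omega)
    have z1 : ∀ y, y ≤ N → y ≠ 0 → y ≠ 1 → lam {1, y, N + 1} ∈ U := by
      intro y hy y0 y1
      by_cases y2 : y = 2
      · exact y2 ▸ z12
      · exact step 1 2 y (by omega) (by omega) hy (by omega) (by omega) y0 (by omega) (by omega)
          (by omega) z12
    have z : ∀ x y, x ≤ N → y ≤ N → x ≠ y → lam {x, y, N + 1} ∈ U := by
      intro x y hx hy xy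
      by_cases x0 : x = 0
      · subst x0; exact z0 y hy xy.symm
      by_cases y0 : y = 0
      · subst y0; rw [insert_comm]; exact z0 x hx x0
      by_cases x1 : x = 1
      · subst x1; exact z1 y hy y0 xy.symm
      have a := z1 x hx x0 x1
      rw [insert_comm] at a
      by_cases y1 : y = 1
      · subst y1; exact a
      · exact step x 1 y hx (by omega) hy x0 (by omega) y0 x1 xy (Ne.symm y1) a
    intro I hI
    by_cases hn : N + 1 ∈ I
    · have hc : (I.erase (N + 1)).card = 2 := by rw [card_erase_of_mem hn, hI.2]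
      obtain ⟨x, y, xy, he⟩ := card_eq_two.1 hc
      have hm : ∀ u ∈ I.erase (N + 1), u ≤ N := fun u hu => by
        have a1 := mem_range.1 (hI.1 (mem_of_mem_erase hu))
        have a2 := ne_of_mem_erase hu
        omega
      have e : I = {x, y, N + 1} := by
        rw [← insert_erase hn, he]
        ext u
        simp only [mem_insert, mem_singleton]
        tauto
      rw [e]
      exact z x y (hm x (by simp [he])) (hm y (by simp [he])) xy
    · refine o I ⟨fun u hu => ?_, hI.2⟩
      have a1 := mem_range.1 (hI.1 hu)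
      have a2 : u ≠ N + 1 := fun h => hn (h ▸ hu)
      rw [mem_range]
      omega

end CUBE

theorem rowCUBE : OfCUBE := by
  intro Y _ _ N lam hN h
  obtain ⟨S, hS, hm⟩ := CUBE.main lam N hN h
  refine le_trans (Submodule.finrank_mono (t := Submodule.span ℚ (S : Set Y)) ?_)
    ((finrank_span_finset_le_card S).trans hS)
  rw [Submodule.span_le]
  rintro _ ⟨I, hI, rfl⟩
  exact hm I hI

end Pool.Agent.MP_00906f_gt.H91
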