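import Pool.Agent.MP_00906f_gt.H91.Spec

/-! Row DIM: dimension counts for tensors with symmetries. -/

namespace Pool.Agent.MP_00906f_gt.H91

open Finset

namespace DIM

variable {Y : Type} [AddCommGroup Y] [Module ℚ Y]

theorem le_card {ι : Type} (s : Finset ι) (f : ι → Y) {S : Set Y}
    (h : ∀ W : Submodule ℚ Y, (∀ t ∈ s, f t ∈ W) → S ⊆ W) :
    Module.finrank ℚ (Submodule.span ℚ S) ≤ s.card := by
  classical
  have h1 : Submodule.span ℚ S ≤ Submodule.span ℚ (s.image f : Set Y) :=
    Submodule.span_le.2 (h _ fun t ht => Submodule.subset_span (mem_coe.2 (mem_image_of_mem f ht)))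
  exact (Submodule.finrank_mono h1).trans ((finrank_span_finset_le_card _).trans card_image_le)

theorem of_smul {W : Submodule ℚ Y} {v w : Y} (c : ℚ) (hc : c ≠ 0) (hw : w ∈ W)
    (h : c • v + w = 0) : v ∈ W :=
  (W.smul_mem_iff hc).1 (eq_neg_of_add_eq_zero_left h ▸ W.neg_mem hw)

theorem s2 (n : ℕ) : 2 * ∑ j ∈ range n, (j + 1) = n ^ 2 + n := by
  induction n with
  | zero => rfl
  | succ n ih => rw [sum_range_succ, mul_add, ih]; ring

theorem s11 (n : ℕ) : 2 * ∑ j ∈ range n, j + n = n ^ 2 := by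
  induction n with
  | zero => rfl
  | succ n ih => rw [sum_range_succ]; nlinarith

theorem s21 (n : ℕ) : 3 * ∑ j ∈ range n, (n - (j + 1)) * (n - j) + n = n ^ 3 := by
  induction n with
  | zero => rfl
  | succ n ih =>
    rw [sum_range_succ']
    simp only [Nat.add_sub_add_right, Nat.sub_zero, zero_add, Nat.add_sub_cancel]
    nlinarith

theorem sq1 (l : ℕ) : 6 * ∑ i ∈ range l, (l - i) * (l - i) = 2 * l ^ 3 + 3 * l ^ 2 + l := by
  induction l with
  | zero => rfl
  | succ n ih =>
    rw [sum_range_succ']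
    simp only [Nat.add_sub_add_right, Nat.sub_zero]
    nlinarith

theorem s22 (n : ℕ) : 12 * ∑ l ∈ range n, ∑ i ∈ range l, (l - i) * (l - i) + n ^ 2 = n ^ 4 := by
  induction n with
  | zero => rfl
  | succ n ih =>
    rw [sum_range_succ]
    nlinarith [sq1 n]

theorem m21 {W : Submodule ℚ Y} {n : ℕ} (φ : ℕ → ℕ → ℕ → Y) (h1 : ∀ i j k, φ i j k = φ i k j)
    (h2 : ∀ i j k, φ i j k + φ j i k + φ k i j = 0)
    (h : ∀ i j k, j ≤ k → j < i → i < n → k < n → φ i j k ∈ W) (i j k : ℕ) (hi : i < n)
    (hj : j < n) (hk : k < n) : φ i j k ∈ W := by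
  wlog hjk : j ≤ k generalizing j k
  · rw [h1]
    exact this k j hk hj (by omega)
  rcases lt_trichotomy j i with hl | rfl | hl
  · exact h i j k hjk hl hi hk
  · rcases hjk.eq_or_lt with rfl | hl
    · exact of_smul 3 (by norm_num) W.zero_mem (by rw [add_zero, ← h2 j j j]; module)
    · exact of_smul 2 (by norm_num) (h k j j le_rfl hl hk hj) (by rw [← h2 j j k]; module)
  · exact of_smul 1 one_ne_zero (W.add_mem (h j i k (by omega) hl hj hk)
      (h k i j hl.le (by omega) hk hj)) (by rw [← h2 i j k]; module)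

theorem m22 {W : Submodule ℚ Y} {n : ℕ} (φ : ℕ → ℕ → ℕ → ℕ → Y)
    (h1 : ∀ i j k l, φ i j k l = φ j i k l) (h2 : ∀ i j k l, φ i j k l = φ i j l k)
    (h3 : ∀ i j k l, φ i j k l + φ i k j l + φ i l j k = 0)
    (h : ∀ i j k l, i ≤ j → j < l → i < k → k ≤ l → l < n → φ i j k l ∈ W) (i j k l : ℕ)
    (hi : i < n) (hj : j < n) (hk : k < n) (hl : l < n) : φ i j k l ∈ W := by
  have h4 : ∀ i j k l, φ i j k l = φ k l i j := fun i j k l => by
    have a1 := h3 i j k l
    have a2 := h3 j i k l
    have a3 := h3 k i j l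
    have a4 := h3 l i j k
    rw [h1 j i] at a2
    rw [h1 k i, h1 k j] at a3
    rw [h1 l i, h1 l j, h1 l k] at a4
    refine smul_right_injective Y (two_ne_zero' ℚ) ?_
    linear_combination (norm := module) a1 + a2 - a3 - a4
  have hX : ∀ p q r t, p ≤ q → q ≤ r → r ≤ t → t < n → φ p q r t ∈ W := fun p q r t a b c d => by
    by_cases e : p < r ∧ q < t
    · exact h p q r t a e.2 e.1 c d
    refine of_smul 3 (by norm_num) W.zero_mem ?_
    rw [add_zero]
    by_cases e1 : p < r
    · obtain rfl : q = r := by omega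
      obtain rfl : q = t := by omega
      rw [← h3 p q q q]
      module
    · obtain rfl : p = q := by omega
      obtain rfl : p = r := by omega
      rw [← h3 p p p t, h4 p t p p]
      module
  have hY : ∀ p q r t, p ≤ q → q ≤ r → r ≤ t → t < n → φ p r q t ∈ W := fun p q r t a b c d => by
    by_cases e : p < q ∧ r < t
    · exact h p r q t (a.trans b) e.2 e.1 (b.trans c) d
    refine of_smul 2 (by norm_num) (hX p q r t a b c d) ?_
    by_cases e1 : p < q
    · obtain rfl : r = t := by omega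
      rw [← h3 p q r r]
      module
    · obtain rfl : p = q := by omega
      rw [← h3 p p r t, h4 p t p r]
      module
  wlog hij : i ≤ j generalizing i j
  · rw [h1]
    exact this j i hj hi (by omega)
  wlog hkl : k ≤ l generalizing k l
  · rw [h2]
    exact this l k hl hk (by omega)
  wlog hik : i ≤ k generalizing i j k l
  · rw [h4]
    exact this k l hk hl hkl i j hi hj hij (by omega)
  rcases le_total j k with a | a
  · exact hX i j k l hij a hkl hl
  rcases le_total j l with b | b
  · exact hY i k j l hik a b hl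
  · exact of_smul 1 one_ne_zero (W.add_mem (hX i k l j hik hkl b hj) (hY i k l j hik hkl b hj))
      (by rw [← h3 i k l j]; module)

theorem z0 (p : Fin 0 → Y → Prop) :
    Module.finrank ℚ (Submodule.span ℚ {y | ∃ i, p i y}) = 0 := by
  rw [show {y | ∃ i, p i y} = ∅ from Set.eq_empty_of_forall_notMem fun _ ⟨i, _⟩ => i.elim0,
    Submodule.span_empty, finrank_bot]

end DIM

open DIM in
theorem rowDIM : OfDIM := by
  refine ⟨fun Y _ _ n φ h => ?_, fun Y _ _ n φ h => ?_, fun Y _ _ n φ h1 h2 => ?_,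
    fun Y _ _ n φ h1 h2 h3 => ?_⟩
  all_goals
    rcases n with _ | n
    · rw [z0]
      exact le_rfl
    set e : ℕ → Fin (n + 1) := Fin.ofNat (n + 1)
    have he : ∀ i : Fin (n + 1), e i = i := fun i => Fin.ofNat_val_eq_self i
  · rw [← s2]
    refine Nat.mul_le_mul_left _ ((le_card ((range (n + 1)).sigma fun j => range (j + 1))
      (fun t => φ (e t.2) (e t.1)) fun W hW => ?_).trans (by simp [card_sigma]))
    rintro _ ⟨i, j, rfl⟩
    wlog hij : i ≤ j generalizing i j
    · rw [h]
      exact this j i (le_of_not_ge hij)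
    simpa only [he, SetLike.mem_coe] using
      hW ⟨j, i⟩ (by simpa [Nat.lt_succ_iff] using ⟨j.is_le, hij⟩)
  · rw [← s11]
    refine Nat.add_le_add_right (Nat.mul_le_mul_left _ ((le_card
      ((range (n + 1)).sigma fun j => range j)
      (fun t => φ (e t.2) (e t.1)) fun W hW => ?_).trans (by simp [card_sigma]))) _
    have h' : ∀ i j : Fin (n + 1), i < j → φ i j ∈ W := fun i j hij => by
      simpa only [he] using hW ⟨j, i⟩ (by simpa [Nat.lt_succ_iff] using ⟨j.is_le, hij⟩)
    rintro _ ⟨i, j, rfl⟩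
    rcases lt_trichotomy i j with hl | rfl | hl
    · exact h' i j hl
    · exact of_smul 2 two_ne_zero W.zero_mem (by rw [add_zero, ← h i i]; module)
    · exact of_smul 1 one_ne_zero (h' j i hl) (by rw [← h i j]; module)
  · rw [← s21]
    refine Nat.add_le_add_right (Nat.mul_le_mul_left _ ((le_card
      ((range (n + 1)).sigma fun j => Ico (j + 1) (n + 1) ×ˢ Ico j (n + 1))
      (fun t => φ (e t.2.1) (e t.1) (e t.2.2)) fun W hW => ?_).trans
        (by simp only [card_sigma, card_product, Nat.card_Ico, le_refl]))) _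
    rintro _ ⟨i, j, k, rfl⟩
    simpa only [he, SetLike.mem_coe] using m21 (W := W) (fun i j k => φ (e i) (e j) (e k))
      (fun _ _ _ => h1 ..) (fun _ _ _ => h2 ..) (fun i j k a b c d => hW ⟨j, i, k⟩ (by
        simp only [mem_sigma, mem_range, mem_product, mem_Ico]; omega)) i j k i.2 j.2 k.2
  · rw [← s22]
    refine Nat.add_le_add_right (Nat.mul_le_mul_left _ ((le_card
      ((range (n + 1)).sigma fun l => (range l).sigma fun i => Ico i l ×ˢ Ioc i l)
      (fun t => φ (e t.2.1) (e t.2.2.1) (e t.2.2.2) (e t.1)) fun W hW => ?_).trans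
        (by simp only [card_sigma, card_product, Nat.card_Ico, Nat.card_Ioc, le_refl]))) _
    rintro _ ⟨i, j, k, l, rfl⟩
    simpa only [he, SetLike.mem_coe] using m22 (W := W) (fun i j k l => φ (e i) (e j) (e k) (e l))
      (fun _ _ _ _ => h1 ..) (fun _ _ _ _ => h2 ..) (fun _ _ _ _ => h3 ..)
      (fun i j k l a b c d f => hW ⟨l, i, j, k⟩ (by
        simp only [mem_sigma, mem_range, mem_product, mem_Ico, mem_Ioc]; omega))
      i j k l i.2 j.2 k.2 l.2

end Pool.Agent.MP_00906f_gt.H91
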