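import Pool.Agent.MP_00906f_gt.H46.FG4
import Pool.Agent.MP_00906f_gt.H46.Stmt2

/-! Internal definitions for the upper bound on the first Betti number of the hyperelliptic
Torelli group. -/

namespace Pool.Agent.MP_00906f_gt.H91

open H46 IsNilpotent

/-- A braid group acting on a lattice, with a rational quotient `M` of the abelianised kernel. -/
structure Dat (G H M : Type) [Group G] [AddCommGroup H] [AddCommGroup M] [Module ℚ M]
    extends Sys G H where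
  hN : Even N
  h8 : 8 ≤ N
  hB : ∀ g, g ∈ BB σ N
  hL : ∀ x, x ∈ toSys.L
  lift : ∀ (Q : Type) [Group Q] (τ : ℕ → Q), IsBF τ N → ∃ f : G →* Q, ∀ i, i < N → f (σ i) = τ i
  perm : G →* Equiv.Perm ℕ
  perm_σ : ∀ i, i < N → perm (σ i) = Equiv.swap i (i + 1)
  π : G →* Module.End ℚ M
  cl : G → M
  cl_mul : ∀ a ∈ ρ.ker, ∀ b ∈ ρ.ker, cl (a * b) = cl a + cl b
  π_cl : ∀ g, ∀ k ∈ ρ.ker, π g (cl k) = cl (g * k * g⁻¹)
  span : Submodule.span ℚ (cl '' ρ.ker) = ⊤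
  fin : Module.Finite ℚ M

/-- The braid carrying the arcs `0, 1` to the arcs `2, 3`. -/
def g0 {G : Type} [Group G] (σ : ℕ → G) : G := σ 1 * σ 2 * σ 3 * σ 0 * σ 1 * σ 2

def w1 {G : Type} [Group G] (σ : ℕ → G) : G := (σ 3)⁻¹ * (σ 4)⁻¹ * (σ 4)⁻¹ * (σ 3)⁻¹ * σ 2

def w2 {G : Type} [Group G] (σ : ℕ → G) : G := σ 3 * (σ 2)⁻¹

def w3 {G : Type} [Group G] (σ : ℕ → G) : G := (σ 4)⁻¹ * (σ 3)⁻¹ * σ 2

/-- The subgroup generated by the `σ i`, `i < N`, `i ≠ k`. -/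
def Par {G : Type} [Group G] (σ : ℕ → G) (N k : ℕ) : Subgroup G :=
  Subgroup.closure (σ '' {i | i < N ∧ i ≠ k})

/-- The normal closure of the squares of the generators. -/
def PP {G : Type} [Group G] (σ : ℕ → G) (N : ℕ) : Subgroup G :=
  Subgroup.closure {x | ∃ a : G, ∃ i, i < N ∧ x = a * σ i ^ 2 * a⁻¹}

namespace Dat

variable {G H M : Type} [Group G] [AddCommGroup H] [AddCommGroup M] [Module ℚ M] (D : Dat G H M)

def t3 : M := D.cl (T3 D.σ)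

def t5 : M := D.cl (T5 D.σ)

/-- The span of the orbit of `t3`. -/
def MU : Submodule ℚ M := Submodule.span ℚ (Set.range fun g => D.π g D.t3)

/-- Vectors fixed by the first generator. -/
def Fx (m : M) : Prop := D.π (D.σ 0) m = m

open Classical in
/-- A group element acting by `E l 0`. -/
noncomputable def fE (l : H) : G :=
  if h : ∃ f : G, ∀ x, D.ρ f x = D.toSys.E l 0 x then h.choose else 1

noncomputable def τ (l : H) : Module.End ℚ M := D.π (D.fE l)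

/-- The image of the first `k + 1` points. -/
def lab (k : ℕ) (g : G) : Finset ℕ := (Finset.range (k + 1)).image (D.perm g)

/-- The quotient by an invariant subspace. -/
def quot (S : Submodule ℚ M) (hS : ∀ g, ∀ m ∈ S, D.π g m ∈ S) : Dat G H (M ⧸ S) where
  toSys := D.toSys
  hN := D.hN
  h8 := D.h8
  hB := D.hB
  hL := D.hL
  lift := D.lift
  perm := D.perm
  perm_σ := D.perm_σ
  π :=
    { toFun := fun g => S.mapQ S (D.π g) (fun m hm => hS g m hm)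
      map_one' := by
        ext m
        simp
      map_mul' := fun a b => by
        ext m
        simp }
  cl := fun k => S.mkQ (D.cl k)
  cl_mul := fun a ha b hb => by rw [D.cl_mul a ha b hb, map_add]
  π_cl := fun g k hk => by
    rw [← D.π_cl g k hk]
    rfl
  span := by
    have h : (fun k => S.mkQ (D.cl k)) '' (D.ρ.ker : Set G) = S.mkQ '' (D.cl '' D.ρ.ker) := by
      rw [Set.image_image]
    rw [h, ← Submodule.map_span, D.span, Submodule.map_top, Submodule.range_mkQ]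
  fin := by
    have := D.fin
    infer_instance

theorem quot_π (S : Submodule ℚ M) (hS : ∀ g, ∀ m ∈ S, D.π g m ∈ S) (g : G) (m : M) :
    (D.quot S hS).π g (S.mkQ m) = S.mkQ (D.π g m) := rfl

theorem quot_t3 (S : Submodule ℚ M) (hS : ∀ g, ∀ m ∈ S, D.π g m ∈ S) :
    (D.quot S hS).t3 = S.mkQ D.t3 := rfl

theorem quot_t5 (S : Submodule ℚ M) (hS : ∀ g, ∀ m ∈ S, D.π g m ∈ S) :
    (D.quot S hS).t5 = S.mkQ D.t5 := rfl

end Dat

/-- A finite dimensional module over the symplectic Lie algebra of `E`; `B a b` acts on `E` by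
`x ↦ ω x a • b + ω x b • a`. -/
structure Sp (E M : Type) [AddCommGroup E] [Module ℚ E] [AddCommGroup M] [Module ℚ M] where
  ω : E →ₗ[ℚ] E →ₗ[ℚ] ℚ
  B : E →ₗ[ℚ] E →ₗ[ℚ] Module.End ℚ M
  alt : ∀ x, ω x x = 0
  nd : ∀ x, x ≠ 0 → ∃ y, ω x y = 1
  symm : ∀ a b, B a b = B b a
  br : ∀ a b c d, B a b * B c d - B c d * B a b =
    ω c a • B b d + ω c b • B a d + ω d a • B c b + ω d b • B c a
  fin : Module.Finite ℚ M

namespace Sp

variable {E M : Type} [AddCommGroup E] [Module ℚ E] [AddCommGroup M] [Module ℚ M] (S : Sp E M)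

def act (a b x : E) : E := S.ω x a • b + S.ω x b • a

/-- The product of the `B x ξ`, `ξ ∈ l`. -/
def P (x : E) (l : List E) : Module.End ℚ M := (l.map (S.B x)).prod

def Stab (U : Submodule ℚ M) : Prop := ∀ a b, ∀ m ∈ U, S.B a b m ∈ U

/-- `q` is killed by the stabiliser of the plane spanned by `x, y`. -/
def Sph (x y : E) (q : M) : Prop :=
  S.B x x q = 0 ∧ S.B x y q = 0 ∧ S.B y y q = 0 ∧
    ∀ w w', S.ω x w = 0 → S.ω y w = 0 → S.ω x w' = 0 → S.ω y w' = 0 → S.B w w' q = 0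

def DegOn (U : Submodule ℚ M) (d : ℕ) : Prop :=
  S.Stab U ∧ ∀ v, ∀ m ∈ U, (S.B v v ^ (d + 1)) m = 0

end Sp

/-- The symplectic Lie algebra action extending the fourth powers of the twists. -/
structure Lie {G H M : Type} [Group G] [AddCommGroup H] [AddCommGroup M] [Module ℚ M]
    (D : Dat G H M) (E : Type) [AddCommGroup E] [Module ℚ E] extends Sp E M where
  ι : H →+ E
  ω_ι : ∀ x y, ω (ι x) (ι y) = (D.ω x y : ℚ)
  top : Submodule.span ℚ (Set.range ι) = ⊤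
  ρ : G →* Module.End ℚ E
  ρ_ι : ∀ g x, ρ g (ι x) = ι (D.ρ g x)
  eqv : ∀ g a b, D.π g * B a b = B (ρ g a) (ρ g b) * D.π g
  four : D.π (D.σ 0 ^ 4) = exp ((2 : ℚ) • B (ι (D.c 0)) (ι (D.c 0)))

namespace Lie

variable {G H M E : Type} [Group G] [AddCommGroup H] [AddCommGroup M] [Module ℚ M]
  [AddCommGroup E] [Module ℚ E] {D : Dat G H M} (L : Lie D E)

def c (i : ℕ) : E := L.ι (D.c i)

/-- The degree of the module spanned by the orbit of `t3` is at most `d`. -/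
def Deg (d : ℕ) : Prop := L.toSp.DegOn D.MU d

/-- The vector `x₁ c₂ + x₂ c₃ + x₃ c₄`. -/
def vec (x : ℚ × ℚ × ℚ) : E := x.1 • L.c 2 + x.2.1 • L.c 3 + x.2.2 • L.c 4

/-- The four projections along `c₂ + c₄`. -/
def p0 (x : ℚ × ℚ × ℚ) : E := L.vec x - x.1 • (L.c 2 + L.c 4)
def p1 (x : ℚ × ℚ × ℚ) : E := L.vec x - (x.1 - x.2.1) • (L.c 2 + L.c 4)
def p2 (x : ℚ × ℚ × ℚ) : E := L.vec x - (x.2.2 - x.2.1) • (L.c 2 + L.c 4)
def p3 (x : ℚ × ℚ × ℚ) : E := L.vec x - x.2.2 • (L.c 2 + L.c 4)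

/-- The top vectors. -/
def F (l : List E) : M := L.toSp.P (L.c 0) l D.t3

end Lie

/-- The factorisation of `π` into an algebraic part `θ` and a part `ς` commuting with the Lie
algebra. -/
structure Th {G H M E : Type} [Group G] [AddCommGroup H] [AddCommGroup M] [Module ℚ M]
    [AddCommGroup E] [Module ℚ E] {D : Dat G H M} (L : Lie D E) where
  θ : G →* Module.End ℚ M
  ς : G →* Module.End ℚ M
  θ_σ : ∀ i, i < D.N → θ (D.σ i) = exp ((1 / 2 : ℚ) • L.B (L.c i) (L.c i))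
  fac : ∀ g, D.π g = ς g * θ g
  ς_B : ∀ g a b, ς g * L.B a b = L.B a b * ς g
  θ_B : ∀ g a b, θ g * L.B a b = L.B (L.ρ g a) (L.ρ g b) * θ g
  ς_θ : ∀ g h, ς g * θ h = θ h * ς g
  θ_stab : ∀ U, L.toSp.Stab U → ∀ g, ∀ m ∈ U, θ g m ∈ U
  θ_t3 : ∀ g ∈ Par D.σ D.N 2, θ g D.t3 = D.t3
  ς_t3 : ∀ g ∈ Par D.σ D.N 2, ς g D.t3 = D.t3
  ς_MU : ∀ g, ∀ m ∈ D.MU, ς g m ∈ D.MU
  pure : ∀ g, D.perm g = 1 → ∀ a b m, ς g (L.B a b m) = L.B a b m
  int : ∀ Z ∈ Submonoid.closure {u : Module.End ℚ M | ∃ (s : ℚ) (a b : E),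
      a ∈ Submodule.span ℚ (L.c '' {i | i < 4}) ∧ b ∈ Submodule.span ℚ (L.c '' {i | i < 4}) ∧
      L.ω a b = 0 ∧ u = exp (s • L.B a b)},
    (∀ a b, Z * L.B a b = L.B a b * Z) → Z = 1

/-- The pairs `i < j ≤ N`. -/
def pairs (N : ℕ) : Finset (ℕ × ℕ) :=
  (Finset.range (N + 1) ×ˢ Finset.range (N + 1)).filter fun p => p.1 < p.2

/-- A subset of `{0, …, N}` with `k` elements. -/
def Val (N k : ℕ) (I : Finset ℕ) : Prop := I ⊆ Finset.range (N + 1) ∧ I.card = k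

/-- Six different points of `{0, …, N}`. -/
def Six (N a b p q r t : ℕ) : Prop :=
  [a, b, p, q, r, t].Nodup ∧ ∀ x ∈ [a, b, p, q, r, t], x ≤ N

/-- The combinatorial data left when the fourth powers of the twists act trivially. -/
structure FA (M : Type) [AddCommGroup M] [Module ℚ M] where
  N : ℕ
  h8 : 8 ≤ N
  s : ℕ → ℕ → Module.End ℚ M
  T : Finset ℕ → Set M
  A : Finset ℕ → Set M
  symm : ∀ i j, s i j = s j i
  sq : ∀ i j, i ≠ j → i ≤ N → j ≤ N → s i j * s i j = 1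
  comm : ∀ i j k l, i ≠ j → i ≤ N → j ≤ N → k ≠ l → k ≤ N → l ≤ N →
    s i j * s k l = s k l * s i j
  orbT : ∀ I, ∀ x ∈ T I, ∀ y ∈ T I,
    ∃ u ∈ Submonoid.closure {u | ∃ i j, i ≠ j ∧ i ≤ N ∧ j ≤ N ∧ u = s i j}, y = u x
  orbA : ∀ J, ∀ x ∈ A J, ∀ y ∈ A J,
    ∃ u ∈ Submonoid.closure {u | ∃ i j, i ≠ j ∧ i ≤ N ∧ j ≤ N ∧ u = s i j}, y = u x
  fixT : ∀ I, ∀ x ∈ T I, ∀ i j, i ≠ j → i ≤ N → j ≤ N → (i ∈ I ↔ j ∈ I) → s i j x = x
  fixA : ∀ J, ∀ x ∈ A J, ∀ i j, i ≠ j → i ≤ N → j ≤ N → (i ∈ J ↔ j ∈ J) → s i j x = x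
  parT : ∀ I, ∀ x ∈ T I, ∀ j, j ≤ N → j ∉ I → ∀ l : List ℕ, l.Nodup → l.toFinset = I →
    (l.map fun i => s i j).prod x = x
  parA : ∀ J, ∀ x ∈ A J, ∀ j, j ≤ N → j ∉ J → ∀ l : List ℕ, l.Nodup → l.toFinset = J →
    (l.map fun i => s i j).prod x = x
  valT : ∀ I, ∀ x ∈ T I, Val N 3 I
  valA : ∀ J, ∀ x ∈ A J, Val N 5 J
  rel : ∀ a b p q r t, Six N a b p q r t →
    ∃ α0 ∈ A {a, b, q, r, t}, ∃ α1 ∈ A {a, b, p, r, t}, ∃ α2 ∈ A {a, b, p, q, t},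
    ∃ α3 ∈ A {a, b, p, q, r}, ∃ β0 ∈ T {q, r, t}, ∃ β1 ∈ T {p, r, t}, ∃ β2 ∈ T {p, q, t},
    ∃ β3 ∈ T {p, q, r}, ∃ e0 ∈ T {a, b, p}, ∃ e1 ∈ T {a, b, q}, ∃ e2 ∈ T {a, b, r},
    ∃ e3 ∈ T {a, b, t}, α0 - α1 + α2 - α3 - (β0 - β1 + β2 - β3) = e3 + e1 - e2 - e0
  gen : Submodule.span ℚ ((⋃ I, T I) ∪ ⋃ J, A J) = ⊤
  aT : ∀ J, ∀ x ∈ A J, ∀ i j, i ≠ j → i ≤ N → j ≤ N →
    s i j x - x ∈ Submodule.span ℚ (⋃ I, T I)
  fin : Module.Finite ℚ M

/-- The edges of the graph `χ`. -/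
def ed (χ : Finset (ℕ × ℕ)) (i j : ℕ) : Prop := (i, j) ∈ χ ∨ (j, i) ∈ χ

open Classical in
/-- The degree of the vertex `i`. -/
noncomputable def dg (N : ℕ) (χ : Finset (ℕ × ℕ)) (i : ℕ) : ℕ :=
  ((Finset.range (N + 1)).filter fun j => ed χ i j).card

/-- The graph `χ` with the vertex `N + 1` joined to the vertices of odd degree. -/
def adjX (N : ℕ) (χ : Finset (ℕ × ℕ)) (i j : ℕ) : Prop :=
  ed χ i j ∨ (j = N + 1 ∧ i ≤ N ∧ Odd (dg N χ i)) ∨ (i = N + 1 ∧ j ≤ N ∧ Odd (dg N χ j))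

/-- The graph is a four-cycle. -/
def Cyc (N : ℕ) (adj : ℕ → ℕ → Prop) : Prop :=
  ∃ u b w c, [u, b, w, c].Nodup ∧ (∀ x ∈ [u, b, w, c], x ≤ N + 1) ∧
    ∀ i j, adj i j ↔ ((i = u ∨ i = w) ∧ (j = b ∨ j = c)) ∨ ((j = u ∨ j = w) ∧ (i = b ∨ i = c))

/-- Every edge has exactly one end in `I`. -/
def Cut (adj : ℕ → ℕ → Prop) (I : Finset ℕ) : Prop := ∀ u v, adj u v → (u ∈ I ↔ v ∉ I)

end Pool.Agent.MP_00906f_gt.H91
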