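import Pool.Agent.MP_00906f_gt.H91.Spec

/-! Row F1: the commuting involutions. -/

namespace Pool.Agent.MP_00906f_gt.H91

open H46

namespace F1

theorem grp {Q : Type} [Group Q] (a b : Q) (h : a * b * a = b * a * b) (h4 : a ^ 4 = 1)
    (h6 : (a * b) ^ 6 = 1) : a ^ 2 * b ^ 2 = b ^ 2 * a ^ 2 := by
  obtain ⟨d, hd⟩ : ∃ d, d = a * b * a := ⟨_, rfl⟩
  have da : d * a = b * d := by rw [hd]; nth_rw 1 [h]; group
  have db : d * b = a * d := by rw [hd]; nth_rw 2 [h]; rw [← h]; nth_rw 2 [h]; group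
  have za : Commute (d * d) a := by
    rw [Commute, SemiconjBy, mul_assoc, da, ← mul_assoc, db, mul_assoc]
  have zb : Commute (d * d) b := by
    rw [Commute, SemiconjBy, mul_assoc, db, ← mul_assoc, da, mul_assoc]
  have z2 : d * d * (d * d) = 1 := by
    have : d * d = (a * b) ^ 3 := by nth_rw 2 [hd]; rw [h, hd]; simp only [pow_succ]; group
    rw [this, ← pow_add, h6]
  have b4 : b ^ 4 = 1 := by rw [eq_mul_inv_of_mul_eq da.symm, conj_pow, h4]; simp
  have e : d * d = a ^ 2 * (b * a ^ 2 * b⁻¹) * b ^ 2 := by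
    rw [eq_mul_inv_of_mul_eq za.eq, hd]; simp [pow_succ, mul_assoc]
  have zA := za.pow_right 2
  have zB := zb.pow_right 2
  have c2 : b * a ^ 2 * b⁻¹ * (b * a ^ 2 * b⁻¹) = 1 := by
    rw [← sq, conj_pow, ← pow_mul, h4]; simp
  have A2 : a ^ 2 * a ^ 2 = 1 := by rw [← pow_add, h4]
  have B2 : b ^ 2 * b ^ 2 = 1 := by rw [← pow_add, b4]
  generalize d * d = z at *
  generalize b * a ^ 2 * b⁻¹ = C at *
  generalize a ^ 2 = A at *
  generalize b ^ 2 = B at *
  have hC : C = z * (A * B) := by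
    rw [← mul_assoc, zA.eq, e]
    calc C = (A * A) * C * (B * B) := by rw [A2, B2]; simp
      _ = _ := by group
  rw [hC, mul_assoc, ← mul_assoc (A * B), ← (zA.mul_right zB).eq, mul_assoc z, ← mul_assoc, z2,
    one_mul] at c2
  rw [eq_inv_of_mul_eq_one_left c2, mul_inv_rev, inv_eq_of_mul_eq_one_left A2,
    inv_eq_of_mul_eq_one_left B2]

variable {G H M : Type} [Group G] [AddCommGroup H] [AddCommGroup M] [Module ℚ M] {D : Dat G H M}

/-- `a` acts as the squared transvection in `v`. -/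
def Tw (D : Dat G H M) (v : H) (a : G) : Prop := ∀ x, D.ρ a x = x + (2 * D.ω x v) • v

open Classical in
/-- The operator of the squared transvection. -/
noncomputable def sv (D : Dat G H M) (v : H) : Module.End ℚ M :=
  if h : ∃ a, Tw D v a then D.π h.choose else 1

theorem Tw.conj {v : H} {a : G} (h : Tw D v a) (g : G) : Tw D (D.ρ g v) (g * a * g⁻¹) := fun x => by
  rw [D.ρ_mul, D.ρ_mul, h, map_add, map_zsmul, D.ρ_ρ_inv, ← D.ρ_ω (D.hB g), D.ρ_ρ_inv]

theorem Tw.neg {v : H} {a : G} (h : Tw D v a) : Tw D (-v) a := fun x => by simp [h x]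

theorem Tw_σ {i : ℕ} (hi : i < D.N) : Tw D (D.c i) (D.σ i ^ 2) := fun x => by
  rw [← zpow_natCast, D.ρσ_zpow hi]; rfl

theorem cancel {g : G} {x y : Module.End ℚ M} (h : x * D.π g = y * D.π g) : x = y :=
  ((Group.isUnit g).map D.π).mul_right_cancel h

variable (K : Kit1 D) (h4 : D.π (D.σ 0 ^ 4) = 1)
include K

theorem sv_eq {v : H} {a : G} (h : Tw D v a) : sv D v = D.π a := by
  have h' : ∃ a, Tw D v a := ⟨a, h⟩
  rw [sv, dif_pos h']
  exact K.π_congr _ _ (LinearMap.ext fun x => (h'.choose_spec x).trans (h x).symm)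

theorem ex {v : H} (hv : D.V v) : ∃ a, Tw D v a := by
  obtain ⟨g, rfl⟩ := K.trans v hv
  exact ⟨_, (Tw_σ (by have := D.h8; omega)).conj g⟩

theorem sv_neg (v : H) : sv D (-v) = sv D v := by
  by_cases h : ∃ a, Tw D v a
  · obtain ⟨a, h⟩ := h
    rw [sv_eq K h, sv_eq K h.neg]
  · rw [sv, sv, dif_neg h, dif_neg fun ⟨a, h'⟩ => h ⟨a, by simpa using h'.neg⟩]

theorem sv_eqv {v : H} (hv : D.V v) (g : G) : D.π g * sv D v = sv D (D.ρ g v) * D.π g := by
  obtain ⟨a, h⟩ := ex K hv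
  rw [sv_eq K h, sv_eq K (h.conj g), ← map_mul, ← map_mul, inv_mul_cancel_right]

theorem comm0 {v u : H} (hv : D.V v) (hu : D.V u) (h : D.ω v u = 0) :
    sv D u * sv D v = sv D v * sv D u := by
  obtain ⟨a, ha⟩ := ex K hu
  rw [sv_eq K ha, sv_eqv K hv, ha, h]; simp

include h4

theorem sv_sq {v : H} (hv : D.V v) : sv D v * sv D v = 1 := by
  obtain ⟨g, rfl⟩ := K.trans v hv
  rw [sv_eq K ((Tw_σ (by have := D.h8; omega)).conj g), ← map_mul, ← sq, conj_pow, ← pow_mul,
    map_mul, map_mul, h4, mul_one, ← map_mul, mul_inv_cancel, map_one]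

theorem comm1 {v u : H} (hv : D.V v) (hu : D.V u) (h : D.ω v u = 1 ∨ D.ω v u = -1) :
    sv D v * sv D u = sv D u * sv D v := by
  have h8 := D.h8
  wlog h1 : D.ω v u = 1 generalizing u
  · rw [← sv_neg K u]
    exact this (D.V_neg hu) (by rw [map_neg]; omega) (by rw [map_neg]; omega)
  obtain ⟨g, rfl, rfl⟩ := K.adj v u hv hu h1
  have h6 : D.π (T3 D.σ) = 1 := (K.π_congr _ 1 (by rw [map_one]; exact K.T3_ker)).trans (map_one _)
  have := grp (D.π.toHomUnits (D.σ 0)) (D.π.toHomUnits (D.σ 1))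
    (by simp only [← map_mul, D.bf.braid 0 (by omega)])
    (Units.ext (by rw [← map_pow]; exact h4)) (Units.ext (by rw [← map_mul, ← map_pow]; exact h6))
  have e : D.π (D.σ 0 ^ 2) * D.π (D.σ 1 ^ 2) = D.π (D.σ 1 ^ 2) * D.π (D.σ 0 ^ 2) := by
    simpa using congrArg Units.val this
  rw [sv_eq K ((Tw_σ (by omega)).conj g), sv_eq K ((Tw_σ (by omega)).conj g), ← map_mul,
    ← map_mul, conj_mul, conj_mul]
  simp only [map_mul, e]

theorem sv_fix {v u : H} (hv : D.V v) (hu : D.V u) (h : D.ω v u = 1 ∨ D.ω v u = -1) {a : G} (ha : Tw D u a) :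
    sv D (D.ρ a v) = sv D v :=
  cancel (g := a) (by rw [← sv_eqv K hv, ← sv_eq K ha, comm1 K h4 hv hu h])

theorem comm2 {v u w : H} (hv : D.V v) (hu : D.V u) (hw : D.V w) (h : D.ω v u = 1 ∨ D.ω v u = -1)
    (h' : D.ω u w = 1 ∨ D.ω u w = -1) (h2 : D.ω v w = 2 ∨ D.ω v w = -2) : sv D v * sv D w = sv D w * sv D v := by
  obtain ⟨a, ha⟩ := ex K hu
  have e : D.ω (D.ρ a v) w = D.ω v w + 2 * D.ω v u * D.ω u w := by simp [ha v]
  have e' : D.ω (D.ρ a w) v = -D.ω v w + 2 * D.ω v u * D.ω u w := by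
    simp [ha w, D.skew w, D.skew u v]; ring
  by_cases h0 : D.ω (D.ρ a v) w = 0
  · rw [← sv_fix K h4 hv hu h ha, comm0 K (D.ρ_V (D.hB a) hv) hw h0]
  · rw [← sv_fix K h4 hw hu (by rw [D.skew]; omega) ha]
    refine comm0 K (D.ρ_V (D.hB a) hw) hv ?_
    rcases h with h | h <;> rcases h' with h' | h' <;> rw [h, h'] at e e' <;> omega

omit K h4

/-- Partial sums of the chain. -/
def f (D : Dat G H M) : ℕ → H
  | 0 => 0
  | k + 1 => f D k + D.c k

theorem ω_fc {a k : ℕ} (ha : a ≤ D.N) (hk : k < D.N) : D.ω (f D a) (D.c k) =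
    (if a = k ∨ a = k + 1 then 1 else 0) - if k = 0 then 1 else 0 := by
  induction a with
  | zero => simp [f, eq_comm]
  | succ a ih =>
    rw [f, map_add, LinearMap.add_apply, ih (by omega), D.lat_ωcc (by omega) hk]
    split_ifs <;> omega

/-- The sign of `b - a`. -/
def sg (a b : ℕ) : ℤ := if a < b then 1 else if b < a then -1 else 0

theorem ω_ff {a b : ℕ} (ha : a ≤ D.N) (hb : b ≤ D.N) : D.ω (f D a) (f D b) =
    sg a b - (if a = 0 then 1 else 0) + if b = 0 then 1 else 0 := by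
  induction b with
  | zero => rw [f, map_zero, sg]; split_ifs <;> omega
  | succ b ih =>
    rw [f, map_add, ih (by omega), ω_fc ha (by omega), sg, sg, if_neg b.succ_ne_zero]
    split_ifs <;> omega

theorem ω_ee {i j k l : ℕ} (hi : i ≤ D.N) (hj : j ≤ D.N) (hk : k ≤ D.N) (hl : l ≤ D.N) :
    D.ω (f D j - f D i) (f D l - f D k) = sg j l - sg j k - sg i l + sg i k := by
  simp only [map_sub, LinearMap.sub_apply, ω_ff, hi, hj, hk, hl]
  ring

theorem ρ_e {i j k : ℕ} (hi : i ≤ D.N) (hj : j ≤ D.N) (hk : k < D.N) (h1 : i ≠ k + 1)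
    (h2 : j ≠ k + 1) : D.ρ (D.σ k) (f D j - f D i) =
      f D (Equiv.swap k (k + 1) j) - f D (Equiv.swap k (k + 1) i) := by
  rw [D.ρσ k hk, map_sub, LinearMap.sub_apply, ω_fc hi hk, ω_fc hj hk]
  simp only [Equiv.swap_apply_def, h1, h2, if_false, or_false]
  by_cases a : i = k <;> by_cases b : j = k <;> simp [a, b, f] <;> module

theorem V_e {i j : ℕ} (hij : i ≠ j) (hi : i ≤ D.N) (hj : j ≤ D.N) : D.V (f D j - f D i) := by
  wlog h : i < j generalizing i j
  · simpa using D.V_neg (this hij.symm hj hi (by omega))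
  induction j, h using Nat.le_induction with
  | base => simpa [f] using D.V_c D.hN hj
  | succ j h ih =>
    have := D.ρ_V (D.hB (D.σ j)) (ih (by omega) (by omega))
    rwa [ρ_e hi (by omega) hj (by omega) (by omega), Equiv.swap_apply_left,
      Equiv.swap_apply_of_ne_of_ne (by omega) (by omega)] at this

include K h4 in
theorem sv_σ {i j k : ℕ} (hij : i ≠ j) (hi : i ≤ D.N) (hj : j ≤ D.N) (hk : k < D.N) :
    sv D (D.ρ (D.σ k) (f D j - f D i)) =
      sv D (f D (Equiv.swap k (k + 1) j) - f D (Equiv.swap k (k + 1) i)) := by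
  wlog h1 : i ≠ k + 1 generalizing i j
  · rw [← sv_neg K, ← map_neg, neg_sub, this hij.symm hj hi (by omega), ← sv_neg K, neg_sub]
  by_cases h2 : j = k + 1
  · subst h2
    by_cases h3 : i = k
    · subst h3
      rw [← sv_neg K]
      simp [f, D.ρσ i hk, D.alt]
    · have e := ρ_e hi hk.le hk h1 (by omega)
      rw [Equiv.swap_apply_left, Equiv.swap_apply_of_ne_of_ne h3 h1] at e
      rw [Equiv.swap_apply_right, Equiv.swap_apply_of_ne_of_ne h3 h1, ← e, ← D.ρ_mul, ← sq]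
      refine sv_fix K h4 (V_e h3 hi hk.le) (D.V_c D.hN hk) ?_ (Tw_σ hk)
      simp [ω_fc hi hk, ω_fc hk.le hk, h1, h3]
  · rw [ρ_e hi hj hk h1 h2]

end F1

open F1

theorem rowF1 : OfF1 := by
  intro hK G H M _ _ _ _ D h4
  have K := hK G H M D
  refine ⟨fun i j => sv D (f D j - f D i), fun i j => by rw [← sv_neg K, neg_sub],
    fun i j hij hi hj => sv_sq K h4 (V_e hij hi hj), fun i j k l hij hi hj hkl hk hl => ?_,
    fun g => ?_, fun i hi => by simpa [f] using sv_eq K (Tw_σ hi)⟩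
  · have v1 := V_e hij hi hj
    have v2 := V_e hkl hk hl
    by_cases h0 : D.ω (f D j - f D i) (f D l - f D k) = 0
    · exact (comm0 K v1 v2 h0).symm
    by_cases h1 : D.ω (f D j - f D i) (f D l - f D k) = 1 ∨ D.ω (f D j - f D i) (f D l - f D k) = -1
    · exact comm1 K h4 v1 v2 h1
    have e := ω_ee hi hj hk hl
    have e1 := ω_ee hi hj hk hj
    have e2 := ω_ee hk hj hk hl
    unfold sg at e e1 e2
    have hd : k ≠ j ∧ i ≠ k ∧ j ≠ l := by split_ifs at e <;> omega
    refine comm2 K h4 v1 (V_e hd.1 hk hj) v2 ?_ ?_ ?_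
    · split_ifs at e1 <;> omega
    · split_ifs at e2 <;> omega
    · split_ifs at e <;> omega
  · suffices h : (∀ j, D.perm g j ≤ D.N ↔ j ≤ D.N) ∧ ∀ i j, i ≠ j → i ≤ D.N → j ≤ D.N →
        D.π g * sv D (f D j - f D i) = sv D (f D (D.perm g j) - f D (D.perm g i)) * D.π g from h.2
    have hg := D.hB g
    induction hg using Subgroup.closure_induction with
    | mem x hx =>
      obtain ⟨k, hk, rfl⟩ := hx
      rw [D.perm_σ k hk]
      refine ⟨fun j => ?_, fun i j hij hi hj => by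
        rw [sv_eqv K (V_e hij hi hj), sv_σ K h4 hij hi hj hk]⟩
      have : k < D.N := hk
      rw [Equiv.swap_apply_def]; split_ifs <;> omega
    | one => simp
    | mul x y _ _ hx hy =>
      simp only [map_mul, Equiv.Perm.mul_apply]
      exact ⟨fun j => (hx.1 _).trans (hy.1 j), fun i j hij hi hj => by
        rw [mul_assoc, hy.2 i j hij hi hj, ← mul_assoc, hx.2 _ _ ((D.perm y).injective.ne hij)
          ((hy.1 i).2 hi) ((hy.1 j).2 hj), mul_assoc]⟩
    | inv x _ hx =>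
      have b : ∀ j, D.perm x⁻¹ j ≤ D.N ↔ j ≤ D.N := fun j => by rw [← hx.1]; simp
      refine ⟨b, fun i j hij hi hj => cancel (D := D) (g := x) ?_⟩
      have := hx.2 _ _ ((D.perm x⁻¹).injective.ne hij) ((b i).2 hi) ((b j).2 hj)
      simp only [map_inv, Equiv.Perm.coe_inv, Equiv.apply_symm_apply] at this
      rw [mul_assoc, map_inv D.perm, Equiv.Perm.coe_inv, ← this, ← mul_assoc, mul_assoc _ (D.π x⁻¹), ← map_mul,
        inv_mul_cancel, map_one, one_mul, mul_one]

end Pool.Agent.MP_00906f_gt.H91
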