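import Pool.Agent.MP_00906f_gt.H91.Spec
import Pool.Agent.MP_00906f_gt.H46.BW

/-! The combinatorial data when the fourth powers act trivially. -/

namespace Pool.Agent.MP_00906f_gt.H91

open H46 Equiv

namespace F2

variable {G H M : Type} [Group G] [AddCommGroup H] [AddCommGroup M] [Module ℚ M] {D : Dat G H M}
  {s : ℕ → ℕ → Module.End ℚ M}

/-- The labelled orbit. -/
def Orb (D : Dat G H M) (k : ℕ) (t : M) (I : Finset ℕ) : Set M :=
  {x | ∃ g, D.lab k g = I ∧ x = D.π g t}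

theorem cj (hI : Inv D s) (a : G) {i : ℕ} (hi : i < D.N) :
    D.π (a * D.σ i ^ 2 * a⁻¹) = s (D.perm a i) (D.perm a (i + 1)) := by
  rw [map_mul, map_mul, ← hI.σ_sq i hi, hI.eqv a i (i + 1) (by omega) (by omega) (by omega),
    mul_assoc, ← map_mul, mul_inv_cancel, map_one, mul_one]

theorem pp (hC : Cox D) (hI : Inv D s) (a : G) (ha : D.perm a = 1) :
    D.π a ∈ Submonoid.closure {u | ∃ i j, i ≠ j ∧ i ≤ D.N ∧ j ≤ D.N ∧ u = s i j} := by
  have h := hC.ker a ha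
  clear ha
  have h1 : ∀ (b : G) (i : ℕ), i < D.N → D.perm b i ≠ D.perm b (i + 1) ∧ D.perm b i ≤ D.N ∧
      D.perm b (i + 1) ≤ D.N := fun b i hi =>
    ⟨(D.perm b).injective.ne (by omega), (hC.bnd _ _).2 (by omega), (hC.bnd _ _).2 (by omega)⟩
  induction h using Subgroup.closure_induction'' with
  | mem x hx =>
    obtain ⟨b, i, hi, rfl⟩ := hx
    obtain ⟨h2, h3, h4⟩ := h1 b i hi
    exact Submonoid.subset_closure ⟨_, _, h2, h3, h4, cj hI b hi⟩
  | inv_mem x hx =>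
    obtain ⟨b, i, hi, rfl⟩ := hx
    obtain ⟨h2, h3, h4⟩ := h1 b i hi
    refine Submonoid.subset_closure ⟨_, _, h2, h3, h4, ?_⟩
    rw [← mul_one (D.π _), ← hI.sq _ _ h2 h3 h4, ← mul_assoc]
    nth_rw 1 [← cj hI b hi]
    rw [← map_mul, inv_mul_cancel, map_one, one_mul]
  | one => rw [map_one]; exact one_mem _
  | mul x y _ _ hx hy => rw [map_mul]; exact mul_mem hx hy

theorem mem_lab (k : ℕ) (g : G) (i : ℕ) : D.perm g i ∈ D.lab k g ↔ i ≤ k := by
  rw [Dat.lab, (D.perm g).injective.mem_finset_image, Finset.mem_range, Nat.lt_succ_iff]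

theorem app (g h : G) (t : M) : D.π (g * h) t = D.π g (D.π h t) := by rw [map_mul]; rfl

variable {k : ℕ} {t : M}

theorem orb (hC : Cox D) (hI : Inv D s) (hk : k < D.N) (ht : ∀ g ∈ Par D.σ D.N k, D.π g t = t)
    (I : Finset ℕ) : ∀ x ∈ Orb D k t I, ∀ y ∈ Orb D k t I,
    ∃ u ∈ Submonoid.closure {u | ∃ i j, i ≠ j ∧ i ≤ D.N ∧ j ≤ D.N ∧ u = s i j}, y = u x := by
  rintro _ ⟨g, rfl, rfl⟩ _ ⟨g', h, rfl⟩
  obtain ⟨a, ha, e⟩ := hC.par k (g'⁻¹ * g) hk fun j hj => by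
    rw [← mem_lab (D := D) k g', h, ← Perm.mul_apply, ← map_mul, mul_inv_cancel_left, mem_lab]
    exact hj
  refine ⟨_, pp hC hI (g' * a * g⁻¹) (by
    rw [map_mul, map_mul, e, ← map_mul, ← map_mul, mul_inv_cancel_left, mul_inv_cancel,
      map_one]), ?_⟩
  rw [← app, inv_mul_cancel_right, app, ht a ha]

theorem gen_mem {i : ℕ} (hi : i < D.N) (hk : i ≠ k) : D.σ i ∈ Par D.σ D.N k :=
  Subgroup.subset_closure ⟨i, ⟨hi, hk⟩, rfl⟩

theorem fix0 (hI : Inv D s) (ht : ∀ g ∈ Par D.σ D.N k, D.π g t = t) (i : ℕ) : ∀ n,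
    i + n + 1 ≤ D.N → (i ≤ k ↔ i + n + 1 ≤ k) → s i (i + n + 1) t = t
  | 0, h1, h2 => by
    rw [Nat.add_zero, hI.σ_sq i (by omega)]
    exact ht _ (pow_mem (gen_mem (by omega) (by omega)) 2)
  | n + 1, h1, h2 => by
    have h3 := ht _ (gen_mem (i := i + n + 1) (by omega) (by omega))
    have h4 := LinearMap.congr_fun
      (hI.eqv (D.σ (i + n + 1)) i (i + n + 1) (by omega) (by omega) (by omega)) t
    rw [D.perm_σ _ (by omega), swap_apply_left, swap_apply_of_ne_of_ne (by omega) (by omega),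
      Module.End.mul_apply, Module.End.mul_apply, fix0 hI ht i n (by omega) (by omega), h3] at h4
    exact h4.symm

theorem fix (hC : Cox D) (hI : Inv D s) (ht : ∀ g ∈ Par D.σ D.N k, D.π g t = t) (I : Finset ℕ) :
    ∀ x ∈ Orb D k t I, ∀ i j, i ≠ j → i ≤ D.N → j ≤ D.N → (i ∈ I ↔ j ∈ I) → s i j x = x := by
  rintro _ ⟨g, rfl, rfl⟩ i j h1 h2 h3 h4
  obtain ⟨i, rfl⟩ := (D.perm g).surjective i
  obtain ⟨j, rfl⟩ := (D.perm g).surjective j
  rw [mem_lab, mem_lab] at h4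
  rw [hC.bnd] at h2 h3
  have h5 : i ≠ j := fun h => h1 (by rw [h])
  rw [← Module.End.mul_apply, ← hI.eqv g i j h5 h2 h3, Module.End.mul_apply]
  congr 1
  rcases h5.lt_or_gt with h | h
  · obtain ⟨n, rfl⟩ := Nat.exists_eq_add_of_lt h
    exact fix0 hI ht i n h3 h4
  · obtain ⟨n, rfl⟩ := Nat.exists_eq_add_of_lt h
    rw [hI.symm]
    exact fix0 hI ht j n h2 h4.symm

theorem conj (hI : Inv D s) (g : G) {j : ℕ} (hj : j ≤ D.N) : ∀ l : List ℕ,
    (∀ i ∈ l, i ≠ j ∧ i ≤ D.N) → D.π g * (l.map fun i => s i j).prod =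
      (l.map fun i => s (D.perm g i) (D.perm g j)).prod * D.π g
  | [], _ => by simp
  | i :: l, h => by
    have h1 := h i List.mem_cons_self
    rw [List.map_cons, List.prod_cons, List.map_cons, List.prod_cons, ← mul_assoc,
      hI.eqv g i j h1.1 h1.2 hj, mul_assoc,
      conj hI g hj l fun a ha => h a (List.mem_cons_of_mem _ ha), mul_assoc]

theorem par0 (hI : Inv D s) (ht : ∀ g ∈ Par D.σ D.N k, D.π g t = t)
    (h0 : ((List.range (k + 1)).map fun i => s i (k + 1)).prod t = t) : ∀ n, k + 1 + n ≤ D.N →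
    ((List.range (k + 1)).map fun i => s i (k + 1 + n)).prod t = t
  | 0, _ => h0
  | n + 1, h1 => by
    have h3 := ht _ (gen_mem (i := k + 1 + n) (by omega) (by omega))
    have h4 := LinearMap.congr_fun (conj hI (D.σ (k + 1 + n)) (j := k + 1 + n) (by omega)
      (List.range (k + 1)) fun i hi => by have := List.mem_range.1 hi; omega) t
    rw [D.perm_σ _ (by omega), swap_apply_left, Module.End.mul_apply, Module.End.mul_apply,
      par0 hI ht h0 n (by omega), h3, List.map_congr_left (g := fun i => s i (k + 1 + n + 1))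
        fun i hi => by
          have := List.mem_range.1 hi
          rw [swap_apply_of_ne_of_ne (by omega) (by omega)]] at h4
    exact h4.symm

theorem par (hC : Cox D) (hI : Inv D s) (hk : k < D.N) (ht : ∀ g ∈ Par D.σ D.N k, D.π g t = t)
    (h0 : ((List.range (k + 1)).map fun i => s i (k + 1)).prod t = t) (I : Finset ℕ) :
    ∀ x ∈ Orb D k t I, ∀ j, j ≤ D.N → j ∉ I → ∀ l : List ℕ, l.Nodup → l.toFinset = I →
      (l.map fun i => s i j).prod x = x := by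
  rintro _ ⟨g, rfl, rfl⟩ j h1 h2 l h3 h4
  obtain ⟨j, rfl⟩ := (D.perm g).surjective j
  rw [mem_lab] at h2
  rw [hC.bnd] at h1
  have hp : ((List.range (k + 1)).map (D.perm g)).Perm l := by
    refine List.perm_of_nodup_nodup_toFinset_eq
      (List.nodup_range.map (D.perm g).injective) h3 ?_
    rw [h4]
    ext x
    simp [Dat.lab]
  have hr : ∀ i ∈ List.range (k + 1), i ≠ j ∧ i ≤ D.N := fun i hi => by
    have := List.mem_range.1 hi
    omega
  rw [← (hp.map fun i => s i (D.perm g j)).prod_eq' ?_, List.map_map, ← Module.End.mul_apply]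
  · obtain ⟨n, rfl⟩ := Nat.exists_eq_add_of_le (show k + 1 ≤ j by omega)
    refine (LinearMap.congr_fun (conj hI g h1 _ hr) t).symm.trans ?_
    rw [Module.End.mul_apply, par0 hI ht h0 n h1]
  · rw [List.map_map, List.pairwise_map]
    refine List.pairwise_of_forall_mem_list fun a ha b hb => ?_
    exact hI.comm _ _ _ _ ((D.perm g).injective.ne (hr a ha).1) ((hC.bnd _ _).2 (hr a ha).2)
      ((hC.bnd _ _).2 h1) ((D.perm g).injective.ne (hr b hb).1) ((hC.bnd _ _).2 (hr b hb).2)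
      ((hC.bnd _ _).2 h1)

open BW in
theorem base3 (hK : Kit1 D) (hI : Inv D s) :
    ((List.range (2 + 1)).map fun i => s i (2 + 1)).prod D.t3 = D.t3 := by
  have h8 := D.h8
  have p1 := D.perm_σ 1 (by omega)
  have p2 := D.perm_σ 2 (by omega)
  have e : D.σ 2 * D.σ 1 * D.σ 0 ^ 2 * (D.σ 2 * D.σ 1)⁻¹ * (D.σ 2 * D.σ 1 ^ 2 * (D.σ 2)⁻¹ *
      D.σ 2 ^ 2) = ((D.σ 0 * D.σ 1) ^ 3)⁻¹ * (D.σ 0 * D.σ 1 * D.σ 2) ^ 4 := by
    have := eq_of_test D.bf 3 100000 (g 2 * g 1 * g 0 ^ 2 * (g 2 * g 1)⁻¹ *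
      (g 2 * g 1 ^ 2 * (g 2)⁻¹ * g 2 ^ 2)) (((g 0 * g 1) ^ 3)⁻¹ * (g 0 * g 1 * g 2) ^ 4)
      (by omega) (by decide +kernel)
    exact this
  have h := congrArg (fun x => D.π x D.t3) e
  simp only [app _ _ D.t3] at h
  rw [hK.D4_t3, hK.par3 _ (inv_mem (pow_mem (mul_mem (gen_mem (by omega) (by omega))
    (gen_mem (by omega) (by omega))) 3)), cj hI _ (by omega), cj hI _ (by omega),
    ← hI.σ_sq _ (by omega), map_mul, p1, p2] at h
  exact h

open BW in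
theorem base5 (hK : Kit1 D) (hI : Inv D s) :
    ((List.range (4 + 1)).map fun i => s i (4 + 1)).prod D.t5 = D.t5 := by
  have h8 := D.h8
  have p1 := D.perm_σ 1 (by omega)
  have p2 := D.perm_σ 2 (by omega)
  have p3 := D.perm_σ 3 (by omega)
  have p4 := D.perm_σ 4 (by omega)
  have e : D.σ 4 * D.σ 3 * D.σ 2 * D.σ 1 * D.σ 0 ^ 2 * (D.σ 4 * D.σ 3 * D.σ 2 * D.σ 1)⁻¹ *
      (D.σ 4 * D.σ 3 * D.σ 2 * D.σ 1 ^ 2 * (D.σ 4 * D.σ 3 * D.σ 2)⁻¹ *
      (D.σ 4 * D.σ 3 * D.σ 2 ^ 2 * (D.σ 4 * D.σ 3)⁻¹ *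
      (D.σ 4 * D.σ 3 ^ 2 * (D.σ 4)⁻¹ * D.σ 4 ^ 2))) = ((D.σ 0 * D.σ 1 * D.σ 2 * D.σ 3) ^ 5)⁻¹ *
        (D.σ 0 * D.σ 1 * D.σ 2 * D.σ 3 * D.σ 4) ^ 6 := by
    have := eq_of_test D.bf 5 1000000 (g 4 * g 3 * g 2 * g 1 * g 0 ^ 2 * (g 4 * g 3 * g 2 * g 1)⁻¹ *
      (g 4 * g 3 * g 2 * g 1 ^ 2 * (g 4 * g 3 * g 2)⁻¹ * (g 4 * g 3 * g 2 ^ 2 * (g 4 * g 3)⁻¹ *
      (g 4 * g 3 ^ 2 * (g 4)⁻¹ * g 4 ^ 2)))) (((g 0 * g 1 * g 2 * g 3) ^ 5)⁻¹ *
        (g 0 * g 1 * g 2 * g 3 * g 4) ^ 6) (by omega) (by decide +kernel)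
    exact this
  have h := congrArg (fun x => D.π x D.t5) e
  simp only [app _ _ D.t5] at h
  rw [hK.D6_t5, hK.par5 _ (inv_mem (pow_mem (mul_mem (mul_mem (mul_mem
    (gen_mem (by omega) (by omega)) (gen_mem (by omega) (by omega)))
    (gen_mem (by omega) (by omega))) (gen_mem (by omega) (by omega))) 5)),
    cj hI _ (by omega), cj hI _ (by omega), cj hI _ (by omega), cj hI _ (by omega),
    ← hI.σ_sq _ (by omega)] at h
  simp only [map_mul, p1, p2, p3, p4] at h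
  exact h

theorem mv (hC : Cox D) (g : G) {h h' : G} {I J : Finset ℕ} (h1 : D.lab k h' = I)
    (h2 : D.perm h = D.perm h') (h3 : I.image (D.perm g) = J) :
    D.π g (D.π h t) ∈ Orb D k t J :=
  ⟨g * h, by rw [hC.lab_mul, ← h3, ← h1, Dat.lab, Dat.lab, h2], (app _ _ _).symm⟩

end F2

open F2 in
theorem rowF2 : OfF2 := by
  intro hK hR hW hC hF G H M _ _ _ _ D h4
  obtain ⟨s, hI⟩ := hF G H M D h4
  replace hK : Kit1 D := hK G H M D
  replace hR : Rel D := hR G H M D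
  replace hW : WW D := hW G H M D
  replace hC : Cox D := hC G H M D
  have h8 := D.h8
  have hT : Set.range (fun g => D.π g D.t3) ⊆ ⋃ I, Orb D 2 D.t3 I := by
    rintro _ ⟨g, rfl⟩
    exact Set.mem_iUnion.2 ⟨_, g, rfl, rfl⟩
  have hA : Set.range (fun g => D.π g D.t5) ⊆ ⋃ I, Orb D 4 D.t5 I := by
    rintro _ ⟨g, rfl⟩
    exact Set.mem_iUnion.2 ⟨_, g, rfl, rfl⟩
  refine ⟨⟨D.N, h8, s, Orb D 2 D.t3, Orb D 4 D.t5, hI.symm, hI.sq, hI.comm,
    orb hC hI (by omega) hK.par3, orb hC hI (by omega) hK.par5, fix hC hI hK.par3,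
    fix hC hI hK.par5, par hC hI (by omega) hK.par3 (base3 hK hI),
    par hC hI (by omega) hK.par5 (base5 hK hI), ?_, ?_, ?_, ?_, ?_, D.fin⟩, rfl⟩
  · rintro _ _ ⟨g, rfl, -⟩
    exact hC.val 2 g (by omega)
  · rintro _ _ ⟨g, rfl, -⟩
    exact hC.val 4 g (by omega)
  · intro a b p q r t h6
    obtain ⟨g, hg⟩ := hC.label _ h6.1 h6.2
    have q0 : D.perm g 0 = a := hg 0 (by simp)
    have q1 : D.perm g 1 = b := hg 1 (by simp)
    have q2 : D.perm g 2 = p := hg 2 (by simp)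
    have q3 : D.perm g 3 = q := hg 3 (by simp)
    have q4 : D.perm g 4 = r := hg 4 (by simp)
    have q5 : D.perm g 5 = t := hg 5 (by simp)
    have y1 := hC.yy 1 (by omega)
    have y2 := hC.yy 2 (by omega)
    have e := congrArg (D.π g) hR
    have e1 : D.π g D.t3 = D.π g (D.π 1 D.t3) := by rw [map_one]; rfl
    simp only [map_sub, map_add] at e
    rw [e1] at e
    refine ⟨_, mv hC g hC.a0 rfl ?_, _, mv hC g hC.a1 rfl ?_, _, mv hC g hC.a2 ?_ ?_, _,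
      mv hC g hC.a3 ?_ ?_, _, mv hC g hC.l0 rfl ?_, _, mv hC g hC.l1 rfl ?_, _,
      mv hC g hC.l2 ?_ ?_, _, mv hC g hC.l3 ?_ ?_, _, mv hC g hC.e0 rfl ?_, _,
      mv hC g hC.e1 rfl ?_, _, mv hC g hC.e2 rfl ?_, _, mv hC g hC.e3 rfl ?_, e⟩
    all_goals
      simp only [Finset.image_insert, Finset.image_singleton, q0, q1, q2, q3, q4, q5, map_mul, y1,
        y2, one_mul, map_one]
  · rw [eq_top_iff, ← hK.gen]
    exact Submodule.span_mono (Set.union_subset_union hT hA)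
  · rintro _ _ ⟨g, -, rfl⟩ i j h1 h2 h3
    obtain ⟨a, ha⟩ := hC.label [i, j] (by simp [h1]) (by simp [h2, h3])
    have q0 : D.perm a 0 = i := ha 0 (by simp)
    have q1 : D.perm a (0 + 1) = j := ha 1 (by simp)
    rw [← q0, ← q1, ← cj hI a (by omega), ← app]
    have := sub_mem (hW (a * D.σ 0 ^ 2 * a⁻¹ * g)) (hW g)
    rw [sub_sub_sub_cancel_right] at this
    exact Submodule.span_mono hT this

end Pool.Agent.MP_00906f_gt.H91
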