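import Pool.Agent.MP_00906f_gt.H91.Spec

/-! A joint eigenprojection with a non-trivial sign character has rank at most one. -/

namespace Pool.Agent.MP_00906f_gt.H91

namespace F3

variable {M : Type} [AddCommGroup M] [Module ℚ M]

open Classical in
/-- The sign of the pair `i, j`. -/
noncomputable def sg (χ : Finset (ℕ × ℕ)) (i j : ℕ) : ℚ := if ed χ i j then -1 else 1

theorem mem_pairs {N : ℕ} {p : ℕ × ℕ} : p ∈ pairs N ↔ p.1 ≤ N ∧ p.2 ≤ N ∧ p.1 < p.2 := by
  simp only [pairs, Finset.mem_filter, Finset.mem_product, Finset.mem_range, Nat.lt_succ_iff,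
    and_assoc]

theorem ed_symm {χ : Finset (ℕ × ℕ)} {i j : ℕ} (h : ed χ i j) : ed χ j i := Or.symm h

theorem ed_le {N : ℕ} {χ : Finset (ℕ × ℕ)} (hχ : χ ⊆ pairs N) {i j : ℕ} (h : ed χ i j) :
    i ≠ j ∧ i ≤ N ∧ j ≤ N := by
  rcases h with h | h
  · have := mem_pairs.1 (hχ h)
    simp only at this
    omega
  · have := mem_pairs.1 (hχ h)
    simp only at this
    omega

theorem sg_ne (χ : Finset (ℕ × ℕ)) (i j : ℕ) : sg χ i j ≠ 0 := by
  unfold sg
  split_ifs <;> norm_num

theorem P_s (F : FA M) {χ : Finset (ℕ × ℕ)} {P : Module.End ℚ M} (hχ : χ ⊆ pairs F.N)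
    (hP : ∀ p ∈ pairs F.N, ∀ m, P (F.s p.1 p.2 m) = (if p ∈ χ then (-1 : ℚ) else 1) • P m)
    {i j : ℕ} (hij : i ≠ j) (hi : i ≤ F.N) (hj : j ≤ F.N) (m : M) :
    P (F.s i j m) = sg χ i j • P m := by
  rcases lt_or_gt_of_ne hij with h | h
  · have h1 := hP (i, j) (mem_pairs.2 ⟨hi, hj, h⟩) m
    have h2 : (j, i) ∉ χ := fun hh => by
      have := mem_pairs.1 (hχ hh)
      simp only at this
      omega
    rw [h1]
    by_cases h3 : (i, j) ∈ χ
    · have : ed χ i j := Or.inl h3
      simp only [sg, h3, this, if_true]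
    · have : ¬ ed χ i j := fun hh => hh.elim h3 h2
      simp only [sg, h3, this, if_false]
  · have h1 := hP (j, i) (mem_pairs.2 ⟨hj, hi, h⟩) m
    have h2 : (i, j) ∉ χ := fun hh => by
      have := mem_pairs.1 (hχ hh)
      simp only at this
      omega
    rw [F.symm i j, h1]
    by_cases h3 : (j, i) ∈ χ
    · have : ed χ i j := Or.inr h3
      simp only [sg, h3, this, if_true]
    · have : ¬ ed χ i j := fun hh => hh.elim h2 h3
      simp only [sg, h3, this, if_false]

theorem P_closure (F : FA M) {χ : Finset (ℕ × ℕ)} {P : Module.End ℚ M}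
    (hs : ∀ i j, i ≠ j → i ≤ F.N → j ≤ F.N → ∀ m, P (F.s i j m) = sg χ i j • P m)
    {u : Module.End ℚ M}
    (hu : u ∈ Submonoid.closure {u | ∃ i j, i ≠ j ∧ i ≤ F.N ∧ j ≤ F.N ∧ u = F.s i j}) :
    ∃ ε : ℚ, ε ≠ 0 ∧ ∀ m, P (u m) = ε • P m := by
  induction hu using Submonoid.closure_induction with
  | mem x hx =>
    obtain ⟨i, j, hij, hi, hj, rfl⟩ := hx
    exact ⟨sg χ i j, sg_ne χ i j, hs i j hij hi hj⟩
  | one => exact ⟨1, one_ne_zero, fun m => by simp⟩
  | mul a b _ _ ha hb =>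
    obtain ⟨x, hx, ha⟩ := ha
    obtain ⟨y, hy, hb⟩ := hb
    refine ⟨x * y, mul_ne_zero hx hy, fun m => ?_⟩
    rw [Module.End.mul_apply, ha, hb, smul_smul]

theorem P_list (F : FA M) {χ : Finset (ℕ × ℕ)} {P : Module.End ℚ M}
    (hs : ∀ i j, i ≠ j → i ≤ F.N → j ≤ F.N → ∀ m, P (F.s i j m) = sg χ i j • P m)
    {j : ℕ} (hj : j ≤ F.N) (l : List ℕ) (hl : ∀ i ∈ l, i ≠ j ∧ i ≤ F.N) (m : M) :
    P ((l.map fun i => F.s i j).prod m) = (l.map fun i => sg χ i j).prod • P m := by
  induction l with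
  | nil => simp
  | cons a l ih =>
    have ha := hl a List.mem_cons_self
    rw [List.map_cons, List.prod_cons, List.map_cons, List.prod_cons, Module.End.mul_apply,
      hs a j ha.1 ha.2 hj, ih fun i hi => hl i (List.mem_cons_of_mem _ hi), smul_smul]

theorem eq_zero_of_neg {y : M} (h : y = (-1 : ℚ) • y) : y = 0 := by
  have h2 : (2 : ℚ) • y = 0 := by
    rw [two_smul]
    nth_rewrite 1 [h]
    simp
  exact (smul_eq_zero.1 h2).resolve_left two_ne_zero

theorem cut (F : FA M) {χ : Finset (ℕ × ℕ)} {P : Module.End ℚ M} (hχ : χ ⊆ pairs F.N)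
    (hs : ∀ i j, i ≠ j → i ≤ F.N → j ≤ F.N → ∀ m, P (F.s i j m) = sg χ i j • P m)
    {I : Finset ℕ} (hI : I ⊆ Finset.range (F.N + 1)) {x : M} (hx : P x ≠ 0)
    (hf : ∀ i j, i ≠ j → i ≤ F.N → j ≤ F.N → (i ∈ I ↔ j ∈ I) → F.s i j x = x)
    (hp : ∀ j, j ≤ F.N → j ∉ I → ∀ l : List ℕ, l.Nodup → l.toFinset = I →
      (l.map fun i => F.s i j).prod x = x) :
    Cut (adjX F.N χ) I := by
  classical
  have ha : ∀ u v, ed χ u v → (u ∈ I ↔ v ∉ I) := by
    intro u v h
    obtain ⟨h1, h2, h3⟩ := ed_le hχ h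
    have : ¬ (u ∈ I ↔ v ∈ I) := by
      intro hh
      have h4 := hs u v h1 h2 h3 x
      rw [hf u v h1 h2 h3 hh] at h4
      simp only [sg, h, if_true] at h4
      exact hx (eq_zero_of_neg h4)
    tauto
  have hb : ∀ j, j ≤ F.N → Odd (dg F.N χ j) → j ∈ I := by
    intro j hj ho
    by_contra hn
    have h1 := P_list F hs hj I.toList (fun i hi => by
      have hi' : i ∈ I := Finset.mem_toList.1 hi
      have := Finset.mem_range.1 (hI hi')
      exact ⟨fun e => hn (e ▸ hi'), by omega⟩) x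
    rw [hp j hj hn I.toList (Finset.nodup_toList I) (Finset.toList_toFinset I),
      Finset.prod_map_toList] at h1
    have h2 : ∏ i ∈ I, sg χ i j = (-1 : ℚ) ^ dg F.N χ j := by
      have h3 : dg F.N χ j = (I.filter fun i => ed χ i j).card := by
        unfold dg
        refine congrArg Finset.card (Finset.ext fun i => ?_)
        simp only [Finset.mem_filter]
        constructor
        · rintro ⟨_, h⟩
          exact ⟨(ha i j (ed_symm h)).2 hn, ed_symm h⟩
        · rintro ⟨h, h'⟩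
          exact ⟨hI h, ed_symm h'⟩
      rw [h3]
      simp only [sg]
      rw [Finset.prod_ite, Finset.prod_const, Finset.prod_const_one, mul_one]
    rw [h2, ho.neg_one_pow] at h1
    exact hx (eq_zero_of_neg h1)
  have hc : F.N + 1 ∉ I := fun h => by
    have := Finset.mem_range.1 (hI h)
    omega
  intro u v h
  rcases h with h | ⟨rfl, h1, h2⟩ | ⟨rfl, h1, h2⟩
  · exact ha u v h
  · exact ⟨fun _ => hc, fun _ => hb u h1 h2⟩
  · exact ⟨fun h => absurd h hc, fun h => absurd (hb v h1 h2) h⟩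

theorem handshake {N : ℕ} {χ : Finset (ℕ × ℕ)} (hχ : χ ⊆ pairs N) :
    Even (∑ i ∈ Finset.range (N + 1), dg N χ i) := by
  classical
  have h1 : ∀ i, dg N χ i = ∑ j ∈ Finset.range (N + 1),
      ((if (i, j) ∈ χ then 1 else 0) + if (j, i) ∈ χ then 1 else 0) := by
    intro i
    unfold dg
    rw [Finset.card_filter]
    refine Finset.sum_congr rfl fun j _ => ?_
    by_cases h1 : (i, j) ∈ χ
    · have h2 : (j, i) ∉ χ := fun hh => by
        have a1 := mem_pairs.1 (hχ hh)
        have a2 := mem_pairs.1 (hχ h1)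
        simp only at a1 a2
        omega
      have : ed χ i j := Or.inl h1
      simp only [h1, h2, this, if_true, if_false]
    · by_cases h2 : (j, i) ∈ χ
      · have : ed χ i j := Or.inr h2
        simp only [h1, h2, this, if_true, if_false]
      · have : ¬ ed χ i j := fun hh => hh.elim h1 h2
        simp only [h1, h2, this, if_false]
  simp only [h1, Finset.sum_add_distrib]
  exact ⟨_, congrArg _ Finset.sum_comm⟩

theorem even_deg {N : ℕ} {χ : Finset (ℕ × ℕ)} (hχ : χ ⊆ pairs N)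
    [DecidableRel (adjX N χ)] {i : ℕ} (hi : i ≤ N + 1) :
    Even ((Finset.range (N + 2)).filter fun j => adjX N χ i j).card := by
  classical
  rcases Nat.lt_or_ge i (N + 1) with h | h
  · have h0 : ((Finset.range (N + 1)).filter fun j => adjX N χ i j).card = dg N χ i := by
      unfold dg
      refine congrArg Finset.card (Finset.ext fun j => ?_)
      simp only [Finset.mem_filter, Finset.mem_range]
      constructor
      · rintro ⟨h1, h2 | h2 | h2⟩
        · exact ⟨h1, h2⟩
        · omega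
        · omega
      · rintro ⟨h1, h2⟩
        exact ⟨h1, Or.inl h2⟩
    have h1 : adjX N χ i (N + 1) ↔ Odd (dg N χ i) := by
      constructor
      · rintro (h2 | h2 | h2)
        · have := ed_le hχ h2
          omega
        · exact h2.2.2
        · omega
      · intro h2
        exact Or.inr (Or.inl ⟨rfl, by omega, h2⟩)
    rw [Finset.range_add_one, Finset.filter_insert]
    split_ifs with h2
    · rw [Finset.card_insert_of_notMem (by simp), h0]
      exact (h1.1 h2).add_one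
    · rw [h0]
      exact Nat.not_odd_iff_even.1 fun hh => h2 (h1.2 hh)
  · obtain rfl : i = N + 1 := le_antisymm hi h
    have h0 : ((Finset.range (N + 2)).filter fun j => adjX N χ (N + 1) j) =
        (Finset.range (N + 1)).filter fun j => Odd (dg N χ j) := by
      refine Finset.ext fun j => ?_
      simp only [Finset.mem_filter, Finset.mem_range]
      constructor
      · rintro ⟨h1, h2 | h2 | h2⟩
        · have := ed_le hχ h2
          omega
        · omega
        · exact ⟨by omega, h2.2.2⟩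
      · rintro ⟨h1, h2⟩
        exact ⟨by omega, Or.inr (Or.inr ⟨rfl, by omega, h2⟩)⟩
    rw [h0]
    exact (Finset.even_sum_iff_even_card_odd _).1 (handshake hχ)

open Classical in
/-- The image of a chosen element of `S`. -/
noncomputable def pick (P : Module.End ℚ M) (S : Set M) : M :=
  if h : S.Nonempty then P h.choose else 0

theorem pick_ne {P : Module.End ℚ M} {S : Set M} (h : pick P S ≠ 0) : ∃ x ∈ S, P x ≠ 0 := by
  unfold pick at h
  split_ifs at h with h1
  · exact ⟨_, h1.choose_spec, h⟩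
  · exact absurd rfl h

theorem pick_eq {P : Module.End ℚ M} {S : Set M} {C : Submonoid (Module.End ℚ M)}
    (hC : ∀ u ∈ C, ∃ ε : ℚ, ε ≠ 0 ∧ ∀ m, P (u m) = ε • P m)
    (hS : ∀ x ∈ S, ∀ y ∈ S, ∃ u ∈ C, y = u x) {x : M} (hx : x ∈ S) :
    ∃ ε : ℚ, ε ≠ 0 ∧ P x = ε • pick P S := by
  have h1 : S.Nonempty := ⟨x, hx⟩
  obtain ⟨u, hu, e⟩ := hS _ h1.choose_spec x hx
  obtain ⟨ε, hε, h⟩ := hC u hu
  refine ⟨ε, hε, ?_⟩
  unfold pick
  rw [dif_pos h1, ← h, ← e]

end F3

open F3 in
theorem rowF3 : OfF3 := by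
  intro hb M _ _ F χ P hχ hne hP
  classical
  have hs : ∀ i j, i ≠ j → i ≤ F.N → j ≤ F.N → ∀ m, P (F.s i j m) = sg χ i j • P m :=
    fun i j hij hi hj m => P_s F hχ hP hij hi hj m
  have hT : ∀ I, ∀ x ∈ F.T I, ∃ ε : ℚ, ε ≠ 0 ∧ P x = ε • pick P (F.T I) :=
    fun I x hx => pick_eq (fun u hu => P_closure F hs hu) (F.orbT I) hx
  have hA : ∀ J, ∀ x ∈ F.A J, ∃ ε : ℚ, ε ≠ 0 ∧ P x = ε • pick P (F.A J) :=
    fun J x hx => pick_eq (fun u hu => P_closure F hs hu) (F.orbA J) hx
  obtain ⟨p, hp⟩ := hne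
  have hp' : ed χ p.1 p.2 := Or.inl hp
  have key := hb M F.N (adjX F.N χ) (fun I => pick P (F.T I)) (fun J => pick P (F.A J)) F.h8
    (by
      rintro i j (h | h | h)
      · exact Or.inl (ed_symm h)
      · exact Or.inr (Or.inr h)
      · exact Or.inr (Or.inl h))
    (by
      rintro i (h | h | h)
      · exact (ed_le hχ h).1 rfl
      · omega
      · omega)
    (by
      rintro i j (h | h | h)
      · have := ed_le hχ h
        omega
      · omega
      · omega)
    (fun i hi => even_deg hχ hi)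
    ⟨p.1, p.2, Or.inl hp'⟩
    (fun I hI h => by
      obtain ⟨x, hx, h⟩ := pick_ne h
      exact cut F hχ hs hI.1 h (F.fixT I x hx) (F.parT I x hx))
    (fun J hJ h => by
      obtain ⟨x, hx, h⟩ := pick_ne h
      exact cut F hχ hs hJ.1 h (F.fixA J x hx) (F.parA J x hx))
    (by
      intro a b p q r t h6
      obtain ⟨α0, hα0, α1, hα1, α2, hα2, α3, hα3, β0, hβ0, β1, hβ1, β2, hβ2, β3, hβ3,
        e0, he0, e1, he1, e2, he2, e3, he3, h⟩ := F.rel a b p q r t h6
      obtain ⟨a0, n0, g0⟩ := hA _ _ hα0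
      obtain ⟨a1, n1, g1⟩ := hA _ _ hα1
      obtain ⟨a2, n2, g2⟩ := hA _ _ hα2
      obtain ⟨a3, n3, g3⟩ := hA _ _ hα3
      obtain ⟨a4, n4, g4⟩ := hT _ _ hβ0
      obtain ⟨a5, n5, g5⟩ := hT _ _ hβ1
      obtain ⟨a6, n6, g6⟩ := hT _ _ hβ2
      obtain ⟨a7, n7, g7⟩ := hT _ _ hβ3
      obtain ⟨a8, n8, g8⟩ := hT _ _ he0
      obtain ⟨a9, n9, g9⟩ := hT _ _ he1
      obtain ⟨a10, n10, g10⟩ := hT _ _ he2
      obtain ⟨a11, n11, g11⟩ := hT _ _ he3
      have h' := congrArg P h
      simp only [map_add, map_sub, g0, g1, g2, g3, g4, g5, g6, g7, g8, g9, g10, g11] at h'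
      refine ⟨![a0, -a1, a2, -a3, -a4, a5, -a6, a7, a8, -a9, a10, -a11], ?_, ?_⟩
      · intro k
        fin_cases k <;> simp [n0, n1, n2, n3, n4, n5, n6, n7, n8, n9, n10, n11]
      · show a0 • _ + (-a1) • _ + a2 • _ + (-a3) • _ + (-a4) • _ + a5 • _ + (-a6) • _ + a7 • _
          + a8 • _ + (-a9) • _ + a10 • _ + (-a11) • _ = (0 : M)
        simp only [neg_smul]
        rw [← sub_eq_zero] at h'
        rw [← h']
        abel)
  have fin : ∀ S : Submodule ℚ M, (∀ I, Val F.N 3 I → pick P (F.T I) ∈ S) →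
      LinearMap.range P ≤ S := by
    intro S hS
    have h1 : Submodule.span ℚ (⋃ I, F.T I) ≤ S.comap P := by
      refine Submodule.span_le.2 fun x hx => ?_
      obtain ⟨I, hx⟩ := Set.mem_iUnion.1 hx
      obtain ⟨ε, _, e⟩ := hT I x hx
      show P x ∈ S
      rw [e]
      exact S.smul_mem _ (hS I (F.valT I x hx))
    have h2 : (⊤ : Submodule ℚ M) ≤ S.comap P := by
      rw [← F.gen]
      refine Submodule.span_le.2 fun x hx => ?_
      rcases hx with hx | hx
      · exact h1 (Submodule.subset_span hx)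
      · obtain ⟨J, hx⟩ := Set.mem_iUnion.1 hx
        obtain ⟨c1, c2, c3⟩ := ed_le hχ hp'
        have h3 : P (F.s p.1 p.2 x - x) ∈ S := h1 (F.aT J x hx p.1 p.2 c1 c2 c3)
        rw [map_sub, hs _ _ c1 c2 c3] at h3
        simp only [sg, hp', if_true] at h3
        have h4 : P x = (-1 / 2 : ℚ) • ((-1 : ℚ) • P x - P x) := by module
        show P x ∈ S
        rw [h4]
        exact S.smul_mem _ h3
    rintro _ ⟨x, rfl⟩
    exact h2 Submodule.mem_top
  refine ⟨fun hc => ?_, ?_⟩
  · have := fin ⊥ fun I hI => (Submodule.mem_bot ℚ).2 (key.1 hc I hI)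
    exact LinearMap.range_eq_bot.1 (le_bot_iff.1 this)
  · obtain ⟨y, hy⟩ := key.2
    refine (Submodule.finrank_mono (fin _ hy)).trans ?_
    by_cases h0 : y = 0
    · rw [h0, Submodule.span_zero_singleton, finrank_bot]
      exact zero_le_one
    · exact (finrank_span_singleton h0).le

end Pool.Agent.MP_00906f_gt.H91
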