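import Pool.Agent.MP_00906f_gt.H91.Spec

/-! Row F3b: only four-cycles contribute, each with one dimension. -/

namespace Pool.Agent.MP_00906f_gt.H91

namespace F3b

variable {Y : Type} [AddCommGroup Y] [Module ℚ Y] {N : ℕ} {adj : ℕ → ℕ → Prop}
  {xT xA : Finset ℕ → Y}

theorem val3 {p q r : ℕ} (h : p ≠ q ∧ p ≠ r ∧ q ≠ r ∧ p ≤ N ∧ q ≤ N ∧ r ≤ N) :
    Val N 3 {p, q, r} :=
  ⟨fun x hx => by
    simp only [Finset.mem_insert, Finset.mem_singleton] at hx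
    rw [Finset.mem_range]
    omega, Finset.card_eq_three.2 ⟨p, q, r, h.1, h.2.1, h.2.2.1, rfl⟩⟩

theorem val_ins {k a : ℕ} {I : Finset ℕ} (h : Val N k I) (ha : a ∉ I ∧ a ≤ N) :
    Val N (k + 1) (insert a I) :=
  ⟨Finset.insert_subset (Finset.mem_range.2 (by omega)) h.1, by
    rw [Finset.card_insert_of_notMem ha.1, h.2]⟩

theorem six_iff {a b p q r t : ℕ} : Six N a b p q r t ↔
    (a ≠ b ∧ a ≠ p ∧ a ≠ q ∧ a ≠ r ∧ a ≠ t ∧ b ≠ p ∧ b ≠ q ∧ b ≠ r ∧ b ≠ t ∧ p ≠ q ∧ p ≠ r ∧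
      p ≠ t ∧ q ≠ r ∧ q ≠ t ∧ r ≠ t) ∧ a ≤ N ∧ b ≤ N ∧ p ≤ N ∧ q ≤ N ∧ r ≤ N ∧ t ≤ N := by
  simp [Six, and_assoc]

theorem vals {a b p q r t : ℕ} (h : Six N a b p q r t) :
    (Val N 5 {a, b, q, r, t} ∧ Val N 5 {a, b, p, r, t} ∧ Val N 5 {a, b, p, q, t} ∧
      Val N 5 {a, b, p, q, r}) ∧ (Val N 3 {q, r, t} ∧ Val N 3 {p, r, t} ∧ Val N 3 {p, q, t} ∧
      Val N 3 {p, q, r}) ∧ Val N 3 {a, b, p} ∧ Val N 3 {a, b, q} ∧ Val N 3 {a, b, r} ∧
      Val N 3 {a, b, t} := by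
  rw [six_iff] at h
  refine ⟨⟨?_, ?_, ?_, ?_⟩, ⟨?_, ?_, ?_, ?_⟩, ?_, ?_, ?_, ?_⟩
  iterate 4 exact val_ins (val_ins (val3 (by tauto)) (by simp; tauto)) (by simp; tauto)
  all_goals exact val3 (by tauto)

theorem fresh (h8 : 8 ≤ N) (l : List ℕ) (hl : l.length ≤ 8) : ∃ y, y ≤ N ∧ y ∉ l := by
  by_contra h
  push Not at h
  have h1 : Finset.range (N + 1) ⊆ l.toFinset := fun y hy =>
    List.mem_toFinset.2 (h y (by have := Finset.mem_range.1 hy; omega))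
  have h2 := Finset.card_le_card h1
  have h3 := l.toFinset_card_le
  rw [Finset.card_range] at h2
  omega

/-- The hypotheses on the vectors. -/
structure Hy (N : ℕ) (adj : ℕ → ℕ → Prop) (xT xA : Finset ℕ → Y) : Prop where
  h8 : 8 ≤ N
  z3 : ∀ {I}, Val N 3 I → ∀ {i j}, adj i j → (i ∈ I ↔ j ∈ I) → xT I = 0
  z5 : ∀ {I}, Val N 5 I → ∀ {i j}, adj i j → (i ∈ I ↔ j ∈ I) → xA I = 0
  rel : ∀ a b p q r t, Six N a b p q r t → ∃ ε : Fin 12 → ℚ, (∀ k, ε k ≠ 0) ∧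
      ε 0 • xA {a, b, q, r, t} + ε 1 • xA {a, b, p, r, t} + ε 2 • xA {a, b, p, q, t}
      + ε 3 • xA {a, b, p, q, r} + ε 4 • xT {q, r, t} + ε 5 • xT {p, r, t} + ε 6 • xT {p, q, t}
      + ε 7 • xT {p, q, r} + ε 8 • xT {a, b, p} + ε 9 • xT {a, b, q} + ε 10 • xT {a, b, r}
      + ε 11 • xT {a, b, t} = 0

theorem mem_of {u v : Y} {s t : ℚ} (hs : s ≠ 0) (h : s • u + t • v = 0) :
    u ∈ Submodule.span ℚ {v} := by
  refine Submodule.mem_span_singleton.2 ⟨-(s⁻¹ * t), ?_⟩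
  rw [neg_smul, mul_smul, ← smul_neg, ← eq_neg_of_add_eq_zero_left h, inv_smul_smul₀ hs]

/-- Three vertices with edges outside the set. -/
theorem Hy.kill (H : Hy N adj xT xA) {x b c y y' o w w' : ℕ}
    (hd : x ≠ b ∧ x ≠ c ∧ b ≠ c ∧ y ≠ y' ∧ o ≠ y ∧ o ≠ y')
    (hN : x ≤ N ∧ b ≤ N ∧ c ≤ N ∧ y ≤ N ∧ y' ≤ N)
    (ho : ∀ v ∈ [y, y', o, w, w'], v ≠ x ∧ v ≠ b ∧ v ≠ c) (hw : w ≠ w') (e : adj x w)
    (e' : adj x w') (hn : ∀ v ∈ [y, y', o], ∃ i, (i = b ∨ i = c) ∧ adj v i) :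
    xT {b, c, x} = 0 := by
  obtain ⟨z, hz, hz'⟩ := fresh H.h8 [x, b, c, y, y', o] (by simp)
  simp only [List.mem_cons, List.not_mem_nil, or_false, forall_eq_or_imp, forall_eq, not_or]
    at ho hn hz'
  obtain ⟨⟨i, hi, ei⟩, ⟨j, hj, ej⟩, k, hk, ek⟩ := hn
  have h6 : Six N b c x y y' z := six_iff.2 (by grind)
  obtain ⟨ε, hε, h⟩ := H.rel _ _ _ _ _ _ h6
  obtain ⟨⟨a0, a1, a2, a3⟩, ⟨a4, a5, a6, a7⟩, -, a9, a10, a11⟩ := vals h6
  have h11 : xT {b, c, z} = 0 := by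
    by_cases hwz : w = z
    · exact H.z3 a11 e' (by grind)
    · exact H.z3 a11 e (by grind)
  rw [H.z5 a0 ei (by grind), H.z5 a1 ej (by grind), H.z5 a2 ei (by grind), H.z5 a3 ei (by grind),
    H.z3 a4 ek (by grind), H.z3 a5 ek (by grind), H.z3 a6 ek (by grind), H.z3 a7 ek (by grind),
    H.z3 a9 ei (by grind), H.z3 a10 ej (by grind), h11] at h
  simpa [hε] using h

theorem Hy.kill3 (H : Hy N adj xT xA) {x c z u w o : ℕ} (hd : x ≠ c ∧ x ≠ z ∧ c ≠ z)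
    (hN : x ≤ N ∧ c ≤ N ∧ z ≤ N) (c1 : ¬(u = x ∨ u = c ∨ u = z)) (c2 : ¬(w = x ∨ w = c ∨ w = z))
    (c3 : ¬(o = x ∨ o = c ∨ o = z)) (hw : w ≠ u) (hne : ¬(o = u ∨ o = w)) (b1 : u ≤ N + 1)
    (b2 : w ≤ N + 1) (b3 : o ≤ N + 1) (e1 : adj x u) (e2 : adj x w)
    (n1 : ∃ i, (i = c ∨ i = z) ∧ adj u i) (n2 : ∃ i, (i = c ∨ i = z) ∧ adj w i)
    (n3 : ∃ i, (i = c ∨ i = z) ∧ adj o i) : xT {x, c, z} = 0 := by
  have eI : ({x, c, z} : Finset ℕ) = {c, z, x} := by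
    rw [Finset.insert_comm, Finset.pair_comm]
  rw [eI]
  by_cases hu : u = N + 1
  · exact H.kill (y := w) (y' := o) (o := u) (by grind) (by grind) (by grind) hw e2 e1
      (by simp only [List.mem_cons, List.not_mem_nil, or_false, forall_eq_or_imp, forall_eq]
          exact ⟨n2, n3, n1⟩)
  by_cases hw' : w = N + 1
  · exact H.kill (y := u) (y' := o) (o := w) (by grind) (by grind) (by grind) hw e2 e1
      (by simp only [List.mem_cons, List.not_mem_nil, or_false, forall_eq_or_imp, forall_eq]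
          exact ⟨n1, n3, n2⟩)
  · exact H.kill (y := u) (y' := w) (o := o) (by grind) (by grind) (by grind) hw e2 e1
      (by simp only [List.mem_cons, List.not_mem_nil, or_false, forall_eq_or_imp, forall_eq]
          exact ⟨n1, n2, n3⟩)

/-- The edges of a four-cycle. -/
structure Sq (N : ℕ) (adj : ℕ → ℕ → Prop) (u b w c : ℕ) : Prop where
  ne : u ≠ b ∧ u ≠ w ∧ u ≠ c ∧ b ≠ w ∧ b ≠ c ∧ w ≠ c
  le : u ≤ N + 1 ∧ b ≤ N + 1 ∧ w ≤ N + 1 ∧ c ≤ N + 1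
  ub : adj u b
  uc : adj u c
  wb : adj w b
  wc : adj w c

theorem Sq.swap {u b w c : ℕ} (h : Sq N adj u b w c) : Sq N adj w b u c :=
  ⟨by have := h.ne; grind, by have := h.le; tauto, h.wb, h.wc, h.ub, h.uc⟩

theorem Sq.turn (hs : ∀ i j, adj i j → adj j i) {u b w c : ℕ} (h : Sq N adj u b w c) :
    Sq N adj b u c w :=
  ⟨by have := h.ne; grind, by have := h.le; tauto, hs _ _ h.ub, hs _ _ h.wb, hs _ _ h.uc,
    hs _ _ h.wc⟩

theorem Hy.same' (H : Hy N adj xT xA) {u b w c x y : ℕ} (h : Sq N adj u b w c)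
    (hN : u ≤ N ∧ b ≤ N ∧ c ≤ N ∧ x ≤ N ∧ y ≤ N) (hx : x ∉ [u, b, w, c]) (hy : y ∉ [u, b, w, c]) :
    xT {b, c, y} ∈ Submodule.span ℚ {xT {b, c, x}} := by
  by_cases hxy : x = y
  · rw [hxy]
    exact Submodule.mem_span_singleton_self _
  obtain ⟨z, hz, hz'⟩ := fresh H.h8 [u, b, w, c, x, y] (by simp)
  simp only [List.mem_cons, List.not_mem_nil, or_false, not_or] at hx hy hz'
  have hne := h.ne
  have h6 : Six N z u b c x y := six_iff.2 (by grind)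
  obtain ⟨ε, hε, e⟩ := H.rel _ _ _ _ _ _ h6
  obtain ⟨⟨a0, a1, a2, a3⟩, ⟨a4, a5, -, -⟩, a8, a9, a10, a11⟩ := vals h6
  rw [H.z5 a0 h.uc (by grind), H.z5 a1 h.ub (by grind), H.z5 a2 h.ub (by grind),
    H.z5 a3 h.ub (by grind), H.z3 a4 h.ub (by grind), H.z3 a5 h.uc (by grind),
    H.z3 a8 h.ub (by grind), H.z3 a9 h.uc (by grind), H.z3 a10 h.wb (by grind),
    H.z3 a11 h.wb (by grind)] at e
  simp only [smul_zero, add_zero, zero_add] at e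
  exact mem_of (hε _) e

theorem Hy.same (H : Hy N adj xT xA) {u b w c x y : ℕ} (h : Sq N adj u b w c)
    (hN : b ≤ N ∧ c ≤ N ∧ x ≤ N ∧ y ≤ N) (hx : x ∉ [u, b, w, c]) (hy : y ∉ [u, b, w, c]) :
    xT {b, c, y} ∈ Submodule.span ℚ {xT {b, c, x}} := by
  by_cases hu : u ≤ N
  · exact H.same' h ⟨hu, hN⟩ hx hy
  · have h1 := h.le
    have h2 := h.ne.2.1
    exact H.same' h.swap ⟨by omega, hN⟩ (by grind) (by grind)

theorem Hy.other (H : Hy N adj xT xA) {u b w c x y : ℕ} (h : Sq N adj u b w c)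
    (hN : u ≤ N ∧ w ≤ N ∧ b ≤ N ∧ c ≤ N ∧ x ≤ N ∧ y ≤ N) (hx : x ∉ [u, b, w, c])
    (hy : y ∉ [u, b, w, c]) : xT {u, w, y} ∈ Submodule.span ℚ {xT {b, c, x}} := by
  obtain ⟨z, hz, hz'⟩ := fresh H.h8 [u, b, w, c, y] (by simp)
  have h1 := H.same h (x := x) (y := z) (by tauto) hx (by grind)
  simp only [List.mem_cons, List.not_mem_nil, or_false, not_or] at hx hy hz'
  have hne := h.ne
  have h6 : Six N b z c u w y := six_iff.2 (by grind)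
  obtain ⟨ε, hε, e⟩ := H.rel _ _ _ _ _ _ h6
  obtain ⟨⟨a0, a1, a2, a3⟩, ⟨-, a5, a6, a7⟩, -, a9, a10, a11⟩ := vals h6
  rw [H.z5 a0 h.ub (by grind), H.z5 a1 h.wb (by grind), H.z5 a2 h.ub (by grind),
    H.z5 a3 h.ub (by grind), H.z3 a5 h.wc (by grind), H.z3 a6 h.uc (by grind),
    H.z3 a7 h.uc (by grind), H.z3 a9 h.ub (by grind), H.z3 a10 h.wb (by grind),
    H.z3 a11 h.uc (by grind), Finset.pair_comm z c] at e
  simp only [smul_zero, add_zero, zero_add] at e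
  exact Submodule.span_le.2 (Set.singleton_subset_iff.2 h1) (mem_of (hε _) e)

theorem split3 {I : Finset ℕ} (hI : Val N 3 I) {b c : ℕ} (hb : b ∈ I) (hc : c ∈ I) (h : b ≠ c) :
    ∃ x, x ≠ b ∧ x ≠ c ∧ I = {b, c, x} ∧ b ≤ N ∧ c ≤ N ∧ x ≤ N := by
  obtain ⟨p, q, r, h1, h2, h3, rfl⟩ := Finset.card_eq_three.1 hI.2
  have hp := Finset.mem_range.1 (hI.1 (by simp : p ∈ ({p, q, r} : Finset ℕ)))
  have hq := Finset.mem_range.1 (hI.1 (by simp : q ∈ ({p, q, r} : Finset ℕ)))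
  have hr := Finset.mem_range.1 (hI.1 (by simp : r ∈ ({p, q, r} : Finset ℕ)))
  by_cases e1 : p ≠ b ∧ p ≠ c
  · exact ⟨p, e1.1, e1.2, by grind, by grind⟩
  by_cases e2 : q ≠ b ∧ q ≠ c
  · exact ⟨q, e2.1, e2.2, by grind, by grind⟩
  exact ⟨r, by grind, by grind, by grind, by grind⟩

theorem Hy.cls (H : Hy N adj xT xA) {u b w c : ℕ} (h : Sq N adj u b w c) {I : Finset ℕ}
    (hI : Val N 3 I) (h0 : xT I ≠ 0) :
    ∃ x, x ∉ [u, b, w, c] ∧ x ≤ N ∧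
      ((I = {b, c, x} ∧ b ≤ N ∧ c ≤ N) ∨ (I = {u, w, x} ∧ u ≤ N ∧ w ≤ N)) := by
  have e1 := mt (H.z3 hI h.ub) h0
  have e2 := mt (H.z3 hI h.uc) h0
  have e3 := mt (H.z3 hI h.wb) h0
  have hne := h.ne
  by_cases hb : b ∈ I
  · obtain ⟨x, h1, h2, rfl, h3⟩ := split3 hI hb (c := c) (by tauto) (by tauto)
    exact ⟨x, by grind, by tauto, Or.inl ⟨rfl, by tauto⟩⟩
  · obtain ⟨x, h1, h2, rfl, h3⟩ := split3 hI (b := u) (c := w) (by tauto) (by tauto) (by tauto)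
    exact ⟨x, by grind, by tauto, Or.inr ⟨rfl, by tauto⟩⟩

theorem Hy.line (H : Hy N adj xT xA) (hs : ∀ i j, adj i j → adj j i) {u b w c : ℕ}
    (h : Sq N adj u b w c) : ∃ y, ∀ I, Val N 3 I → xT I ∈ Submodule.span ℚ {y} := by
  obtain ⟨z, hz, hz'⟩ := fresh H.h8 [u, b, w, c] (by simp)
  by_cases hbc : b ≤ N ∧ c ≤ N
  · refine ⟨xT {b, c, z}, fun I hI => ?_⟩
    by_cases h0 : xT I = 0
    · rw [h0]
      exact zero_mem _
    obtain ⟨x, hx, hxN, ⟨rfl, -⟩ | ⟨rfl, h1⟩⟩ := H.cls h hI h0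
    · exact H.same h (by tauto) hz' hx
    · exact H.other h (by tauto) hz' hx
  · refine ⟨xT {u, w, z}, fun I hI => ?_⟩
    by_cases h0 : xT I = 0
    · rw [h0]
      exact zero_mem _
    obtain ⟨x, hx, hxN, ⟨-, h1⟩ | ⟨rfl, h1⟩⟩ := H.cls h hI h0
    · exact absurd h1 hbc
    · exact H.same (h.turn hs) (by tauto) (by grind) (by grind)

theorem cyc_of (hs : ∀ i j, adj i j → adj j i) (hb : ∀ i j, adj i j → i ≤ N + 1)
    (E1 : ∀ i j, adj i j → ∃ j', j' ≠ j ∧ adj i j')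
    (E3 : ∀ i a b c, a ≠ b → a ≠ c → b ≠ c → adj i a → adj i b → adj i c →
      ∃ d, d ≠ a ∧ d ≠ b ∧ d ≠ c ∧ adj i d) {x c z u w : ℕ} (hd : x ≠ c ∧ x ≠ z ∧ c ≠ z ∧ u ≠ w)
    (hcut : ∀ i j, adj i j → ((i = x ∨ i = c ∨ i = z) ↔ ¬(j = x ∨ j = c ∨ j = z)))
    (e1 : adj x u) (e2 : adj x w) (e3 : adj u c)
    (ho : ∀ o j, adj o j → ¬(o = x ∨ o = c ∨ o = z) → o = u ∨ o = w) : Cyc N adj := by
  have c1 := hcut _ _ e1
  have c2 := hcut _ _ e2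
  have e4 : adj w c := by
    obtain ⟨j, hj, ej⟩ := E1 c u (hs _ _ e3)
    have a1 := hcut _ _ ej
    have a2 := ho j c (hs _ _ ej)
    have : j = w := by grind
    exact hs _ _ (this ▸ ej)
  have n : ∀ v, adj v x → adj v c → ¬adj v z := fun v a1 a2 a3 => by
    obtain ⟨d, h1, h2, h3, a4⟩ := E3 v x c z hd.1 hd.2.1 hd.2.2.1 a1 a2 a3
    have a5 := hcut _ _ a1
    have a6 := hcut _ _ a4
    grind
  have n1 := n u (hs _ _ e1) e3
  have n2 := n w (hs _ _ e2) e4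
  refine ⟨u, x, w, c, by grind, ?_, fun i j => ⟨fun e => ?_, ?_⟩⟩
  · have := hb _ _ e1
    have := hb _ _ e3
    have := hb _ _ e4
    have := hb _ _ (hs _ _ e3)
    grind
  · have a1 := hcut _ _ e
    have a2 := ho i j e
    have a3 := ho j i (hs _ _ e)
    have a4 := hs _ _ e
    grind
  · have := hs _ _ e1
    have := hs _ _ e2
    have := hs _ _ e3
    have := hs _ _ e4
    grind

end F3b

open F3b in
theorem rowF3b : OfF3b := by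
  intro Y _ _ N adj _ xT xA h8 hs hirr hb hev ⟨i₀, j₀, e₀⟩ hT hA hrel
  have H : Hy N adj xT xA := ⟨h8,
    fun hI i j e h => by_contra fun h0 => by have := hT _ hI h0 i j e; tauto,
    fun hI i j e h => by_contra fun h0 => by have := hA _ hI h0 i j e; tauto, hrel⟩
  have hf : ∀ i (s : Finset ℕ), (∀ j, adj i j ↔ j ∈ s) → s.Nonempty → Even s.card := by
    rintro i s h ⟨j, hj⟩
    have := hev i (hb i j ((h j).2 hj))
    rwa [show (Finset.range (N + 2)).filter (fun j => adj i j) = s from Finset.ext fun k => by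
      rw [Finset.mem_filter, Finset.mem_range, ← h]
      exact ⟨fun a => a.2, fun a => ⟨by have := hb _ _ (hs _ _ a); omega, a⟩⟩] at this
  have E1 : ∀ i j, adj i j → ∃ j', j' ≠ j ∧ adj i j' := fun i j e => by
    by_contra h
    have := hf i {j} (fun k => by grind) (by simp)
    simp at this
  have E3 : ∀ i a b c, a ≠ b → a ≠ c → b ≠ c → adj i a → adj i b → adj i c →
      ∃ d, d ≠ a ∧ d ≠ b ∧ d ≠ c ∧ adj i d := fun i a b c h1 h2 h3 e1 e2 e3 => by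
    by_contra h
    have := hf i {a, b, c} (fun k => by grind) (by simp)
    rw [Finset.card_eq_three.2 ⟨a, b, c, h1, h2, h3, rfl⟩] at this
    exact absurd this (by decide)
  have P1 : ¬ Cyc N adj → ∀ I, Val N 3 I → xT I = 0 := by
    intro hc I hI
    by_contra h0
    have hcut := hT I hI h0
    obtain ⟨x, hx, u, e1⟩ : ∃ x ∈ I, ∃ u, adj x u := by
      by_cases h : i₀ ∈ I
      · exact ⟨i₀, h, j₀, e₀⟩
      · exact ⟨j₀, by have := hcut _ _ e₀; tauto, i₀, hs _ _ e₀⟩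
    obtain ⟨w, hw, e2⟩ := E1 x u e1
    obtain ⟨c, hcx, e3⟩ := E1 u x (hs _ _ e1)
    have hcI : c ∈ I := by
      have := hcut _ _ e1
      have := hcut _ _ e3
      tauto
    obtain ⟨z, hz1, hz2, rfl, hN⟩ := split3 hI hx hcI hcx.symm
    have hcut' : ∀ i j, adj i j → ((i = x ∨ i = c ∨ i = z) ↔ ¬(j = x ∨ j = c ∨ j = z)) :=
      fun i j e => by simpa only [Finset.mem_insert, Finset.mem_singleton] using hcut i j e
    refine hc (cyc_of hs hb E1 E3 ⟨hcx.symm, hz1.symm, hz2.symm, hw.symm⟩ hcut' e1 e2 e3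
      fun o j eo ho => by_contra fun hne => h0 ?_)
    have hn : ∀ v k, adj v k → ¬(v = x ∨ v = c ∨ v = z) → ∃ i, (i = c ∨ i = z) ∧ adj v i := by
      intro v k e hv
      obtain ⟨k', hk, e'⟩ := E1 v k e
      have a1 := hcut' _ _ e
      have a2 := hcut' _ _ e'
      by_cases hkx : k = x
      · exact ⟨k', by omega, e'⟩
      · exact ⟨k, by omega, e⟩
    have c1 := (hcut' _ _ e1).1 (Or.inl rfl)
    have c2 := (hcut' _ _ e2).1 (Or.inl rfl)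
    exact H.kill3 ⟨hcx.symm, hz1.symm, hz2.symm⟩ hN c1 c2 ho hw hne (hb _ _ e3)
      (hb _ _ (hs _ _ e2)) (hb _ _ eo) e1 e2 (hn u x (hs _ _ e1) c1) (hn w x (hs _ _ e2) c2)
      (hn o j eo ho)
  refine ⟨P1, ?_⟩
  by_cases hc : Cyc N adj
  · obtain ⟨u, b, w, c, h1, h2, h3⟩ := hc
    exact H.line hs (u := u) (b := b) (w := w) (c := c) ⟨by simpa [and_assoc] using h1,
      by simpa using h2, (h3 _ _).2 (by simp),
      (h3 _ _).2 (by simp), (h3 _ _).2 (by simp), (h3 _ _).2 (by simp)⟩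
  · exact ⟨0, fun I hI => by rw [P1 hc I hI]; exact zero_mem _⟩

end Pool.Agent.MP_00906f_gt.H91
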