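import Pool.Agent.MP_00906f_gt.H91.Spec

/-! The component of the trivial character. -/

namespace Pool.Agent.MP_00906f_gt.H91

namespace F4

variable {M : Type} [AddCommGroup M] [Module ℚ M]

theorem const (F : FA M) (P : Module.End ℚ M)
    (hP : ∀ p ∈ pairs F.N, ∀ m, P (F.s p.1 p.2 m) = P m) (u : Module.End ℚ M)
    (hu : u ∈ Submonoid.closure {u | ∃ i j, i ≠ j ∧ i ≤ F.N ∧ j ≤ F.N ∧ u = F.s i j}) (x : M) :
    P (u x) = P x := by
  induction hu using Submonoid.closure_induction generalizing x with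
  | mem u hu =>
    obtain ⟨i, j, hij, hi, hj, rfl⟩ := hu
    rcases lt_or_gt_of_ne hij with h | h
    · exact hP (i, j) (by simp [pairs]; omega) x
    · rw [F.symm]
      exact hP (j, i) (by simp [pairs]; omega) x
  | one => rfl
  | mul u v _ _ h1 h2 => rw [Module.End.mul_apply, h1, h2]

theorem value (P : Module.End ℚ M) (T : Finset ℕ → Set M)
    (h : ∀ I, ∀ x ∈ T I, ∀ y ∈ T I, P y = P x) : ∃ lam : Finset ℕ → M, ∀ I, ∀ x ∈ T I,
      P x = lam I := by
  classical
  refine ⟨fun I => if h : (T I).Nonempty then P h.some else 0, fun I x hx => ?_⟩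
  have hn : (T I).Nonempty := ⟨x, hx⟩
  simp only [dif_pos hn]
  exact h I _ hn.some_mem x hx

theorem six_rt {N a b p q r t : ℕ} (h : Six N a b p q r t) : Six N a b p q t r := by
  simp only [Six, List.nodup_cons, List.mem_cons, List.not_mem_nil, or_false, not_or,
    forall_eq_or_imp, forall_eq, List.nodup_nil, not_false_eq_true, and_true] at h ⊢
  omega

theorem six_ar {N a b p q r t : ℕ} (h : Six N a b p q r t) : Six N r b p q a t := by
  simp only [Six, List.nodup_cons, List.mem_cons, List.not_mem_nil, or_false, not_or,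
    forall_eq_or_imp, forall_eq, List.nodup_nil, not_false_eq_true, and_true] at h ⊢
  omega

theorem val3 {N x y z : ℕ} (h : x ≠ y ∧ x ≠ z ∧ y ≠ z ∧ x ≤ N ∧ y ≤ N ∧ z ≤ N) :
    Val N 3 {x, y, z} := by
  refine ⟨fun i hi => ?_, Finset.card_eq_three.2 ⟨x, y, z, h.1, h.2.1, h.2.2.1, rfl⟩⟩
  simp only [Finset.mem_insert, Finset.mem_singleton] at hi
  rw [Finset.mem_range]
  omega

theorem rot (x y z : ℕ) : ({x, y, z} : Finset ℕ) = {y, z, x} := by
  ext i
  simp only [Finset.mem_insert, Finset.mem_singleton]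
  tauto

theorem last (x y z : ℕ) : ({x, y, z} : Finset ℕ) = {x, z, y} := by
  rw [Finset.pair_comm y z]

theorem last5 (a b x y z : ℕ) : ({a, b, x, y, z} : Finset ℕ) = {a, b, x, z, y} := by
  rw [Finset.pair_comm y z]

theorem swap5 (a b x r t : ℕ) : ({r, b, x, a, t} : Finset ℕ) = {a, b, x, r, t} := by
  ext i
  simp only [Finset.mem_insert, Finset.mem_singleton]
  tauto

theorem exch (N : ℕ) (α : Finset ℕ → M) (U : Submodule ℚ M)
    (h : ∀ a b p q r t, Six N a b p q r t → α {a, b, q, r, t} - α {a, b, p, r, t} ∈ U)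
    (J' : Finset ℕ) (hJ' : Val N 5 J') (k : ℕ) :
    ∀ J, Val N 5 J → (J \ J').card = k → α J - α J' ∈ U := by
  induction k with
  | zero =>
    intro J hJ hk
    have : J = J' := Finset.eq_of_subset_of_card_le
      (Finset.sdiff_eq_empty_iff_subset.1 (Finset.card_eq_zero.1 hk)) (by rw [hJ.2, hJ'.2])
    rw [this, sub_self]
    exact U.zero_mem
  | succ k ih =>
    intro J hJ hk
    obtain ⟨q, hq⟩ := Finset.card_pos.1 (show 0 < (J \ J').card by omega)
    have hc : (J' \ J).card = k + 1 := by
      rw [← hk]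
      exact Finset.card_sdiff_comm (by rw [hJ.2, hJ'.2])
    obtain ⟨p, hp⟩ := Finset.card_pos.1 (show 0 < (J' \ J).card by omega)
    obtain ⟨hq1, hq2⟩ := Finset.mem_sdiff.1 hq
    obtain ⟨hp1, hp2⟩ := Finset.mem_sdiff.1 hp
    have h4 : (J.erase q).card = 4 := by rw [Finset.card_erase_of_mem hq1, hJ.2]
    obtain ⟨a, b, r, t, n1, n2, n3, n4, n5, n6, he⟩ := Finset.card_eq_four.1 h4
    have e1 : J = {a, b, q, r, t} := by
      rw [← Finset.insert_erase hq1, he]
      ext i
      simp only [Finset.mem_insert, Finset.mem_singleton]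
      tauto
    have e2 : insert p (J.erase q) = {a, b, p, r, t} := by
      rw [he]
      ext i
      simp only [Finset.mem_insert, Finset.mem_singleton]
      tauto
    have hq3 : q ∉ ({a, b, r, t} : Finset ℕ) := he ▸ Finset.notMem_erase q J
    have hle : ∀ i ∈ J, i ≤ N := fun i hi => Nat.lt_succ_iff.1 (Finset.mem_range.1 (hJ.1 hi))
    have hpN : p ≤ N := Nat.lt_succ_iff.1 (Finset.mem_range.1 (hJ'.1 hp1))
    have hs : Six N a b p q r t := by
      rw [e1] at hp2 hle
      simp only [Finset.mem_insert, Finset.mem_singleton, not_or, forall_eq_or_imp,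
        forall_eq] at hp2 hle hq3
      simp only [Six, List.nodup_cons, List.mem_cons, List.not_mem_nil, or_false, not_or,
        forall_eq_or_imp, forall_eq, List.nodup_nil, not_false_eq_true, and_true]
      omega
    have hpe : p ∉ J.erase q := fun h => hp2 (Finset.mem_of_mem_erase h)
    have v : Val N 5 (insert p (J.erase q)) := by
      refine ⟨Finset.insert_subset (hJ'.1 hp1) ((Finset.erase_subset q J).trans hJ.1), ?_⟩
      rw [Finset.card_insert_of_notMem hpe, h4]
    have c : (insert p (J.erase q) \ J').card = k := by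
      rw [Finset.insert_sdiff_of_mem _ hp1, Finset.erase_sdiff_comm,
        Finset.card_erase_of_mem hq, hk]
      rfl
    have i1 := ih _ v c
    have i2 := h a b p q r t hs
    rw [← e1, ← e2] at i2
    simpa using U.add_mem i2 i1

end F4

open F4 in
theorem rowF4 : OfF4 := by
  intro hC M _ _ F P hP
  have := F.fin
  obtain ⟨lam, hl⟩ := value P F.T fun I x hx y hy => by
    obtain ⟨u, hu, rfl⟩ := F.orbT I x hx y hy
    exact const F P hP u hu x
  obtain ⟨α, ha⟩ := value P F.A fun I x hx y hy => by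
    obtain ⟨u, hu, rfl⟩ := F.orbA I x hx y hy
    exact const F P hP u hu x
  have R : ∀ a b p q r t, Six F.N a b p q r t →
      α {a, b, q, r, t} - α {a, b, p, r, t} + α {a, b, p, q, t} - α {a, b, p, q, r} -
        (lam {q, r, t} - lam {p, r, t} + lam {p, q, t} - lam {p, q, r}) =
      lam {a, b, t} + lam {a, b, q} - lam {a, b, r} - lam {a, b, p} := by
    intro a b p q r t h
    obtain ⟨_, a0, _, a1, _, a2, _, a3, _, b0, _, b1, _, b2, _, b3, _, e0, _, e1, _, e2, _, e3, h⟩ :=
      F.rel a b p q r t h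
    have h' := congrArg P h
    simp only [map_sub, map_add] at h'
    rwa [ha _ _ a0, ha _ _ a1, ha _ _ a2, ha _ _ a3, hl _ _ b0, hl _ _ b1, hl _ _ b2, hl _ _ b3,
      hl _ _ e0, hl _ _ e1, hl _ _ e2, hl _ _ e3] at h'
  have R' : ∀ a b p q r t, Six F.N a b p q r t → α {a, b, q, r, t} - α {a, b, p, r, t} =
      lam {r, t, q} - lam {r, t, p} + (lam {a, b, q} - lam {a, b, p}) := by
    intro a b p q r t h
    have h1 := R a b p q r t h
    have h2 := R a b p q t r (six_rt h)
    rw [last5 a b q t r, last5 a b p t r, last q t r, last p t r] at h2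
    rw [← rot q r t, ← rot p r t]
    linear_combination (norm := module) (1 / 2 : ℚ) • h1 + (1 / 2 : ℚ) • h2
  have hU := hC M F.N lam (by have := F.h8; omega) fun a b p q r t h => by
    rw [← R' a b p q r t h, ← R' r b p q a t (six_ar h), swap5 a b q r t, swap5 a b p r t]
  generalize hUd : Submodule.span ℚ {y | ∃ I, Val F.N 3 I ∧ y = lam I} = U at hU
  have hm : ∀ I, Val F.N 3 I → lam I ∈ U := fun I hI =>
    hUd ▸ Submodule.subset_span ⟨I, hI, rfl⟩
  have v0 : Val F.N 5 (Finset.range 5) :=
    ⟨Finset.range_mono (by have := F.h8; omega), Finset.card_range 5⟩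
  have hE := fun J hJ => exch F.N α U (fun a b p q r t h => by
    rw [R' a b p q r t h]
    simp only [Six, List.nodup_cons, List.mem_cons, List.not_mem_nil, or_false, not_or,
      forall_eq_or_imp, forall_eq, List.nodup_nil, not_false_eq_true, and_true] at h
    exact U.add_mem (U.sub_mem (hm _ (val3 (by omega))) (hm _ (val3 (by omega))))
      (U.sub_mem (hm _ (val3 (by omega))) (hm _ (val3 (by omega))))) _ v0 _ J hJ rfl
  have hle : LinearMap.range P ≤ U ⊔ Submodule.span ℚ {α (Finset.range 5)} := by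
    rw [LinearMap.range_eq_map, ← F.gen, Submodule.map_span, Submodule.span_le]
    rintro _ ⟨x, hx | hx, rfl⟩
    · obtain ⟨I, hI⟩ := Set.mem_iUnion.1 hx
      rw [hl I x hI]
      exact Submodule.mem_sup_left (hm I (F.valT I x hI))
    · obtain ⟨J, hJ⟩ := Set.mem_iUnion.1 hx
      rw [ha J x hJ, ← sub_add_cancel (α J) (α (Finset.range 5))]
      exact Submodule.add_mem_sup (hE J (F.valA J x hJ)) (Submodule.mem_span_singleton_self _)
  have h1 : Module.finrank ℚ (Submodule.span ℚ {α (Finset.range 5)}) ≤ 1 := by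
    simpa using finrank_span_le_card (R := ℚ) ({α (Finset.range 5)} : Set M)
  exact (Submodule.finrank_mono hle).trans
    ((Submodule.finrank_add_le_finrank_add_finrank _ _).trans (add_le_add hU h1))

end Pool.Agent.MP_00906f_gt.H91
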