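import Pool.Agent.MP_00906f_gt.H91.Spec

/-! Row F5: decomposition into the joint eigenspaces of the commuting involutions. -/

namespace Pool.Agent.MP_00906f_gt.H91

namespace F5

variable {M : Type} [AddCommGroup M] [Module ℚ M]

theorem exists_proj {ι : Type} [DecidableEq ι] (s : ι → Module.End ℚ M) (S : Finset ι)
    (hsq : ∀ p ∈ S, s p * s p = 1) (hc : ∀ p ∈ S, ∀ q ∈ S, s p * s q = s q * s p) :
    ∃ P : Finset ι → Module.End ℚ M, ∑ χ ∈ S.powerset, P χ = 1 ∧
      ∀ χ, ∀ p ∈ S, P χ * s p = (if p ∈ χ then (-1 : ℚ) else 1) • P χ := by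
  induction S using Finset.induction_on with
  | empty => exact ⟨fun _ => 1, by simp, by simp⟩
  | insert a S ha ih =>
    obtain ⟨P, h1, h2⟩ := ih (fun p hp => hsq p (Finset.mem_insert_of_mem hp))
      fun p hp q hq => hc p (Finset.mem_insert_of_mem hp) q (Finset.mem_insert_of_mem hq)
    refine ⟨fun χ => P (χ.erase a) *
      ((1 / 2 : ℚ) • (1 + (if a ∈ χ then (-1 : ℚ) else 1) • s a)), ?_, fun χ p hp => ?_⟩
    · rw [Finset.sum_powerset_insert ha, ← Finset.sum_add_distrib]
      refine (Finset.sum_congr rfl fun χ hχ => ?_).trans h1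
      have h3 : a ∉ χ := fun e => ha (Finset.mem_powerset.1 hχ e)
      rw [Finset.erase_insert h3, Finset.erase_eq_of_notMem h3, if_neg h3,
        if_pos (Finset.mem_insert_self a χ), ← mul_add]
      have : (1 / 2 : ℚ) • (1 + (1 : ℚ) • s a) + (1 / 2 : ℚ) • (1 + (-1 : ℚ) • s a) = 1 := by module
      rw [this, mul_one]
    · rcases Finset.mem_insert.1 hp with rfl | hp'
      · rw [mul_assoc, ← mul_smul_comm]
        congr 1
        rw [smul_mul_assoc, add_mul, smul_mul_assoc, hsq p hp, one_mul]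
        split_ifs <;> module
      · have h3 : p ≠ a := fun e => ha (e ▸ hp')
        have h4 : ((1 / 2 : ℚ) • (1 + (if a ∈ χ then (-1 : ℚ) else 1) • s a)) * s p =
            s p * ((1 / 2 : ℚ) • (1 + (if a ∈ χ then (-1 : ℚ) else 1) • s a)) := by
          rw [smul_mul_assoc, add_mul, smul_mul_assoc, mul_smul_comm, mul_add, mul_smul_comm,
            hc a (Finset.mem_insert_self a S) p hp, one_mul, mul_one]
        rw [mul_assoc, h4, ← mul_assoc, h2 _ p hp', smul_mul_assoc]
        simp only [Finset.mem_erase, ne_eq, h3, not_false_eq_true, true_and]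

theorem rank_sum [Module.Finite ℚ M] {ι : Type} (P : ι → Module.End ℚ M) (S : Finset ι) :
    Module.finrank ℚ (LinearMap.range (∑ i ∈ S, P i)) ≤
      ∑ i ∈ S, Module.finrank ℚ (LinearMap.range (P i)) := by
  classical
  induction S using Finset.induction_on with
  | empty =>
    rw [Finset.sum_empty, Finset.sum_empty]
    exact ((congrArg (fun U : Submodule ℚ M => Module.finrank ℚ U) LinearMap.range_zero).trans
      (finrank_bot ℚ M)).le
  | insert a S ha ih =>
    rw [Finset.sum_insert ha, Finset.sum_insert ha]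
    exact ((Submodule.finrank_mono (LinearMap.range_add_le _ _)).trans
      (Submodule.finrank_add_le_finrank_add_finrank _ _)).trans (Nat.add_le_add_left ih _)

end F5

theorem rowF5 : OfF5 := by
  classical
  intro h3 h4 hc M _ _ F
  have := F.fin
  have hp : ∀ p ∈ pairs F.N, p.1 ≠ p.2 ∧ p.1 ≤ F.N ∧ p.2 ≤ F.N := by
    intro p hp
    simp only [pairs, Finset.mem_filter, Finset.mem_product, Finset.mem_range] at hp
    omega
  obtain ⟨P, h1, h2⟩ := F5.exists_proj (fun p : ℕ × ℕ => F.s p.1 p.2) (pairs F.N)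
    (fun p h => F.sq _ _ (hp p h).1 (hp p h).2.1 (hp p h).2.2) fun p h q h' =>
      F.comm _ _ _ _ (hp p h).1 (hp p h).2.1 (hp p h).2.2 (hp q h').1 (hp q h').2.1 (hp q h').2.2
  have h5 : ∀ χ, ∀ p ∈ pairs F.N, ∀ m,
      P χ (F.s p.1 p.2 m) = (if p ∈ χ then (-1 : ℚ) else 1) • P χ m :=
    fun χ p h m => LinearMap.congr_fun (h2 χ p h) m
  have h6 := F5.rank_sum P (pairs F.N).powerset
  rw [h1, Module.End.one_eq_id, LinearMap.range_id, finrank_top] at h6
  have h7 : ∀ χ ∈ (pairs F.N).powerset, Module.finrank ℚ (LinearMap.range (P χ)) ≤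
      (if χ = ∅ then (F.N + 1).choose 2 + 1 else 0) +
        if Cyc F.N (adjX F.N χ) then 1 else 0 := by
    intro χ hχ
    by_cases e : χ = ∅
    · subst e
      have := h4 M F (P ∅) fun p h m => by simpa using h5 ∅ p h m
      rw [if_pos rfl]
      omega
    · obtain ⟨k1, k2⟩ := h3 M F χ (P χ) (Finset.mem_powerset.1 hχ)
        (Finset.nonempty_iff_ne_empty.2 e) (h5 χ)
      rw [if_neg e, zero_add]
      split_ifs with e'
      · exact k2
      · rw [k1 e']
        exact ((congrArg (fun U : Submodule ℚ M => Module.finrank ℚ U) LinearMap.range_zero).trans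
          (finrank_bot ℚ M)).le
  refine (h6.trans (Finset.sum_le_sum h7)).trans ?_
  rw [Finset.sum_add_distrib, Finset.sum_ite_eq', if_pos (Finset.empty_mem_powerset _),
    ← Finset.card_filter]
  exact Nat.add_le_add_left (hc F.N) _

end Pool.Agent.MP_00906f_gt.H91
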