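import Pool.Agent.MP_00906f_gt.H91.Spec

/-! Row K2: the translations. -/

namespace Pool.Agent.MP_00906f_gt.H91

open H46

namespace K2

variable {G H M : Type} [Group G] [AddCommGroup H] [AddCommGroup M] [Module ℚ M] (D : Dat G H M)

theorem h2 : 2 ≤ D.N := le_trans (by norm_num) D.h8

theorem ω_ρ (g : G) (x y : H) : D.ω (D.ρ g x) (D.ρ g y) = D.ω x y := D.toSys.ρ_ω (D.hB g) x y

theorem fE (l : H) (hl : D.ω (D.c 0) l = 0) (x : H) : D.ρ (D.fE l) x = D.toSys.E l 0 x := by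
  obtain ⟨f, -, hf⟩ := D.toSys.exists_E D.hN (h2 D) (D.hL l) hl 0
  have h : ∃ f : G, ∀ x, D.ρ f x = D.toSys.E l 0 x := ⟨f, hf⟩
  rw [Dat.fE, dif_pos h]
  exact h.choose_spec x

theorem Fx_zpow {m : M} (hm : D.Fx m) (k : ℤ) : D.π (D.σ 0 ^ k) m = m := by
  have hi : D.π (D.σ 0)⁻¹ m = m := by
    conv_lhs => rw [← hm]
    rw [← Module.End.mul_apply, ← map_mul, inv_mul_cancel, map_one, Module.End.one_apply]
  induction k using Int.induction_on with
  | zero => simp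
  | succ n ih => rw [zpow_add_one, map_mul, Module.End.mul_apply, hm, ih]
  | pred n ih => rw [zpow_sub_one, map_mul, Module.End.mul_apply, hi, ih]

theorem σ_mem {i k : ℕ} (hi : i < D.N) (hk : i ≠ k) : D.σ i ∈ Par D.σ D.N k :=
  Subgroup.subset_closure ⟨i, ⟨hi, hk⟩, rfl⟩

theorem FF_le : FF D.σ 4 ≤ Par D.σ D.N 4 := by
  have h8 := D.h8
  have hy : ∀ j, j + 2 ≤ 4 → yy D.σ j ∈ Par D.σ D.N 4 := by
    intro j
    induction j with
    | zero =>
      intro _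
      exact pow_mem (mul_mem (σ_mem D (by omega) (by omega)) (σ_mem D (by omega) (by omega))) 3
    | succ j ih =>
      intro hj
      have := σ_mem D (i := j + 2) (k := 4) (by omega) (by omega)
      exact mul_mem (mul_mem this (ih (by omega))) (inv_mem this)
  refine (Subgroup.closure_le _).2 ?_
  rintro _ (rfl | ⟨j, hj, rfl⟩)
  · exact σ_mem D (by omega) (by omega)
  · exact hy j hj

variable {D}

theorem πc (K : Kit1 D) {g g' : G} (h : ∀ x, D.ρ g x = D.ρ g' x) : D.π g = D.π g' :=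
  K.π_congr g g' (LinearMap.ext h)

theorem τ_eq (K : Kit1 D) (g : G) (l : H) (k : ℤ) (hl : D.ω (D.c 0) l = 0)
    (hg : ∀ x, D.ρ g x = D.toSys.E l k x) (m : M) (hm : D.Fx m) : D.π g m = D.τ l m := by
  have : D.π g = D.π (D.fE l * D.σ 0 ^ (-k)) := πc K fun x => by
    rw [hg, D.toSys.ρ_mul, fE D l hl, D.toSys.ρ_s_zpow (h2 D), D.toSys.E_E hl (map_zero _)]
    simp
  rw [this, map_mul, Module.End.mul_apply, Fx_zpow D hm, Dat.τ]

theorem τ_zero (K : Kit1 D) : D.τ 0 = 1 := by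
  rw [← map_one D.π]
  exact πc K fun x => by rw [fE D 0 (map_zero _), D.toSys.E_zero, D.toSys.ρ_one]

theorem Fx_π (K : Kit1 D) (g : G) (hg : PM (D.ρ g (D.c 0)) (D.c 0)) (m : M) (hm : D.Fx m) :
    D.Fx (D.π g m) := by
  have : D.π (D.σ 0) = D.π (g * D.σ 0 ^ (1 : ℤ) * g⁻¹) := πc K fun x => by
    rw [K.conjσ, D.ρσ 0 (by linarith [h2 D])]
    rcases hg with h | h <;> simp [h]
  rw [Dat.Fx, this, ← Module.End.mul_apply, ← map_mul, inv_mul_cancel_right, zpow_one, map_mul,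
    Module.End.mul_apply, hm]

end K2

open K2

theorem rowK2 : OfK2 := by
  intro hK G H M _ _ _ _ D
  have K : Kit1 D := hK G H M D
  have h8 := D.h8
  refine
    { fE := fE D
      τ_zero := τ_zero K
      τ_neg := fun l hl => ?_
      Fx_t3 := K.par3 _ (σ_mem D (by omega) (by omega))
      Fx_t5 := K.par5 _ (σ_mem D (by omega) (by omega))
      Fx_π := Fx_π K
      Fx_τ := fun l hl m hm => Fx_π K _ (Or.inl (by rw [fE D l hl, D.toSys.E_c0 hl])) m hm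
      τ_add := fun l l' hl hl' m hm => ?_
      τ_c0 := fun j m hm => ?_
      τ_conj := fun g l hg hl => ?_
      τ_conj' := fun g l hg hl => ?_
      τ_eq := τ_eq K
      τ_yy := fun i j hi hj m hm => ?_
      τ_t3 := fun g g' l i hl hg hg' h => ?_
      τ_perp := fun g l hl a0 a1 b0 b1 => ⟨?_, ?_⟩
      τ_t5 := fun a b => ?_
      ex := fun u b hu hb => ?_ }
  · have hl' : D.ω (D.c 0) (-l) = 0 := by rw [map_neg, hl, neg_zero]
    rw [Dat.τ, Dat.τ, ← map_mul, ← map_one D.π]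
    refine πc K fun x => ?_
    rw [D.toSys.ρ_mul, fE D l hl, fE D _ hl', D.toSys.E_E hl' hl, D.toSys.ρ_one]
    simp [D.alt, D.toSys.E_zero]
  · rw [← τ_eq K (D.fE l * D.fE l') (l + l') _ (by rw [map_add, hl, hl', add_zero]) (fun x => by
      rw [D.toSys.ρ_mul, fE D l hl, fE D l' hl', D.toSys.E_E hl hl']) m hm, map_mul]
    rfl
  · have := τ_eq K (D.fE (j • D.c 0)) 0 (0 + 4 * j) (map_zero _) (fun x => by
      rw [fE D _ (by simp [D.alt]), ← D.toSys.E_add_c0, zero_add]) m hm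
    rwa [τ_zero K] at this
  · have e : ∀ x, D.ω (D.c 0) (D.ρ g x) = D.ω (D.c 0) x := fun x => by
      conv_lhs => rw [← hg]
      exact ω_ρ D g _ _
    rw [Dat.τ, Dat.τ, ← map_mul, ← map_mul]
    refine πc K fun x => ?_
    rw [D.toSys.ρ_mul, D.toSys.ρ_mul, fE D l hl, fE D _ (by rw [e, hl])]
    simp only [Sys.E, map_add, map_smul, hg, e, ω_ρ]
  · have e : ∀ x, D.ω (D.c 0) (D.ρ g x) = -D.ω (D.c 0) x := fun x => by
      rw [← ω_ρ D g (D.c 0) x, hg, map_neg, LinearMap.neg_apply, neg_neg]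
    rw [Dat.τ, Dat.τ, ← map_mul, ← map_mul]
    refine πc K fun x => ?_
    rw [D.toSys.ρ_mul, D.toSys.ρ_mul, fE D l hl, fE D _ (by rw [map_neg, e, hl]; simp)]
    simp only [Sys.E, map_add, map_smul, map_neg, LinearMap.neg_apply, hg, e, ω_ρ]
    module
  · have e1 := D.toSys.ω_c0_ww hi
    have e2 := D.toSys.ω_c0_ww hj
    exact τ_eq K _ _ _ (by rw [map_sub, e1, e2, sub_self]) (fun x => by
      rw [D.toSys.ρ_mul, D.toSys.ρ_yy (h2 D) hi, D.toSys.ρ_yy (h2 D) hj, D.toSys.Rf_Rf e1 e2]) m hm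
  · have e : D.ω (D.c 0) (D.ρ g (D.c 1)) = 1 := by
      conv_lhs => rw [← hg]
      rw [ω_ρ, D.toSys.ω01 (h2 D)]
    have e0 : D.ρ (D.fE l * g) (D.c 0) = D.c 0 := by
      rw [D.toSys.ρ_mul, hg, fE D l hl, D.toSys.E_c0 hl]
    rw [Dat.τ, ← Module.End.mul_apply, ← map_mul]
    refine K.twd g' _ (i - 2 * D.ω l (D.ρ g (D.c 1))) (by rw [hg', e0]) ?_
    rw [h, e0, D.toSys.ρ_mul, fE D l hl, Sys.E, e]
    module
  · have e : ∀ y, D.ω (D.c 0) y = 0 → D.ρ (D.σ 0) y = y := fun y hy => by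
      rw [D.ρσ 0 (by omega), D.toSys.skew, hy]
      simp
    rw [Dat.Fx, ← Module.End.mul_apply, ← map_mul]
    exact K.twd _ g 0 (by rw [D.toSys.ρ_mul, e _ a0]) (by rw [D.toSys.ρ_mul, e _ a1]; simp)
  · rw [Dat.τ, ← Module.End.mul_apply, ← map_mul]
    exact K.twd _ g 0 (by rw [D.toSys.ρ_mul, fE D l hl, Sys.E, a0, b0]; simp)
      (by rw [D.toSys.ρ_mul, fE D l hl, Sys.E, a1, b1]; simp)
  · have hl : D.ω (D.c 0) (a • D.c 2 + b • D.c 3) = 0 := by
      simp [D.ch2 0 2 (by omega) (by omega), D.ch2 0 3 (by omega) (by omega)]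
    have hm : a • D.c 2 + b • D.c 3 ∈ (D.toSys.trunc 4 (by omega)).L :=
      add_mem (Submodule.smul_mem _ _ ((D.toSys.trunc 4 (by omega)).c_mem
        (show 2 < 4 by norm_num))) (Submodule.smul_mem _ _ ((D.toSys.trunc 4 (by omega)).c_mem
        (show 3 < 4 by norm_num)))
    obtain ⟨f, hf, hf'⟩ := (D.toSys.trunc 4 (by omega)).exists_E (show Even 4 by decide)
      (show 2 ≤ 4 by norm_num) hm hl 0
    have : D.τ (a • D.c 2 + b • D.c 3) = D.π f := πc K fun x => by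
      rw [fE D _ hl]
      exact (hf' x).symm
    rw [this]
    exact K.par5 f (FF_le D hf)
  · obtain ⟨g, rfl⟩ := K.trans u hu
    obtain ⟨b, rfl⟩ : ∃ b', b = D.ρ g b' := ⟨D.ρ g⁻¹ b, (D.toSys.ρ_ρ_inv g b).symm⟩
    rw [ω_ρ] at hb
    refine ⟨g * D.fE b * g⁻¹, fun x => ?_⟩
    obtain ⟨x, rfl⟩ : ∃ x', x = D.ρ g x' := ⟨D.ρ g⁻¹ x, (D.toSys.ρ_ρ_inv g x).symm⟩
    rw [D.toSys.ρ_mul, D.toSys.ρ_mul, D.toSys.ρ_inv_ρ, fE D b hb]
    simp only [Sys.E, map_add, map_smul, ω_ρ, zero_mul, add_zero]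

end Pool.Agent.MP_00906f_gt.H91
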