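import Pool.Agent.MP_00906f_gt.H91.K3A

/-! The vectors killed by subalgebras (row K3, helper79). -/

namespace Pool.Agent.MP_00906f_gt.H91

open H46 IsNilpotent

namespace K3

variable {G H M E : Type} [Group G] [AddCommGroup H] [AddCommGroup M] [Module ℚ M]
  [AddCommGroup E] [Module ℚ E] {D : Dat G H M} (L : Lie D E)

theorem nil2 (S : Sp1 L.toSp) (v : E) : IsNilpotent ((2 : ℚ) • L.B v v) :=
  (S.nil v v (L.alt v)).smul 2

theorem four (S : Sp1 L.toSp) (g : G) : D.π (g * D.σ 0 ^ 4 * g⁻¹) =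
    exp ((2 : ℚ) • L.B (L.ρ g (L.c 0)) (L.ρ g (L.c 0))) := by
  have h := Module.End.commute_exp_left_of_commute (g := D.π g) (nil2 L S (L.c 0))
    (nil2 L S (L.ρ g (L.c 0))) (by
      rw [LinearMap.smul_comp, LinearMap.comp_smul]
      exact congrArg _ (L.eqv g _ _).symm)
  have h1 : exp ((2 : ℚ) • L.B (L.ρ g (L.c 0)) (L.ρ g (L.c 0))) * D.π g =
      D.π g * exp ((2 : ℚ) • L.B (L.c 0) (L.c 0)) := h
  rw [map_mul, map_mul, L.four]
  change D.π g * exp ((2 : ℚ) • L.B (L.c 0) (L.c 0)) * D.π g⁻¹ = _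
  rw [← h1, mul_assoc, ← map_mul, mul_inv_cancel, map_one, mul_one]

theorem four_i (K : Kit1 D) (S : Sp1 L.toSp) {i : ℕ} (hi : i < D.N) :
    D.π (D.σ i ^ 4) = exp ((2 : ℚ) • L.B (L.c i) (L.c i)) := by
  obtain ⟨g, hg⟩ := K.trans _ (D.toSys.V_c D.hN hi)
  have h1 : L.ρ g (L.c 0) = L.c i := by rw [Lie.c, L.ρ_ι, hg, Lie.c]
  rw [← h1, ← four L S g]
  refine K.π_congr _ _ (LinearMap.ext fun x => ?_)
  have h2 := K.conjσ g 4 x
  have h3 := D.toSys.ρσ_zpow hi 4 x
  rw [hg] at h2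
  rw [← zpow_natCast, ← zpow_natCast]
  exact h3.trans h2.symm

theorem pow_fix {g : G} {m : M} (h : D.π g m = m) (k : ℕ) : D.π (g ^ k) m = m := by
  induction k with
  | zero => simp
  | succ k ih => rw [_root_.pow_succ, map_mul, Module.End.mul_apply, h, ih]

theorem diag (K : Kit1 D) (Lg : Log) (S : Sp1 L.toSp) {i : ℕ} (hi : i < D.N) {m : M}
    (h : D.π (D.σ i) m = m) : L.B (L.c i) (L.c i) m = 0 := by
  have h1 := pow_fix h 4
  rw [four_i L K S hi, Lg.fix M _ m (nil2 L S _)] at h1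
  simpa using h1

/-- `A` is stable under the conjugation by `g`. -/
def St (A : Submodule ℚ (Module.End ℚ M)) (g : G) : Prop :=
  ∀ a b, L.B a b ∈ A → L.B (L.ρ g a) (L.ρ g b) ∈ A

theorem chain (A : Submodule ℚ (Module.End ℚ M)) {lo hi : ℕ} (hN : hi ≤ D.N)
    (hd : ∀ i, lo ≤ i → i < hi → L.B (L.c i) (L.c i) ∈ A)
    (hs : ∀ i, lo ≤ i → i < hi → St L A (D.σ i)) (i j : ℕ) (h1 : lo ≤ i) (h2 : i < hi)
    (h3 : lo ≤ j) (h4 : j < hi) : L.B (L.c i) (L.c j) ∈ A := by
  have key : ∀ i k, lo ≤ i → i + 1 + k < hi → L.B (L.c i) (L.c (i + 1 + k)) ∈ A := by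
    intro i k h1
    induction k with
    | zero =>
      intro h2
      have h5 := hs (i + 1) (by omega) h2 _ _ (hd i h1 (by omega))
      rw [ρσ L (by omega), ωs L (by omega), one_smul] at h5
      simp only [map_add, LinearMap.add_apply] at h5
      rw [L.symm (L.c (i + 1)) (L.c i)] at h5
      have h6 := A.smul_mem (1 / 2 : ℚ)
        (A.sub_mem (A.sub_mem h5 (hd i h1 (by omega))) (hd (i + 1) (by omega) h2))
      convert h6 using 1
      module
    | succ k ih =>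
      intro h2
      have h5 := hs (i + 1 + k + 1) (by omega) h2 _ _ (ih (by omega))
      rw [ρσ L (by omega), ρσ L (by omega), ωs L (by omega), ωn L (by omega) (by omega), one_smul,
        zero_smul, add_zero, map_add] at h5
      have h6 := A.sub_mem h5 (ih (by omega))
      rwa [add_sub_cancel_left] at h6
  rcases lt_trichotomy i j with h | rfl | h
  · obtain ⟨k, rfl⟩ : ∃ k, j = i + 1 + k := ⟨j - i - 1, by omega⟩
    exact key i k h1 h4
  · exact hd i h1 h2
  · obtain ⟨k, rfl⟩ : ∃ k, i = j + 1 + k := ⟨i - j - 1, by omega⟩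
    rw [L.symm]
    exact key j k h3 h2

theorem bil (A : Submodule ℚ (Module.End ℚ M)) {s : Set E} (h : ∀ a ∈ s, ∀ b ∈ s, L.B a b ∈ A)
    {a b : E} (ha : a ∈ Submodule.span ℚ s) (hb : b ∈ Submodule.span ℚ s) : L.B a b ∈ A := by
  have h1 : ∀ b ∈ s, L.B a b ∈ A := fun b hb =>
    (Submodule.span_le (p := A.comap (L.B.flip b))).2 (fun x hx => h x hx b hb) ha
  exact (Submodule.span_le (p := A.comap (L.B a))).2 h1 hb

theorem outer (A : Submodule ℚ (Module.End ℚ M)) {k : ℕ} {r : E} {g : G} (hk : k < D.N)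
    (hc : ∀ i j, k ≤ i → i < D.N → k ≤ j → j < D.N → L.B (L.c i) (L.c j) ∈ A)
    (hg : ∀ x, L.ρ g x = x + (2 * L.ω x r) • r) (hs : St L A g) (h1 : L.ω (L.c k) r = -1)
    (h2 : ∀ j, k < j → j < D.N → L.ω (L.c j) r = 0) {a b : E} (ha : a ∈ Wk L k r)
    (hb : b ∈ Wk L k r) : L.B a b ∈ A := by
  have e1 : L.ρ g (L.c k) = L.c k + (-2 : ℚ) • r := by rw [hg, h1]; norm_num
  have e2 : L.ρ g (L.c k + (-2 : ℚ) • r) = L.c k + (-4 : ℚ) • r := by
    rw [map_add, map_smul, e1, hg r, L.alt]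
    module
  have b0 := hc k k le_rfl hk le_rfl hk
  have b1 := hs _ _ b0
  rw [e1] at b1
  have b2 := hs _ _ b1
  rw [e2] at b2
  simp only [map_add, map_smul, LinearMap.add_apply, LinearMap.smul_apply] at b1 b2
  rw [L.symm (L.c k) r] at b1 b2
  have rr : L.B r r ∈ A := by
    have := A.smul_mem (1 / 8 : ℚ) (A.add_mem (A.sub_mem b2 (A.smul_mem 2 b1)) b0)
    convert this using 1
    module
  have rc : ∀ j, k ≤ j → j < D.N → L.B r (L.c j) ∈ A := by
    intro j hj hN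
    rcases hj.eq_or_lt with rfl | hj'
    · have := A.smul_mem (-1 / 4 : ℚ) (A.sub_mem (A.sub_mem b1 b0) (A.smul_mem 4 rr))
      convert this using 1
      module
    · have b3 := hc k j le_rfl hk hj hN
      have b4 := hs _ _ b3
      rw [e1, hg (L.c j), h2 j hj' hN, mul_zero, zero_smul, add_zero] at b4
      simp only [map_add, map_smul, LinearMap.add_apply, LinearMap.smul_apply] at b4
      have := A.smul_mem (-1 / 2 : ℚ) (A.sub_mem b4 b3)
      convert this using 1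
      module
  refine bil L A ?_ ha hb
  rintro _ (rfl | ⟨i, hi, rfl⟩) _ (rfl | ⟨j, hj, rfl⟩)
  · exact rr
  · exact rc j hj.1 hj.2
  · rw [L.symm]
    exact rc i hi.1 hi.2
  · exact hc i j hi.1 hi.2 hj.1 hj.2

/-- The annihilator of a vector. -/
def Ann (m : M) : Submodule ℚ (Module.End ℚ M) := LinearMap.ker (LinearMap.applyₗ m)

theorem mem_Ann {m : M} {u : Module.End ℚ M} : u ∈ Ann m ↔ u m = 0 := Iff.rfl

theorem St_Ann {g : G} {m : M} (h : D.π g m = m) : St L (Ann m) g := by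
  intro a b hab
  have h1 := LinearMap.congr_fun (L.eqv g a b) m
  rw [Module.End.mul_apply, Module.End.mul_apply, h, mem_Ann.1 hab, map_zero] at h1
  exact h1.symm

theorem chain_Ann (K : Kit1 D) (Lg : Log) (S : Sp1 L.toSp) {m : M} {k lo hi : ℕ} (hN : hi ≤ D.N)
    (hm : ∀ g ∈ Par D.σ D.N k, D.π g m = m) (hk : k < lo ∨ hi ≤ k) (i j : ℕ) (h1 : lo ≤ i)
    (h2 : i < hi) (h3 : lo ≤ j) (h4 : j < hi) : L.B (L.c i) (L.c j) ∈ Ann m := by
  have h : ∀ i, lo ≤ i → i < hi → D.π (D.σ i) m = m := fun i h1 h2 =>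
    hm _ (Subgroup.subset_closure ⟨i, ⟨by omega, by omega⟩, rfl⟩)
  exact chain L (Ann m) hN (fun i h1 h2 => diag L K Lg S (by omega) (h i h1 h2))
    (fun i h1 h2 => St_Ann L (h i h1 h2)) i j h1 h2 h3 h4

theorem sph3 (K : Kit1 D) (Lg : Log) (S : Sp1 L.toSp) : L.toSp.Sph (L.c 0) (L.c 1) D.t3 := by
  have h8 := D.h8
  have h := chain_Ann L K Lg S (k := 2) (lo := 0) (hi := 2) (by omega) K.par3 (by omega)
  refine ⟨h 0 0 (by omega) (by omega) (by omega) (by omega),
    h 0 1 (by omega) (by omega) (by omega) (by omega),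
    h 1 1 (by omega) (by omega) (by omega) (by omega), fun w w' h1 h2 h3 h4 => ?_⟩
  refine outer L (Ann D.t3) (k := 3) (r := L.c 0 + L.c 2) (by omega)
    (chain_Ann L K Lg S le_rfl K.par3 (by omega)) (fun x => ?_) (St_Ann L K.D4_t3) ?_
    (fun j h hj => ?_) (mem3 L h1 h2) (mem3 L h3 h4)
  · have := tv L K.ρ_D4 x
    simpa [Lie.c] using this
  · rw [map_add, ωn' L (by omega) (by omega), ωs' L (by omega), zero_add]
  · rw [map_add, ωn' L hj (by omega), ωn' L hj (by omega), add_zero]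

theorem out5 (K : Kit1 D) (Lg : Log) (S : Sp1 L.toSp) (w w' : E)
    (h1 : ∀ i, i < 4 → L.ω (L.c i) w = 0) (h2 : ∀ i, i < 4 → L.ω (L.c i) w' = 0) :
    L.B w w' D.t5 = 0 := by
  have h8 := D.h8
  refine outer L (Ann D.t5) (k := 5) (r := L.c 0 + L.c 2 + L.c 4) (by omega)
    (chain_Ann L K Lg S le_rfl K.par5 (by omega)) (fun x => ?_) (St_Ann L K.D6_t5) ?_
    (fun j h hj => ?_) (mem5 L h1) (mem5 L h2)
  · have := tv L K.ρ_D6 x
    simpa [Lie.c] using this
  · rw [map_add, map_add, ωn' L (by omega) (by omega), ωn' L (by omega) (by omega),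
      ωs' L (by omega), zero_add, zero_add]
  · rw [map_add, map_add, ωn' L hj (by omega), ωn' L hj (by omega), ωn' L hj (by omega), add_zero,
      add_zero]

theorem in5 (K : Kit1 D) (Lg : Log) (S : Sp1 L.toSp) {u u' : E}
    (hu : u ∈ Submodule.span ℚ (L.c '' {i | i < 4}))
    (hu' : u' ∈ Submodule.span ℚ (L.c '' {i | i < 4})) : L.B u u' D.t5 = 0 := by
  have h8 := D.h8
  refine bil L (Ann D.t5) ?_ hu hu'
  rintro _ ⟨i, hi, rfl⟩ _ ⟨j, hj, rfl⟩
  exact chain_Ann L K Lg S (k := 4) (lo := 0) (hi := 4) (by omega) K.par5 (by omega) i j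
    (Nat.zero_le _) hi (Nat.zero_le _) hj

theorem sub_MU (K : Kit1 D) (W : WW D) (g : G) (m : M) : D.π g m - m ∈ D.MU := by
  have h : (⊤ : Submodule ℚ M) ≤ D.MU.comap (D.π g - 1) := by
    rw [← K.gen, Submodule.span_le]
    rintro _ (⟨h, rfl⟩ | ⟨h, rfl⟩)
    · have h1 : D.π h D.t3 ∈ D.MU := Submodule.subset_span ⟨h, rfl⟩
      exact D.MU.sub_mem (K.MU_π g _ h1) h1
    · have h1 := D.MU.sub_mem (W (g * h)) (W h)
      rw [sub_sub_sub_cancel_right, map_mul] at h1
      exact h1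
  exact h Submodule.mem_top

/-- The endomorphisms with values in `U`. -/
def Into (U : Submodule ℚ M) : Submodule ℚ (Module.End ℚ M) where
  carrier := {u | ∀ m, u m ∈ U}
  add_mem' := fun ha hb m => U.add_mem (ha m) (hb m)
  zero_mem' := fun _ => U.zero_mem
  smul_mem' := fun c _ ha m => U.smul_mem c (ha m)

theorem B_MU (K : Kit1 D) (W : WW D) (Lg : Log) (S : Sp1 L.toSp) (a b : E) (m : M) :
    L.B a b m ∈ D.MU := by
  have h := chain L (Into D.MU) (lo := 0) le_rfl (fun i _ hi m => ?_) (fun i _ _ a b hab m => ?_)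
  · refine bil L (Into D.MU) (s := L.c '' {i | i < D.N}) ?_ ?_ ?_ m
    · rintro _ ⟨i, hi, rfl⟩ _ ⟨j, hj, rfl⟩
      exact h i j (Nat.zero_le _) hi (Nat.zero_le _) hj
    · rw [span_c]
      trivial
    · rw [span_c]
      trivial
  · have h1 := Lg.sub M _ D.MU m (nil2 L S (L.c i))
      (fun x hx => by rw [← four_i L K S hi]; exact K.MU_π _ x hx)
      (by rw [← four_i L K S hi]; exact sub_MU K W _ m)
    have h2 := D.MU.smul_mem (1 / 2 : ℚ) h1
    rw [LinearMap.smul_apply, smul_smul] at h2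
    simpa using h2
  · have h1 := LinearMap.congr_fun (L.eqv (D.σ i) a b) (D.π (D.σ i)⁻¹ m)
    rw [Module.End.mul_apply, Module.End.mul_apply, ← Module.End.mul_apply (D.π (D.σ i)) (D.π _),
      ← map_mul, mul_inv_cancel, map_one, Module.End.one_apply] at h1
    rw [← h1]
    exact K.MU_π _ _ (hab _)

theorem deg_ex (K : Kit1 D) (W : WW D) (Lg : Log) (S : Sp1 L.toSp) : ∃ d, L.Deg d := by
  have := D.fin
  refine ⟨Module.finrank ℚ M, fun a b m _ => B_MU L K W Lg S a b m, fun v m _ => ?_⟩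
  obtain ⟨n, hn⟩ := S.nil v v (L.alt v)
  have h := Module.End.ker_pow_le_ker_pow_finrank (L.B v v) n
  have h1 : (L.B v v ^ Module.finrank ℚ M) m = 0 := h (by simp [hn])
  rw [pow_succ', Module.End.mul_apply, h1, map_zero]

end K3

theorem rowK3 : OfK3 := by
  intro hK1 hW Lg hS G H M E _ _ _ _ _ _ D L
  have K : Kit1 D := hK1 G H M D
  have W : WW D := hW G H M D
  have S : Sp1 L.toSp := hS E M L.toSp
  have h8 := D.h8
  exact
    { ωc := fun _ _ hi hj => K3.ωc L hi hj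
      ρσ := fun _ hi => K3.ρσ L hi
      ρσ_inv := fun _ hi => K3.ρσ_inv L hi
      ρ_ω := K3.ρ_ω L
      span_c := K3.span_c L
      par_c0 := fun _ hg => K3.par_c0 L hg
      fam := K3.fam L
      four := K3.four L S
      Fx := fun _ hm => K3.diag L K Lg S (by omega) hm
      sph3 := K3.sph3 L K Lg S
      in5 := fun _ hu _ hu' => K3.in5 L K Lg S hu hu'
      out5 := K3.out5 L K Lg S
      B_MU := K3.B_MU L K W Lg S
      deg_ex := K3.deg_ex L K W Lg S }

end Pool.Agent.MP_00906f_gt.H91
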