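import Pool.Agent.MP_00906f_gt.H91.Spec

/-! The rational lattice (row K3, first part, helper79). -/

namespace Pool.Agent.MP_00906f_gt.H91.K3

open H46 IsNilpotent

variable {G H M E : Type} [Group G] [AddCommGroup H] [AddCommGroup M] [Module ℚ M]
  [AddCommGroup E] [Module ℚ E] {D : Dat G H M} (L : Lie D E)

theorem skew (x y : E) : L.ω x y = -L.ω y x := by
  have h := L.alt (x + y)
  simp only [map_add, LinearMap.add_apply, L.alt] at h
  linarith

theorem ωc {i j : ℕ} (hi : i < D.N) (hj : j < D.N) :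
    L.ω (L.c i) (L.c j) = (if j = i + 1 then 1 else 0) - (if i = j + 1 then 1 else 0) := by
  rw [Lie.c, Lie.c, L.ω_ι, D.toSys.lat_ωcc hi hj]
  split_ifs <;> simp

theorem tv {g : G} {v : H} {n : ℤ} (h : ∀ x, D.ρ g x = x + (n * D.ω x v) • v) (x : E) :
    L.ρ g x = x + ((n : ℚ) * L.ω x (L.ι v)) • L.ι v := by
  have h1 : L.ρ g = LinearMap.id + ((n : ℚ) • L.ω.flip (L.ι v)).smulRight (L.ι v) := by
    refine LinearMap.ext_on_range L.top fun y => ?_
    simp only [L.ρ_ι, h, map_add, map_zsmul, LinearMap.add_apply, LinearMap.id_apply,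
      LinearMap.smulRight_apply, LinearMap.smul_apply, LinearMap.flip_apply, L.ω_ι, smul_eq_mul]
    rw [← Int.cast_smul_eq_zsmul ℚ]
    push_cast
    rfl
  rw [h1]
  simp

theorem ρσ {i : ℕ} (hi : i < D.N) (x : E) : L.ρ (D.σ i) x = x + L.ω x (L.c i) • L.c i := by
  have h := tv L (g := D.σ i) (v := D.c i) (n := 1) (fun y => by rw [one_mul, D.ρσ i hi]) x
  simpa [Lie.c] using h

theorem ρσ_inv {i : ℕ} (hi : i < D.N) (x : E) :
    L.ρ (D.σ i)⁻¹ x = x - L.ω x (L.c i) • L.c i := by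
  have h := tv L (g := (D.σ i)⁻¹) (v := D.c i) (n := -1)
    (fun y => by rw [D.toSys.ρσ_inv hi]; simp [sub_eq_add_neg]) x
  simpa [Lie.c, sub_eq_add_neg] using h

theorem ρ_ω (g : G) (x y : E) : L.ω (L.ρ g x) (L.ρ g y) = L.ω x y := by
  have h : L.ω.compl₁₂ (L.ρ g) (L.ρ g) = L.ω := by
    refine LinearMap.ext_on_range L.top fun a => LinearMap.ext_on_range L.top fun b => ?_
    rw [LinearMap.compl₁₂_apply, L.ρ_ι, L.ρ_ι, L.ω_ι, L.ω_ι, D.toSys.ρ_ω (D.hB g)]
  exact LinearMap.congr_fun (LinearMap.congr_fun h x) y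

theorem span_c : Submodule.span ℚ (L.c '' {i | i < D.N}) = ⊤ := by
  rw [eq_top_iff, ← L.top, Submodule.span_le]
  rintro _ ⟨x, rfl⟩
  have hx := D.hL x
  unfold Sys.L at hx
  induction hx using Submodule.span_induction with
  | mem y hy =>
    obtain ⟨i, hi, rfl⟩ := hy
    exact Submodule.subset_span ⟨i, hi, rfl⟩
  | zero => simp
  | add a b _ _ ha hb =>
    rw [map_add]
    exact Submodule.add_mem _ ha hb
  | smul n a _ ha =>
    rw [map_zsmul]
    exact zsmul_mem ha n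

theorem ρ_mul (a b : G) (x : E) : L.ρ (a * b) x = L.ρ a (L.ρ b x) := by
  rw [map_mul]
  rfl

theorem par_c0 {g : G} (hg : g ∈ Par D.σ D.N 1) : L.ρ g (L.c 0) = L.c 0 := by
  have h8 := D.h8
  unfold Par at hg
  induction hg using Subgroup.closure_induction with
  | mem y hy =>
    obtain ⟨i, ⟨hi, h1⟩, rfl⟩ := hy
    rw [ρσ L hi, ωc L (by omega) hi, if_neg (by omega), if_neg (by omega)]
    simp
  | one => simp
  | mul a b _ _ ha hb => rw [ρ_mul, hb, ha]
  | inv a _ ha =>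
    conv_lhs => rw [← ha]
    rw [← ρ_mul]
    simp

/-- The span of `r` and the `c i`, `k ≤ i`. -/
def Wk (k : ℕ) (r : E) : Submodule ℚ E :=
  Submodule.span ℚ (insert r (L.c '' {i | k ≤ i ∧ i < D.N}))

theorem r_mem (k : ℕ) (r : E) : r ∈ Wk L k r := Submodule.subset_span (Set.mem_insert _ _)

theorem c_mem {k i : ℕ} (r : E) (h : k ≤ i) (hi : i < D.N) : L.c i ∈ Wk L k r :=
  Submodule.subset_span (Set.mem_insert_of_mem _ ⟨i, ⟨h, hi⟩, rfl⟩)

theorem perp {k : ℕ} {r x : E} (hr : L.ω x r = 0) (hc : ∀ i, k ≤ i → i < D.N → L.ω x (L.c i) = 0)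
    {w : E} (hw : w ∈ Wk L k r) : L.ω x w = 0 := by
  have h : Wk L k r ≤ LinearMap.ker (L.ω x) := by
    rw [Wk, Submodule.span_le]
    rintro _ (rfl | ⟨i, hi, rfl⟩)
    · exact hr
    · exact hc i hi.1 hi.2
  exact h hw

theorem dec (k : ℕ) (r : E) (P : Submodule ℚ E) (h : ∀ i, i < k → L.c i ∈ P ⊔ Wk L k r) (v : E) :
    ∃ p ∈ P, ∃ w ∈ Wk L k r, p + w = v := by
  have h1 : (⊤ : Submodule ℚ E) ≤ P ⊔ Wk L k r := by
    rw [← span_c L, Submodule.span_le]
    rintro _ ⟨i, hi, rfl⟩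
    by_cases hk : i < k
    · exact h i hk
    · exact Submodule.mem_sup_right (c_mem L r (by omega) hi)
  exact Submodule.mem_sup.1 (h1 Submodule.mem_top)

theorem ωn {i j : ℕ} (hj : j < D.N) (h : i + 2 ≤ j) : L.ω (L.c i) (L.c j) = 0 := by
  rw [ωc L (by omega) hj, if_neg (by omega), if_neg (by omega), sub_zero]

theorem ωn' {i j : ℕ} (hj : j < D.N) (h : i + 2 ≤ j) : L.ω (L.c j) (L.c i) = 0 := by
  rw [skew, ωn L hj h, neg_zero]

theorem ωs {i : ℕ} (hi : i + 1 < D.N) : L.ω (L.c i) (L.c (i + 1)) = 1 := by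
  rw [ωc L (by omega) hi, if_pos rfl, if_neg (by omega), sub_zero]

theorem ωs' {i : ℕ} (hi : i + 1 < D.N) : L.ω (L.c (i + 1)) (L.c i) = -1 := by
  rw [skew, ωs L hi]

theorem mem3 {v : E} (h0 : L.ω (L.c 0) v = 0) (h1 : L.ω (L.c 1) v = 0) :
    v ∈ Wk L 3 (L.c 0 + L.c 2) := by
  have h8 := D.h8
  have m0 : L.c 0 ∈ Submodule.span ℚ {L.c 0, L.c 1} := Submodule.subset_span (by simp)
  have m1 : L.c 1 ∈ Submodule.span ℚ {L.c 0, L.c 1} := Submodule.subset_span (by simp)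
  obtain ⟨p, hp, w, hw, rfl⟩ := dec L 3 (L.c 0 + L.c 2) (Submodule.span ℚ {L.c 0, L.c 1})
    (fun i hi => by
      obtain rfl | rfl | rfl : i = 0 ∨ i = 1 ∨ i = 2 := by omega
      · exact Submodule.mem_sup_left m0
      · exact Submodule.mem_sup_left m1
      · have := Submodule.sub_mem _ (Submodule.mem_sup_right (r_mem L 3 (L.c 0 + L.c 2)))
          (Submodule.mem_sup_left m0)
        rwa [add_sub_cancel_left] at this) v
  obtain ⟨a, b, rfl⟩ := Submodule.mem_span_pair.1 hp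
  have e01 : L.ω (L.c 0) (L.c 1) = 1 := ωs L (by omega)
  have e10 : L.ω (L.c 1) (L.c 0) = -1 := ωs' L (by omega)
  have e12 : L.ω (L.c 1) (L.c 2) = 1 := ωs L (by omega)
  have e02 : L.ω (L.c 0) (L.c 2) = 0 := ωn L (by omega) (by omega)
  have w0 : L.ω (L.c 0) w = 0 := perp L (by simp [L.alt, e02])
    (fun i h hi => ωn L hi (by omega)) hw
  have w1 : L.ω (L.c 1) w = 0 := perp L (by simp [e10, e12])
    (fun i h hi => ωn L hi (by omega)) hw
  simp only [map_add, map_smul, L.alt, e01, e10, w0, w1, smul_eq_mul] at h0 h1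
  have ha : a = 0 := by linarith
  have hb : b = 0 := by linarith
  simpa [ha, hb] using hw

theorem mem5 {v : E} (h : ∀ i, i < 4 → L.ω (L.c i) v = 0) :
    v ∈ Wk L 5 (L.c 0 + L.c 2 + L.c 4) := by
  have h8 := D.h8
  set P := Submodule.span ℚ {L.c 0, L.c 1} ⊔ Submodule.span ℚ {L.c 2, L.c 3} with hP
  have m0 : L.c 0 ∈ P := Submodule.mem_sup_left (Submodule.subset_span (by simp))
  have m1 : L.c 1 ∈ P := Submodule.mem_sup_left (Submodule.subset_span (by simp))
  have m2 : L.c 2 ∈ P := Submodule.mem_sup_right (Submodule.subset_span (by simp))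
  have m3 : L.c 3 ∈ P := Submodule.mem_sup_right (Submodule.subset_span (by simp))
  obtain ⟨p, hp, w, hw, rfl⟩ := dec L 5 (L.c 0 + L.c 2 + L.c 4) P
    (fun i hi => by
      obtain rfl | rfl | rfl | rfl | rfl : i = 0 ∨ i = 1 ∨ i = 2 ∨ i = 3 ∨ i = 4 := by omega
      · exact Submodule.mem_sup_left m0
      · exact Submodule.mem_sup_left m1
      · exact Submodule.mem_sup_left m2
      · exact Submodule.mem_sup_left m3
      · have := Submodule.sub_mem _
          (Submodule.mem_sup_right (r_mem L 5 (L.c 0 + L.c 2 + L.c 4)))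
          (Submodule.mem_sup_left (P.add_mem m0 m2))
        rwa [add_sub_cancel_left] at this) v
  obtain ⟨p1, hp1, p2, hp2, rfl⟩ := Submodule.mem_sup.1 hp
  obtain ⟨a, b, rfl⟩ := Submodule.mem_span_pair.1 hp1
  obtain ⟨a', b', rfl⟩ := Submodule.mem_span_pair.1 hp2
  have e01 : L.ω (L.c 0) (L.c 1) = 1 := ωs L (by omega)
  have e10 : L.ω (L.c 1) (L.c 0) = -1 := ωs' L (by omega)
  have e12 : L.ω (L.c 1) (L.c 2) = 1 := ωs L (by omega)
  have e21 : L.ω (L.c 2) (L.c 1) = -1 := ωs' L (by omega)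
  have e23 : L.ω (L.c 2) (L.c 3) = 1 := ωs L (by omega)
  have e32 : L.ω (L.c 3) (L.c 2) = -1 := ωs' L (by omega)
  have e34 : L.ω (L.c 3) (L.c 4) = 1 := ωs L (by omega)
  have e02 : L.ω (L.c 0) (L.c 2) = 0 := ωn L (by omega) (by omega)
  have e03 : L.ω (L.c 0) (L.c 3) = 0 := ωn L (by omega) (by omega)
  have e04 : L.ω (L.c 0) (L.c 4) = 0 := ωn L (by omega) (by omega)
  have e13 : L.ω (L.c 1) (L.c 3) = 0 := ωn L (by omega) (by omega)
  have e14 : L.ω (L.c 1) (L.c 4) = 0 := ωn L (by omega) (by omega)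
  have e24 : L.ω (L.c 2) (L.c 4) = 0 := ωn L (by omega) (by omega)
  have e20 : L.ω (L.c 2) (L.c 0) = 0 := ωn' L (by omega) (by omega)
  have e30 : L.ω (L.c 3) (L.c 0) = 0 := ωn' L (by omega) (by omega)
  have e31 : L.ω (L.c 3) (L.c 1) = 0 := ωn' L (by omega) (by omega)
  have w0 : L.ω (L.c 0) w = 0 := perp L (by simp [L.alt, e02, e04])
    (fun i h hi => ωn L hi (by omega)) hw
  have w1 : L.ω (L.c 1) w = 0 := perp L (by simp [e10, e12, e14])
    (fun i h hi => ωn L hi (by omega)) hw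
  have w2 : L.ω (L.c 2) w = 0 := perp L (by simp [L.alt, e20, e24])
    (fun i h hi => ωn L hi (by omega)) hw
  have w3 : L.ω (L.c 3) w = 0 := perp L (by simp [e30, e32, e34])
    (fun i h hi => ωn L hi (by omega)) hw
  have h0 := h 0 (by omega)
  have h1 := h 1 (by omega)
  have h2 := h 2 (by omega)
  have h3 := h 3 (by omega)
  simp only [map_add, map_smul, L.alt, e01, e10, e12, e21, e23, e32, e02, e03, e13, e20, e30, e31,
    w0, w1, w2, w3, smul_eq_mul] at h0 h1 h2 h3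
  have hb : b = 0 := by linarith
  have ha' : a' = 0 := by linarith
  have ha : a = 0 := by linarith
  have hb' : b' = 0 := by linarith
  simpa [ha, hb, ha', hb'] using hw

theorem fam : ∃ w : Fin (D.N - 2) → E, (∀ i, L.ω (L.c 0) (w i) = 0 ∧ L.ω (L.c 1) (w i) = 0) ∧
    ∀ v, L.ω (L.c 0) v = 0 → L.ω (L.c 1) v = 0 → v ∈ Submodule.span ℚ (Set.range w) := by
  have h8 := D.h8
  have e10 : L.ω (L.c 1) (L.c 0) = -1 := ωs' L (by omega)
  have e12 : L.ω (L.c 1) (L.c 2) = 1 := ωs L (by omega)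
  have e02 : L.ω (L.c 0) (L.c 2) = 0 := ωn L (by omega) (by omega)
  refine ⟨fun j => if j.1 = 0 then L.c 0 + L.c 2 else L.c (j.1 + 2), fun j => ?_,
    fun v h0 h1 => Submodule.span_mono ?_ (mem3 L h0 h1)⟩
  · have hj := j.2
    by_cases h : j.1 = 0
    · simp [h, L.alt, e10, e12, e02]
    · simp only [h, if_false]
      exact ⟨ωn L (by omega) (by omega), ωn L (by omega) (by omega)⟩
  · rintro _ (rfl | ⟨i, hi, rfl⟩)
    · exact ⟨⟨0, by omega⟩, by simp⟩
    · obtain ⟨h3, hN⟩ := hi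
      refine ⟨⟨i - 2, by omega⟩, ?_⟩
      have h : ¬ (i - 2 = 0) := by omega
      simp only [h, if_false]
      congr 1
      omega

end Pool.Agent.MP_00906f_gt.H91.K3
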