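import Pool.Agent.MP_00906f_gt.H91.Spec

/-! Logarithms of unipotent operators. -/

namespace Pool.Agent.MP_00906f_gt.H91

open IsNilpotent

namespace LOG

section ring

variable {A : Type} [Ring A] [Algebra ℚ A]

/-- The span of the powers `y ^ j`, `k ≤ j`. -/
def I (y : A) (k : ℕ) : Submodule ℚ A := Submodule.span ℚ {z | ∃ j, k ≤ j ∧ z = y ^ j}

lemma pow_mem (y : A) {k j : ℕ} (h : k ≤ j) : y ^ j ∈ I y k := Submodule.subset_span ⟨j, h, rfl⟩

lemma mono (y : A) {k l : ℕ} (h : k ≤ l) {z : A} (hz : z ∈ I y l) : z ∈ I y k := by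
  refine Submodule.span_mono ?_ hz
  rintro _ ⟨j, hj, rfl⟩
  exact ⟨j, h.trans hj, rfl⟩

lemma mul_mem (y : A) {k l : ℕ} {z w : A} (hz : z ∈ I y k) (hw : w ∈ I y l) :
    z * w ∈ I y (k + l) := by
  have := Submodule.mul_mem_mul hz hw
  rw [I, I, Submodule.span_mul_span] at this
  refine Submodule.span_mono ?_ this
  rintro _ ⟨_, ⟨i, hi, rfl⟩, _, ⟨j, hj, rfl⟩, rfl⟩
  exact ⟨i + j, add_le_add hi hj, (pow_add y i j).symm⟩

lemma pow_mem' (y : A) {k : ℕ} {z : A} (hz : z ∈ I y k) (j : ℕ) : z ^ j ∈ I y (j * k) := by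
  induction j with
  | zero => simpa using pow_mem y (le_refl 0)
  | succ j ih =>
    rw [_root_.pow_succ, Nat.succ_mul]
    exact mul_mem y ih hz

lemma eq_zero {y : A} {N : ℕ} (h : y ^ N = 0) {z : A} (hz : z ∈ I y N) : z = 0 := by
  have : I y N ≤ ⊥ := Submodule.span_le.2 (by
    rintro _ ⟨j, hj, rfl⟩
    exact pow_eq_zero_of_le hj h)
  exact this hz

lemma nil {y : A} (h : IsNilpotent y) {z : A} (hz : z ∈ I y 1) : IsNilpotent z := by
  obtain ⟨N, hN⟩ := h
  exact ⟨N, eq_zero hN (by simpa using pow_mem' y hz N)⟩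

lemma comm (y : A) {k l : ℕ} {z w : A} (hz : z ∈ I y k) (hw : w ∈ I y l) : Commute z w := by
  refine Commute.span_left (R := ℚ) ?_ z hz
  rintro _ ⟨i, -, rfl⟩
  refine Commute.span_right (R := ℚ) ?_ w hw
  rintro _ ⟨j, -, rfl⟩
  exact Commute.pow_pow_self y i j

lemma exp_mem {y : A} (h : IsNilpotent y) {k : ℕ} (hk : 1 ≤ k) {z : A} (hz : z ∈ I y k) :
    exp z - 1 - z ∈ I y (k + 1) := by
  obtain ⟨N, hN⟩ := nil h (mono y hk hz)
  have h2 : z ^ (N + 1 + 1) = 0 := pow_eq_zero_of_le (by omega) hN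
  rw [exp_eq_sum h2, Finset.sum_range_succ', Finset.sum_range_succ']
  simp only [Nat.factorial_zero, Nat.cast_one, inv_one, pow_zero, one_smul, zero_add,
    Nat.factorial_one, pow_one, add_sub_cancel_right]
  refine Submodule.sum_mem _ fun j _ => Submodule.smul_mem _ _ (mono y ?_ (pow_mem' y hz _))
  nlinarith [Nat.zero_le (j * k)]

lemma n_mem {y : A} (h : IsNilpotent y) : exp y - 1 ∈ I y 1 := by
  have h1 : y ∈ I y 1 := by simpa using pow_mem y (le_refl 1)
  simpa using (I y 1).add_mem (mono y (by omega) (exp_mem h le_rfl h1)) h1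

lemma npow {y : A} (h : IsNilpotent y) (k : ℕ) : (exp y - 1) ^ k - y ^ k ∈ I y (k + 1) := by
  have h1 : y ∈ I y 1 := by simpa using pow_mem y (le_refl 1)
  induction k with
  | zero => simp
  | succ k ih =>
    have e : (exp y - 1) ^ (k + 1) - y ^ (k + 1) =
        ((exp y - 1) ^ k - y ^ k) * (exp y - 1) + y ^ k * (exp y - 1 - y) := by
      rw [_root_.pow_succ, _root_.pow_succ]
      noncomm_ring
    rw [e]
    exact add_mem (mul_mem y ih (n_mem h))
      (mul_mem y (k := k) (l := 1 + 1) (pow_mem y le_rfl) (exp_mem h le_rfl h1))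

lemma ex {n : A} (h : IsNilpotent n) : ∃ y, IsNilpotent y ∧ exp y = n + 1 := by
  have key : ∀ k, ∃ y ∈ I n 1, exp y - 1 - n ∈ I n (k + 1) := by
    intro k
    induction k with
    | zero =>
      refine ⟨0, zero_mem _, ?_⟩
      simpa using pow_mem n (le_refl 1)
    | succ k ih =>
      obtain ⟨y, hy, he⟩ := ih
      set e := exp y - 1 - n with hed
      have he1 : -e ∈ I n 1 := neg_mem (mono n (by omega) he)
      refine ⟨y + -e, add_mem hy he1, ?_⟩
      rw [exp_add_of_commute (comm n hy he1) (nil h hy) (nil h he1)]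
      have a1 := exp_mem h (by omega) (neg_mem he)
      have a2 : exp y - 1 ∈ I n 1 := by
        simpa using (I n 1).add_mem (mono n (by omega) (exp_mem h le_rfl hy)) hy
      have a3 : exp (-e) - 1 ∈ I n (k + 1) := by
        simpa using (I n (k + 1)).add_mem (mono n (by omega) a1) (neg_mem he)
      have e1 : exp y * exp (-e) - 1 - n =
          (exp y - 1) * (exp (-e) - 1) + (exp (-e) - 1 - -e) := by
        have : n = exp y - 1 - e := by rw [hed]; abel
        rw [this]
        noncomm_ring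
      rw [e1]
      exact add_mem (mono n (by omega) (mul_mem n a2 a3)) a1
  obtain ⟨N, hN⟩ := id h
  obtain ⟨y, hy, he⟩ := key N
  refine ⟨y, nil h hy, ?_⟩
  have := eq_zero hN (mono n (Nat.le_succ N) he)
  rw [sub_sub, sub_eq_zero] at this
  rw [this, add_comm]

lemma nsmul {y : A} (h : IsNilpotent y) (k : ℕ) : exp ((k : ℚ) • y) = exp y ^ k := by
  induction k with
  | zero => simp
  | succ k ih =>
    rw [Nat.cast_succ, add_smul, one_smul,
      exp_add_of_commute ((Commute.refl y).smul_left _) (h.smul _) h, ih, _root_.pow_succ]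

end ring

variable {V : Type} [AddCommGroup V] [Module ℚ V]

lemma app_mem {y : Module.End ℚ V} {U : Submodule ℚ V} {m : V} {k : ℕ}
    (h : ∀ j, k ≤ j → (y ^ j) m ∈ U) {z : Module.End ℚ V} (hz : z ∈ I y k) : z m ∈ U := by
  have : I y k ≤ U.comap (LinearMap.applyₗ m) := Submodule.span_le.2 (by
    rintro _ ⟨j, hj, rfl⟩
    exact h j hj)
  exact this hz

lemma desc {y : Module.End ℚ V} (hy : IsNilpotent y) {U : Submodule ℚ V} {m : V} {k : ℕ}
    (h : ∀ j, k ≤ j → ∃ f : Module.End ℚ V, f - y ^ j ∈ I y (j + 1) ∧ f m ∈ U) :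
    ∀ j, k ≤ j → (y ^ j) m ∈ U := by
  obtain ⟨N, hN⟩ := hy
  have key : ∀ d j, k ≤ j → N ≤ j + d → (y ^ j) m ∈ U := by
    intro d
    induction d with
    | zero =>
      intro j _ hj
      rw [pow_eq_zero_of_le (show N ≤ j from hj) hN]
      exact U.zero_mem
    | succ d ih =>
      intro j hj hd
      obtain ⟨f, h1, h2⟩ := h j hj
      have := app_mem (U := U) (m := m) (fun i hi => ih i (by omega) (by omega)) h1
      simpa using U.sub_mem h2 this
  exact fun j hj => key N j hj (by omega)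

lemma pow_stab {y : Module.End ℚ V} {U : Submodule ℚ V} (h : ∀ x ∈ U, y x ∈ U) (j : ℕ) :
    ∀ x ∈ U, (y ^ j) x ∈ U := by
  induction j with
  | zero => simp
  | succ j ih =>
    intro x hx
    rw [_root_.pow_succ, Module.End.mul_apply]
    exact ih _ (h x hx)

lemma sub {y : Module.End ℚ V} {U : Submodule ℚ V} {m : V} (hy : IsNilpotent y)
    (h : ∀ x ∈ U, exp y x ∈ U) (hm : exp y m - m ∈ U) : y m ∈ U := by
  have := desc hy (U := U) (m := m) (k := 1) (fun j hj => ⟨_, npow hy j, by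
    obtain ⟨i, rfl⟩ := Nat.exists_eq_add_of_le' hj
    rw [_root_.pow_succ, Module.End.mul_apply]
    exact pow_stab (fun x hx => U.sub_mem (h x hx) hx) i _ hm⟩) 1 le_rfl
  simpa using this

lemma pow {y : Module.End ℚ V} {U : Submodule ℚ V} {m : V} (k : ℕ) (hy : IsNilpotent y)
    (h : ∀ x ∈ U, y x ∈ U) : (y ^ k) m ∈ U ↔ ((exp y - 1) ^ k) m ∈ U := by
  constructor
  · intro hm
    refine app_mem (k := k) (fun j hj => ?_) (by simpa using pow_mem' y (n_mem hy) k)
    obtain ⟨i, rfl⟩ := Nat.exists_eq_add_of_le' hj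
    rw [pow_add, Module.End.mul_apply]
    exact pow_stab h i _ hm
  · intro hm
    refine desc hy (fun j hj => ?_) k le_rfl
    obtain ⟨i, rfl⟩ := Nat.exists_eq_add_of_le' hj
    refine ⟨y ^ i * (exp y - 1) ^ k, ?_, pow_stab h i _ hm⟩
    rw [pow_add, ← mul_sub]
    exact mul_mem y (k := i) (l := k + 1) (pow_mem y le_rfl) (npow hy k)

lemma tw {W : Type} [AddCommGroup W] [Module ℚ W] (φ : V →ₗ[ℚ] W) {y : Module.End ℚ V}
    {y' : Module.End ℚ W} (hy : IsNilpotent y) (hy' : IsNilpotent y')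
    (h : φ ∘ₗ exp y = exp y' ∘ₗ φ) : φ ∘ₗ y = y' ∘ₗ φ := by
  have hp : IsNilpotent (y, y') := by
    obtain ⟨a, ha⟩ := hy
    obtain ⟨b, hb⟩ := hy'
    exact ⟨a + b, Prod.ext (pow_eq_zero_of_le (Nat.le_add_right a b) ha)
      (pow_eq_zero_of_le (Nat.le_add_left b a) hb)⟩
  have e1 : exp (y, y') = (exp y, exp y') :=
    Prod.ext (map_exp hp (RingHom.fst _ _)) (map_exp hp (RingHom.snd _ _))
  have e2 := map_exp hp (LinearMap.prodMapRingHom ℚ V W)
  rw [e1] at e2
  have hs : ∀ x ∈ φ.graph, exp (LinearMap.prodMapRingHom ℚ V W (y, y')) x ∈ φ.graph := by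
    intro x hx
    rw [← e2]
    rw [LinearMap.mem_graph_iff] at hx ⊢
    have := LinearMap.congr_fun h x.1
    simpa [hx] using this.symm
  ext v
  have hv : (v, φ v) ∈ φ.graph := by simp
  have := sub (hp.map _) hs (φ.graph.sub_mem (hs _ hv) hv)
  rw [LinearMap.mem_graph_iff] at this
  simpa using this.symm

end LOG

theorem rowLOG : OfLOG where
  ex V _ _ u h := by simpa using LOG.ex h
  tw V W _ _ _ _ φ y y' hy hy' h := LOG.tw φ hy hy' h
  inj V _ _ y y' hy hy' h := by simpa using LOG.tw LinearMap.id hy hy' (by simpa using h)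
  fix V _ _ y m hy := by
    have := LOG.pow (U := ⊥) (m := m) 1 hy (by simp)
    simp only [pow_one, Submodule.mem_bot, LinearMap.sub_apply, Module.End.one_apply,
      sub_eq_zero] at this
    exact this.symm
  sub V _ _ y U m hy h hm := LOG.sub hy h hm
  sub' V _ _ y U m hy h hm := by simpa using (LOG.pow 1 hy h).1 (by simpa using hm)
  pow V _ _ y U m k hy h := LOG.pow k hy h
  nsmul V _ _ y k hy := LOG.nsmul hy k

end Pool.Agent.MP_00906f_gt.H91
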