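import Pool.Agent.MP_00906f_gt.H91.LSB

/-! The row LS. -/

namespace Pool.Agent.MP_00906f_gt.H91

open H46 IsNilpotent

namespace LS

variable {G H M E : Type} [Group G] [AddCommGroup H] [AddCommGroup M] [Module ℚ M]
  [AddCommGroup E] [Module ℚ E] {D : Dat G H M} {L : Lie D E}

lemma ωfar {i j : ℕ} (hi : i < D.N) (hj : j < D.N) (h1 : j ≠ i + 1) (h2 : i ≠ j + 1) :
    D.ω (D.c i) (D.c j) = 0 := by
  rw [D.toSys.lat_ωcc hi hj, if_neg h1, if_neg h2, sub_zero]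

lemma ρ_far {i j : ℕ} (hi : i < D.N) (hj : j < D.N) (h1 : j ≠ i + 1) (h2 : i ≠ j + 1) :
    D.ρ (D.σ i) (D.c j) = D.c j := by
  rw [D.ρσ i hi, ωfar hj hi h2 h1, zero_smul, add_zero]

lemma ρ_up {i : ℕ} (hi : i + 1 < D.N) : D.ρ (D.σ (i + 1)) (D.c i) = D.c i + D.c (i + 1) := by
  rw [D.ρσ _ hi, D.ch1 i hi, one_smul]

lemma ρ_pair {i : ℕ} (hi : i + 1 < D.N) : D.ρ (D.σ i * D.σ (i + 1)) (D.c i) = D.c (i + 1) := by
  rw [D.toSys.ρ_mul, ρ_up hi, D.ρσ i (by omega), map_add, LinearMap.add_apply, D.alt,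
    D.toSys.skew, D.ch1 i hi]
  module

lemma σ_par {i : ℕ} (hi : i < D.N) (h : i ≠ 2) : D.σ i ∈ Par D.σ D.N 2 :=
  Subgroup.subset_closure ⟨i, ⟨hi, h⟩, rfl⟩

/-- The translations that fix `m` modulo the invariant vectors. -/
def GG (C : Ctx L) (m : M) (hm : m ∈ FF D) : AddSubgroup H where
  carrier := {l | D.ω (D.c 0) l = 0 ∧ m - SS L l m ∈ ZZ L.toSp}
  add_mem' := fun {l l'} h h' => ⟨by rw [map_add, h.1, h'.1, add_zero], by
    have := (ZZ L.toSp).add_mem h.2 (ZZ_comm (C.SS_B h.1) h'.2)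
    rwa [map_sub, sub_add_sub_cancel, ← C.SS_add h.1 h'.1 hm] at this⟩
  zero_mem' := ⟨map_zero _, by rw [C.SS_zero hm, sub_self]; exact zero_mem _⟩
  neg_mem' := fun {l} h => by
    have hl : D.ω (D.c 0) (-l) = 0 := by rw [map_neg, h.1, neg_zero]
    refine ⟨hl, ?_⟩
    have := (ZZ L.toSp).neg_mem (ZZ_comm (C.SS_B hl) h.2)
    rwa [map_sub, ← C.SS_add hl h.1 hm, neg_add_cancel, C.SS_zero hm, neg_sub] at this

namespace Ctx

variable (C : Ctx L)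
include C

lemma GG_conj {m : M} (hm : m ∈ FF D) {g : G} (hg : D.ρ g (D.c 0) = D.c 0) (hgm : D.π g m = m)
    {l : H} (hl : D.ω (D.c 0) l = 0) : D.ρ g l ∈ GG C m hm ↔ l ∈ GG C m hm := by
  have hl' : D.ω (D.c 0) (D.ρ g l) = 0 := by
    rw [← hl]
    conv_lhs => rw [← hg]
    exact D.toSys.ρ_ω (D.hB g) _ _
  have e : D.π g (m - SS L l m) = m - SS L (D.ρ g l) m := by
    rw [map_sub, C.SS_conj hg hl, hgm]
  refine ⟨fun h => ⟨hl, ?_⟩, fun h => ⟨hl', ?_⟩⟩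
  · have := ZZ_π (L := L) g⁻¹ h.2
    rwa [← e, π_inv_π] at this
  · rw [← e]
    exact ZZ_π g h.2

lemma B_t5 {g : G} (h0 : D.ρ g (D.c 0) = D.c 0) (h3 : D.ρ g (D.c 3) = D.c 4) :
    L.B (L.c 0) (L.c 4) (D.π g D.t5) = 0 := by
  have e := LinearMap.congr_fun (L.eqv g (L.c 0) (L.c 3)) D.t5
  rw [Module.End.mul_apply, Module.End.mul_apply, C.k3.in5 _
    (Submodule.subset_span ⟨0, by simp, rfl⟩) _ (Submodule.subset_span ⟨3, by simp, rfl⟩),
    map_zero, Lie.c, Lie.c, L.ρ_ι, L.ρ_ι, h0, h3] at e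
  exact e.symm

lemma m1_mem : D.t3 - SS L (D.c 2) D.t3 ∈ FF D :=
  (FF D).sub_mem C.k2.Fx_t3
    (C.F_SS (D.ch2 0 2 le_rfl (by have := D.h8; omega)) _ C.k2.Fx_t3)

lemma step1 {z : H} (h0 : D.ω (D.c 0) z = 0) (h2 : D.ω (D.c 2) z = 0) (h3 : D.ω (D.c 3) z = 0)
    (h4 : D.ω (D.c 4) z = 0) (h5 : D.ω (D.c 5) z = 0) (hz : Four L z) : z ∈ GG C _ C.m1_mem := by
  have h8 := D.h8
  have ha : D.ω (D.c 0) (D.c 2) = 0 := D.ch2 0 2 le_rfl (by omega)
  have w4 : L.ω (L.c 0) (L.c 4) = 0 := ω0 (D.ch2 0 4 (by omega) (by omega))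
  have fa : Four L (D.c 2) := C.four_c le_rfl (by omega)
  have f0 : ∀ i, 2 ≤ i → i < 8 → D.ρ (D.σ i) (D.c 0) = D.c 0 := fun i h1 h2 =>
    ρ_far (by omega) (by omega) (by omega) (by omega)
  have p34 : D.ρ (D.σ 3 * D.σ 4) (D.c 3) = D.c 4 := ρ_pair (i := 3) (by omega)
  have s := C.s0 (L.B (L.c 0) (L.c 4)) (fun g hg0 hg4 m _ => by
      have e := LinearMap.congr_fun (L.eqv g (L.c 0) (L.c 4)) m
      rw [Lie.c, Lie.c, L.ρ_ι, L.ρ_ι, hg0, hg4] at e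
      exact e.symm)
    (fun l hl m hm => (C.τ_B hl w4 m hm).symm)
    (C.B_t5 (by simp [f0]) (by
      rw [mul_assoc, D.toSys.ρ_mul, p34]
      exact ρ_far (by omega) (by omega) (by omega) (by omega)))
    (C.B_t5 (by simp [f0]) p34) z h0 h2 h3 h4 h5
  have k := absU (U := FF D) (C.F_τ ha) (C.F_τ h0) (C.F_SS ha) (C.F_SS h0) (C.F_B w4)
    (C.τ_SS h0 h0) (C.τ_B h0 w4) (C.τ_comm h0 ha)
    (fun m _ => LinearMap.congr_fun (C.SS_B h0 _ _).eq m) (fun m hm => (C.τ_SS ha h0 m hm).symm)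
    (C.τ_SS ha ha) (C.τ_B ha w4) (fun m _ => LinearMap.congr_fun (C.SS_B ha _ _).eq m)
    (C.SS_comm ha h0) (C.four_pow ha fa) (C.four_pow h0 hz) (C.four_inj ha fa) (C.four_inj h0 hz)
    C.k2.Fx_t3 s
  have sp := Sph_comm (u := (1 - SS L z) * (1 - SS L (D.c 2))) (fun a b =>
    ((Commute.one_left _).sub_left (C.SS_B h0 a b)).mul_left
      ((Commute.one_left _).sub_left (C.SS_B ha a b))) C.k3.sph3
  refine ⟨h0, C.sp2.irr1 (L.c 0) (L.c 1) _ (L.c 4) ?_ sp (fun h => ?_) w4 ?_ k⟩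
  · rw [C.k3.ωc 0 1 (by omega) (by omega)]; simp
  · have := C.k3.ωc 3 4 (by omega) (by omega)
    rw [h] at this
    simp at this
  · rw [C.k3.ωc 1 4 (by omega) (by omega)]; simp

lemma step2 : D.c 2 ∈ GG C _ C.m1_mem := by
  have h8 := D.h8
  have w : ∀ i j, i < 8 → j < 8 → D.ω (D.c i) (D.c j) =
      (if j = i + 1 then 1 else 0) - (if i = j + 1 then 1 else 0) := fun i j hi hj =>
    D.toSys.lat_ωcc (by omega) (by omega)
  have dn : ∀ i, 4 ≤ i → i < 7 → D.c (i + 1) ∈ GG C _ C.m1_mem → D.c i ∈ GG C _ C.m1_mem :=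
    fun i h1 h2 h => by
      have f : ∀ j, j ≤ 2 → D.ρ (D.σ i * D.σ (i + 1)) (D.c j) = D.c j := fun j hj => by
        rw [D.toSys.ρ_mul, ρ_far (by omega) (by omega) (by omega) (by omega),
          ρ_far (by omega) (by omega) (by omega) (by omega)]
      have t := C.k1.par3 _ (Subgroup.mul_mem _ (σ_par (D := D) (i := i) (by omega) (by omega))
        (σ_par (i := i + 1) (by omega) (by omega)))
      refine (C.GG_conj _ (f 0 (by omega)) ?_ (D.ch2 0 i (by omega) (by omega))).1 ?_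
      · rw [map_sub, C.SS_conj (f 0 (by omega)) (D.ch2 0 2 le_rfl (by omega)), f 2 le_rfl, t]
      · rwa [ρ_pair (by omega)]
  have a7 : D.c 7 ∈ GG C _ C.m1_mem := C.step1 (by simp [w]) (by simp [w]) (by simp [w])
    (by simp [w]) (by simp [w]) (C.four_c (by omega) (by omega))
  have a6 := dn 6 (by omega) (by omega) a7
  have a4 := dn 4 (by omega) (by omega) (dn 5 (by omega) (by omega) a6)
  have a : D.c 2 + (D.c 4 + D.c 6) ∈ GG C _ C.m1_mem := C.step1 (by simp [w]) (by simp [w])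
    (by simp [w]) (by simp [w]) (by simp [w]) (C.four_add (by simp [w]) (by simp [w])
      (C.four_c (by omega) (by omega)) (C.four_add (by simp [w]) (by simp [w])
        (C.four_c (by omega) (by omega)) (C.four_c (by omega) (by omega))))
  simpa using sub_mem a (add_mem a4 a6)

lemma step3 : D.c 2 ∈ GG C D.t3 C.k2.Fx_t3 := by
  have h8 := D.h8
  have ha : D.ω (D.c 0) (D.c 2) = 0 := D.ch2 0 2 le_rfl (by omega)
  have h4 := C.four_pow ha (C.four_c le_rfl (by omega)) _ C.k2.Fx_t3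
  have d0 := C.step2.2
  have d1 := ZZ_comm (C.SS_B ha) d0
  have d2 := ZZ_comm (C.SS_B ha) d1
  have := (ZZ L.toSp).smul_mem (1 / 4 : ℚ) (add_mem (add_mem ((ZZ L.toSp).smul_mem 3 d0)
    ((ZZ L.toSp).smul_mem 2 d1)) d2)
  refine ⟨ha, ?_⟩
  convert this using 1
  simp only [map_sub, h4]
  module

lemma step4 {l : H} (hl : D.ω (D.c 0) l = 0) : l ∈ GG C D.t3 C.k2.Fx_t3 := by
  have h8 := D.h8
  have hc : ∀ i, i + 2 < D.N → D.c (i + 2) ∈ GG C D.t3 C.k2.Fx_t3 := fun i => by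
    induction i with
    | zero => exact fun _ => C.step3
    | succ i ih =>
      intro hi
      have h1 := ih (by omega)
      have := (C.GG_conj _ (g := D.σ (i + 2 + 1))
        (ρ_far (by omega) (by omega) (by omega) (by omega))
        (C.k1.par3 _ (σ_par (by omega) (by omega))) h1.1).2 h1
      rw [ρ_up (by omega)] at this
      simpa using sub_mem this h1
  obtain ⟨x, hx, j, rfl⟩ := D.toSys.decomp D.hN (by omega) (D.hL l) hl
  refine add_mem ?_ ⟨by rw [map_zsmul, D.alt, smul_zero], ?_⟩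
  · refine D.toSys.shift.lat_ind (P := fun x => x ∈ GG C D.t3 C.k2.Fx_t3) (fun i hi => hc i ?_)
      (zero_mem _) (fun _ _ _ _ => add_mem) (fun n _ _ h => zsmul_mem h n) hx
    have : i < D.N - 2 := hi
    omega
  · rw [C.SS_c0 j C.k2.Fx_t3, sub_self]
    exact zero_mem _

lemma step5 (g : G) (hv : D.ω (D.c 0) (D.ρ g (D.c 0)) = 0) :
    D.π (g * D.σ 0 ^ 2 * g⁻¹) D.t3 -
      exp (L.B (L.ρ g (L.c 0)) (L.ρ g (L.c 0))) D.t3 ∈ ZZ L.toSp := by
  have h8 := D.h8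
  have r := C.k1.conjσ g 2
  rw [Lie.c, L.ρ_ι]
  set v := D.ρ g (D.c 0)
  set k := D.ω (D.c 1) v with hk
  have hl : D.ω (D.c 0) (k • v) = 0 := by rw [map_zsmul, hv, smul_zero]
  have e1 := C.k2.τ_t3 1 (g * D.σ 0 ^ (2 : ℤ) * g⁻¹) (k • v) 0 hl (D.toSys.ρ_one _)
    (by rw [r, hv]; simp) (by rw [r, D.toSys.ρ_one, ← hk]; module)
  rw [map_one, Module.End.one_apply, C.τ_eq hl, ei, C.SS_exp hl] at e1
  have w1 := ω0 (L := L) hv
  have w2 := ω0' w1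
  have w3 := ω0 (L := L) hl
  have w01 : L.ω (L.c 0) (L.c 1) = 1 := by rw [C.k3.ωc 0 1 (by omega) (by omega)]; simp
  have w4 : L.ω (L.c 1) (L.ι v) = k := by rw [Lie.c, L.ω_ι]
  have w5 : L.ω (L.ι v) (L.ι v + (2 * k : ℚ) • L.c 0) = 0 := by simp [L.alt, w2]
  have e2 : L.B (L.ι v) (L.ι v) = (-2 : ℚ) • L.B (L.c 0) (L.ι (k • v)) +
      (1 : ℚ) • L.B (L.ι v) (L.ι v + (2 * k : ℚ) • L.c 0) := by
    simp only [ι_zsmul, map_add, map_smul, L.symm (L.ι v) (L.c 0)]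
    module
  have e3 : L.B (L.ι v) (L.ι v + (2 * k : ℚ) • L.c 0) D.t3 = 0 := by
    have a1 : L.ω (L.c 0) (L.ι v + (k : ℚ) • L.c 0) = 0 := by simp [L.alt, w1]
    have a2 : L.ω (L.c 1) (L.ι v + (k : ℚ) • L.c 0) = 0 := by
      simp [w4, skewE L.toSp (L.c 1) (L.c 0), w01]
    have a3 := C.k3.sph3.2.2.2 _ _ a1 a2 a1 a2
    have a4 : L.B (L.ι v) (L.ι v + (2 * k : ℚ) • L.c 0) =
        L.B (L.ι v + (k : ℚ) • L.c 0) (L.ι v + (k : ℚ) • L.c 0) -
          (k * k : ℚ) • L.B (L.c 0) (L.c 0) := by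
      simp only [map_add, map_smul, LinearMap.add_apply, LinearMap.smul_apply,
        L.symm (L.ι v) (L.c 0)]
      module
    rw [a4, LinearMap.sub_apply, a3, LinearMap.smul_apply, C.k3.sph3.1, smul_zero, sub_zero]
  have c : Commute (L.B (L.c 0) (L.ι (k • v))) (L.B (L.ι v) (L.ι v + (2 * k : ℚ) • L.c 0)) :=
    commB L.toSp w2 (by simp [ι_zsmul, L.alt]) (by simp [L.alt, w2])
      (by simp [ι_zsmul, L.alt, w1])
  rw [e2, exp_add_of_commute ((c.smul_left _).smul_right _) (C.nil w3 _) (C.nil w5 _),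
    Module.End.mul_apply, C.exp_fix w5 _ e3,
    show g * D.σ 0 ^ 2 * g⁻¹ = g * D.σ 0 ^ (2 : ℤ) * g⁻¹ by norm_cast, e1, ← map_sub, ← neg_sub]
  exact ZZ_exp _ _ _ (neg_mem (C.step4 hl).2)

lemma step6 {m : M} (hm : m ∈ D.MU) :
    D.π (D.σ 0 ^ 2) m - exp (L.B (L.c 0) (L.c 0)) m ∈ ZZ L.toSp := by
  induction hm using Submodule.span_induction with
  | zero => simp
  | add a b _ _ ha hb =>
    convert add_mem ha hb using 1
    simp only [map_add]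
    abel
  | smul c a _ ha =>
    convert (ZZ L.toSp).smul_mem c ha using 1
    simp only [map_smul, smul_sub]
  | mem m hm =>
    obtain ⟨h, rfl⟩ := hm
    obtain ⟨γ, hγ, hy⟩ := C.k1.gam (D.ρ h⁻¹ (D.c 0))
    have hv : D.ω (D.c 0) (D.ρ (h * γ)⁻¹ (D.c 0)) = 0 := by
      rw [← D.toSys.ρ_ω (D.hB γ), mul_inv_rev, D.toSys.ρ_mul, D.toSys.ρ_ρ_inv, hy]
    have := ZZ_π (L := L) (h * γ) (C.step5 _ hv)
    have e : D.π (h * γ) * exp (L.B (L.ρ (h * γ)⁻¹ (L.c 0)) (L.ρ (h * γ)⁻¹ (L.c 0))) =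
        exp (L.B (L.c 0) (L.c 0)) * D.π (h * γ) := by
      refine exp_tw (C.sp1.nil _ _ (L.alt _)) (C.sp1.nil _ _ (L.alt _)) ?_
      rw [L.eqv, ← Module.End.mul_apply, ← map_mul, mul_inv_cancel, map_one, Module.End.one_apply]
    rw [map_sub, ← π_mul_apply, ← Module.End.mul_apply (D.π (h * γ)), e, Module.End.mul_apply,
      show h * γ * ((h * γ)⁻¹ * D.σ 0 ^ 2 * (h * γ)⁻¹⁻¹) = D.σ 0 ^ 2 * (h * γ) by group,
      π_mul_apply, π_mul_apply h, C.k1.par3 γ hγ] at this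
    exact this

lemma ls : H91.LS L := by
  have h0 : 0 < D.N := by have := D.h8; omega
  have n0 := C.sp1.nil _ _ (L.alt (L.c 0))
  have hR := C.comm_unit (D.σ 0 ^ 2) (-1) (L.alt (L.c 0)) fun x => by
    rw [sq, map_mul, Module.End.mul_apply, C.k3.ρσ 0 h0, C.k3.ρσ 0 h0]
    simp only [Sp.act, map_add, map_smul, LinearMap.add_apply, LinearMap.smul_apply, L.alt]
    module
  set R := D.π (D.σ 0 ^ 2) * exp ((-1 : ℚ) • L.B (L.c 0) (L.c 0)) with hRd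
  have e0 : exp ((-1 : ℚ) • L.B (L.c 0) (L.c 0)) * exp (L.B (L.c 0) (L.c 0)) = 1 := by
    rw [neg_one_smul]
    exact exp_neg_mul_exp_self n0
  have e1 : R * exp (L.B (L.c 0) (L.c 0)) = D.π (D.σ 0 ^ 2) := by rw [hRd, mul_assoc, e0, mul_one]
  have e2 : ∀ m ∈ D.MU, R m - m ∈ ZZ L.toSp := fun m hm => by
    have := ZZ_exp (-1) (L.c 0) (L.c 0) (C.step6 hm)
    rwa [← e1, (comm_exp (hR _ _)).eq, Module.End.mul_apply, ← map_sub, ← Module.End.mul_apply, e0,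
      Module.End.one_apply] at this
  have e3 : ∀ a b m, L.B a b (R m - m) = (R - 1) (L.B a b m) := fun a b m => by
    rw [map_sub, ← Module.End.mul_apply, ← (hR a b).eq]
    rfl
  intro a b m
  rw [← e1, Module.End.mul_apply, e3]
  exact C.sp1.perf (LinearMap.ker (R - 1)) _ (fun a b c d => by
    rw [LinearMap.mem_ker, ← e3]
    exact e2 _ (C.k3.B_MU c d _) a b) a b

end Ctx

end LS

theorem rowLS : OfLS := fun hK1 hK2 hS0 hL hS1 hS2 hK3 G H M E _ _ _ _ _ _ D L =>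
  LS.Ctx.ls ⟨hK1 G H M D, hK2 G H M D, hS0 G H M D, hL, hS1 E M L.toSp, hS2 E M L.toSp,
    hK3 G H M E D L⟩

end Pool.Agent.MP_00906f_gt.H91
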