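import Pool.Agent.MP_00906f_gt.H91.Spec

/-! Algebraic lemmas for the row LS. -/

namespace Pool.Agent.MP_00906f_gt.H91.LS

open H46 IsNilpotent

section pure

variable {V : Type} [AddCommGroup V] [Module ℚ V]

lemma comm_exp {c y : Module.End ℚ V} (h : Commute c y) : Commute c (exp y) := by
  unfold exp
  exact Commute.sum_right _ _ _ fun i _ => (h.pow_right i).smul_right _

lemma exp_tw {u y y' : Module.End ℚ V} (hy : IsNilpotent y) (hy' : IsNilpotent y')
    (h : u * y = y' * u) : u * exp y = exp y' * u :=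
  (Module.End.commute_exp_left_of_commute hy hy' h.symm).symm

lemma exp_mem {U : Submodule ℚ V} {y : Module.End ℚ V} (hy : ∀ m ∈ U, y m ∈ U) {m : V}
    (hm : m ∈ U) : exp y m ∈ U := by
  unfold exp
  rw [LinearMap.sum_apply]
  exact U.sum_mem fun i _ => U.smul_mem _ (Module.End.pow_apply_mem_of_forall_mem i hy m hm)

lemma exp_res {U : Submodule ℚ V} {y : Module.End ℚ V} (hn : IsNilpotent y)
    (hy : ∀ m ∈ U, y m ∈ U) (m : U) : (exp (y.restrict hy : Module.End ℚ U) m : V) = exp y m :=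
  (LinearMap.congr_fun (Module.End.commute_exp_left_of_commute
    (Module.End.isNilpotent.restrict hy hn) hn (g := U.subtype) rfl) m).symm

lemma exp_add_on {U : Submodule ℚ V} {y y' : Module.End ℚ V} (hn : IsNilpotent y)
    (hn' : IsNilpotent y') (hs : IsNilpotent (y + y')) (hy : ∀ m ∈ U, y m ∈ U)
    (hy' : ∀ m ∈ U, y' m ∈ U) (hc : ∀ m ∈ U, y (y' m) = y' (y m)) {m : V} (hm : m ∈ U) :
    exp (y + y') m = exp y (exp y' m) := by
  have hy2 : ∀ m ∈ U, (y + y') m ∈ U := fun m hm => U.add_mem (hy m hm) (hy' m hm)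
  have h0 : ((y + y').restrict hy2 : Module.End ℚ U) = y.restrict hy + y'.restrict hy' :=
    LinearMap.ext fun _ => rfl
  have h1 := exp_add_of_commute (a := (y.restrict hy : Module.End ℚ U)) (b := y'.restrict hy')
    (LinearMap.ext fun m => Subtype.ext (hc m m.2))
    (Module.End.isNilpotent.restrict hy hn) (Module.End.isNilpotent.restrict hy' hn')
  have h2 := exp_res hs hy2 ⟨m, hm⟩
  rw [h0, h1, Module.End.mul_apply, exp_res hn, exp_res hn'] at h2
  exact h2.symm

lemma absB {t s X : Module.End ℚ V} (ts : Commute t s) (sX : Commute s X) (tX : Commute t X)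
    (h4 : s ^ 4 = 1)
    (hi : ∀ m, t m = m → (1 + s + s ^ 2 + s ^ 3 : Module.End ℚ V) m = 0 → m = 0) {q : V}
    (h : (X * (t - 1) ^ 2 : Module.End ℚ V) q = 0) : (X * (1 - s) : Module.End ℚ V) q = 0 := by
  set p := 1 + s + s ^ 2 + s ^ 3 with hp
  have c1 : Commute (t - 1) s := ts.sub_left (Commute.one_left _)
  have c2 : Commute (t - 1) X := tX.sub_left (Commute.one_left _)
  have c3 : Commute (t - 1) (1 - s) := (Commute.one_right _).sub_right c1
  have c4 : Commute X (1 - s) := (Commute.one_right _).sub_right sX.symm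
  have c5 : Commute p X := (((Commute.one_left _).add_left sX).add_left (sX.pow_left 2)).add_left
    (sX.pow_left 3)
  have c6 : Commute (t - 1) p := (((Commute.one_right _).add_right c1).add_right
    (c1.pow_right 2)).add_right (c1.pow_right 3)
  have e1 : p * (1 - s) = 0 := by
    have : p * (1 - s) = 1 - s ^ 4 := by rw [hp]; noncomm_ring
    rw [this, h4, sub_self]
  have e2 : p ((X * (1 - s) : Module.End ℚ V) q) = 0 := by
    rw [← Module.End.mul_apply, ← mul_assoc, c5.eq, mul_assoc, e1, mul_zero, LinearMap.zero_apply]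
  have e3 : (t - 1 : Module.End ℚ V) ((t - 1 : Module.End ℚ V)
      ((X * (1 - s) : Module.End ℚ V) q)) = 0 := by
    have : (t - 1) * ((t - 1) * (X * (1 - s))) = (1 - s) * (X * (t - 1) ^ 2) := by
      rw [← mul_assoc, ← sq, ((c2.mul_right c3).pow_left 2).eq, c4.eq, mul_assoc]
    rw [← Module.End.mul_apply, ← Module.End.mul_apply, mul_assoc, this, Module.End.mul_apply, h,
      map_zero]
  have fx : ∀ m, (t - 1 : Module.End ℚ V) m = 0 → t m = m := fun m hm => by
    rwa [LinearMap.sub_apply, Module.End.one_apply, sub_eq_zero] at hm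
  refine hi _ (fx _ (hi _ (fx _ e3) ?_)) e2
  rw [← Module.End.mul_apply, ← c6.eq, Module.End.mul_apply, e2, map_zero]

lemma absA {ta tz sa sz o : Module.End ℚ V} (c1 : Commute tz sz) (c2 : Commute tz o)
    (c3 : Commute tz ta) (c4 : Commute sz o) (c5 : Commute sz ta) (c6 : Commute ta sa)
    (c7 : Commute ta o) (c8 : Commute sa o) (c9 : Commute sa sz) (ha : sa ^ 4 = 1)
    (hz : sz ^ 4 = 1)
    (ia : ∀ m, ta m = m → (1 + sa + sa ^ 2 + sa ^ 3 : Module.End ℚ V) m = 0 → m = 0)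
    (iz : ∀ m, tz m = m → (1 + sz + sz ^ 2 + sz ^ 3 : Module.End ℚ V) m = 0 → m = 0) {q : V}
    (h : (o * ((ta - 1) ^ 2 * (tz - 1) ^ 2) : Module.End ℚ V) q = 0) :
    (o * (1 - sz) * (1 - sa) : Module.End ℚ V) q = 0 := by
  rw [← mul_assoc] at h
  have h1 := absB c1 (c4.mul_right ((c5.sub_right (Commute.one_right _)).pow_right 2))
    (c2.mul_right ((c3.sub_right (Commute.one_right _)).pow_right 2)) hz iz h
  have c : Commute ((ta - 1) ^ 2) (1 - sz) :=
    (((Commute.one_right _).sub_right c5.symm).sub_left (Commute.one_left _)).pow_left 2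
  rw [mul_assoc, c.eq, ← mul_assoc] at h1
  exact absB c6 (c8.mul_right ((Commute.one_right _).sub_right c9))
    (c7.mul_right ((Commute.one_right _).sub_right c5.symm)) ha ia h1

lemma absU {U : Submodule ℚ V} {ta tz sa sz o : Module.End ℚ V} (p1 : ∀ m ∈ U, ta m ∈ U)
    (p2 : ∀ m ∈ U, tz m ∈ U) (p3 : ∀ m ∈ U, sa m ∈ U) (p4 : ∀ m ∈ U, sz m ∈ U)
    (p5 : ∀ m ∈ U, o m ∈ U) (c1 : ∀ m ∈ U, tz (sz m) = sz (tz m))
    (c2 : ∀ m ∈ U, tz (o m) = o (tz m)) (c3 : ∀ m ∈ U, tz (ta m) = ta (tz m))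
    (c4 : ∀ m ∈ U, sz (o m) = o (sz m)) (c5 : ∀ m ∈ U, sz (ta m) = ta (sz m))
    (c6 : ∀ m ∈ U, ta (sa m) = sa (ta m)) (c7 : ∀ m ∈ U, ta (o m) = o (ta m))
    (c8 : ∀ m ∈ U, sa (o m) = o (sa m)) (c9 : ∀ m ∈ U, sa (sz m) = sz (sa m))
    (ha : ∀ m ∈ U, sa (sa (sa (sa m))) = m) (hz : ∀ m ∈ U, sz (sz (sz (sz m))) = m)
    (ia : ∀ m ∈ U, ta m = m → m + sa m + sa (sa m) + sa (sa (sa m)) = 0 → m = 0)
    (iz : ∀ m ∈ U, tz m = m → m + sz m + sz (sz m) + sz (sz (sz m)) = 0 → m = 0) {q : V}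
    (hq : q ∈ U) (h : o (((ta - 1) ^ 2 * (tz - 1) ^ 2 : Module.End ℚ V) q) = 0) :
    o (q - sa q - sz (q - sa q)) = 0 := by
  have := absA (V := U) (ta := ta.restrict p1) (tz := tz.restrict p2) (sa := sa.restrict p3)
    (sz := sz.restrict p4) (o := o.restrict p5) (LinearMap.ext fun m => Subtype.ext (c1 m m.2))
    (LinearMap.ext fun m => Subtype.ext (c2 m m.2)) (LinearMap.ext fun m => Subtype.ext (c3 m m.2))
    (LinearMap.ext fun m => Subtype.ext (c4 m m.2)) (LinearMap.ext fun m => Subtype.ext (c5 m m.2))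
    (LinearMap.ext fun m => Subtype.ext (c6 m m.2)) (LinearMap.ext fun m => Subtype.ext (c7 m m.2))
    (LinearMap.ext fun m => Subtype.ext (c8 m m.2)) (LinearMap.ext fun m => Subtype.ext (c9 m m.2))
    (LinearMap.ext fun m => Subtype.ext (ha m m.2)) (LinearMap.ext fun m => Subtype.ext (hz m m.2))
    (fun m h1 h2 => Subtype.ext (ia m m.2 (congrArg Subtype.val h1) (congrArg Subtype.val h2)))
    (fun m h1 h2 => Subtype.ext (iz m m.2 (congrArg Subtype.val h1) (congrArg Subtype.val h2)))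
    (q := ⟨q, hq⟩) (Subtype.ext h)
  exact congrArg Subtype.val this

end pure

section sp

variable {E M : Type} [AddCommGroup E] [Module ℚ E] [AddCommGroup M] [Module ℚ M] (S : Sp E M)

lemma skewE (x y : E) : S.ω x y = -S.ω y x := by
  have h := S.alt (x + y)
  simp only [map_add, LinearMap.add_apply, S.alt] at h
  linarith

lemma commB {a b c d : E} (h1 : S.ω c a = 0) (h2 : S.ω c b = 0) (h3 : S.ω d a = 0)
    (h4 : S.ω d b = 0) : Commute (S.B a b) (S.B c d) := by
  have := S.br a b c d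
  rw [h1, h2, h3, h4] at this
  simp only [zero_smul, add_zero] at this
  exact sub_eq_zero.1 this

/-- The vectors killed by the Lie algebra. -/
def ZZ : Submodule ℚ M where
  carrier := {m | ∀ a b, S.B a b m = 0}
  add_mem' := fun h h' a b => by rw [map_add, h a b, h' a b, add_zero]
  zero_mem' := fun a b => map_zero _
  smul_mem' := fun c m h a b => by rw [map_smul, h a b, smul_zero]

variable {S}

lemma ZZ_comm {u : Module.End ℚ M} (hu : ∀ a b, Commute u (S.B a b)) {m : M} (hm : m ∈ ZZ S) :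
    u m ∈ ZZ S := fun a b => by
  rw [← Module.End.mul_apply, ← (hu a b).eq, Module.End.mul_apply, hm a b, map_zero]

lemma ZZ_exp (s : ℚ) (a b : E) {m : M} (hm : m ∈ ZZ S) : exp (s • S.B a b) m ∈ ZZ S :=
  exp_mem (fun m hm => by
    rw [LinearMap.smul_apply, hm a b, smul_zero]
    exact zero_mem _) hm

lemma Sph_comm {u : Module.End ℚ M} (hu : ∀ a b, Commute u (S.B a b)) {x y : E} {q : M}
    (hq : S.Sph x y q) : S.Sph x y (u q) := by
  have k : ∀ a b, S.B a b q = 0 → S.B a b (u q) = 0 := fun a b h => by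
    rw [← Module.End.mul_apply, ← (hu a b).eq, Module.End.mul_apply, h, map_zero]
  exact ⟨k _ _ hq.1, k _ _ hq.2.1, k _ _ hq.2.2.1, fun w w' h1 h2 h3 h4 =>
    k _ _ (hq.2.2.2 w w' h1 h2 h3 h4)⟩

end sp

end Pool.Agent.MP_00906f_gt.H91.LS
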