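import Pool.Agent.MP_00906f_gt.H91.LSA

/-! The operators `SS l` for the row LS. -/

namespace Pool.Agent.MP_00906f_gt.H91.LS

open H46 IsNilpotent

variable {G H M E : Type} [Group G] [AddCommGroup H] [AddCommGroup M] [Module ℚ M]
  [AddCommGroup E] [Module ℚ E] {D : Dat G H M} {L : Lie D E}

/-- The hypotheses. -/
structure Ctx (L : Lie D E) : Prop where
  k1 : Kit1 D
  k2 : Kit2 D
  s0 : S0 D
  lg : Log
  sp1 : Sp1 L.toSp
  sp2 : Sp2 L.toSp
  k3 : Kit3 L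

variable (D) in
/-- The vectors fixed by the first generator. -/
def FF : Submodule ℚ M where
  carrier := {m | D.Fx m}
  add_mem' := fun {a b} h h' => by
    change D.π _ (a + b) = a + b
    rw [map_add, h, h']
  zero_mem' := map_zero _
  smul_mem' := fun c m h => by
    change D.π _ (c • m) = c • m
    rw [map_smul, h]

variable (L) in
noncomputable def ee (l : H) : Module.End ℚ M := exp ((2 : ℚ) • L.B (L.c 0) (L.ι l))

variable (L) in
noncomputable def ei (l : H) : Module.End ℚ M := exp ((-2 : ℚ) • L.B (L.c 0) (L.ι l))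

variable (L) in
noncomputable def SS (l : H) : Module.End ℚ M := D.τ l * ee L l

lemma rho_ext (g : G) (f : E →ₗ[ℚ] E) (h : ∀ x, L.ι (D.ρ g x) = f (L.ι x)) (x : E) :
    L.ρ g x = f x :=
  LinearMap.congr_fun (LinearMap.ext_on_range L.top fun x => (L.ρ_ι g x).trans (h x)) x

lemma ω0 {l : H} (hl : D.ω (D.c 0) l = 0) : L.ω (L.c 0) (L.ι l) = 0 := by
  rw [Lie.c, L.ω_ι, hl, Int.cast_zero]

lemma ω0' {ξ : E} (h : L.ω (L.c 0) ξ = 0) : L.ω ξ (L.c 0) = 0 := by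
  rw [skewE, h, neg_zero]

lemma ι_zsmul (n : ℤ) (x : H) : L.ι (n • x) = (n : ℚ) • L.ι x := by
  rw [map_zsmul, Int.cast_smul_eq_zsmul]

lemma π_mul_apply (g g' : G) (m : M) : D.π (g * g') m = D.π g (D.π g' m) := by
  rw [map_mul]; rfl

lemma π_inv_π (g : G) (m : M) : D.π g⁻¹ (D.π g m) = m := by
  rw [← π_mul_apply, inv_mul_cancel, map_one]; rfl

lemma ZZ_π (g : G) {m : M} (hm : m ∈ ZZ L.toSp) : D.π g m ∈ ZZ L.toSp := fun a b => by
  have h := LinearMap.congr_fun (L.eqv g (L.ρ g⁻¹ a) (L.ρ g⁻¹ b)) m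
  have e : ∀ a, L.ρ g (L.ρ g⁻¹ a) = a := fun a => by
    rw [← Module.End.mul_apply, ← map_mul, mul_inv_cancel, map_one]; rfl
  rw [e, e, Module.End.mul_apply, Module.End.mul_apply, hm, map_zero] at h
  exact h.symm

namespace Ctx

variable (C : Ctx L)
include C

lemma nil {a b : E} (h : L.ω a b = 0) (s : ℚ) : IsNilpotent (s • L.B a b) :=
  (C.sp1.nil a b h).smul s

lemma exp_fix {a b : E} (h : L.ω a b = 0) (s : ℚ) {m : M} (hm : L.B a b m = 0) :
    exp (s • L.B a b) m = m :=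
  (C.lg.fix M _ m (C.nil h s)).2 (by rw [LinearMap.smul_apply, hm, smul_zero])

lemma comm_unit (g : G) (s : ℚ) {a b : E} (hab : L.ω a b = 0)
    (h : ∀ x, L.ρ g x = x - s • L.toSp.act a b x) (c d : E) :
    Commute (D.π g * exp (s • L.B a b)) (L.B c d) := by
  have hba : L.ω b a = 0 := by rw [skewE, hab, neg_zero]
  have e : ∀ x, L.ρ g (x + s • L.toSp.act a b x) = x := fun x => by
    rw [h]
    simp only [Sp.act, map_add, map_smul, LinearMap.add_apply, LinearMap.smul_apply, hab, hba,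
      L.alt, smul_eq_mul]
    module
  change _ = _
  rw [mul_assoc, C.sp1.expc a b hab, ← mul_assoc, L.eqv, e, e, mul_assoc]

lemma ρ_fE {l : H} (hl : D.ω (D.c 0) l = 0) (x : E) :
    L.ρ (D.fE l) x = x - (2 : ℚ) • L.toSp.act (L.c 0) (L.ι l) x := by
  refine (rho_ext _ (LinearMap.id + (2 : ℚ) • ((L.ω (L.c 0)).smulRight (L.ι l) +
    (L.ω (L.ι l)).smulRight (L.c 0))) (fun x => ?_) x).trans ?_
  · rw [C.k2.fE l hl, Sys.E]
    simp only [map_add, ι_zsmul, LinearMap.add_apply, LinearMap.smul_apply, LinearMap.id_apply,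
      LinearMap.smulRight_apply, Lie.c, L.ω_ι]
    push_cast
    module
  · simp only [LinearMap.add_apply, LinearMap.smul_apply, LinearMap.id_apply,
      LinearMap.smulRight_apply, Sp.act, skewE L.toSp x]
    module

lemma SS_B {l : H} (hl : D.ω (D.c 0) l = 0) (a b : E) : Commute (SS L l) (L.B a b) :=
  C.comm_unit _ 2 (ω0 hl) (C.ρ_fE hl) a b

lemma SS_exp {l : H} (hl : D.ω (D.c 0) l = 0) (s : ℚ) (a b : E) (m : M) :
    SS L l (exp (s • L.B a b) m) = exp (s • L.B a b) (SS L l m) :=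
  LinearMap.congr_fun (comm_exp ((C.SS_B hl a b).smul_right s)).eq m

lemma ee_ei {l : H} (hl : D.ω (D.c 0) l = 0) (m : M) : ee L l (ei L l m) = m := by
  have := exp_mul_exp_neg_self (C.nil (ω0 (L := L) hl) 2)
  rw [← neg_smul] at this
  exact LinearMap.congr_fun this m

lemma τ_eq {l : H} (hl : D.ω (D.c 0) l = 0) (m : M) : D.τ l m = SS L l (ei L l m) := by
  rw [SS, Module.End.mul_apply, C.ee_ei hl]

lemma σ0_B {ξ : E} (h : L.ω (L.c 0) ξ = 0) : Commute (D.π (D.σ 0)) (L.B (L.c 0) ξ) := by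
  have h0 : 0 < D.N := by have := D.h8; omega
  change _ = _
  rw [L.eqv, C.k3.ρσ 0 h0, C.k3.ρσ 0 h0, L.alt, ω0' h, zero_smul, add_zero, add_zero]

lemma F_B {ξ : E} (h : L.ω (L.c 0) ξ = 0) : ∀ m ∈ FF D, L.B (L.c 0) ξ m ∈ FF D := fun m hm => by
  change D.π _ _ = _
  rw [← Module.End.mul_apply, (C.σ0_B h).eq, Module.End.mul_apply, hm]

lemma F_sB {ξ : E} (h : L.ω (L.c 0) ξ = 0) (s : ℚ) :
    ∀ m ∈ FF D, (s • L.B (L.c 0) ξ) m ∈ FF D := fun m hm => (FF D).smul_mem s (C.F_B h m hm)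

lemma F_ee {l : H} (hl : D.ω (D.c 0) l = 0) {m : M} (hm : m ∈ FF D) : ee L l m ∈ FF D :=
  exp_mem (C.F_sB (ω0 hl) _) hm

lemma F_ei {l : H} (hl : D.ω (D.c 0) l = 0) {m : M} (hm : m ∈ FF D) : ei L l m ∈ FF D :=
  exp_mem (C.F_sB (ω0 hl) _) hm

lemma F_τ {l : H} (hl : D.ω (D.c 0) l = 0) : ∀ m ∈ FF D, D.τ l m ∈ FF D := C.k2.Fx_τ l hl

lemma F_SS {l : H} (hl : D.ω (D.c 0) l = 0) : ∀ m ∈ FF D, SS L l m ∈ FF D := fun _ hm =>
  C.F_τ hl _ (C.F_ee hl hm)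

lemma BB_comm {ξ η : E} (h : L.ω (L.c 0) ξ = 0) (h' : L.ω (L.c 0) η = 0) {m : M}
    (hm : m ∈ FF D) : L.B (L.c 0) ξ (L.B (L.c 0) η m) = L.B (L.c 0) η (L.B (L.c 0) ξ m) := by
  have := LinearMap.congr_fun (L.br (L.c 0) ξ (L.c 0) η) m
  rw [L.alt, h, ω0' h'] at this
  simp only [zero_smul, zero_add, LinearMap.sub_apply, Module.End.mul_apply, LinearMap.smul_apply,
    C.k3.Fx m hm, smul_zero] at this
  exact sub_eq_zero.1 this

lemma ee_add {l l' : H} (hl : D.ω (D.c 0) l = 0) (hl' : D.ω (D.c 0) l' = 0) {m : M}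
    (hm : m ∈ FF D) : ee L (l + l') m = ee L l (ee L l' m) := by
  have hs := C.nil (ω0 (L := L) (l := l + l') (by rw [map_add, hl, hl', add_zero])) 2
  unfold ee
  rw [map_add, map_add, smul_add] at hs ⊢
  refine exp_add_on (C.nil (ω0 hl) 2) (C.nil (ω0 hl') 2) hs (C.F_sB (ω0 hl) _)
    (C.F_sB (ω0 hl') _) (fun m hm => ?_) hm
  simp only [LinearMap.smul_apply, map_smul, C.BB_comm (ω0 hl) (ω0 hl') hm]

lemma SS_add {l l' : H} (hl : D.ω (D.c 0) l = 0) (hl' : D.ω (D.c 0) l' = 0) {m : M}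
    (hm : m ∈ FF D) : SS L (l + l') m = SS L l (SS L l' m) := by
  have e : ee L l (SS L l' m) = SS L l' (ee L l m) := (C.SS_exp hl' _ _ _ m).symm
  have hs : D.ω (D.c 0) (l + l') = 0 := by rw [map_add, hl, hl', add_zero]
  rw [SS, SS, Module.End.mul_apply, Module.End.mul_apply, e, SS, Module.End.mul_apply,
    ← C.ee_add hl' hl hm, add_comm l' l, C.k2.τ_add l l' hl hl' _ (C.F_ee hs hm)]

lemma SS_comm {l l' : H} (hl : D.ω (D.c 0) l = 0) (hl' : D.ω (D.c 0) l' = 0) :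
    ∀ m ∈ FF D, SS L l (SS L l' m) = SS L l' (SS L l m) := fun m hm => by
  rw [← C.SS_add hl hl' hm, ← C.SS_add hl' hl hm, add_comm]

lemma τ_comm {l l' : H} (hl : D.ω (D.c 0) l = 0) (hl' : D.ω (D.c 0) l' = 0) :
    ∀ m ∈ FF D, D.τ l (D.τ l' m) = D.τ l' (D.τ l m) := fun m hm => by
  rw [← C.k2.τ_add l l' hl hl' m hm, ← C.k2.τ_add l' l hl' hl m hm, add_comm]

lemma τ_SS {l l' : H} (hl : D.ω (D.c 0) l = 0) (hl' : D.ω (D.c 0) l' = 0) :
    ∀ m ∈ FF D, D.τ l (SS L l' m) = SS L l' (D.τ l m) := fun m hm => by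
  have e : ei L l (SS L l' m) = SS L l' (ei L l m) := (C.SS_exp hl' _ _ _ m).symm
  rw [C.τ_eq hl, C.τ_eq hl, e, C.SS_comm hl hl' _ (C.F_ei hl hm)]

lemma τ_B {l : H} (hl : D.ω (D.c 0) l = 0) {ξ : E} (h : L.ω (L.c 0) ξ = 0) :
    ∀ m ∈ FF D, D.τ l (L.B (L.c 0) ξ m) = L.B (L.c 0) ξ (D.τ l m) := fun m hm => by
  have e := LinearMap.congr_fun (L.eqv (D.fE l) (L.c 0) ξ) m
  rw [C.ρ_fE hl, C.ρ_fE hl] at e
  simp only [Sp.act, L.alt, ω0 hl, ω0' h, zero_smul, add_zero, zero_add, smul_zero, sub_zero,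
    Module.End.mul_apply, map_sub, map_smul, LinearMap.sub_apply, LinearMap.smul_apply] at e
  rw [C.k3.Fx (D.π (D.fE l) m) (C.F_τ hl m hm), smul_zero, smul_zero, sub_zero] at e
  exact e

lemma SS_c0 (j : ℤ) {m : M} (hm : m ∈ FF D) : SS L (j • D.c 0) m = m := by
  have h : D.ω (D.c 0) (j • D.c 0) = 0 := by rw [map_zsmul, D.alt, smul_zero]
  have e : ee L (j • D.c 0) m = m := C.exp_fix (ω0 h) _ (by
    rw [ι_zsmul, map_smul, LinearMap.smul_apply]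
    exact smul_eq_zero_of_right _ (C.k3.Fx m hm))
  rw [SS, Module.End.mul_apply, e, C.k2.τ_c0 j m hm]

lemma SS_zero {m : M} (hm : m ∈ FF D) : SS L (0 : H) m = m := by
  simpa using C.SS_c0 0 hm

lemma SS_conj {g : G} (hg : D.ρ g (D.c 0) = D.c 0) {l : H} (hl : D.ω (D.c 0) l = 0) (m : M) :
    D.π g (SS L l m) = SS L (D.ρ g l) (D.π g m) := by
  have hl' : D.ω (D.c 0) (D.ρ g l) = 0 := by
    rw [← hl]
    conv_lhs => rw [← hg]
    exact D.toSys.ρ_ω (D.hB g) _ _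
  have e : D.π g * ee L l = ee L (D.ρ g l) * D.π g := by
    refine exp_tw (C.nil (ω0 hl) 2) (C.nil (ω0 hl') 2) ?_
    rw [mul_smul_comm, smul_mul_assoc, L.eqv, Lie.c, L.ρ_ι, L.ρ_ι, hg]
  change (D.π g * (D.τ l * ee L l)) m = (D.τ _ * ee L _ * D.π g) m
  rw [← mul_assoc, C.k2.τ_conj g l hg hl, mul_assoc, e, mul_assoc]

end Ctx

variable (L) in
/-- The fourth power of `SS l` is trivial on the fixed vectors. -/
def Four (l : H) : Prop := ∀ m ∈ FF D, SS L (l + (l + (l + l))) m = m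

namespace Ctx

variable (C : Ctx L)
include C

lemma four_add {l l' : H} (hl : D.ω (D.c 0) l = 0) (hl' : D.ω (D.c 0) l' = 0) (h : Four L l)
    (h' : Four L l') : Four L (l + l') := fun m hm => by
  rw [show l + l' + (l + l' + (l + l' + (l + l'))) = (l + (l + (l + l))) + (l' + (l' + (l' + l')))
    by abel, C.SS_add (by simp [hl]) (by simp [hl']) hm, h' m hm, h m hm]

lemma four_pow {l : H} (hl : D.ω (D.c 0) l = 0) (h : Four L l) :
    ∀ m ∈ FF D, SS L l (SS L l (SS L l (SS L l m))) = m := fun m hm => by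
  rw [← C.SS_add hl hl hm, ← C.SS_add hl (by simp [hl]) hm, ← C.SS_add hl (by simp [hl]) hm, h m hm]

lemma four_inj {l : H} (hl : D.ω (D.c 0) l = 0) (h : Four L l) : ∀ m ∈ FF D, D.τ l m = m →
    m + SS L l m + SS L l (SS L l m) + SS L l (SS L l (SS L l m)) = 0 → m = 0 := fun m hm h1 h2 => by
  have h4 : D.ω (D.c 0) (l + (l + (l + l))) = 0 := by simp [hl]
  have e1 : D.τ (l + (l + (l + l))) m = m := by
    rw [C.k2.τ_add l _ hl (by simp [hl]) m hm, C.k2.τ_add l _ hl (by simp [hl]) m hm,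
      C.k2.τ_add l _ hl hl m hm, h1, h1, h1, h1]
  have e2 : ei L (l + (l + (l + l))) m = m := by
    have := C.τ_eq h4 m
    rw [e1, h _ (C.F_ei h4 hm)] at this
    exact this.symm
  have e3 := (C.lg.fix M _ m (C.nil (ω0 h4) (-2))).1 e2
  have e4 : L.B (L.c 0) (L.ι l) m = 0 := by
    have : (-8 : ℚ) • L.B (L.c 0) (L.ι l) m = 0 := by
      rw [← e3]
      simp only [map_add, LinearMap.smul_apply, LinearMap.add_apply]
      module
    exact (smul_eq_zero.1 this).resolve_left (by norm_num)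
  have e5 : SS L l m = m := by
    rw [SS, Module.End.mul_apply, ee, C.exp_fix (ω0 hl) _ e4, h1]
  rw [e5, e5, e5] at h2
  have : (4 : ℚ) • m = 0 := by rw [← h2]; module
  exact (smul_eq_zero.1 this).resolve_left (by norm_num)

lemma four_V {l : H} (hl : D.ω (D.c 0) l = 0) (hV : D.toSys.V l)
    (hV' : D.toSys.V (l + (2 : ℤ) • (-D.c 0))) : Four L l := fun m hm => by
  obtain ⟨h, hh⟩ := C.k1.trans _ hV'
  obtain ⟨h', hh'⟩ := C.k1.trans _ hV
  have h4 : D.ω (D.c 0) (l + (l + (l + l))) = 0 := by simp [hl]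
  have hl' : D.ω l (D.c 0) = 0 := by rw [D.toSys.skew, hl, neg_zero]
  have r1 := C.k1.conjσ h 4
  have r2 := C.k1.conjσ h' (-4)
  rw [hh] at r1
  rw [hh'] at r2
  have e1 := C.k2.τ_eq (h * D.σ 0 ^ (4 : ℤ) * h⁻¹ * (h' * D.σ 0 ^ (-4 : ℤ) * h'⁻¹)) _ (-16) h4
    (fun x => by
      rw [D.toSys.ρ_mul, r2, r1, Sys.E]
      simp only [map_add, map_smul, map_neg, LinearMap.add_apply, LinearMap.smul_apply, hl',
        D.alt, smul_eq_mul, D.toSys.skew x]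
      module) _ (C.F_ee h4 hm)
  have p1 : D.π (h * D.σ 0 ^ (4 : ℤ) * h⁻¹) =
      exp ((2 : ℚ) • L.B (L.ι l - (2 : ℚ) • L.c 0) (L.ι l - (2 : ℚ) • L.c 0)) := by
    have := C.k3.four h
    rw [Lie.c, L.ρ_ι, hh, map_add, ι_zsmul, map_neg, smul_neg, ← sub_eq_add_neg] at this
    exact_mod_cast this
  have p2 : D.π (h' * D.σ 0 ^ (-4 : ℤ) * h'⁻¹) = exp ((-2 : ℚ) • L.B (L.ι l) (L.ι l)) := by
    have h1 := C.k3.four h'
    rw [Lie.c, L.ρ_ι, hh'] at h1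
    have h2 := exp_mul_exp_neg_self (C.nil (L.alt (L.ι l)) 2)
    rw [← h1, ← neg_smul] at h2
    rw [← mul_one (D.π _), ← h2, ← mul_assoc, ← map_mul,
      show h' * D.σ 0 ^ (-4 : ℤ) * h'⁻¹ * (h' * D.σ 0 ^ 4 * h'⁻¹) = 1 by group, map_one, one_mul]
  have w1 := ω0 (L := L) hl
  have w2 := ω0' w1
  have w3 : L.ω (L.ι l - (2 : ℚ) • L.c 0) (L.ι l) = 0 := by simp [L.alt, w1]
  have w4 : L.ω (L.ι l) (L.ι l - (2 : ℚ) • L.c 0) = 0 := by simp [L.alt, w2]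
  have w5 : L.ω (L.c 0) (L.ι l - (2 : ℚ) • L.c 0) = 0 := by simp [L.alt, w1]
  have w6 : L.ω (L.ι (l + (l + (l + l)))) (L.ι l - (2 : ℚ) • L.c 0) = 0 := by
    simp only [map_add, LinearMap.add_apply, w4, add_zero]
  have w7 : L.ω (L.ι (l + (l + (l + l)))) (L.ι l) = 0 := by
    simp only [map_add, LinearMap.add_apply, L.alt, add_zero]
  have c1 := ((commB L.toSp w4 w4 w4 w4).smul_left (2 : ℚ)).smul_right (-2 : ℚ)
  have c2 := ((commB L.toSp w5 w5 w6 w6).smul_left (2 : ℚ)).smul_right (2 : ℚ)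
  have c3 := ((commB L.toSp w1 w1 w7 w7).smul_left (-2 : ℚ)).smul_right (2 : ℚ)
  have n1 := C.nil (L.alt (L.ι l - (2 : ℚ) • L.c 0)) 2
  have n2 := C.nil (L.alt (L.ι l)) (-2)
  rw [SS, Module.End.mul_apply, ← e1, map_mul, p1, p2, ← exp_add_of_commute c1 n1 n2, ee,
    ← Module.End.mul_apply, ← exp_add_of_commute (c2.add_left c3) (c1.isNilpotent_add n1 n2)
      (C.nil (ω0 h4) 2)]
  have e2 : (2 : ℚ) • L.B (L.ι l - (2 : ℚ) • L.c 0) (L.ι l - (2 : ℚ) • L.c 0) +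
      (-2 : ℚ) • L.B (L.ι l) (L.ι l) + (2 : ℚ) • L.B (L.c 0) (L.ι (l + (l + (l + l)))) =
      (8 : ℚ) • L.B (L.c 0) (L.c 0) := by
    simp only [map_add, map_sub, map_smul, LinearMap.sub_apply, LinearMap.smul_apply,
      L.symm (L.ι l) (L.c 0)]
    module
  rw [e2]
  exact C.exp_fix (L.alt _) _ (C.k3.Fx m hm)

lemma four_c {i : ℕ} (h2 : 2 ≤ i) (hi : i < D.N) : Four L (D.c i) := by
  obtain ⟨d, hd, hd'⟩ := D.toSys.lat_dual D.hN hi
  refine C.four_V (D.ch2 0 i (by omega) hi) (D.toSys.V_c D.hN hi)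
    (D.toSys.V_two (D.toSys.V_c D.hN hi) (D.hL _) hd ?_)
  have h0 : D.ω (D.c 0) d = 0 := by rw [hd' 0 (by omega), if_neg (by omega)]
  simp [hd' i hi, h0]

end Ctx

end Pool.Agent.MP_00906f_gt.H91.LS
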