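import Pool.Agent.MP_00906f_gt.H91.Spec

/-! The part of degree one. -/

namespace Pool.Agent.MP_00906f_gt.H91

open H46 IsNilpotent
open scoped TensorProduct

namespace P1

theorem finrank_sup {M ι : Type} [AddCommGroup M] [Module ℚ M] [Module.Finite ℚ M]
    (T : ι → Submodule ℚ M) (c : ℕ) (hT : ∀ i, 2 * Module.finrank ℚ (T i) ≤ c) (s : Finset ι) :
    2 * Module.finrank ℚ (s.sup T : Submodule ℚ M) ≤ s.card * c := by
  classical
  induction s using Finset.induction_on with
  | empty => simp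
  | insert i s hi ih =>
    rw [Finset.sup_insert, Finset.card_insert_of_notMem hi]
    have h1 := Submodule.finrank_add_le_finrank_add_finrank (T i) (s.sup T)
    have h2 := hT i
    nlinarith

theorem stab_sup {E M ι : Type} [AddCommGroup E] [Module ℚ E] [AddCommGroup M] [Module ℚ M]
    (S : Sp E M) (T : ι → Submodule ℚ M) (hT : ∀ i, S.Stab (T i)) (s : Finset ι) :
    S.Stab (s.sup T) := by
  classical
  induction s using Finset.induction_on with
  | empty =>
    intro a b m hm
    rw [Finset.sup_empty, Submodule.mem_bot] at hm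
    rw [hm, map_zero]
    exact zero_mem _
  | insert i s hi ih =>
    intro a b m hm
    rw [Finset.sup_insert] at hm ⊢
    obtain ⟨x, hx, y, hy, rfl⟩ := Submodule.mem_sup.1 hm
    rw [map_add]
    exact Submodule.add_mem_sup (hT i a b x hx) (ih a b y hy)

variable {G H M E : Type} [Group G] [AddCommGroup H] [AddCommGroup M] [Module ℚ M]
  [AddCommGroup E] [Module ℚ E] {D : Dat G H M} {L : Lie D E}

theorem ω01 (k : Kit3 L) : L.ω (L.c 0) (L.c 1) = 1 := by
  have h8 := D.h8
  rw [k.ωc 0 1 (by omega) (by omega)]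
  norm_num

theorem nil2 (s : Sp1 L.toSp) : IsNilpotent ((2 : ℚ) • L.B (L.c 0) (L.c 0)) :=
  (s.nil _ _ (L.alt _)).smul 2

theorem deg1 (lg : Log) (s : Sp1 L.toSp) (s2 : Sp2 L.toSp) (k : Kit3 L)
    (h0 : ∀ h, ((D.π (D.σ 0 ^ 4) - 1) ^ 2 : Module.End ℚ M) (D.π h D.t3) = 0) : L.Deg 1 := by
  refine s2.deg D.MU (L.c 0) 1 (fun a b m _ => k.B_MU a b m) (fun h => ?_) fun m hm => ?_
  · have h1 := ω01 k
    rw [h] at h1
    simp at h1
  · induction hm using Submodule.span_induction with
    | mem x hx =>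
      obtain ⟨g, rfl⟩ := hx
      have h1 := (lg.pow M _ ⊥ (D.π g D.t3) 2 (nil2 s) (fun x hx => by
        rw [Submodule.mem_bot] at hx ⊢
        rw [hx, map_zero])).2 (by
          rw [Submodule.mem_bot]
          have h2 := h0 g
          rw [L.four] at h2
          exact h2)
      rw [Submodule.mem_bot, smul_pow, LinearMap.smul_apply, smul_eq_zero] at h1
      exact h1.resolve_left (by norm_num)
    | zero => exact map_zero _
    | add x y _ _ hx hy => rw [map_add, hx, hy, add_zero]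
    | smul c x _ hx => rw [map_smul, hx, smul_zero]

/-- The images of the vectors `ς g t3` under the Lie algebra. -/
def z (T : Th L) (g : G) : E → E → M := fun a b => L.B a b (T.ς g D.t3)

theorem ςB (T : Th L) (g : G) (a b : E) (m : M) : T.ς g (L.B a b m) = L.B a b (T.ς g m) :=
  LinearMap.congr_fun (T.ς_B g a b) m

theorem z_mul (T : Th L) (g h : G) (a b : E) : z T (g * h) a b = T.ς g (z T h a b) := by
  unfold z
  rw [map_mul, Module.End.mul_apply, ςB]

theorem ex_lam (T : Th L) (c : Cox D) :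
    ∃ lam : Finset ℕ → E → E → M, ∀ g, z T g = lam (D.lab 2 g) := by
  have h8 := D.h8
  refine c.lam _ (z T) 2 (by omega) (fun g h hh => ?_) fun g h hh => ?_
  · funext a b
    unfold z
    rw [map_mul, Module.End.mul_apply, T.ς_t3 h hh]
  · funext a b
    rw [z_mul]
    unfold z
    rw [← ςB T h, T.pure h hh, ςB]

theorem rel (T : Th L) (c : Cox D) (h3 : T3r T) (hd : L.Deg 1) (lam : Finset ℕ → E → E → M)
    (hl : ∀ g, z T g = lam (D.lab 2 g)) (a b p q r t : ℕ) (h6 : Six D.N a b p q r t) :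
    lam {q, r, t} - lam {p, r, t} + lam {p, q, t} - lam {p, q, r} =
      lam {a, b, t} + lam {a, b, q} - lam {a, b, r} - lam {a, b, p} := by
  obtain ⟨g, hg⟩ := c.label _ h6.1 h6.2
  have e0 : D.perm g 0 = a := hg 0 (by simp)
  have e1 : D.perm g 1 = b := hg 1 (by simp)
  have e2 : D.perm g 2 = p := hg 2 (by simp)
  have e3 : D.perm g 3 = q := hg 3 (by simp)
  have e4 : D.perm g 4 = r := hg 4 (by simp)
  have e5 : D.perm g 5 = t := hg 5 (by simp)
  have key : ∀ h (i j k : ℕ), D.lab 2 h = {i, j, k} →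
      lam {D.perm g i, D.perm g j, D.perm g k} = z T (g * h) := by
    intro h i j k hh
    rw [hl, c.lab_mul, hh, Finset.image_insert, Finset.image_insert, Finset.image_singleton]
  have k0 := key _ _ _ _ c.l0
  have k1 := key _ _ _ _ c.l1
  have k2 := key _ _ _ _ c.l2
  have k3 := key _ _ _ _ c.l3
  have k4 := key _ _ _ _ c.e0
  have k5 := key _ _ _ _ c.e1
  have k6 := key _ _ _ _ c.e2
  have k7 := key _ _ _ _ c.e3
  simp only [e0, e1, e2, e3, e4, e5] at k0 k1 k2 k3 k4 k5 k6 k7
  rw [k0, k1, k2, k3, k4, k5, k6, k7, ← sub_eq_zero]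
  funext x y
  have h1 := congrArg (T.ς g) (h3 hd x y)
  simp only [map_sub, map_add, map_zero] at h1
  simp only [Pi.sub_apply, Pi.add_apply, Pi.zero_apply, z_mul T g]
  unfold z
  rw [map_one, Module.End.one_apply]
  exact h1

theorem sph (T : Th L) (k : Kit3 L) (g : G) : L.toSp.Sph (L.c 0) (L.c 1) (T.ς g D.t3) := by
  obtain ⟨h1, h2, h3, h4⟩ := k.sph3
  refine ⟨?_, ?_, ?_, fun w w' a b c d => ?_⟩
  · rw [← ςB, h1, map_zero]
  · rw [← ςB, h2, map_zero]
  · rw [← ςB, h3, map_zero]
  · rw [← ςB, h4 w w' a b c d, map_zero]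

theorem t3_MU : D.t3 ∈ D.MU :=
  Submodule.subset_span ⟨1, by simp only [map_one, Module.End.one_apply]⟩

theorem all_mem (T : Th L) (s : Sp1 L.toSp) (k : Kit3 L) (U : Submodule ℚ M)
    (hU : L.toSp.Stab U) (h : ∀ g a b, z T g a b ∈ U) (a b : E) (m : M) : L.B a b m ∈ U := by
  have h1 : ∀ m ∈ D.MU, ∀ a b, L.B a b m ∈ U := by
    intro m hm
    induction hm using Submodule.span_induction with
    | mem x hx =>
      obtain ⟨g, rfl⟩ := hx
      intro a b
      have h2 := LinearMap.congr_fun (T.θ_B g (L.ρ g⁻¹ a) (L.ρ g⁻¹ b)) (T.ς g D.t3)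
      have h3 : ∀ x, L.ρ g (L.ρ g⁻¹ x) = x := fun x => by
        rw [← Module.End.mul_apply, ← map_mul, mul_inv_cancel, map_one, Module.End.one_apply]
      rw [h3, h3, Module.End.mul_apply, Module.End.mul_apply] at h2
      change L.B a b (D.π g D.t3) ∈ U
      rw [T.fac, T.ς_θ, Module.End.mul_apply, ← h2]
      exact T.θ_stab U hU g _ (h g _ _)
    | zero => intro a b; rw [map_zero]; exact zero_mem _
    | add x y _ _ hx hy => intro a b; rw [map_add]; exact add_mem (hx a b) (hy a b)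
    | smul c x _ hx => intro a b; rw [map_smul]; exact U.smul_mem c (hx a b)
  exact s.perf U m (fun a b c d => h1 _ (k.B_MU c d m) a b) a b

end P1

theorem rowP1 : OfP1 := by
  intro _ lg hS1 hS2 hV hB hK3 hT hC hT3 hT4 G H M _ _ _ _ D h0
  obtain ⟨L⟩ := hB G H M D
  obtain ⟨T⟩ := hT G H M _ D L
  have s := hS1 _ M L.toSp
  have s2 := hS2 _ M L.toSp
  have k := hK3 G H M _ D L
  have c := hC G H M D
  have := D.fin
  have hd : L.Deg 1 := P1.deg1 lg s s2 k h0
  obtain ⟨lam, hl⟩ := P1.ex_lam T c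
  have h4 := hT4 _ D.N lam D.h8 (P1.rel T c (hT3 G H M _ D L T) hd lam hl)
  have hfin : {y | ∃ I, Val D.N 3 I ∧ y = lam I}.Finite := by
    refine ((Finset.range (D.N + 1)).powerset.finite_toSet.image lam).subset ?_
    rintro y ⟨I, hI, rfl⟩
    exact ⟨I, Finset.mem_coe.2 (Finset.mem_powerset.2 hI.1), rfl⟩
  have := Module.Finite.span_of_finite ℚ hfin
  obtain ⟨f, hf, hsp, -⟩ :=
    Submodule.exists_fun_fin_finrank_span_eq ℚ {y | ∃ I, Val D.N 3 I ∧ y = lam I}
  obtain ⟨w, hw1, hw2⟩ := k.fam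
  have hex : ∀ j, ∃ U : Submodule ℚ M, L.toSp.Stab U ∧ (∀ a b, f j a b ∈ U) ∧
      2 * Module.finrank ℚ U ≤ (D.N - 2) ^ 2 + 3 * (D.N - 2) := by
    intro j
    obtain ⟨I, hI, e⟩ := hf j
    obtain ⟨g, rfl⟩ := c.surj 2 I hI
    rw [e, ← hl]
    exact hV _ M L.toSp (L.c 0) (L.c 1) (T.ς g D.t3) D.MU _ w (P1.ω01 k) (P1.sph T k g) hd
      (T.ς_MU g _ P1.t3_MU) hw1 hw2
  choose U hU1 hU2 hU3 using hex
  have hall : ∀ a b m, L.B a b m ∈ Finset.univ.sup U := by
    refine P1.all_mem T s k _ (P1.stab_sup L.toSp U hU1 _) fun g => ?_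
    have h8 := D.h8
    have h1 : P1.z T g ∈ Submodule.span ℚ (Set.range f) := by
      rw [hsp]
      exact Submodule.subset_span ⟨_, c.val 2 g (by omega), hl g⟩
    generalize P1.z T g = y at h1
    induction h1 using Submodule.span_induction with
    | mem x hx =>
      obtain ⟨j, rfl⟩ := hx
      exact fun a b => (Finset.le_sup (f := U) (Finset.mem_univ j) : U j ≤ _) (hU2 j a b)
    | zero => exact fun _ _ => zero_mem _
    | add x y _ _ hx hy => exact fun a b => add_mem (hx a b) (hy a b)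
    | smul r x _ hx => exact fun a b => Submodule.smul_mem _ r (hx a b)
  have hmem : ∀ a b m, L.B a b m ∈ Submodule.span ℚ {x | ∃ a b m, x = L.B a b m} :=
    fun a b m => Submodule.subset_span ⟨a, b, m, rfl⟩
  refine ⟨Submodule.span ℚ {x | ∃ a b m, x = L.B a b m}, fun g m hm => ?_, ?_, fun m => ?_⟩
  · induction hm using Submodule.span_induction with
    | mem x hx =>
      obtain ⟨a, b, m, rfl⟩ := hx
      rw [← Module.End.mul_apply, L.eqv, Module.End.mul_apply]
      exact hmem _ _ _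
    | zero => rw [map_zero]; exact zero_mem _
    | add x y _ _ hx hy => rw [map_add]; exact add_mem hx hy
    | smul r x _ hx => rw [map_smul]; exact Submodule.smul_mem _ r hx
  · have h1 : Submodule.span ℚ {x | ∃ a b m, x = L.B a b m} ≤ Finset.univ.sup U := by
      rw [Submodule.span_le]
      rintro x ⟨a, b, m, rfl⟩
      exact hall a b m
    have h2 := Submodule.finrank_mono h1
    have h3 := P1.finrank_sup U _ hU3 Finset.univ
    rw [Finset.card_univ, Fintype.card_fin] at h3
    exact (Nat.mul_le_mul_left 2 h2).trans (h3.trans (Nat.mul_le_mul_right _ h4))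
  · rw [L.four]
    refine lg.sub' M _ _ m (P1.nil2 s) (fun x _ => ?_) ?_ <;>
      exact Submodule.smul_mem _ 2 (hmem _ _ _)

end Pool.Agent.MP_00906f_gt.H91
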