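import Pool.Agent.MP_00906f_gt.H91.Spec

/-! The part of degree two. -/

namespace Pool.Agent.MP_00906f_gt.H91

open H46 IsNilpotent

namespace P2

variable {E M : Type} [AddCommGroup E] [Module ℚ E] [AddCommGroup M] [Module ℚ M] (S : Sp E M)

/-- The smallest stable subspace containing the products of two factors. -/
def gen (x : E) (q : M) : Submodule ℚ M :=
  sInf {U | S.Stab U ∧ ∀ ξ η, S.ω x ξ = 0 → S.ω x η = 0 → S.B x ξ (S.B x η q) ∈ U}

theorem gen_stab (x : E) (q : M) : S.Stab (gen S x q) := fun a b _ hm =>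
  (Submodule.mem_sInf).2 fun U hU => hU.1 a b _ ((Submodule.mem_sInf).1 hm U hU)

theorem gen_mem (x : E) (q : M) (ξ η : E) (h1 : S.ω x ξ = 0) (h2 : S.ω x η = 0) :
    S.B x ξ (S.B x η q) ∈ gen S x q :=
  (Submodule.mem_sInf).2 fun _ hU => hU.2 ξ η h1 h2

theorem gen_le (x : E) (q : M) (U : Submodule ℚ M) (h1 : S.Stab U)
    (h2 : ∀ ξ η, S.ω x ξ = 0 → S.ω x η = 0 → S.B x ξ (S.B x η q) ∈ U) : gen S x q ≤ U :=
  sInf_le ⟨h1, h2⟩

end P2

open P2 in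
theorem rowP2 : OfP2 := by
  intro hLOG hSP1 hSP2 hV22 hBIL hK3 hTH hT2a hT2b G H M _ _ _ _ D
  obtain ⟨L⟩ := hBIL G H M D
  obtain ⟨T⟩ := hTH G H M _ D L
  have K := hK3 G H M _ D L
  have hdeg : L.Deg 2 := hT2b G H M _ D L T
  have h8 := D.h8
  have := D.fin
  have w01 : L.ω (L.c 0) (L.c 1) = 1 := by rw [K.ωc 0 1 (by omega) (by omega)]; simp
  have w03 : L.ω (L.c 0) (L.c 3) = 0 := by rw [K.ωc 0 3 (by omega) (by omega)]; simp
  have w13 : L.ω (L.c 1) (L.c 3) = 0 := by rw [K.ωc 1 3 (by omega) (by omega)]; simp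
  have w34 : L.ω (L.c 3) (L.c 4) = 1 := by rw [K.ωc 3 4 (by omega) (by omega)]; simp
  have c3 : L.c 3 ≠ 0 := fun h => by simp [h] at w34
  have ht3 : D.t3 ∈ D.MU := Submodule.subset_span ⟨1, by simp⟩
  obtain ⟨w, hw1, hw2⟩ := K.fam
  obtain ⟨V, hV1, hV2, hV3⟩ := hV22 _ M L.toSp (L.c 0) (L.c 1) D.t3 D.MU (D.N - 2) w w01 K.sph3
    hdeg ht3 hw1 hw2
  have hst := gen_stab L.toSp (L.c 0) D.t3
  have hfix : ∀ g, gen L.toSp (L.c 0) D.t3 ≤ LinearMap.eqLocus (T.ς g) LinearMap.id := by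
    intro g
    refine gen_le _ _ _ _ (fun a b m hm => ?_) fun ξ η h1 h2 => ?_
    · have h := LinearMap.congr_fun (T.ς_B g a b) m
      simp only [LinearMap.mem_eqLocus, LinearMap.id_apply, Module.End.mul_apply] at hm h ⊢
      rw [h, hm]
    · have h := hT2a G H M _ D L T 2 hdeg le_rfl g [ξ, η] rfl (by simp [h1, h2])
      simpa [Lie.F, Sp.P] using h
  have hπ : ∀ g, ∀ m ∈ gen L.toSp (L.c 0) D.t3, D.π g m ∈ gen L.toSp (L.c 0) D.t3 := by
    intro g m hm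
    have h1 := T.θ_stab _ hst g m hm
    have h2 : T.ς g (T.θ g m) = T.θ g m := hfix g h1
    rw [T.fac, Module.End.mul_apply, h2]
    exact h1
  refine ⟨gen L.toSp (L.c 0) D.t3, hπ, ?_, fun h => ?_⟩
  · exact le_trans (Nat.mul_le_mul_left _ (Submodule.finrank_mono (gen_le _ _ _ V hV1 hV2))) hV3
  · have hn : IsNilpotent ((2 : ℚ) • L.B (L.c 0) (L.c 0)) :=
      ((hSP1 _ M L.toSp).nil _ _ (L.alt _)).smul _
    rw [L.four]
    refine (hLOG.pow M _ _ _ 2 hn fun x hx => Submodule.smul_mem _ _ (hst _ _ x hx)).1 ?_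
    have h1 := ((hSP2 _ M L.toSp).irr (L.c 0) (L.c 1) D.t3 _ (L.c 3) 2 w01 K.sph3 hst c3 w03 w13
      (by rw [sq]; exact gen_mem _ _ _ _ _ w03 w03)).2 (L.ρ h⁻¹ (L.c 0))
    have e := L.eqv h (L.ρ h⁻¹ (L.c 0)) (L.ρ h⁻¹ (L.c 0))
    rw [← Module.End.mul_apply, ← map_mul, mul_inv_cancel, map_one, Module.End.one_apply] at e
    have h2 := hπ h _ h1
    rw [← Module.End.mul_apply, sq, ← mul_assoc, e, mul_assoc, e, ← mul_assoc, ← sq,
      Module.End.mul_apply] at h2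
    rw [smul_pow, LinearMap.smul_apply]
    exact Submodule.smul_mem _ _ h2

end Pool.Agent.MP_00906f_gt.H91
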