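import Pool.Agent.MP_00906f_gt.H91.PARA

/-! The parallelogram identity for the logarithms of the fourth powers of the twists. -/

namespace Pool.Agent.MP_00906f_gt.H91

open H46 IsNilpotent

namespace PAR

variable {G H M : Type} [Group G] [AddCommGroup H] [AddCommGroup M] [Module ℚ M] {D : Dat G H M}

theorem sk {x y : H} (h : D.ω x y = 0) : D.ω y x = 0 := by rw [D.toSys.skew, h, neg_zero]

theorem lin_split (hK : Kit1 D) (hL : Log) {u v w : H} (h1 : D.ω u v = 0) (h2 : D.ω u w = 0)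
    (h3 : D.ω v w = 0) (a : Ok D u w) (b : Ok D v w) :
    Ok D (u + v) w ∧ lg D (u + v) w = lg D u w + lg D v w := by
  refine ok_of hK hL ?_
  rw [map_add, LinearMap.add_apply]
  exact Lg.add hK hL a b (act_mul D (sk h1) h3 (sk h2) (D.alt w))
    (act_mul D h1 h2 (sk h3) (D.alt w))

theorem sq_split (hK : Kit1 D) (hL : Log) {u v : H} (h : D.ω u v = 0) (a : Ok D u u)
    (b : Ok D v v) (c : Ok D u v) :
    Ok D (u + v) (u + v) ∧ lg D (u + v) (u + v) = lg D u u + lg D v v + (2 : ℚ) • lg D u v := by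
  obtain ⟨c1, c2⟩ := c.symm hK hL
  obtain ⟨d1, d2⟩ := lin_split hK hL h (D.alt u) (sk h) a c1
  obtain ⟨e1, e2⟩ := lin_split hK hL h h (D.alt v) c b
  obtain ⟨d3, d4⟩ := d1.symm hK hL
  obtain ⟨e3, e4⟩ := e1.symm hK hL
  obtain ⟨f1, f2⟩ := lin_split hK hL h (by simp [D.alt, h]) (by simp [D.alt, sk h]) d3 e3
  refine ⟨f1, ?_⟩
  rw [f2, d4, e4, d2, e2, c2]
  module

theorem par (hK : Kit1 D) (hL : Log) {A C : H} (h : D.ω A C = 0) (a : Ok D A A) (c : Ok D C C)
    (p : Ok D (A + C) (A + C)) (m : Ok D (A - C) (A - C)) :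
    lg D (A + C) (A + C) + lg D (A - C) (A - C) = (2 : ℚ) • lg D A A + (2 : ℚ) • lg D C C := by
  have h' := sk h
  have hA := D.alt A
  have hC := D.alt C
  have z1 : D.ω (A + C) (A - C) = 0 := by simp [*]
  have z2 := sk z1
  have l1 := Lg.add hK hL p m (act_mul D z2 z2 z2 z2) (act_mul D z1 z1 z1 z1)
  have l2 := Lg.add hK hL a c (act_mul D h' h' h' h') (act_mul D h h h h)
  have l3 := Lg.add hK hL l2 l2 l2.1 l2.1
  have e : act D (A + C) (A + C) + act D (A - C) (A - C) =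
      act D A A + act D C C + (act D A A + act D C C) := by
    simp only [map_add, map_sub, LinearMap.add_apply, LinearMap.sub_apply]
    abel
  rw [e] at l1
  rw [Lg.uniq hK hL l1 l3]
  module

theorem ok_two (hK : Kit1 D) (hL : Log) (hU : Unip D) {u w y : H} (hu : D.toSys.V u)
    (h1 : D.ω u w = 0) (h2 : |D.ω u y| = 1) (h3 : D.ω w y = 0) : Ok D u w := by
  have h' := sk h1
  have hA := D.alt u
  have hC := D.alt w
  have v1 := ok_V hK hL hU (D.toSys.V_two hu (D.hL w) (D.hL y) (by simpa [h3] using h2))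
  have v2 := ok_V hK hL hU (D.toSys.V_two hu (D.hL (-w)) (D.hL y) (by simpa [h3] using h2))
  have z1 : D.ω (u + (2 : ℤ) • w) (u + (2 : ℤ) • -w) = 0 := by simp [*]
  have z2 := sk z1
  have l1 := Lg.add hK hL v1 (Lg.neg v2) (by rw [mul_neg, act_mul D z2 z2 z2 z2, neg_zero])
    (by rw [neg_mul, act_mul D z1 z1 z1 z1, neg_zero])
  have e : act D (u + (2 : ℤ) • w) (u + (2 : ℤ) • w) +
      -act D (u + (2 : ℤ) • -w) (u + (2 : ℤ) • -w) = 8 • act D u w := by
    simp only [map_add, map_neg, map_smul, LinearMap.add_apply, LinearMap.neg_apply,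
      LinearMap.smul_apply, act_symm D w u]
    module
  rw [e] at l1
  exact (ok_of hK hL (Lg.div (by norm_num) (act_mul D hA h1 h' hC) l1)).1

/-- a plane with a basis in `V` -/
structure Pl (D : Dat G H M) (a b : H) : Prop where
  x : D.toSys.V a
  y : D.toSys.V b
  w : D.ω a b = 1

/-- `w` is orthogonal to the plane -/
structure Pp (D : Dat G H M) (a b w : H) : Prop where
  x : D.ω a w = 0
  y : D.ω b w = 0

theorem Pl.rot {x y : H} (h : Pl D x y) : Pl D (-y) x :=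
  ⟨D.toSys.V_neg h.y, h.x, by rw [map_neg, LinearMap.neg_apply, ← D.toSys.skew, h.w]⟩

theorem Pp.rot {x y w : H} (h : Pp D x y w) : Pp D (-y) x w := ⟨by simp [h.y], h.x⟩

theorem Pl.w' {x y : H} (h : Pl D x y) : D.ω y x = -1 := by rw [D.toSys.skew, h.w]

theorem Pl.add {x y : H} (h : Pl D x y) : D.toSys.V (x + y) :=
  D.toSys.V_add h.y h.x (by rw [h.w']; rfl)

theorem Pl.sub {x y : H} (h : Pl D x y) : D.toSys.V (x - y) := by
  rw [sub_eq_neg_add]
  exact h.rot.add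

theorem Pl.okx (hK : Kit1 D) (hL : Log) (hU : Unip D) {x y w : H} (h : Pl D x y)
    (p : Pp D x y w) : Ok D x w := ok_two hK hL hU h.x p.x (y := y) (by rw [h.w]; rfl) (sk p.y)

theorem Pl.oky (hK : Kit1 D) (hL : Log) (hU : Unip D) {x y w : H} (h : Pl D x y)
    (p : Pp D x y w) : Ok D y w := ok_two hK hL hU h.y p.y (y := x) (by rw [h.w']; rfl) (sk p.x)

theorem Pl.okadd (hK : Kit1 D) (hL : Log) (hU : Unip D) {x y w : H} (h : Pl D x y)
    (p : Pp D x y w) : Ok D (x + y) w :=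
  ok_two hK hL hU h.add (by simp [p.x, p.y]) (y := y) (by simp [h.w, D.alt]) (sk p.y)

theorem Pl.oksub (hK : Kit1 D) (hL : Log) (hU : Unip D) {x y w : H} (h : Pl D x y)
    (p : Pp D x y w) : Ok D (x - y) w := by
  rw [sub_eq_neg_add]
  exact h.rot.okadd hK hL hU p.rot

/-- the defects of additivity on two planes -/
theorem defect (hK : Kit1 D) (hL : Log) (hU : Unip D) {x y p q w : H} (h : Pl D x y)
    (h' : Pl D p q) (o1 : Pp D x y p) (o2 : Pp D x y q) (a : Pp D x y w) (b : Pp D p q w) :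
    lg D (x + y) w + lg D (p - q) w = lg D x w + lg D p w + (lg D y w - lg D q w) := by
  have := h.w
  have := h'.w
  have := o1.x
  have := o1.y
  have := o2.x
  have := o2.y
  have := sk o1.y
  have := a.x
  have := a.y
  have := b.x
  have := b.y
  obtain ⟨n1, n2⟩ := (h'.oky hK hL hU b).neg hK hL
  obtain ⟨a1, a2⟩ := lin_split hK hL o1.x a.x b.x (h.okx hK hL hU a) (h'.okx hK hL hU b)
  obtain ⟨c1, c2⟩ := lin_split hK hL (by simp [*]) a.y (by simp [*]) (h.oky hK hL hU a) n1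
  obtain ⟨-, d2⟩ := lin_split hK hL (by simp [*]) (by simp [*]) (by simp [*]) a1 c1
  obtain ⟨-, e2⟩ := lin_split hK hL (by simp [*]) (by simp [*]) (by simp [*])
    (h.okadd hK hL hU a) (h'.oksub hK hL hU b)
  rw [← e2, show x + y + (p - q) = x + p + (y + -q) by abel, d2, a2, c2, n2, sub_eq_add_neg]

theorem add_f (hK : Kit1 D) (hL : Log) (hU : Unip D) {x y p q w : H} (h : Pl D x y)
    (h' : Pl D p q) (o1 : Pp D x y p) (o2 : Pp D x y q) (a : Pp D x y w) (b : Pp D p q w) :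
    lg D (x + y) w = lg D x w + lg D y w := by
  have e1 := defect hK hL hU h h' o1 o2 a b
  have e2 := defect hK hL hU h h'.rot.rot ⟨by simp [o1.x], by simp [o1.y]⟩
    ⟨by simp [o2.x], by simp [o2.y]⟩ a b.rot.rot
  rw [show -p - -q = -(p - q) by abel, ((h'.oksub hK hL hU b).neg hK hL).2,
    ((h'.okx hK hL hU b).neg hK hL).2, ((h'.oky hK hL hU b).neg hK hL).2] at e2
  linear_combination (norm := module) (1 / 2 : ℚ) • e1 + (1 / 2 : ℚ) • e2

theorem sub_f (hK : Kit1 D) (hL : Log) (hU : Unip D) {x y p q w : H} (h : Pl D x y)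
    (h' : Pl D p q) (o1 : Pp D x y p) (o2 : Pp D x y q) (a : Pp D x y w) (b : Pp D p q w) :
    lg D (x - y) w = lg D x w - lg D y w := by
  rw [sub_eq_neg_add, add_f hK hL hU h.rot h' o1.rot o2.rot a.rot b,
    ((h.oky hK hL hU a).neg hK hL).2, sub_eq_neg_add]

/-- the defect of the parallelogram identity -/
noncomputable def Φ (D : Dat G H M) (x y : H) : Module.End ℚ M :=
  lg D (x + y) (x + y) + lg D (x - y) (x - y) - (2 : ℚ) • lg D x x - (2 : ℚ) • lg D y y

theorem Φ_add (hK : Kit1 D) (hL : Log) (hU : Unip D) {x y p q r s : H} (h : Pl D x y)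
    (h' : Pl D p q) (h'' : Pl D r s) (o1 : Pp D x y p) (o2 : Pp D x y q) (o3 : Pp D x y r)
    (o4 : Pp D x y s) (o5 : Pp D p q r) (o6 : Pp D p q s) : Φ D x y + Φ D p q = 0 := by
  have := h.w
  have := h'.w
  have := o1.x
  have := o1.y
  have := o2.x
  have := o2.y
  have := sk o1.y
  have := sk o5.x
  have := sk o5.y
  have := sk o6.x
  have := sk o6.y
  have bx : Pp D p q x := ⟨sk o1.x, sk o2.x⟩
  have by' : Pp D p q y := ⟨sk o1.y, sk o2.y⟩
  have cx : Pp D r s x := ⟨sk o3.x, sk o4.x⟩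
  have cy : Pp D r s y := ⟨sk o3.y, sk o4.y⟩
  have m1 : Pp D x y (p - q) := ⟨by simp [*], by simp [*]⟩
  have m2 : Pp D x y (p + q) := ⟨by simp [*], by simp [*]⟩
  have m3 : Pp D r s (p - q) := ⟨by simp [*], by simp [*]⟩
  have m4 : Pp D r s (p + q) := ⟨by simp [*], by simp [*]⟩
  have V := fun {v : H} (hv : D.toSys.V v) => ok_V hK hL hU hv
  obtain ⟨k1, k2⟩ := ((h.oky hK hL hU o2).symm hK hL).1.neg hK hL
  obtain ⟨k3, k4⟩ := k1.symm hK hL
  obtain ⟨k5, k6⟩ := (V h'.y).neg hK hL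
  obtain ⟨k7, k8⟩ := k5.symm hK hL
  obtain ⟨k9, k10⟩ := k7.neg hK hL
  obtain ⟨a1, a2⟩ := sq_split hK hL o1.x (V h.x) (V h'.x) (h.okx hK hL hU o1)
  obtain ⟨c1, c2⟩ := sq_split hK hL (by simp [*]) (V h.y) k9 k3
  obtain ⟨p1, p2⟩ := sq_split hK hL (by simp [*]) (V h.add) (V h'.sub) (h.okadd hK hL hU m1)
  obtain ⟨q1, q2⟩ := sq_split hK hL (by simp [*]) (V h.sub) (V h'.add) (h.oksub hK hL hU m2)
  have e1 : x + y + (p - q) = x + p + (y + -q) := by abel
  have e2 : x - y + (p + q) = x + p - (y + -q) := by abel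
  rw [e1] at p1 p2
  rw [e2] at q1 q2
  have e := par hK hL (by simp [*]) a1 c1 p1 q1
  rw [p2, q2, a2, c2, k10, k8, k6, k4, k2, add_f hK hL hU h h'' o3 o4 m1 m3,
    sub_f hK hL hU h h'' o3 o4 m2 m4, ((h'.oksub hK hL hU bx).symm hK hL).2,
    ((h'.oksub hK hL hU by').symm hK hL).2, ((h'.okadd hK hL hU bx).symm hK hL).2,
    ((h'.okadd hK hL hU by').symm hK hL).2, sub_f hK hL hU h' h'' o5 o6 bx cx,
    sub_f hK hL hU h' h'' o5 o6 by' cy, add_f hK hL hU h' h'' o5 o6 bx cx,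
    add_f hK hL hU h' h'' o5 o6 by' cy, ((h'.okx hK hL hU bx).symm hK hL).2] at e
  unfold Φ
  linear_combination (norm := module) e

end PAR

open PAR in
theorem rowPAR : OfPAR := by
  intro hK1 hL hU1 G H M _ _ _ _ D y0 y1 y2 y3 n0 n1 n2 n3 e0 e1 e2 e3
  have hK : Kit1 D := hK1 G H M D
  have hU : Unip D := hU1 G H M D
  have h8 := D.h8
  have pl : ∀ i, i + 1 < D.N → Pl D (D.c i) (D.c (i + 1)) := fun i hi =>
    ⟨D.toSys.V_c D.hN (by omega), D.toSys.V_c D.hN hi, D.ch1 i hi⟩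
  have pp : ∀ i j, i + 3 ≤ j → j < D.N → Pp D (D.c i) (D.c (i + 1)) (D.c j) := fun i j h1 h2 =>
    ⟨D.ch2 i j (by omega) h2, D.ch2 (i + 1) j h1 h2⟩
  have pq : ∀ i j, j + 2 ≤ i → i + 1 < D.N → Pp D (D.c i) (D.c (i + 1)) (D.c j) :=
    fun i j h1 h2 => ⟨sk (D.ch2 j i h1 (by omega)), sk (D.ch2 j (i + 1) (by omega) h2)⟩
  have f1 := Φ_add hK hL hU (pl 0 (by omega)) (pl 3 (by omega)) (pl 6 (by omega))
    (pp 0 3 (by omega) (by omega)) (pp 0 4 (by omega) (by omega)) (pp 0 6 (by omega) (by omega))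
    (pp 0 7 (by omega) (by omega)) (pp 3 6 (by omega) (by omega)) (pp 3 7 (by omega) (by omega))
  have f2 := Φ_add hK hL hU (pl 0 (by omega)) (pl 6 (by omega)) (pl 3 (by omega))
    (pp 0 6 (by omega) (by omega)) (pp 0 7 (by omega) (by omega)) (pp 0 3 (by omega) (by omega))
    (pp 0 4 (by omega) (by omega)) (pq 6 3 (by omega) (by omega)) (pq 6 4 (by omega) (by omega))
  have f3 := Φ_add hK hL hU (pl 3 (by omega)) (pl 6 (by omega)) (pl 0 (by omega))
    (pp 3 6 (by omega) (by omega)) (pp 3 7 (by omega) (by omega)) (pq 3 0 (by omega) (by omega))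
    (pq 3 1 (by omega) (by omega)) (pq 6 0 (by omega) (by omega)) (pq 6 1 (by omega) (by omega))
  have f0 : Φ D (D.c 0) (D.c 1) = 0 := by
    linear_combination (norm := module)
      (1 / 2 : ℚ) • f1 + (1 / 2 : ℚ) • f2 - (1 / 2 : ℚ) • f3
  have w01 : D.ω (D.c 0) (D.c 1) = 1 := D.ch1 0 (by omega)
  have r4 : ∀ i, i < D.N → ∀ x, D.ρ (D.σ i ^ 4) x = x + (4 * D.ω x (D.c i)) • D.c i :=
    fun i hi x => by
      have := D.toSys.ρσ_zpow hi 4 x
      rwa [zpow_ofNat] at this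
  have g0 := (ok_of hK hL (lg_four n0 e0 (r4 0 (by omega)))).2
  have g1 := (ok_of hK hL (lg_four n1 e1 (r4 1 (by omega)))).2
  have g2 := (ok_of hK hL (lg_four n2 e2 (conj4 hK _))).2
  have g3 := (ok_of hK hL (lg_four n3 (e3.trans (by rw [inv_inv])) (conj4 hK (D.σ 1)⁻¹))).2
  rw [D.ρσ 1 (by omega), w01, one_smul] at g2
  rw [D.toSys.ρσ_inv (by omega), w01, one_smul] at g3
  rw [Φ, g0, g1, g2, g3] at f0
  linear_combination (norm := module) (2 : ℚ) • f0

end Pool.Agent.MP_00906f_gt.H91
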