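import Pool.Agent.MP_00906f_gt.H91.Spec

/-! Row S0. -/

set_option linter.unusedSimpArgs false

namespace Pool.Agent.MP_00906f_gt.H91

open H46

namespace S0

variable {G H M : Type} [Group G] [AddCommGroup H] [AddCommGroup M] [Module ℚ M]

/-- The vectors fixed by the first generator. -/
def FS (D : Dat G H M) : Submodule ℚ M := LinearMap.ker (D.π (D.σ 0) - 1)

theorem mem_FS (D : Dat G H M) (m : M) : m ∈ FS D ↔ D.Fx m := by
  simp only [FS, LinearMap.mem_ker, LinearMap.sub_apply, Module.End.one_apply, sub_eq_zero, Dat.Fx]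

theorem π_mul (D : Dat G H M) (a b : G) (m : M) : D.π (a * b) m = D.π a (D.π b m) := by
  rw [map_mul]; rfl

theorem cm {D : Dat G H M} (k2 : Kit2 D) {l l' : H} (hl : D.ω (D.c 0) l = 0)
    (hl' : D.ω (D.c 0) l' = 0) {m : M} (hm : m ∈ FS D) :
    D.τ l (D.τ l' m) = D.τ l' (D.τ l m) := by
  rw [mem_FS] at hm
  rw [← k2.τ_add l l' hl hl' m hm, ← k2.τ_add l' l hl' hl m hm, add_comm]

theorem Fτ {D : Dat G H M} (k2 : Kit2 D) {l : H} (hl : D.ω (D.c 0) l = 0) {m : M}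
    (hm : m ∈ FS D) : D.τ l m ∈ FS D :=
  (mem_FS D _).2 (k2.Fx_τ l hl m ((mem_FS D _).1 hm))

theorem Fπ {D : Dat G H M} (k2 : Kit2 D) {g : G} (hg : D.ρ g (D.c 0) = D.c 0) {m : M}
    (hm : m ∈ FS D) : D.π g m ∈ FS D :=
  (mem_FS D _).2 (k2.Fx_π g (Or.inl hg) m ((mem_FS D _).1 hm))

theorem τ_inv {D : Dat G H M} (k2 : Kit2 D) {l : H} (hl : D.ω (D.c 0) l = 0) (m : M) :
    D.τ (-l) (D.τ l m) = m := by
  rw [← Module.End.mul_apply, k2.τ_neg l hl, Module.End.one_apply]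

theorem τ_inv' {D : Dat G H M} (k2 : Kit2 D) {l : H} (hl : D.ω (D.c 0) l = 0) (m : M) :
    D.τ l (D.τ (-l) m) = m := by
  have h := τ_inv k2 (l := -l) (by rw [map_neg, hl, neg_zero]) m
  rwa [neg_neg] at h

theorem conj {D : Dat G H M} (k2 : Kit2 D) {g : G} (hg : D.ρ g (D.c 0) = D.c 0) {l : H}
    (hl : D.ω (D.c 0) l = 0) (m : M) : D.π g (D.τ l m) = D.τ (D.ρ g l) (D.π g m) := by
  rw [← Module.End.mul_apply, k2.τ_conj g l hg hl, Module.End.mul_apply]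

/-- Orthogonal to the first vector and to `z`. -/
def Q (D : Dat G H M) (z x : H) : Prop := D.ω (D.c 0) x = 0 ∧ D.ω z x = 0

theorem Q_σ (D : Dat G H M) {z x : H} {i : ℕ} (hi : i < D.N) (hc : Q D z (D.c i))
    (hx : Q D z x) : Q D z (D.ρ (D.σ i) x) := by
  rw [D.ρσ i hi]
  constructor
  · rw [map_add, map_smul, hx.1, hc.1, smul_zero, add_zero]
  · rw [map_add, map_smul, hx.2, hc.2, smul_zero, add_zero]

theorem Q_E (D : Dat G H M) {z x : H} (hz : D.ω z (D.c 0) = 0) (l : H) (k : ℤ)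
    (hx : Q D z x) : Q D z (D.toSys.E l k x) := by
  unfold Sys.E
  rw [hx.1]
  constructor
  · simp only [map_add, map_smul, hx.1, D.alt, mul_zero, zero_smul, smul_zero, add_zero]
  · simp only [map_add, map_smul, hx.2, hz, mul_zero, zero_smul, smul_zero, add_zero]

/-- The final linear algebra. -/
theorem last (K : Submodule ℚ M) (A A' : Module.End ℚ M) (f0 f1 : M)
    (hA : ∀ m ∈ K, A m ∈ K) (hAA : ∀ m, A (A' m) = m)
    (h1 : A (f1 - f0) - (f1 - f0) ∈ K) (h2 : A' (A' f1 - f0) - (A' f1 - f0) ∈ K) :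
    A (A f0 - f0) - (A f0 - f0) ∈ K := by
  have h3 := hA _ (hA _ h2)
  simp only [map_sub, hAA] at h1 h3 ⊢
  have h4 := K.add_mem h1 h3
  have e : A (A f0) - A f0 - (A f0 - f0) =
      A f1 - A f0 - (f1 - f0) + (f1 - A f0 - (A f1 - A (A f0))) := by abel
  rw [e]
  exact h4

theorem main (D : Dat G H M) (k2 : Kit2 D) (hR : Rel D) : H91.S0 D := by
  intro O hO1 hO2 ha0 ha1 z z0 z2 z3 z4 z5
  have h8 := D.h8
  have wc : ∀ i j, i < 8 → j < 8 → D.ω (D.c i) (D.c j) =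
      (if j = i + 1 then 1 else 0) - (if i = j + 1 then 1 else 0) := fun i j hi hj =>
    D.toSys.lat_ωcc (by omega) (by omega)
  have sk : ∀ x y, D.ω x y = -D.ω y x := D.toSys.skew
  have z0' : D.ω z (D.c 0) = 0 := by rw [sk, z0, neg_zero]
  have z2' : D.ω z (D.c 2) = 0 := by rw [sk, z2, neg_zero]
  have z3' : D.ω z (D.c 3) = 0 := by rw [sk, z3, neg_zero]
  have z4' : D.ω z (D.c 4) = 0 := by rw [sk, z4, neg_zero]
  have z5' : D.ω z (D.c 5) = 0 := by rw [sk, z5, neg_zero]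
  have w02 : D.ω (D.c 0) (D.c 2) = 0 := by rw [wc 0 2 (by omega) (by omega)]; rfl
  have w03 : D.ω (D.c 0) (D.c 3) = 0 := by rw [wc 0 3 (by omega) (by omega)]; rfl
  have w04 : D.ω (D.c 0) (D.c 4) = 0 := by rw [wc 0 4 (by omega) (by omega)]; rfl
  have w05 : D.ω (D.c 0) (D.c 5) = 0 := by rw [wc 0 5 (by omega) (by omega)]; rfl
  have s0 := D.ρσ 0 (by omega)
  have s1 := D.ρσ 1 (by omega)
  have s2 := D.ρσ 2 (by omega)
  have s3 := D.ρσ 3 (by omega)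
  have s4 := D.ρσ 4 (by omega)
  have r2 := D.toSys.ρσ_inv (i := 2) (by omega)
  have r3 := D.toSys.ρσ_inv (i := 3) (by omega)
  have r4 := D.toSys.ρσ_inv (i := 4) (by omega)
  have rm := D.toSys.ρ_mul
  -- the submodule `K`
  let K : Submodule ℚ M := FS D ⊓ LinearMap.ker O
  have Kτ : ∀ l, D.ω (D.c 0) l = 0 → ∀ m ∈ K, D.τ l m ∈ K := by
    intro l hl m hm
    refine ⟨Fτ k2 hl hm.1, ?_⟩
    have h : O m = 0 := hm.2
    change O (D.τ l m) = 0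
    rw [hO2 l hl m ((mem_FS D _).1 hm.1), h, map_zero]
  have Kτ' : ∀ l, D.ω (D.c 0) l = 0 → ∀ m, D.τ l m ∈ K → m ∈ K := by
    intro l hl m hm
    have h := Kτ (-l) (by rw [map_neg, hl, neg_zero]) _ hm
    rwa [τ_inv k2 hl] at h
  have Kπ : ∀ g, D.ρ g (D.c 0) = D.c 0 → D.ρ g (D.c 4) = D.c 4 → ∀ m ∈ K, D.π g m ∈ K := by
    intro g h0 h4 m hm
    refine ⟨Fπ k2 h0 hm.1, ?_⟩
    have h : O m = 0 := hm.2
    change O (D.π g m) = 0
    rw [hO1 g h0 h4 m ((mem_FS D _).1 hm.1), h, map_zero]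
  have F3 : D.t3 ∈ FS D := (mem_FS D _).2 k2.Fx_t3
  have F5 : D.t5 ∈ FS D := (mem_FS D _).2 k2.Fx_t5
  -- the operator `P`
  let P : Module.End ℚ M := (D.τ (D.c 2) - 1) * (D.τ z - 1)
  have Pe : ∀ m, P m = D.τ (D.c 2) (D.τ z m - m) - (D.τ z m - m) := fun m => rfl
  have PK : ∀ m ∈ K, P m ∈ K := by
    intro m hm
    have h := K.sub_mem (Kτ z z0 m hm) hm
    rw [Pe]
    exact K.sub_mem (Kτ _ w02 _ h) h
  have PA : ∀ m ∈ FS D, D.τ (D.c 2) m = m → P m = 0 := by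
    intro m hm h
    rw [Pe, map_sub, cm k2 w02 z0 hm, h, sub_self]
  have PX : ∀ m, D.τ z m = m → P m = 0 := by
    intro m h
    rw [Pe, h, sub_self, map_zero, sub_self]
  have Pτ : ∀ l, D.ω (D.c 0) l = 0 → ∀ m ∈ FS D, P (D.τ l m) = D.τ l (P m) := by
    intro l hl m hm
    rw [Pe, Pe, cm k2 z0 hl hm, ← map_sub,
      cm k2 w02 hl ((FS D).sub_mem (Fτ k2 z0 hm) hm), ← map_sub]
  -- the terms of the relation
  have c04 : D.ρ (D.σ 4) (D.c 0) = D.c 0 := by rw [s4, w04, zero_smul, add_zero]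
  have c03 : D.ρ (D.σ 3) (D.c 0) = D.c 0 := by rw [s3, w03, zero_smul, add_zero]
  have c02 : D.ρ (D.σ 2) (D.c 0) = D.c 0 := by rw [s2, w02, zero_smul, add_zero]
  have a0 : P (D.π (D.σ 2 * D.σ 3 * D.σ 4) D.t5) ∈ K :=
    PK _ ⟨Fπ k2 (by rw [rm, rm, c04, c03, c02]) F5, ha0⟩
  have a1 : P (D.π (D.σ 3 * D.σ 4) D.t5) ∈ K :=
    PK _ ⟨Fπ k2 (by rw [rm, c04, c03]) F5, ha1⟩
  have ww12 : D.toSys.ww 1 - D.toSys.ww 2 = -D.c 3 := by
    simp only [Sys.ww]; abel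
  have w0n3 : D.ω (D.c 0) (-D.c 3) = 0 := by rw [map_neg, w03, neg_zero]
  have yyτ : ∀ m ∈ FS D, D.π (yy D.σ 1 * yy D.σ 2) m = D.τ (-D.c 3) m := by
    intro m hm
    rw [k2.τ_yy 1 2 (by omega) (by omega) m ((mem_FS D _).1 hm), ww12]
  have t5A : D.τ (D.c 2) D.t5 = D.t5 := by
    have h := k2.τ_t5 1 0
    rwa [one_smul, zero_smul, add_zero] at h
  have t5B : D.τ (-D.c 3) D.t5 = D.t5 := by
    have h := k2.τ_t5 0 (-1)
    rwa [neg_smul, one_smul, zero_smul, zero_add] at h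
  have a3 : P (D.π (yy D.σ 1 * yy D.σ 2) D.t5) = 0 := by
    rw [yyτ _ F5, t5B]
    exact PA _ F5 t5A
  have a2 : P (D.π (yy D.σ 1 * yy D.σ 2 * D.σ 4) D.t5) = 0 := by
    have hF := Fπ k2 c04 F5
    have c24 : D.ρ (D.σ 4) (D.c 2) = D.c 2 := by
      rw [s4, wc 2 4 (by omega) (by omega)]; simp
    have h := conj k2 c04 w02 D.t5
    rw [t5A, c24] at h
    rw [π_mul, yyτ _ hF, Pτ _ w0n3 _ hF, PA _ hF h.symm, map_zero]
  have g00 : D.ρ (g0 D.σ) (D.c 0) = D.c 2 := by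
    simp only [g0, rm, s0, s1, s2, s3, map_add, map_smul, LinearMap.add_apply,
      LinearMap.smul_apply, wc, Nat.reduceLT, Nat.ofNat_pos, Nat.one_lt_ofNat]
    norm_num
  have g01 : D.ρ (g0 D.σ) (D.c 1) = D.c 3 := by
    simp only [g0, rm, s0, s1, s2, s3, map_add, map_smul, LinearMap.add_apply,
      LinearMap.smul_apply, wc, Nat.reduceLT, Nat.ofNat_pos, Nat.one_lt_ofNat]
    norm_num
  have q2 : Q D z (D.c 2) := ⟨w02, z2'⟩
  have q3 : Q D z (D.c 3) := ⟨w03, z3'⟩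
  have q4 : Q D z (D.c 4) := ⟨w04, z4'⟩
  have Qy : ∀ x, Q D z x → Q D z (D.ρ (yy D.σ 1 * yy D.σ 2) x) := by
    intro x hx
    rw [rm, D.toSys.ρ_yy (by omega) (j := 1) (by omega), D.toSys.ρ_yy (by omega) (j := 2) (by omega),
      D.toSys.Rf_Rf (D.toSys.ω_c0_ww (by omega)) (D.toSys.ω_c0_ww (by omega))]
    exact Q_E D z0' _ _ hx
  have bb : ∀ h, (∀ x, Q D z x → Q D z (D.ρ h x)) → P (D.π (h * g0 D.σ) D.t3) = 0 := by
    intro h hh
    have h0 : Q D z (D.ρ (h * g0 D.σ) (D.c 0)) := by rw [rm, g00]; exact hh _ q2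
    have h1 : Q D z (D.ρ (h * g0 D.σ) (D.c 1)) := by rw [rm, g01]; exact hh _ q3
    exact PX _ (k2.τ_perp _ z z0 h0.1 h1.1 h0.2 h1.2).2
  have b0 := bb (D.σ 2 * D.σ 3 * D.σ 4) fun x hx => by
    rw [rm, rm]
    exact Q_σ D (by omega) q2 (Q_σ D (by omega) q3 (Q_σ D (by omega) q4 hx))
  have b1 := bb (D.σ 3 * D.σ 4) fun x hx => by
    rw [rm]
    exact Q_σ D (by omega) q3 (Q_σ D (by omega) q4 hx)
  have b2 := bb (yy D.σ 1 * yy D.σ 2 * D.σ 4) fun x hx => by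
    rw [rm]
    exact Qy _ (Q_σ D (by omega) q4 hx)
  have b3 := bb (yy D.σ 1 * yy D.σ 2) Qy
  have h1 : P (D.π (w3 D.σ) D.t3 + D.π (w1 D.σ) D.t3 - D.π (w2 D.σ) D.t3 - D.t3) ∈ K := by
    unfold Rel at hR
    rw [← hR]
    simp only [map_sub, map_add, a2, a3, b0, b1, b2, b3, sub_zero, add_zero]
    exact K.sub_mem a0 a1
  -- the four vectors
  have u10 : D.ρ (w1 D.σ) (D.c 0) = D.c 0 := by
    simp only [w1, rm, c02, r3, r4, w03, w04, zero_smul, sub_zero]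
  have u20 : D.ρ (w2 D.σ) (D.c 0) = D.c 0 := by
    simp only [w2, rm, c03, r2, w02, zero_smul, sub_zero]
  have u30 : D.ρ (w3 D.σ) (D.c 0) = D.c 0 := by
    simp only [w3, rm, c02, r3, r4, w03, w04, zero_smul, sub_zero]
  have u11 : D.ρ (w1 D.σ) (D.c 1) = D.c 1 + D.c 2 + (2 : ℤ) • D.c 4 := by
    simp only [w1, rm, s2, r3, r4, map_add, map_sub, map_smul, LinearMap.add_apply,
      LinearMap.sub_apply, LinearMap.smul_apply, wc, Nat.reduceLT, Nat.ofNat_pos, Nat.one_lt_ofNat]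
    norm_num
    module
  have u21 : D.ρ (w2 D.σ) (D.c 1) = D.c 1 - D.c 2 - D.c 3 := by
    simp only [w2, rm, s3, r2, map_add, map_sub, map_smul, LinearMap.add_apply,
      LinearMap.sub_apply, LinearMap.smul_apply, wc, Nat.reduceLT, Nat.ofNat_pos, Nat.one_lt_ofNat]
    norm_num
    module
  have u31 : D.ρ (w3 D.σ) (D.c 1) = D.c 1 + D.c 2 - D.c 3 + D.c 4 := by
    simp only [w3, rm, s2, r3, r4, map_add, map_sub, map_smul, LinearMap.add_apply,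
      LinearMap.sub_apply, LinearMap.smul_apply, wc, Nat.reduceLT, Nat.ofNat_pos, Nat.one_lt_ofNat]
    norm_num
  have F1 := Fπ k2 u10 F3
  have F2 := Fπ k2 u20 F3
  have F3' := Fπ k2 u30 F3
  obtain ⟨γ, hγ⟩ := k2.ex (D.c 2) z (D.toSys.V_c D.hN (by omega)) z2
  have w20 : D.ω (D.c 2) (D.c 0) = 0 := by rw [sk, w02, neg_zero]
  have w21 : D.ω (D.c 2) (D.c 1) = -1 := by rw [wc 2 1 (by omega) (by omega)]; rfl
  have w23 : D.ω (D.c 2) (D.c 3) = 1 := by rw [wc 2 3 (by omega) (by omega)]; rfl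
  have w24 : D.ω (D.c 2) (D.c 4) = 0 := by rw [wc 2 4 (by omega) (by omega)]; rfl
  have γ0 : D.ρ γ (D.c 0) = D.c 0 := by rw [hγ, w20, z0']; simp
  have γ2 : D.ρ γ (D.c 2) = D.c 2 := by rw [hγ, D.alt, z2']; simp
  have γ4 : D.ρ γ (D.c 4) = D.c 4 := by rw [hγ, w24, z4']; simp
  have γz : D.ρ γ z = z := by rw [hγ, D.alt, z2]; simp
  have γ1 : D.ρ γ (D.c 1) = D.c 1 - (2 : ℤ) • z + (2 * D.ω z (D.c 1)) • D.c 2 := by
    rw [hγ, w21]; module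
  have γ3 : D.ρ γ (D.c 3) = D.c 3 + (2 : ℤ) • z := by rw [hγ, w23, z3']; module
  obtain ⟨l2, hl2⟩ : ∃ l2, l2 = (-2 : ℤ) • z + D.ω z (D.c 1) • D.c 2 := ⟨_, rfl⟩
  have l20 : D.ω (D.c 0) l2 = 0 := by rw [hl2, map_add, map_smul, map_smul, z0, w02]; simp
  have l10 : D.ω (D.c 0) (l2 + z) = 0 := by rw [map_add, l20, z0, add_zero]
  have one0 : D.ρ 1 (D.c 0) = D.c 0 := D.toSys.ρ_one _
  have e0 : D.π γ D.t3 = D.τ l2 (D.τ z D.t3) := by
    have h := k2.τ_t3 1 γ (l2 + z) 0 l10 one0 γ0 (by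
      rw [γ1, D.toSys.ρ_one, hl2]; module)
    rw [map_one, Module.End.one_apply] at h
    rw [h, k2.τ_add _ _ l20 z0 _ k2.Fx_t3]
  have e1 : D.π γ (D.π (w1 D.σ) D.t3) = D.τ l2 (D.τ z (D.π (w1 D.σ) D.t3)) := by
    rw [← π_mul, k2.τ_t3 (w1 D.σ) (γ * w1 D.σ) (l2 + z) 0 l10 u10 (by rw [rm, u10, γ0]) (by
      rw [rm, u11, map_add, map_add, map_smul, γ1, γ2, γ4, hl2]; module),
      k2.τ_add _ _ l20 z0 _ ((mem_FS D _).1 F1)]
  have e2 : D.π γ (D.π (w2 D.σ) D.t3) = D.τ l2 (D.π (w2 D.σ) D.t3) := by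
    rw [← π_mul, k2.τ_t3 (w2 D.σ) (γ * w2 D.σ) l2 0 l20 u20 (by rw [rm, u20, γ0]) (by
      rw [rm, u21, map_sub, map_sub, γ1, γ2, γ3, hl2]; module)]
  have e3 : D.π γ (D.π (w3 D.σ) D.t3) = D.τ l2 (D.π (w3 D.σ) D.t3) := by
    rw [← π_mul, k2.τ_t3 (w3 D.σ) (γ * w3 D.σ) l2 0 l20 u30 (by rw [rm, u30, γ0]) (by
      rw [rm, u31, map_add, map_sub, map_add, γ1, γ2, γ3, γ4, hl2]; module)]
  have γP : ∀ m, D.π γ (P m) = P (D.π γ m) := by
    intro m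
    simp only [Pe, map_sub, conj k2 γ0 w02, conj k2 γ0 z0, γ2, γz]
  have h2 : P (D.π (w3 D.σ) D.t3 + D.τ z (D.π (w1 D.σ) D.t3) - D.π (w2 D.σ) D.t3
      - D.τ z D.t3) ∈ K := by
    have h := Kπ γ γ0 γ4 _ h1
    rw [γP, map_sub (D.π γ), map_sub (D.π γ), map_add (D.π γ), e0, e1, e2, e3, ← map_add,
      ← map_sub, ← map_sub, Pτ l2 l20 _ ((FS D).sub_mem ((FS D).sub_mem ((FS D).add_mem F3'
        (Fτ k2 z0 F1)) F2) (Fτ k2 z0 F3))] at h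
    exact Kτ' l2 l20 _ h
  -- the operator `Y`
  let Y : Module.End ℚ M := (D.τ z - 1) * (D.τ z - 1)
  have Ye : ∀ m, Y m = D.τ z (D.τ z m - m) - (D.τ z m - m) := fun m => rfl
  have YF : ∀ m ∈ FS D, Y m ∈ FS D := by
    intro m hm
    have h := (FS D).sub_mem (Fτ k2 z0 hm) hm
    rw [Ye]
    exact (FS D).sub_mem (Fτ k2 z0 h) h
  have Yτ : ∀ l, D.ω (D.c 0) l = 0 → ∀ m ∈ FS D, Y (D.τ l m) = D.τ l (Y m) := by
    intro l hl m hm
    rw [Ye, Ye, cm k2 z0 hl hm, ← map_sub,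
      cm k2 z0 hl ((FS D).sub_mem (Fτ k2 z0 hm) hm), ← map_sub]
  have h3 : D.τ (D.c 2) (Y (D.π (w1 D.σ) D.t3) - Y D.t3) - (Y (D.π (w1 D.σ) D.t3) - Y D.t3) ∈ K := by
    have h := K.sub_mem h2 h1
    have e : D.τ (D.c 2) (Y (D.π (w1 D.σ) D.t3) - Y D.t3) - (Y (D.π (w1 D.σ) D.t3) - Y D.t3) =
        P (D.π (w3 D.σ) D.t3 + D.τ z (D.π (w1 D.σ) D.t3) - D.π (w2 D.σ) D.t3 - D.τ z D.t3) -
        P (D.π (w3 D.σ) D.t3 + D.π (w1 D.σ) D.t3 - D.π (w2 D.σ) D.t3 - D.t3) := by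
      simp only [Pe, Ye, map_sub, map_add]
      abel
    rw [e]
    exact h
  -- the reflection
  obtain ⟨v, hv⟩ : ∃ v, v = D.c 3 + D.c 4 + D.c 5 := ⟨_, rfl⟩
  have hρR : ∀ x, D.ρ (yy (sh D.σ) 2) x =
      x - (2 * D.ω (D.c 2) x) • v + (2 * D.ω v x) • D.c 2 := by
    intro x
    have hN : D.toSys.shift.N = D.N - 2 := rfl
    have h := D.toSys.shift.ρ_yy (by omega) (j := 2) (by omega) x
    rw [hv]
    exact h
  obtain ⟨R, hRe⟩ : ∃ R, R = yy (sh D.σ) 2 := ⟨_, rfl⟩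
  rw [← hRe] at hρR
  have v0 : D.ω (D.c 0) v = 0 := by rw [hv, map_add, map_add, w03, w04, w05]; simp
  have v0' : D.ω v (D.c 0) = 0 := by rw [sk, v0, neg_zero]
  have v1 : D.ω v (D.c 1) = 0 := by
    rw [hv]
    simp only [map_add, LinearMap.add_apply, wc, Nat.reduceLT, Nat.one_lt_ofNat]
    norm_num
  have v2 : D.ω v (D.c 2) = -1 := by
    rw [hv]
    simp only [map_add, LinearMap.add_apply, wc, Nat.reduceLT, Nat.one_lt_ofNat]
    norm_num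
  have v4 : D.ω v (D.c 4) = 0 := by
    rw [hv]
    simp only [map_add, LinearMap.add_apply, wc, Nat.reduceLT, Nat.one_lt_ofNat]
    norm_num
  have vz : D.ω v z = 0 := by
    rw [hv]
    simp only [map_add, LinearMap.add_apply, z3, z4, z5, add_zero]
  have R0 : D.ρ R (D.c 0) = D.c 0 := by rw [hρR, w20, v0']; simp
  have R1 : D.ρ R (D.c 1) = D.c 1 + (2 : ℤ) • v := by rw [hρR, w21, v1]; module
  have R2 : D.ρ R (D.c 2) = -D.c 2 := by rw [hρR, D.alt, v2]; module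
  have R4 : D.ρ R (D.c 4) = D.c 4 := by rw [hρR, w24, v4]; simp
  have Rz : D.ρ R z = z := by rw [hρR, z2, vz]; simp
  have n2 : D.ω (D.c 0) (-D.c 2) = 0 := by rw [map_neg, w02, neg_zero]
  have f0 : D.π R D.t3 = D.τ v D.t3 := by
    have h := k2.τ_t3 1 R v 0 v0 one0 R0 (by rw [R1, D.toSys.ρ_one]; module)
    rwa [map_one, Module.End.one_apply] at h
  have f1 : D.π R (D.π (w1 D.σ) D.t3) = D.τ v (D.τ (-D.c 2) (D.π (w1 D.σ) D.t3)) := by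
    rw [← π_mul, k2.τ_t3 (w1 D.σ) (R * w1 D.σ) (v + -D.c 2) 0 (by rw [map_add, v0, n2, add_zero])
      u10 (by rw [rm, u10, R0]) (by
      rw [rm, u11, map_add, map_add, map_smul, R1, R2, R4]; module),
      k2.τ_add _ _ v0 n2 _ ((mem_FS D _).1 F1)]
  have RY : ∀ m, D.π R (Y m) = Y (D.π R m) := by
    intro m
    simp only [Ye, map_sub, conj k2 R0 z0, Rz]
  have h4 : D.τ (-D.c 2) (D.τ (-D.c 2) (Y (D.π (w1 D.σ) D.t3)) - Y D.t3) -
      (D.τ (-D.c 2) (Y (D.π (w1 D.σ) D.t3)) - Y D.t3) ∈ K := by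
    have h := Kπ R R0 R4 _ h3
    rw [map_sub (D.π R), conj k2 R0 w02, R2, map_sub (D.π R), RY, RY, f0, f1,
      Yτ v v0 _ (Fτ k2 n2 F1), Yτ v v0 _ F3, Yτ _ n2 _ F1, ← map_sub (D.τ v),
      cm k2 n2 v0 ((FS D).sub_mem (Fτ k2 n2 (YF _ F1)) (YF _ F3)), ← map_sub (D.τ v)] at h
    exact Kτ' v v0 _ h
  have h5 := last K (D.τ (D.c 2)) (D.τ (-D.c 2)) _ _ (Kτ _ w02) (τ_inv' k2 w02) h3 h4
  have h6 : O _ = 0 := h5.2
  rw [← h6, sq, sq]
  rfl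

end S0

theorem rowS0 : OfS0 := fun _ hK2 hREL G H M _ _ _ _ D =>
  S0.main D (hK2 G H M D) (hREL G H M D)

end Pool.Agent.MP_00906f_gt.H91
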