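import Pool.Agent.MP_00906f_gt.H91.Spec

/-! First facts on modules over the symplectic Lie algebra. -/

namespace Pool.Agent.MP_00906f_gt.H91

open IsNilpotent hiding pow_succ
open Polynomial

namespace SP1

variable {E M : Type} [AddCommGroup E] [Module ℚ E] [AddCommGroup M] [Module ℚ M]

theorem nil_of_br [Module.Finite ℚ M] {h X : Module.End ℚ M} {k : ℚ} (hk : k ≠ 0)
    (hX : h * X - X * h = k • X) : IsNilpotent X := by
  by_contra hn
  have h1 : ∀ j : ℕ, h * X ^ j - X ^ j * h = ((j : ℚ) * k) • X ^ j := fun j => by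
    induction j with
    | zero => simp
    | succ j ih =>
      have : h * X ^ (j + 1) - X ^ (j + 1) * h =
          (h * X ^ j - X ^ j * h) * X + X ^ j * (h * X - X * h) := by
        simp only [pow_succ]; noncomm_ring
      rw [this, ih, hX, smul_mul_assoc, mul_smul_comm, ← pow_succ, ← add_smul]
      congr 1
      push_cast
      ring
  refine Set.infinite_of_injective_forall_mem (f := fun j : ℕ => (j : ℚ) * k)
    (fun i j hij => by simpa [hk] using hij) (fun j => ?_)
    (Module.End.finite_hasEigenvalue (LinearMap.mulLeft ℚ h - LinearMap.mulRight ℚ h))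
  exact Module.End.hasEigenvalue_of_hasEigenvector (x := X ^ j)
    ⟨Module.End.mem_eigenspace_iff.2 (h1 j), fun h0 => hn ⟨j, h0⟩⟩

theorem exp_conj {A : Type} [Ring A] [Algebra ℚ A] {X Y Y1 Y2 : A} (hX : IsNilpotent X)
    (h0 : X * Y - Y * X = Y1) (h1 : X * Y1 - Y1 * X = (2 : ℚ) • Y2) (h2 : X * Y2 - Y2 * X = 0) :
    exp X * Y = (Y + Y1 + Y2) * exp X := by
  obtain ⟨n, hn⟩ := hX
  set L := LinearMap.mulLeft ℚ X
  set R := LinearMap.mulRight ℚ X
  have hL : L ^ n = 0 := by simp [L, LinearMap.pow_mulLeft, hn]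
  have hR : R ^ n = 0 := by simp [R, LinearMap.pow_mulRight, hn]
  have hc : Commute L R := LinearMap.commute_mulLeft_right X X
  have hD : IsNilpotent (L - R) := hc.isNilpotent_sub ⟨n, hL⟩ ⟨n, hR⟩
  have h3 := exp_add_of_commute (hc.symm.sub_right (Commute.refl R)) ⟨n, hR⟩ hD
  have h4 : exp L Y = exp X * Y := by
    simp [exp_eq_sum hL, exp_eq_sum hn, L, LinearMap.pow_mulLeft, Finset.sum_mul]
  have h5 : ∀ Z, exp R Z = Z * exp X := fun Z => by
    simp [exp_eq_sum hR, exp_eq_sum hn, R, LinearMap.pow_mulRight, Finset.mul_sum]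
  have d0 : (L - R) Y = Y1 := h0
  have d1 : (L - R) Y1 = (2 : ℚ) • Y2 := h1
  have d2 : (L - R) Y2 = 0 := h2
  have h6 : exp (L - R) Y = Y + Y1 + Y2 := by
    have := exp_smul_eq_sum (m := Y) (k := 3) (a := L - R)
      (by simp only [pow_succ, pow_zero, one_mul, Module.End.smul_def, Module.End.mul_apply, d0,
        d1, map_smul, d2, smul_zero]) hD
    rw [← Module.End.smul_def, this]
    simp only [Finset.sum_range_succ, Finset.sum_range_zero, pow_succ, pow_zero, one_mul,
      Module.End.smul_def, Module.End.mul_apply, d0, d1, Module.End.one_apply, smul_smul]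
    norm_num [Nat.factorial]
  rw [← h4, ← h5, ← h6, ← Module.End.mul_apply, ← h3, add_sub_cancel]

theorem sl2 {h e f : Module.End ℚ M} (he : ∀ v, h (e v) = e (h v) + (2 : ℚ) • e v)
    (hf : ∀ v, h (f v) = f (h v) - (2 : ℚ) • f v) (hef : ∀ v, e (f v) = f (e v) - (4 : ℚ) • h v)
    (j : ℕ) : ∀ (v : M) (k : ℕ), (e ^ j) v = 0 → h v = (k : ℚ) • v → (f ^ k) v = 0 → v = 0 := by
  have hA : ∀ v (k : ℚ), h v = k • v → ∀ n : ℕ, h ((f ^ n) v) = (k - 2 * n) • (f ^ n) v :=
    fun v k hv n => by
      induction n with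
      | zero => simpa using hv
      | succ n ih =>
        rw [pow_succ', Module.End.mul_apply, hf, ih, map_smul]
        push_cast
        module
  have hB : ∀ v (k : ℚ), h v = k • v → ∀ n : ℕ, e ((f ^ (n + 1)) v) =
      (f ^ (n + 1)) (e v) - (4 * (n + 1) * (k - n)) • (f ^ n) v := fun v k hv n => by
    induction n with
    | zero => simp [hef, hv, smul_smul]
    | succ n ih =>
      rw [pow_succ' f (n + 1), Module.End.mul_apply, hef, ih, hA v k hv, map_sub, map_smul,
        Module.End.mul_apply, ← Module.End.mul_apply f (f ^ n), ← pow_succ']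
      push_cast
      module
  induction j with
  | zero => exact fun v k hv _ _ => hv
  | succ j ih =>
    intro v k h1 h2 h3
    have h4 : e v = 0 := by
      refine ih (e v) (k + 2) h1 (by rw [he, h2, map_smul]; push_cast; module) ?_
      have h5 := hB v k h2 k
      rw [pow_succ' f k, Module.End.mul_apply, h3, map_zero, map_zero, smul_zero, sub_zero,
        ← pow_succ'] at h5
      rw [pow_succ', Module.End.mul_apply, ← h5, map_zero]
    have h6 : ∀ n, n ≤ k → (f ^ n) v = 0 → v = 0 := fun n => by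
      induction n with
      | zero => exact fun _ hv => hv
      | succ n ih2 =>
        intro hn h7
        have h8 := hB v k h2 n
        rw [h7, h4, map_zero, map_zero, zero_sub, eq_comm, neg_eq_zero, smul_eq_zero] at h8
        refine ih2 (by omega) (h8.resolve_left ?_)
        have : (n : ℚ) < k := by exact_mod_cast hn
        have := sub_pos.2 this
        positivity
    exact h6 k le_rfl h3

theorem poly (X Y : Module.End ℚ M) (q : M) (n : ℕ) : ∀ φ : Module.Dual ℚ M, ∃ p : ℚ[X],
    (∀ s : ℚ, p.eval s = φ (((X + s • Y) ^ n) q)) ∧ (∀ k, n < k → p.coeff k = 0) ∧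
    p.coeff n = φ ((Y ^ n) q) ∧ p.coeff 0 = φ ((X ^ n) q) ∧
    ((∀ j, Y ((X ^ j) q) = (X ^ j) (Y q)) → p.coeff 1 = n * φ ((X ^ (n - 1)) (Y q))) := by
  induction n with
  | zero =>
    refine fun φ => ⟨C (φ q), by simp, fun k hk => ?_, by simp, by simp, by simp⟩
    exact coeff_C_of_ne_zero hk.ne'
  | succ n ih =>
    intro φ
    obtain ⟨p, a1, a2, a3, a4, a5⟩ := ih (φ ∘ₗ X)
    obtain ⟨r, b1, b2, b3, b4, b5⟩ := ih (φ ∘ₗ Y)
    refine ⟨p + Polynomial.X * r, fun s => ?_, fun k hk => ?_, ?_, ?_, fun hc => ?_⟩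
    · simp [a1, b1, pow_succ']
    · obtain ⟨k, rfl⟩ : ∃ j, k = j + 1 := ⟨k - 1, by omega⟩
      rw [coeff_add, coeff_X_mul, a2 _ (by omega), b2 _ (by omega), add_zero]
    · rw [coeff_add, coeff_X_mul, a2 _ (by omega), b3, zero_add, pow_succ']
      rfl
    · simp [a4, pow_succ']
    · rw [coeff_add, ← zero_add 1, coeff_X_mul, zero_add, a5 hc, b4, LinearMap.comp_apply,
        LinearMap.comp_apply, hc, Nat.add_sub_cancel]
      rcases n with _ | n
      · simp
      · rw [Nat.add_sub_cancel, ← Module.End.mul_apply, ← pow_succ']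
        push_cast
        ring

theorem poly_mem {X Y : Module.End ℚ M} {q : M} {n : ℕ} {U : Submodule ℚ M}
    (h : ∀ s : ℚ, ((X + s • Y) ^ n) q ∈ U) : (Y ^ n) q ∈ U ∧
      ((∀ j, Y ((X ^ j) q) = (X ^ j) (Y q)) → n ≠ 0 → (X ^ (n - 1)) (Y q) ∈ U) := by
  simp only [← Subspace.forall_mem_dualAnnihilator_apply_eq_zero_iff U] at h ⊢
  have h1 : ∀ φ ∈ U.dualAnnihilator, ∀ p : ℚ[X],
      (∀ s : ℚ, p.eval s = φ (((X + s • Y) ^ n) q)) → p = 0 := fun φ hφ p hp =>
    Polynomial.funext fun s => by rw [hp, h s φ hφ, eval_zero]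
  refine ⟨fun φ hφ => ?_, fun hc hn φ hφ => ?_⟩
  · obtain ⟨p, a1, -, a3, -⟩ := poly X Y q n φ
    rw [← a3, h1 φ hφ p a1, coeff_zero]
  · obtain ⟨p, a1, -, -, -, a5⟩ := poly X Y q n φ
    have := a5 hc
    rw [h1 φ hφ p a1, coeff_zero, eq_comm, mul_eq_zero] at this
    exact this.resolve_left (Nat.cast_ne_zero.2 hn)

variable (S : Sp E M)

theorem skew (x y : E) : S.ω x y = -S.ω y x := by
  have := S.alt (x + y)
  simp only [map_add, LinearMap.add_apply, S.alt] at this
  linarith

theorem br' (a b c d : E) : S.B a b * S.B c d - S.B c d * S.B a b =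
    S.B (S.act a b c) d + S.B c (S.act a b d) := by
  rw [S.br]
  simp only [Sp.act, map_add, map_smul, LinearMap.add_apply, LinearMap.smul_apply]
  abel

theorem brv (a b c d : E) (v : M) : S.B a b (S.B c d v) = S.B c d (S.B a b v) +
    (S.ω c a • S.B b d v + S.ω c b • S.B a d v + S.ω d a • S.B c b v + S.ω d b • S.B c a v) := by
  have := LinearMap.congr_fun (S.br a b c d) v
  simp only [LinearMap.sub_apply, Module.End.mul_apply, LinearMap.add_apply,
    LinearMap.smul_apply] at this
  rw [← this]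
  abel

theorem nil (a b : E) (hab : S.ω a b = 0) : IsNilpotent (S.B a b) := by
  have := S.fin
  by_cases ha : a = 0
  · simp [ha]
  obtain ⟨z, hz⟩ := S.nd a ha
  have hba : S.ω b a = 0 := by rw [skew, hab, neg_zero]
  have h1 : S.B a b = S.B a (b - S.ω b z • a) + S.ω b z • S.B a a := by simp
  rw [h1]
  refine Commute.isNilpotent_add (Commute.smul_right (sub_eq_zero.1 ?_) _)
    (nil_of_br (h := S.B a z) one_ne_zero ?_)
    (IsNilpotent.smul (nil_of_br (h := S.B a z) two_ne_zero ?_) _)
  · rw [S.br]; simp [S.alt, hab]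
  · rw [S.br]; simp [S.alt, hba, hz]
  · rw [S.br]; simp [S.alt, hz, two_smul]

theorem expc (a b : E) (hab : S.ω a b = 0) (s : ℚ) (x y : E) : exp (s • S.B a b) * S.B x y =
    S.B (x + s • S.act a b x) (y + s • S.act a b y) * exp (s • S.B a b) := by
  have hba : S.ω b a = 0 := by rw [skew, hab, neg_zero]
  have hA : ∀ z, S.act a b (S.act a b z) = 0 := fun z => by
    simp [Sp.act, S.alt, hab, hba]
  have h1 : ∀ c d, s • S.B a b * S.B c d - S.B c d * s • S.B a b =
      s • (S.B (S.act a b c) d + S.B c (S.act a b d)) := fun c d => by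
    rw [← br', smul_mul_assoc, mul_smul_comm, smul_sub]
  rw [exp_conj ((nil S a b hab).smul s) (h1 x y)
    (Y2 := (s * s) • S.B (S.act a b x) (S.act a b y)) ?_ ?_]
  · congr 1
    simp only [map_add, map_smul, LinearMap.add_apply, LinearMap.smul_apply]
    module
  · have h2 := h1 (S.act a b x) y
    have h3 := h1 x (S.act a b y)
    simp only [hA, map_zero, LinearMap.zero_apply, zero_add, add_zero] at h2 h3
    rw [mul_smul_comm, smul_mul_assoc _ _ (s • S.B a b), ← smul_sub, mul_add, add_mul,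
      add_sub_add_comm, h2, h3]
    module
  · rw [mul_smul_comm, smul_mul_assoc _ _ (s • S.B a b), ← smul_sub, h1]
    simp [hA]

theorem P_cons (x a : E) (l : List E) (m : M) : S.P x (a :: l) m = S.B x a (S.P x l m) := by
  simp [Sp.P]

theorem xx (x : E) (l : List E) (hl : ∀ ξ ∈ l, S.ω x ξ = 0) :
    S.B x x * S.P x l = S.P x l * S.B x x := by
  refine Commute.list_prod_right _ _ fun Y hY => ?_
  obtain ⟨ξ, hξ, rfl⟩ := List.mem_map.1 hY
  refine sub_eq_zero.1 ?_
  rw [S.br, skew S ξ x, hl ξ hξ]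
  simp [S.alt]

theorem xx0 {x : E} {m : M} (hm : S.B x x m = 0) {l : List E} (hl : ∀ ξ ∈ l, S.ω x ξ = 0) :
    S.B x x (S.P x l m) = 0 := by
  rw [← Module.End.mul_apply, xx S x l hl, Module.End.mul_apply, hm, map_zero]

theorem sw {x a b : E} {m : M} (hm : S.B x x m = 0) (ha : S.ω x a = 0) (hb : S.ω x b = 0) :
    S.B x a (S.B x b m) = S.B x b (S.B x a m) := by
  rw [brv, skew S b x]
  simp [S.alt, ha, hb, hm]

theorem mv {x a : E} {m : M} (hm : S.B x x m = 0) (ha : S.ω x a = 0) {l : List E}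
    (hl : ∀ ξ ∈ l, S.ω x ξ = 0) : S.B x a (S.P x l m) = S.P x l (S.B x a m) := by
  induction l with
  | nil => rfl
  | cons b l ih =>
    have h1 := fun ξ h => hl ξ (List.mem_cons_of_mem _ h)
    rw [P_cons, P_cons, sw S (xx0 S hm h1) ha (hl b List.mem_cons_self), ih h1]

theorem P_rep (x w : E) (d : ℕ) : S.P x (List.replicate d w) = S.B x w ^ d := by
  simp [Sp.P]

theorem top (U : Submodule ℚ M) (d : ℕ) (x y : E) (m : M) (hU : S.DegOn U d) (hxy : S.ω x y = 1)
    (hm : S.B x y m = 0) (hmU : ∀ a b, S.B a b m ∈ U) (l : List E) (hd : d + 1 ≤ l.length)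
    (hl : ∀ ξ ∈ l, S.ω x ξ = 0) : S.P x l m = 0 := by
  have hyx : S.ω y x = -1 := by rw [skew, hxy]
  have he : ∀ v, S.B x y (S.B x x v) = S.B x x (S.B x y v) + (2 : ℚ) • S.B x x v := fun v => by
    rw [brv]; simp [S.alt, hxy, two_smul]
  have hf : ∀ v, S.B x y (S.B y y v) = S.B y y (S.B x y v) - (2 : ℚ) • S.B y y v := fun v => by
    rw [brv]; simp only [S.alt, hyx]; module
  have hef : ∀ v, S.B x x (S.B y y v) = S.B y y (S.B x x v) - (4 : ℚ) • S.B x y v := fun v => by
    rw [brv, S.symm y x]; simp only [hyx]; module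
  let G : ℕ → Set M := fun k =>
    {v | (∀ a b, S.B a b v ∈ U) ∧ ∃ j : ℕ, k ≤ j ∧ S.B x y v = (j : ℚ) • v}
  have h1 : S.P x l m ∈ Submodule.span ℚ (G l.length) := by
    clear hd
    induction l with
    | nil => exact Submodule.subset_span ⟨hmU, 0, le_rfl, by simpa [Sp.P] using hm⟩
    | cons a l ih =>
      rw [P_cons]
      refine (Submodule.span_le (p := (Submodule.span ℚ (G (a :: l).length)).comap (S.B x a))).2
        ?_ (ih fun ξ h => hl ξ (List.mem_cons_of_mem _ h))
      rintro v ⟨hv, j, hj, h2⟩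
      have ha := hl a List.mem_cons_self
      have h3 : S.B x a v = S.B x (a - S.ω a y • x) v + S.ω a y • S.B x x v := by simp
      change S.B x a v ∈ Submodule.span ℚ _
      rw [h3]
      refine add_mem (Submodule.subset_span ⟨fun _ _ => hU.1 _ _ _ (hv _ _), j + 1,
        by simpa using hj, ?_⟩) (Submodule.smul_mem _ _ (Submodule.subset_span
          ⟨fun _ _ => hU.1 _ _ _ (hv _ _), j + 2, by simp; omega, ?_⟩))
      · have h4 : S.ω (a - S.ω a y • x) x = 0 := by simp [S.alt, skew S a x, ha]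
        have h5 : S.ω (a - S.ω a y • x) y = 0 := by simp [hxy]
        rw [brv, h4, h5, S.alt, hxy, h2, map_smul]
        push_cast
        module
      · rw [he, h2, map_smul]
        push_cast
        module
  refine (Submodule.mem_bot ℚ).1 (Submodule.span_le.2 ?_ h1)
  rintro v ⟨hv, j, hj, h2⟩
  obtain ⟨n, hn⟩ := nil S x x (S.alt x)
  refine sl2 he hf hef n v j (by simp [hn]) h2 ?_
  obtain ⟨i, rfl⟩ : ∃ i, j = i + (d + 1) := ⟨j - (d + 1), by omega⟩
  have h3 : v ∈ U := (U.smul_mem_iff (Nat.cast_ne_zero.2 (by omega))).1 (h2 ▸ hv x y)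
  rw [pow_add, Module.End.mul_apply, hU.2 y v h3, map_zero]

end SP1

open SP1 in
theorem rowSP1 : OfSP1 := by
  intro _ E M _ _ _ _ S
  refine ⟨nil S, expc S, top S, xx S, fun x m l l' hm hl hp => ?_, fun x m l hm hl h => ?_,
    fun ι x m l f f' hm hl => ?_, fun u f hu x l => ?_, fun x q U W d hq hW h l hd hl => ?_,
    fun x q U w w' d _ _ _ h => ?_, fun U m h a b => ?_⟩
  · induction hp with
    | nil => rfl
    | cons a _ ih => rw [P_cons, P_cons, ih fun ξ h => hl ξ (List.mem_cons_of_mem _ h)]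
    | swap a b l =>
      simp only [P_cons]
      exact sw S (xx0 S hm fun ξ h => hl ξ (by simp [h])) (hl _ (by simp)) (hl _ (by simp))
    | trans h1 _ ih1 ih2 => rw [ih1 hl, ih2 fun ξ h => hl ξ (h1.mem_iff.2 h)]
  · obtain ⟨ξ, h1, h2⟩ := h
    induction l with
    | nil => simp at h1
    | cons a l ih =>
      have h3 := fun ξ h => hl ξ (List.mem_cons_of_mem _ h)
      rw [P_cons]
      rcases List.mem_cons.1 h1 with rfl | h1
      · rw [mv S hm (hl _ h1) h3, h2, map_zero]
      · rw [ih h3 h1, map_zero]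
  · induction l with
    | nil => rfl
    | cons i l ih =>
      obtain ⟨h1, h2, h3⟩ := hl i List.mem_cons_self
      have h4 := fun j h => hl j (List.mem_cons_of_mem _ h)
      have h5 := mv S hm (a := f i - f' i) (by simp [h1, h2]) (l := l.map f')
        fun ξ h => by obtain ⟨j, hj, rfl⟩ := List.mem_map.1 h; exact (h4 j hj).2.1
      rw [h3, map_zero, map_sub, LinearMap.sub_apply, sub_eq_zero] at h5
      rw [List.map_cons, List.map_cons, P_cons, P_cons, ih h4, h5]
  · induction l with
    | nil => simp [Sp.P]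
    | cons a l ih =>
      simp only [Sp.P, List.map_cons, List.prod_cons] at ih ⊢
      rw [← mul_assoc, hu, mul_assoc, ih, mul_assoc]
  · have key : ∀ l : List E, (∀ ξ ∈ l, ξ ∈ W) → ∀ k, k + l.length = d → ∀ w ∈ W,
        (S.B x w ^ k) (S.P x l q) ∈ U := fun l => by
      induction l with
      | nil => exact fun _ k hk w hw => by simpa [Sp.P, ← hk] using h w hw
      | cons a l ih =>
        intro hl k hk w hw
        have h1 := fun ξ h => hl ξ (List.mem_cons_of_mem _ h)
        have ha := hl a List.mem_cons_self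
        refine (poly_mem (X := S.B x w) (Y := S.B x a) (q := S.P x l q) (n := k + 1)
          fun s => ?_).2 (fun j => ?_) k.succ_ne_zero
        · simpa using ih h1 (k + 1) (by simp at hk; omega) _ (W.add_mem hw (W.smul_mem s ha))
        · rw [← P_rep]
          exact mv S (xx0 S hq fun ξ h => hW ξ (h1 ξ h)) (hW a ha)
            fun ξ h => List.eq_of_mem_replicate h ▸ hW w hw
    simpa using key l hl 0 (by simpa using hd) 0 W.zero_mem
  · exact (poly_mem (X := S.B x w) fun s => by simpa using h s).1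
  · have h1 : ∀ x, S.B x x m ∈ U := fun x => by
      by_cases hx : x = 0
      · simp [hx]
      obtain ⟨y, hy⟩ := S.nd x hx
      refine (U.smul_mem_iff (two_ne_zero (α := ℚ))).1 ?_
      have h2 := U.sub_mem (h x y x x) (h x x x y)
      rw [brv] at h2
      simpa [S.alt, hy, two_smul] using h2
    refine (U.smul_mem_iff (two_ne_zero (α := ℚ))).1 ?_
    have h2 := U.sub_mem (U.sub_mem (h1 (a + b)) (h1 a)) (h1 b)
    simp only [map_add, LinearMap.add_apply, S.symm b a] at h2
    convert h2 using 1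
    module

end Pool.Agent.MP_00906f_gt.H91
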