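import Pool.Agent.MP_00906f_gt.H91.Spec

/-! Transitivity arguments for modules over the symplectic Lie algebra. -/

namespace Pool.Agent.MP_00906f_gt.H91

open IsNilpotent

namespace SP2

variable {E M : Type} [AddCommGroup E] [Module ℚ E] [AddCommGroup M] [Module ℚ M] {S : Sp E M}

theorem skew (S : Sp E M) (x y : E) : S.ω x y = -S.ω y x := by
  have h := S.alt (x + y)
  simp only [map_add, LinearMap.add_apply, S.alt] at h
  linarith

theorem pow_add_kill {A N : Module.End ℚ M} (h : A * N = N * A) {q : M} (hq : N q = 0) (d : ℕ) :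
    ((A + N) ^ d) q = (A ^ d) q := by
  induction d with
  | zero => simp
  | succ d ih =>
    have h1 : N * A ^ d = A ^ d * N := ((Commute.pow_left h d).eq).symm
    rw [pow_succ', Module.End.mul_apply, ih, LinearMap.add_apply, ← Module.End.mul_apply N, h1,
      Module.End.mul_apply, hq, map_zero, add_zero, pow_succ', Module.End.mul_apply]

theorem conj_pow {u X Y : Module.End ℚ M} (h : u * X = Y * u) (d : ℕ) :
    u * X ^ d = Y ^ d * u := by
  induction d with
  | zero => simp
  | succ d ih => rw [_root_.pow_succ, ← mul_assoc, ih, mul_assoc, h, _root_.pow_succ, mul_assoc]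

theorem exp_mem (hL : Log) (h1 : Sp1 S) {U : Submodule ℚ M} (hU : S.Stab U) (s : ℚ) (a : E)
    {m : M} (hm : m ∈ U) : exp (s • S.B a a) m ∈ U := by
  have h : ∀ x ∈ U, (s • S.B a a) x ∈ U := fun x hx => U.smul_mem s (hU a a x hx)
  have := U.add_mem (hL.sub' M _ U m ((h1.nil a a (S.alt a)).smul s) h (h m hm)) hm
  rwa [sub_add_cancel] at this

theorem reach {w w' : E} (h : S.ω w w' ≠ 0) :
    w + (1 / (2 * S.ω w w')) • S.act (w' - w) (w' - w) w = w' := by
  rw [Sp.act, map_sub, S.alt, sub_zero, ← add_smul, smul_smul,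
    show 1 / (2 * S.ω w w') * (S.ω w w' + S.ω w w') = 1 by field_simp; ring, one_smul]
  abel

theorem move (hL : Log) (h1 : Sp1 S) {U : Submodule ℚ M} (hU : S.Stab U) {q : M} {z w w' : E}
    {d : ℕ} (ha : S.B (w' - w) (w' - w) q = 0) (hz : S.ω z (w' - w) = 0) (h : S.ω w w' ≠ 0)
    (hq : (S.B z w ^ d) q ∈ U) : (S.B z w' ^ d) q ∈ U := by
  have e := conj_pow (h1.expc (w' - w) (w' - w) (S.alt _) (1 / (2 * S.ω w w')) z w) d
  rw [reach h, Sp.act, hz, zero_smul, add_zero, smul_zero, add_zero] at e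
  have f : exp ((1 / (2 * S.ω w w')) • S.B (w' - w) (w' - w)) q = q :=
    (hL.fix M _ q ((h1.nil _ _ (S.alt _)).smul _)).2 (by rw [LinearMap.smul_apply, ha, smul_zero])
  rw [← f, ← Module.End.mul_apply, ← e, Module.End.mul_apply]
  exact exp_mem hL h1 hU _ _ hq

theorem P_rep (x ξ : E) (d : ℕ) :
    S.P x ((List.replicate d ()).map fun _ => ξ) = S.B x ξ ^ d := by
  simp [Sp.P]

theorem irr (hL : Log) (h1 : Sp1 S) (x y : E) (q : M) (U : Submodule ℚ M) (w : E) (d : ℕ)
    (hxy : S.ω x y = 1) (hq : S.Sph x y q) (hU : S.Stab U) (hw : w ≠ 0) (wx : S.ω x w = 0)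
    (wy : S.ω y w = 0) (h : (S.B x w ^ d) q ∈ U) :
    (∀ l : List E, l.length = d → (∀ ξ ∈ l, S.ω x ξ = 0) → S.P x l q ∈ U) ∧
      ∀ v, (S.B v v ^ d) q ∈ U := by
  obtain ⟨qx, qxy, qy, qw⟩ := hq
  have hyx : S.ω y x = -1 := by rw [skew S y x, hxy]
  have A : ∀ w', S.ω x w' = 0 → S.ω y w' = 0 → S.ω w w' ≠ 0 → (S.B x w' ^ d) q ∈ U := by
    intro w' a b c
    have a' : S.ω x (w' - w) = 0 := by rw [map_sub, a, wx, sub_zero]
    have b' : S.ω y (w' - w) = 0 := by rw [map_sub, b, wy, sub_zero]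
    exact move hL h1 hU (qw _ _ a' b' a' b') a' c h
  have B : ∀ w', S.ω x w' = 0 → S.ω y w' = 0 → (S.B x w' ^ d) q ∈ U := by
    intro w' a b
    by_cases c : S.ω w w' = 0
    · obtain ⟨z, hz⟩ := S.nd w hw
      have zx : S.ω x (z + S.ω y z • x - S.ω x z • y) = 0 := by simp [S.alt, hxy]
      refine h1.lim x q U (z + S.ω y z • x - S.ω x z • y) w' d qx zx a fun s => A _ ?_ ?_ ?_
      · rw [map_add, zx, map_smul, a, smul_zero, add_zero]
      · simp [S.alt, hyx, b]
      · simp [skew S w x, skew S w y, wx, wy, c, hz]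
    · exact A w' a b c
  refine ⟨fun l hl hξ => h1.pol x q U (LinearMap.ker (S.ω x)) d qx (fun _ h => h)
    (fun ξ hξ => ?_) l hl hξ, fun v => ?_⟩
  · have a : S.ω x ξ = 0 := hξ
    have a' : S.ω x (ξ + S.ω y ξ • x) = 0 := by simp [S.alt, a]
    rw [← P_rep, h1.congr Unit x q _ (fun _ => ξ) (fun _ => ξ + S.ω y ξ • x) qx
      fun _ _ => ⟨a, a', by simp [qx]⟩, P_rep]
    exact B _ a' (by simp [hyx])
  · obtain ⟨α, β, w', a, b, rfl⟩ : ∃ (α β : ℚ) (w' : E), S.ω x w' = 0 ∧ S.ω y w' = 0 ∧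
        v = α • x + β • y + w' :=
      ⟨-S.ω y v, S.ω x v, v + S.ω y v • x - S.ω x v • y, by simp [S.alt, hxy],
        by simp [S.alt, hyx], by module⟩
    have pl : ∀ α β : ℚ, S.B (α • x + β • y) (α • x + β • y) q = 0 := fun α β => by
      simp [qx, qxy, qy, S.symm y x]
    have pw : ∀ α β : ℚ, S.ω w' (α • x + β • y) = 0 := fun α β => by
      simp [skew S w' x, skew S w' y, a, b]
    have R : (S.B w' (α • x + β • y) ^ d) q ∈ U := by
      by_cases c : β = 0
      · rw [c, zero_smul, add_zero, map_smul, S.symm w' x, ← map_smul]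
        exact B _ (by simp [a]) (by simp [b])
      · have e : α • x + β • y - x = (α - 1) • x + β • y := by module
        refine move hL h1 hU (w := x) (by rw [e]; exact pl _ _) (by rw [e]; exact pw _ _)
          (by simpa [S.alt, hxy] using c) ?_
        rw [S.symm w' x]
        exact B _ a b
    have u0 := pl α β
    have u1 := pw α β
    generalize α • x + β • y = u at R u0 u1
    have u2 : S.ω u w' = 0 := by rw [skew S u w', u1, neg_zero]
    have e : S.B (u + w') (u + w') = (2 : ℚ) • S.B w' u + (S.B u u + S.B w' w') := by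
      simp only [map_add, LinearMap.add_apply, S.symm u w']
      module
    have c1 := S.br w' u u u
    have c2 := S.br w' u w' w'
    simp only [S.alt, u1, u2, zero_smul, add_zero, sub_eq_zero] at c1 c2
    rw [e, pow_add_kill (by rw [mul_add, add_mul, smul_mul_assoc, smul_mul_assoc, c1, c2,
        mul_smul_comm, mul_smul_comm])
      (by rw [LinearMap.add_apply, u0, qw _ _ a b a b, add_zero]), smul_pow, LinearMap.smul_apply]
    exact U.smul_mem _ R

theorem deg_move (hL : Log) (h1 : Sp1 S) {U : Submodule ℚ M} (hU : S.Stab U) {x v : E} {d : ℕ}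
    (h : S.ω x v ≠ 0) (hx : ∀ m ∈ U, (S.B x x ^ d) m = 0) : ∀ m ∈ U, (S.B v v ^ d) m = 0 := by
  intro m hm
  have e := conj_pow (h1.expc (v - x) (v - x) (S.alt _) (1 / (2 * S.ω x v)) x x) d
  rw [reach h] at e
  have n := (h1.nil (v - x) (v - x) (S.alt _)).smul (1 / (2 * S.ω x v))
  have hm' := exp_mem hL h1 hU (-(1 / (2 * S.ω x v))) (v - x) hm
  rw [neg_smul] at hm'
  have := congrArg (fun f : Module.End ℚ M =>
    f (exp (-((1 / (2 * S.ω x v)) • S.B (v - x) (v - x))) m)) e
  simp only [Module.End.mul_apply] at this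
  rw [hx _ hm', map_zero, ← Module.End.mul_apply (exp _) (exp _), exp_mul_exp_neg_self n] at this
  exact this.symm

end SP2

open SP2 in
theorem rowSP2 : OfSP2 := by
  intro hL h1 E M _ _ _ _ S
  have h1 : Sp1 S := h1 E M S
  refine ⟨irr hL h1, fun x y q w hxy hq hw wx wy h a b => ?_, fun U x d hU hx h => ⟨hU, fun v => ?_⟩⟩
  · have hv : ∀ v, S.B v v q = 0 := fun v => by
      simpa using (irr hL h1 x y q ⊥ w 1 hxy hq (fun _ _ m hm => by simp [(Submodule.mem_bot ℚ).1 hm])
        hw wx wy (by simpa using h)).2 v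
    have := hv (a + b)
    simp only [map_add, LinearMap.add_apply, hv, S.symm b a, zero_add, add_zero] at this
    rw [← two_smul ℚ] at this
    simpa using this
  · by_cases hv : v = 0
    · intro m _
      simp [hv]
    · obtain ⟨z, hz⟩ := S.nd x hx
      obtain ⟨z', hz'⟩ := S.nd v hv
      have key : ∀ t, S.ω x t ≠ 0 → S.ω v t ≠ 0 → ∀ m ∈ U, (S.B v v ^ (d + 1)) m = 0 :=
        fun t a b => deg_move hL h1 hU (by rw [skew S t v]; exact neg_ne_zero.2 b)
          (deg_move hL h1 hU a h)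
      by_cases a : S.ω v z = 0
      · by_cases b : S.ω x z' = 0
        · exact key (z + z') (by simp [hz, b]) (by simp [hz', a])
        · exact key z' b (by simp [hz'])
      · exact key z (by simp [hz]) a

end Pool.Agent.MP_00906f_gt.H91
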