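import Pool.Agent.MP_00906f_gt.H91.Spec

/-! The top vectors of degree at least two are fixed by the part commuting with the Lie algebra. -/

namespace Pool.Agent.MP_00906f_gt.H91

open H46

namespace T2a

variable {G H M E : Type} [Group G] [AddCommGroup H] [AddCommGroup M] [Module ℚ M]
  [AddCommGroup E] [Module ℚ E]

theorem step {D X Y : Module.End ℚ M} (h1 : D * X = X * D + Y) (h3 : X * Y = Y * X) {v : M}
    (hv : D v = 0) (n : ℕ) : D ((X ^ (n + 1)) v) = (n + 1 : ℚ) • (X ^ n) (Y v) := by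
  have e : ∀ w, D (X w) = X (D w) + Y w := fun w => LinearMap.congr_fun h1 w
  induction n with
  | zero => simp [e, hv]
  | succ n ih =>
    have e2 : Y ((X ^ (n + 1)) v) = (X ^ (n + 1)) (Y v) :=
      LinearMap.congr_fun (Commute.pow_right (show Commute Y X from h3.symm) (n + 1)).eq v
    rw [pow_succ' X (n + 1), Module.End.mul_apply, e, ih, map_smul, e2, pow_succ' X n,
      Module.End.mul_apply]
    push_cast
    module

theorem power {D X Y : Module.End ℚ M} (h1 : D * X = X * D + Y) (h2 : D * Y = Y * D)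
    (h3 : X * Y = Y * X) (n : ℕ) : ∀ v, D v = 0 →
      (D ^ n) ((X ^ n) v) = (n.factorial : ℚ) • (Y ^ n) v := by
  induction n with
  | zero => simp
  | succ n ih =>
    intro v hv
    have e : D (Y v) = 0 := (LinearMap.congr_fun h2 v).trans (by simp [hv])
    rw [pow_succ D, Module.End.mul_apply, step h1 h3 hv, map_smul, ih _ e, smul_smul, pow_succ Y,
      Module.End.mul_apply, Nat.factorial_succ]
    push_cast
    rfl

theorem P_cons (S : Sp E M) (x a : E) (l : List E) : S.P x (a :: l) = S.B x a * S.P x l := by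
  simp [Sp.P]

theorem P_rep (S : Sp E M) (x a : E) (n : ℕ) : S.P x (List.replicate n a) = S.B x a ^ n := by
  simp [Sp.P]

variable {D : Dat G H M} {L : Lie D E}

theorem ς_P (T : Th L) (g : G) (x : E) (l : List E) (m : M) :
    T.ς g (L.toSp.P x l m) = L.toSp.P x l (T.ς g m) := by
  induction l with
  | nil => simp [Sp.P]
  | cons a l ih =>
    rw [P_cons, Module.End.mul_apply, Module.End.mul_apply, ← ih]
    exact LinearMap.congr_fun (T.ς_B g x a) _

theorem ς_kill (T : Th L) (g : G) {a b : E} {m : M} (h : L.B a b m = 0) :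
    L.B a b (T.ς g m) = 0 :=
  (LinearMap.congr_fun (T.ς_B g a b) m).symm.trans (by simp [h])

theorem alpha (S1 : Sp1 L.toSp) (K : Kit3 L) (l : List E) (hl : ∀ ξ ∈ l, L.ω (L.c 0) ξ = 0)
    (h : G) (h0 : L.ρ h (L.c 0) = L.c 0) (i : ℕ) (hi : i < 4) (hm : L.ρ h (L.c i) ∈ l) :
    L.toSp.P (L.c 0) l (D.π h D.t5) = 0 := by
  have key : ∀ a < 4, L.B (L.c 0) (L.ρ h (L.c a)) (D.π h D.t5) = 0 := fun a ha => by
    have := LinearMap.congr_fun (L.eqv h (L.c 0) (L.c a)) D.t5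
    rw [Module.End.mul_apply, Module.End.mul_apply, h0, K.in5 _
      (Submodule.subset_span ⟨0, by simp, rfl⟩) _ (Submodule.subset_span ⟨a, ha, rfl⟩),
      map_zero] at this
    exact this.symm
  exact S1.kill _ _ l (by simpa only [h0] using key 0 (by norm_num)) hl ⟨_, hm, key i hi⟩

theorem main (S1 : Sp1 L.toSp) (S2 : Sp2 L.toSp) (K : Kit3 L) (T : Th L) (R : TR T) (n : ℕ)
    (hd : L.Deg (n + 2)) (l : List E) (hl : l.length = n + 2) (hl' : ∀ ξ ∈ l, L.ω (L.c 0) ξ = 0) :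
    T.ς (D.σ 2 * D.σ 3 * D.σ 4 * g0 D.σ) (L.F l) = T.ς (D.σ 3 * D.σ 4 * g0 D.σ) (L.F l) := by
  have h8 := D.h8
  have w : ∀ i j, i < 8 → j < 8 →
      L.ω (L.c i) (L.c j) = (if j = i + 1 then 1 else 0) - (if i = j + 1 then 1 else 0) :=
    fun i j hi hj => K.ωc i j (by omega) (by omega)
  have r2 := K.ρσ 2 (by omega)
  have r3 := K.ρσ 3 (by omega)
  have r4 := K.ρσ 4 (by omega)
  have e := R (n + 2) hd (by omega) ((1, 0, 0) :: (0, 0, 1) :: List.replicate n (1, 0, 0)) (by simp)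
  have v0 : ((1, 0, 0) :: (0, 0, 1) :: List.replicate n (1, 0, 0)).map L.vec =
      L.c 2 :: L.c 4 :: List.replicate n (L.c 2) := by simp [Lie.vec]
  have v1 : ((1, 0, 0) :: (0, 0, 1) :: List.replicate n (1, 0, 0)).map L.p0 =
      -L.c 4 :: L.c 4 :: List.replicate n (-L.c 4) := by simp [Lie.vec, Lie.p0]
  have v2 : ((1, 0, 0) :: (0, 0, 1) :: List.replicate n (1, 0, 0)).map L.p1 =
      -L.c 4 :: L.c 4 :: List.replicate n (-L.c 4) := by simp [Lie.vec, Lie.p1]
  have v3 : ((1, 0, 0) :: (0, 0, 1) :: List.replicate n (1, 0, 0)).map L.p2 =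
      L.c 2 :: -L.c 2 :: List.replicate n (L.c 2) := by simp [Lie.vec, Lie.p2]
  have v4 : ((1, 0, 0) :: (0, 0, 1) :: List.replicate n (1, 0, 0)).map L.p3 =
      L.c 2 :: -L.c 2 :: List.replicate n (L.c 2) := by simp [Lie.vec, Lie.p3]
  have hv : ∀ ξ ∈ L.c 2 :: L.c 4 :: List.replicate n (L.c 2), L.ω (L.c 0) ξ = 0 := by
    simp [w]
  have a0 := alpha S1 K _ hv (D.σ 2 * D.σ 3 * D.σ 4) (by simp [r2, r3, r4, w]) 3 (by norm_num)
    (by simp [r2, r3, r4, w])
  have a1 := alpha S1 K _ hv (D.σ 3 * D.σ 4) (by simp [r3, r4, w]) 3 (by norm_num)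
    (by simp [r3, r4, w])
  have a2 := alpha S1 K _ hv (D.σ 4) (by simp [r4, w]) 2 (by norm_num) (by simp [r4, w])
  have a3 := alpha S1 K _ hv 1 (by simp) 2 (by norm_num) (by simp)
  rw [map_one, Module.End.one_apply] at a3
  rw [v0, v1, v2, v3, v4, map_sub, map_add, map_sub, a0, a1, a2, a3] at e
  obtain ⟨s1, s2, s3, s4⟩ := K.sph3
  have d0 : L.B (L.c 0 + L.c 2) (L.c 5) D.t3 = 0 := s4 _ _ (by simp [w]) (by simp [w])
    (by simp [w]) (by simp [w])
  have b1 := L.br (L.c 0 + L.c 2) (L.c 5) (L.c 0) (L.c 4)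
  have b2 := L.br (L.c 0 + L.c 2) (L.c 5) (L.c 0) (L.c 0 + L.c 2)
  have b3 := L.br (L.c 0) (L.c 4) (L.c 0) (L.c 0 + L.c 2)
  have b4 := L.br (L.c 0 + L.c 2) (L.c 5) (L.c 0) (L.c 2)
  have o1 : ∀ i, i < 8 → L.ω (L.c i) (L.c 0 + L.c 2) =
      L.ω (L.c i) (L.c 0) + L.ω (L.c i) (L.c 2) := fun i _ => map_add _ _ _
  have o2 : ∀ x, L.ω (L.c 0 + L.c 2) x = L.ω (L.c 0) x + L.ω (L.c 2) x := fun x => by simp
  have irr := fun q hq h => (S2.irr (L.c 0) (L.c 1) q ⊥ (L.c 0 + L.c 2) (n + 2) (by simp [w]) hq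
    (fun a b m hm => by simp [(Submodule.mem_bot ℚ).1 hm])
    (fun h => by simpa [w] using congrArg (L.ω (L.c 3)) h) (by simp [w]) (by simp [w]) h).1 l hl hl'
  rw [L.alt] at b2
  simp only [o1, o2, w, Nat.reduceLT, Nat.reduceAdd, Nat.reduceEqDiff, if_true, if_false, sub_zero,
    add_zero, zero_smul, one_smul, zero_add, sub_self, sub_eq_zero] at b1 b2 b3 b4
  have hq : L.toSp.Sph (L.c 0) (L.c 1) (T.ς (D.σ 2 * D.σ 3 * D.σ 4 * g0 D.σ) D.t3 -
      T.ς (D.σ 3 * D.σ 4 * g0 D.σ) D.t3) :=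
    ⟨by rw [map_sub, ς_kill T _ s1, ς_kill T _ s1, sub_self],
      by rw [map_sub, ς_kill T _ s2, ς_kill T _ s2, sub_self],
      by rw [map_sub, ς_kill T _ s3, ς_kill T _ s3, sub_self], fun a b h1 h2 h3 h4 => by
        rw [map_sub, ς_kill T _ (s4 a b h1 h2 h3 h4), ς_kill T _ (s4 a b h1 h2 h3 h4), sub_self]⟩
  have dk := fun g => ς_kill T g d0
  simp only [Lie.F, ς_P] at e ⊢
  simp only [P_cons, P_rep] at e
  rw [← sub_eq_zero, ← map_sub, ← Submodule.mem_bot ℚ]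
  refine irr _ hq ?_
  rw [Submodule.mem_bot]
  generalize L.B (L.c 0 + L.c 2) (L.c 5) = A at b1 b2 b4 d0 dk
  rw [map_neg, map_neg] at e
  generalize L.B (L.c 0) (L.c 0 + L.c 2) = Y at b1 b2 b3
  generalize L.B (L.c 0) (L.c 4) = X at b1 b3 e
  generalize L.B (L.c 0) (L.c 2) = Z at b4 e
  have b1' : A * X = X * A + Y := by rw [← b1]; abel
  have z1 : ∀ v, A (Z v) = Z (A v) := fun v => LinearMap.congr_fun b4 v
  have z2 : ∀ v, A ((Z ^ n) v) = (Z ^ n) (A v) := fun v =>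
    LinearMap.congr_fun (Commute.pow_right (show Commute A Z from b4) n).eq v
  have z3 : ∀ v, A (X v) = X (A v) + Y v := fun v => LinearMap.congr_fun b1' v
  have z4 : ∀ v, A (Y v) = Y (A v) := fun v => LinearMap.congr_fun b2 v
  have x1 : -X * (X * (-X) ^ n) = ((-1 : ℚ) ^ (n + 1)) • X ^ (n + 2) := by
    rw [← neg_one_smul ℚ X, smul_pow, pow_succ' X, pow_succ' X]
    simp [pow_succ]
  have e2 := congrArg (fun v => A (A v)) e
  simp only [x1, Module.End.mul_apply, LinearMap.neg_apply, LinearMap.smul_apply, map_sub, map_add,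
    map_smul, map_neg, z1, z2, z3, z4, dk, d0, map_zero, add_zero, sub_zero, neg_zero, zero_sub,
    neg_eq_zero, ← smul_sub] at e2
  rw [smul_eq_zero, smul_eq_zero] at e2
  have e3 := (e2.resolve_left (by positivity)).resolve_left (by positivity)
  have e4 := power b1' b2 b3 (n + 2) (T.ς (D.σ 2 * D.σ 3 * D.σ 4 * g0 D.σ) D.t3 -
      T.ς (D.σ 3 * D.σ 4 * g0 D.σ) D.t3) (by rw [map_sub, dk, dk, sub_self])
  rw [pow_succ A, pow_succ A, Module.End.mul_apply, Module.End.mul_apply, map_sub (X ^ _),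
    map_sub A, map_sub A, e3, map_zero, eq_comm, smul_eq_zero] at e4
  exact e4.resolve_left (by positivity)

end T2a

open T2a

theorem rowT2a : OfT2a := by
  intro hS1 hS2 hK hC hR G H M E _ _ _ _ _ _ D L T d hd h2 g l hl hl'
  obtain ⟨n, rfl⟩ : ∃ n, d = n + 2 := ⟨d - 2, by omega⟩
  have h8 := D.h8
  have C := hC G H M D
  have m := main (hS1 E M _) (hS2 E M _) (hK G H M E D L) T (hR G H M E D L T) n hd l hl hl'
  have p1 : ∀ h ∈ Par D.σ D.N 2, T.ς h (L.F l) = L.F l := fun h hh => by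
    rw [Lie.F, ς_P, T.ς_t3 h hh]
  obtain ⟨lam, hlam⟩ := C.lam M (fun g => T.ς g (L.F l)) 2 (by omega)
    (fun g h hh => by rw [map_mul, Module.End.mul_apply, p1 h hh]) fun g a ha => by
      obtain _ | ⟨ξ, l⟩ := l
      · simp at hl
      · rw [map_mul, Module.End.mul_apply, Lie.F, P_cons, Module.End.mul_apply, T.pure a ha]
  obtain ⟨γ, hγ⟩ := C.label [4, 5, 2, 3, 0, 1] (by decide) (by simp; omega)
  have q2 : D.perm γ 2 = 2 := hγ 2 (by simp)
  have q3 : D.perm γ 3 = 3 := hγ 3 (by simp)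
  have q4 : D.perm γ 4 = 0 := hγ 4 (by simp)
  have q5 : D.perm γ 5 = 1 := hγ 5 (by simp)
  have m2 := congrArg (T.ς γ) m
  rw [← Module.End.mul_apply, ← Module.End.mul_apply, ← map_mul, ← map_mul, hlam, hlam,
    C.lab_mul, C.lab_mul 2 γ, C.l0, C.l1] at m2
  simp only [Finset.image_insert, Finset.image_singleton, q2, q3, q4, q5] at m2
  have p2 : T.ς (D.σ 2) (L.F l) = L.F l := by
    have e1 : D.lab 2 (D.σ 2) = {3, 0, 1} := by
      rw [Dat.lab, D.perm_σ 2 (by omega)]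
      decide
    have e2 := hlam 1
    rw [C.e0, map_one, Module.End.one_apply] at e2
    rw [hlam, e1, m2, e2]
    congr 1
    decide
  have hg := D.hB g
  induction hg using Subgroup.closure_induction with
  | mem x hx =>
    obtain ⟨i, hi, rfl⟩ := hx
    by_cases e : i = 2
    · rw [e, p2]
    · exact p1 _ (Subgroup.subset_closure ⟨i, ⟨hi, e⟩, rfl⟩)
  | one => simp
  | mul x y _ _ hx hy => rw [map_mul, Module.End.mul_apply, hy, hx]
  | inv x _ hx =>
    rw [← hx, ← Module.End.mul_apply, ← map_mul, inv_mul_cancel, map_one, Module.End.one_apply, hx]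

end Pool.Agent.MP_00906f_gt.H91
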