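import Pool.Agent.MP_00906f_gt.H91.Spec

/-! Row T2b: the degree is at most two. -/

namespace Pool.Agent.MP_00906f_gt.H91

open H46

namespace T2b

section alg

variable {M : Type} [AddCommGroup M] [Module ℚ M] (D A R : Module.End ℚ M)

theorem step (h1 : D * A = A * D + R) (h2 : R * A = A * R) (v : M) (hv : D v = 0) (j : ℕ) :
    D ((A ^ (j + 1)) v) = ((j : ℚ) + 1) • R ((A ^ j) v) := by
  have e1 : ∀ m, D (A m) = A (D m) + R m := fun m => by
    simpa using congrArg (fun f : Module.End ℚ M => f m) h1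
  have e2 : ∀ m, R (A m) = A (R m) := fun m => by
    simpa using congrArg (fun f : Module.End ℚ M => f m) h2
  induction j with
  | zero => simp [e1, hv]
  | succ j ih =>
    rw [pow_succ' A (j + 1), Module.End.mul_apply, e1, ih, pow_succ' A j, Module.End.mul_apply,
      e2, map_smul]
    push_cast
    module

theorem top (h1 : D * A = A * D + R) (h2 : R * A = A * R) (h3 : Commute D R) (v : M)
    (hv : D v = 0) (j : ℕ) : (D ^ j) ((A ^ j) v) = (j.factorial : ℚ) • (R ^ j) v := by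
  induction j with
  | zero => simp
  | succ j ih =>
    have e3 : ∀ m, (D ^ j) (R m) = R ((D ^ j) m) := fun m => by
      simpa using congrArg (fun f : Module.End ℚ M => f m) (h3.pow_left j).eq
    rw [pow_succ D j, Module.End.mul_apply, step D A R h1 h2 v hv, map_smul, e3, ih, map_smul,
      pow_succ' R j, Module.End.mul_apply, smul_smul, Nat.factorial_succ]
    push_cast
    rfl

theorem above (h1 : D * A = A * D + R) (h2 : R * A = A * R) (h3 : Commute D R) (v : M)
    (hv : D v = 0) (j k : ℕ) : (D ^ (k + 1 + j)) ((A ^ j) v) = 0 := by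
  have e3 : D ((R ^ j) v) = (R ^ j) (D v) := by
    simpa using congrArg (fun f : Module.End ℚ M => f v) (h3.pow_right j).eq
  rw [pow_add, Module.End.mul_apply, top D A R h1 h2 h3 v hv, map_smul, pow_succ,
    Module.End.mul_apply, e3, hv]
  simp

theorem core (C : Module.End ℚ M) (h1 : D * A = A * D + R) (h2 : R * A = A * R)
    (h3 : Commute D R) (h4 : Commute D C) (h5 : Commute A C) (v : M) (hv : D v = 0) (n : ℕ)
    (h : ((-A) * (A * ((C + A) * (-A) ^ n))) v = (C * ((-C) * ((C + A) * C ^ n))) v) :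
    (R ^ (n + 3)) v = 0 := by
  have hC : ∀ k, D ((C ^ k) v) = 0 := fun k => by
    have : D ((C ^ k) v) = (C ^ k) (D v) := by
      simpa using congrArg (fun f : Module.End ℚ M => f v) (h4.pow_right k).eq
    rw [this, hv, map_zero]
  have l1 : (-A) * (A * ((C + A) * (-A) ^ n)) =
      (-(-1 : ℚ) ^ n) • (A ^ (n + 2) * C ^ 1 + A ^ (n + 3)) := by
    have : (-A) ^ n = (-1 : ℚ) ^ n • A ^ n := by rw [← smul_pow, neg_one_smul]
    rw [this, pow_one, add_mul, mul_smul_comm, mul_smul_comm, (h5.symm.pow_right n).eq,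
      ← smul_add, mul_smul_comm, mul_smul_comm, neg_mul, smul_neg, neg_smul]
    congr 2
    rw [pow_succ' A (n + 2), pow_succ' A (n + 1), pow_succ' A n]
    noncomm_ring
  have l2 : C * ((-C) * ((C + A) * C ^ n)) = -(A ^ 0 * C ^ (n + 3) + A ^ 1 * C ^ (n + 2)) := by
    have : C * (C * (A * C ^ n)) = A * (C * (C * C ^ n)) := by
      rw [← mul_assoc C A, ← h5.eq, mul_assoc A, ← mul_assoc C A, ← h5.eq, mul_assoc A]
    rw [pow_succ' C (n + 2), pow_succ' C (n + 1), pow_succ' C n, pow_one, pow_zero, ← this]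
    noncomm_ring
  have h' := congrArg (D ^ (n + 3)) h
  rw [l1, l2] at h'
  simp only [LinearMap.smul_apply, LinearMap.add_apply, LinearMap.neg_apply, Module.End.mul_apply,
    map_smul, map_add, map_neg] at h'
  have a1 := above D A R h1 h2 h3 _ (hC 1) (n + 2) 0
  have a2 := above D A R h1 h2 h3 _ (hC (n + 3)) 0 (n + 2)
  have a3 := above D A R h1 h2 h3 _ (hC (n + 2)) 1 (n + 1)
  rw [show 0 + 1 + (n + 2) = n + 3 by omega] at a1
  rw [show n + 2 + 1 + 0 = n + 3 by omega] at a2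
  rw [show n + 1 + 1 + 1 = n + 3 by omega] at a3
  rw [a1, a2, a3, top D A R h1 h2 h3 v hv, zero_add, add_zero, neg_zero, smul_smul,
    smul_eq_zero] at h'
  refine h'.resolve_left (mul_ne_zero ?_ ?_)
  · exact neg_ne_zero.2 (pow_ne_zero _ (by norm_num))
  · exact_mod_cast Nat.factorial_ne_zero _

end alg

variable {G H M E : Type} [Group G] [AddCommGroup H] [AddCommGroup M] [Module ℚ M]
  [AddCommGroup E] [Module ℚ E] {D : Dat G H M} {L : Lie D E}

theorem down (T : Th L) (h1 : Sp1 L.toSp) (h2 : Sp2 L.toSp) (k : Kit3 L) (tr : TR T)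
    (ta : T2a T) (n : ℕ) (hd : L.Deg (n + 3)) : L.Deg (n + 2) := by
  have h8 := D.h8
  have w : ∀ i j, i < 8 → j < 8 → L.ω (L.c i) (L.c j) =
      (if j = i + 1 then 1 else 0) - (if i = j + 1 then 1 else 0) :=
    fun i j hi hj => k.ωc i j (by omega) (by omega)
  have ρs : ∀ i, i < 8 → ∀ x, L.ρ (D.σ i) x = x + L.ω x (L.c i) • L.c i :=
    fun i hi => k.ρσ i (by omega)
  have hv : ∀ x, L.ω (L.c 0) (L.vec x) = 0 := fun x => by simp [Lie.vec, w]
  have hr : L.ω (L.c 0) (L.c 2 + L.c 4) = 0 := by simp [w]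
  set l : List (ℚ × ℚ × ℚ) :=
    (1, 0, 0) :: (0, 0, 1) :: (0, 1, 0) :: List.replicate n (1, 0, 0) with hl
  have hlen : l.length = n + 3 := by simp [hl]
  have H := tr (n + 3) hd (by omega) l hlen
  have ts : ∀ (f : ℚ × ℚ × ℚ → E), (∀ x, L.ω (L.c 0) (f x) = 0) → ∀ g,
      T.ς g (L.F (l.map f)) = L.F (l.map f) := fun f hf g =>
    ta (n + 3) hd (by omega) g _ (by simp [hlen]) (by
      intro ξ hξ
      obtain ⟨x, -, rfl⟩ := List.mem_map.1 hξ
      exact hf x)
  rw [ts _ hv, ts _ hv, ts _ hv,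
    ts L.p0 (fun x => by rw [Lie.p0, map_sub, map_smul, hv, hr]; simp),
    ts L.p1 (fun x => by rw [Lie.p1, map_sub, map_smul, hv, hr]; simp),
    ts L.p2 (fun x => by rw [Lie.p2, map_sub, map_smul, hv, hr]; simp),
    ts L.p3 (fun x => by rw [Lie.p3, map_sub, map_smul, hv, hr]; simp)] at H
  have mem : ∀ i, i < 4 → L.c i ∈ Submodule.span ℚ (L.c '' {i | i < 4}) :=
    fun i hi => Submodule.subset_span ⟨i, hi, rfl⟩
  have kill : ∀ g i j, i < 4 → L.ρ g (L.c 0) = L.c 0 → L.ρ g (L.c i) = L.c j →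
      L.c j ∈ l.map L.vec → L.toSp.P (L.c 0) (l.map L.vec) (D.π g D.t5) = 0 := by
    intro g i j hi g0 gi hj
    have z : ∀ i j, i < 4 → L.ρ g (L.c i) = L.c j → L.B (L.c 0) (L.c j) (D.π g D.t5) = 0 := by
      intro i j hi gi
      have := congrArg (fun f : Module.End ℚ M => f D.t5) (L.eqv g (L.c 0) (L.c i))
      simp only [Module.End.mul_apply] at this
      rw [g0, gi, k.in5 _ (mem 0 (by omega)) _ (mem i hi), map_zero] at this
      exact this.symm
    refine h1.kill _ _ _ (z 0 0 (by omega) g0) ?_ ⟨_, hj, z i j hi gi⟩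
    intro ξ hξ
    obtain ⟨x, -, rfl⟩ := List.mem_map.1 hξ
    exact hv x
  have m2 : L.c 2 ∈ l.map L.vec := by simp [hl, Lie.vec]
  have m4 : L.c 4 ∈ l.map L.vec := by simp [hl, Lie.vec]
  have k0 := kill (D.σ 2 * D.σ 3 * D.σ 4) 3 4 (by omega) (by simp [ρs, w]) (by simp [ρs, w]) m4
  have k1 := kill (D.σ 3 * D.σ 4) 3 4 (by omega) (by simp [ρs, w]) (by simp [ρs, w]) m4
  have k2 := kill (D.σ 4) 2 2 (by omega) (by simp [ρs, w]) (by simp [ρs, w]) m2
  have k3 := kill 1 2 2 (by omega) (by simp) (by simp) m2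
  rw [map_one, Module.End.one_apply] at k3
  rw [map_sub, map_add, map_sub, k0, k1, k2, k3] at H
  have H1 : L.F (l.map L.p0) - L.F (l.map L.p1) + L.F (l.map L.p2) - L.F (l.map L.p3) = 0 := by
    have : (-1 : ℚ) ^ (n + 3) • (L.F (l.map L.p0) - L.F (l.map L.p1) + L.F (l.map L.p2)
        - L.F (l.map L.p3)) = 0 := by
      linear_combination (norm := module) -H
    exact (smul_eq_zero.1 this).resolve_left (pow_ne_zero _ (by norm_num))
  have e0 : l.map L.p0 = -L.c 4 :: L.c 4 :: L.c 3 :: List.replicate n (-L.c 4) := by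
    simp [hl, Lie.p0, Lie.vec]
  have e1 : l.map L.p1 =
      -L.c 4 :: L.c 4 :: (L.c 3 + (L.c 2 + L.c 4)) :: List.replicate n (-L.c 4) := by
    simp [hl, Lie.p1, Lie.vec]
    abel
  have e2 : l.map L.p2 =
      L.c 2 :: -L.c 2 :: (L.c 3 + (L.c 2 + L.c 4)) :: List.replicate n (L.c 2) := by
    simp [hl, Lie.p2, Lie.vec]
    abel
  have e3 : l.map L.p3 = L.c 2 :: -L.c 2 :: L.c 3 :: List.replicate n (L.c 2) := by
    simp [hl, Lie.p3, Lie.vec]
  rw [e0, e1, e2, e3] at H1
  simp only [Lie.F, Sp.P, List.map_cons, List.map_replicate, List.prod_cons, List.prod_replicate,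
    map_neg, map_add] at H1
  obtain ⟨-, -, -, s4⟩ := id k.sph3
  have br := L.br
  have hR : (L.B (L.c 0) (L.c 0 + L.c 2) ^ (n + 3)) D.t3 = 0 := by
    refine core (L.B (L.c 0 + L.c 2) (L.c 5)) (L.B (L.c 0) (L.c 4)) _ (L.B (L.c 0) (L.c 2))
      ?_ ?_ ?_ ?_ ?_ _ (s4 _ _ (by simp [w]) (by simp [w]) (by simp [w]) (by simp [w])) n ?_
    · have := br (L.c 0 + L.c 2) (L.c 5) (L.c 0) (L.c 4)
      rw [sub_eq_iff_eq_add'] at this
      rw [this]
      simp [w]
    · rw [← sub_eq_zero, br]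
      simp [w]
    · rw [Commute, SemiconjBy, ← sub_eq_zero, br]
      simp [w]
    · rw [Commute, SemiconjBy, ← sub_eq_zero, br]
      simp [w]
    · rw [Commute, SemiconjBy, ← sub_eq_zero, br]
      simp [w]
    · simp only [add_mul, mul_add, LinearMap.add_apply] at H1 ⊢
      linear_combination (norm := module) -H1
  have hne : L.c 0 + L.c 2 ≠ 0 := by
    intro h
    have : L.ω (L.c 0 + L.c 2) (L.c 3) = 1 := by simp [w]
    rw [h] at this
    simp at this
  have hI := (h2.irr (L.c 0) (L.c 1) D.t3 ⊥ (L.c 0 + L.c 2) (n + 3) (by simp [w]) k.sph3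
    (fun a b m hm => by simp_all) hne (by simp [w]) (by simp [w]) (by simpa using hR)).2
  refine ⟨hd.1, fun v m hm => ?_⟩
  induction hm using Submodule.span_induction with
  | mem x hx =>
    obtain ⟨g, rfl⟩ := hx
    have hg : L.ρ g (L.ρ g⁻¹ v) = v := by
      rw [← Module.End.mul_apply, ← map_mul, mul_inv_cancel, map_one, Module.End.one_apply]
    have sc : SemiconjBy (D.π g) (L.B (L.ρ g⁻¹ v) (L.ρ g⁻¹ v)) (L.B v v) := by
      rw [SemiconjBy, L.eqv, hg]
    have := congrArg (fun f : Module.End ℚ M => f D.t3) (sc.pow_right (n + 3)).eq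
    simp only [Module.End.mul_apply] at this
    rw [(Submodule.mem_bot ℚ).1 (hI _), map_zero] at this
    exact this.symm
  | zero => simp
  | add x y _ _ hx hy => rw [map_add, hx, hy, add_zero]
  | smul a x _ hx => rw [map_smul, hx, smul_zero]

end T2b

theorem rowT2b : OfT2b := by
  intro hSP1 hSP2 hK3 hTR hT2a G H M E _ _ _ _ _ _ D L T
  have k := hK3 G H M E D L
  have up : ∀ d, L.Deg d → L.Deg (d + 1) := fun d h =>
    ⟨h.1, fun v m hm => by rw [pow_succ', Module.End.mul_apply, h.2 v m hm, map_zero]⟩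
  have dn : ∀ n, L.Deg (n + 2) → L.Deg 2 := by
    intro n
    induction n with
    | zero => exact id
    | succ n ih =>
      exact fun h => ih (T2b.down T (hSP1 E M L.toSp) (hSP2 E M L.toSp) k (hTR G H M E D L T)
        (hT2a G H M E D L T) n h)
  obtain ⟨d, hd⟩ := k.deg_ex
  exact dn d (up _ (up _ hd))

end Pool.Agent.MP_00906f_gt.H91
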