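import Pool.Agent.MP_00906f_gt.H91.Spec

/-! Row T3: the relation in degree one. -/

namespace Pool.Agent.MP_00906f_gt.H91

namespace T3

variable {G H M E : Type} [Group G] [AddCommGroup H] [AddCommGroup M] [Module ℚ M]
  [AddCommGroup E] [Module ℚ E] {D : Dat G H M} {L : Lie D E}

theorem skew (S : Sp E M) (x y : E) : S.ω x y = -S.ω y x := by
  have h := S.alt (x + y)
  simp only [map_add, LinearMap.add_apply, S.alt] at h
  linarith

theorem sph_sub {S : Sp E M} {x y : E} {p q : M} (hp : S.Sph x y p) (hq : S.Sph x y q) :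
    S.Sph x y (p - q) :=
  ⟨by rw [map_sub, hp.1, hq.1, sub_zero], by rw [map_sub, hp.2.1, hq.2.1, sub_zero],
    by rw [map_sub, hp.2.2.1, hq.2.2.1, sub_zero], fun w w' a b c d => by
      rw [map_sub, hp.2.2.2 w w' a b c d, hq.2.2.2 w w' a b c d, sub_zero]⟩

theorem sph_add {S : Sp E M} {x y : E} {p q : M} (hp : S.Sph x y p) (hq : S.Sph x y q) :
    S.Sph x y (p + q) :=
  ⟨by rw [map_add, hp.1, hq.1, add_zero], by rw [map_add, hp.2.1, hq.2.1, add_zero],
    by rw [map_add, hp.2.2.1, hq.2.2.1, add_zero], fun w w' a b c d => by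
      rw [map_add, hp.2.2.2 w w' a b c d, hq.2.2.2 w w' a b c d, add_zero]⟩

theorem ς_B (T : Th L) (g : G) (a b : E) (m : M) : L.B a b (T.ς g m) = T.ς g (L.B a b m) :=
  (LinearMap.congr_fun (T.ς_B g a b) m).symm

theorem sph_ς (T : Th L) (g : G) {x y : E} {q : M} (hq : L.toSp.Sph x y q) :
    L.toSp.Sph x y (T.ς g q) :=
  ⟨by rw [ς_B, hq.1, map_zero], by rw [ς_B, hq.2.1, map_zero], by rw [ς_B, hq.2.2.1, map_zero],
    fun w w' a b c d => by rw [ς_B, hq.2.2.2 w w' a b c d, map_zero]⟩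

/-- the span of the first five vectors -/
def W5 (L : Lie D E) : Submodule ℚ E := Submodule.span ℚ (L.c '' {i | i < 5})

theorem c_mem (L : Lie D E) {i : ℕ} (hi : i < 5) : L.c i ∈ W5 L :=
  Submodule.subset_span ⟨i, hi, rfl⟩

/-- the property of the vectors in the orbit of `t5` -/
def Q (L : Lie D E) (m : M) : Prop :=
  ∀ a ∈ W5 L, ∀ b ∈ W5 L, L.B (L.c 0 + L.c 2 + L.c 4) a (L.B (L.c 0) b m) = 0

theorem ω_r5 (K : Kit3 L) {i : ℕ} (hi : i < 5) : L.ω (L.c 0 + L.c 2 + L.c 4) (L.c i) = 0 := by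
  have h8 := D.h8
  simp only [map_add, LinearMap.add_apply]
  rw [K.ωc 0 i (by omega) (by omega), K.ωc 2 i (by omega) (by omega),
    K.ωc 4 i (by omega) (by omega)]
  interval_cases i <;> norm_num

theorem ω_r5' (K : Kit3 L) {i : ℕ} (hi : i < 5) : L.ω (L.c i) (L.c 0 + L.c 2 + L.c 4) = 0 := by
  rw [skew L.toSp, ω_r5 K hi, neg_zero]

theorem ω_r5_c5 (K : Kit3 L) : L.ω (L.c 0 + L.c 2 + L.c 4) (L.c 5) = 1 := by
  have h8 := D.h8
  simp only [map_add, LinearMap.add_apply]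
  rw [K.ωc 0 5 (by omega) (by omega), K.ωc 2 5 (by omega) (by omega),
    K.ωc 4 5 (by omega) (by omega)]
  norm_num

theorem ω_W5 (K : Kit3 L) {a : E} (ha : a ∈ W5 L) : L.ω (L.c 0 + L.c 2 + L.c 4) a = 0 := by
  have : W5 L ≤ LinearMap.ker (L.ω (L.c 0 + L.c 2 + L.c 4)) := by
    refine Submodule.span_le.2 ?_
    rintro _ ⟨i, hi, rfl⟩
    exact ω_r5 K hi
  exact this ha

theorem Q_t5 (S1 : Sp1 L.toSp) (K : Kit3 L) (hd : L.Deg 1) : Q L D.t5 := by
  have h8 := D.h8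
  intro a ha b hb
  have h4 : ∀ i, i < 4 → L.B (L.c 0) (L.c i) D.t5 = 0 := fun i hi =>
    K.in5 _ (Submodule.subset_span ⟨0, by norm_num, rfl⟩) _ (Submodule.subset_span ⟨i, hi, rfl⟩)
  have h5 : L.B (L.c 0 + L.c 2 + L.c 4) a (L.B (L.c 0) (L.c 0 + L.c 2 + L.c 4) D.t5) = 0 := by
    have := S1.top D.MU 1 (L.c 0 + L.c 2 + L.c 4) (L.c 5) D.t5 hd (ω_r5_c5 K)
      (K.out5 _ _ (fun i hi => ω_r5' K (by omega)) fun i hi => by
        rw [K.ωc i 5 (by omega) (by omega), if_neg (by omega), if_neg (by omega), sub_zero])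
      (fun a b => K.B_MU a b _) [a, L.c 0] le_rfl (by
        intro ξ hξ
        simp only [List.mem_cons, List.not_mem_nil, or_false] at hξ
        rcases hξ with rfl | rfl
        exacts [ω_W5 K ha, ω_r5 K (by norm_num)])
    rw [L.symm (L.c 0)]
    simpa only [Sp.P, List.map_cons, List.map_nil, List.prod_cons, List.prod_nil, mul_one,
      Module.End.mul_apply] using this
  generalize L.B (L.c 0 + L.c 2 + L.c 4) a = O at h5 ⊢
  induction hb using Submodule.span_induction with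
  | mem x hx =>
    obtain ⟨i, hi, rfl⟩ := hx
    by_cases h : i < 4
    · rw [h4 i h, map_zero]
    · obtain rfl : i = 4 := by
        have hi' : i < 5 := hi
        omega
      have e : L.B (L.c 0) (L.c 0 + L.c 2 + L.c 4) D.t5 = L.B (L.c 0) (L.c 4) D.t5 := by
        rw [map_add, map_add, LinearMap.add_apply, LinearMap.add_apply, h4 0 (by norm_num),
          h4 2 (by norm_num), zero_add, zero_add]
      rwa [e] at h5
  | zero => simp
  | add x y _ _ hx hy => rw [map_add, LinearMap.add_apply, map_add, hx, hy, add_zero]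
  | smul t x _ hx => rw [map_smul, LinearMap.smul_apply, map_smul, hx, smul_zero]

theorem Q_σ (K : Kit3 L) {i : ℕ} (h2 : 2 ≤ i) (hi : i < 5) {m : M} (hm : Q L m) :
    Q L (D.π (D.σ i) m) := by
  have h8 := D.h8
  intro a ha b hb
  have inv : ∀ x, L.ρ (D.σ i) (L.ρ (D.σ i)⁻¹ x) = x := fun x => by
    rw [← Module.End.mul_apply, ← map_mul, mul_inv_cancel, map_one, Module.End.one_apply]
  have mem : ∀ x ∈ W5 L, L.ρ (D.σ i)⁻¹ x ∈ W5 L := fun x hx => by
    rw [K.ρσ_inv i (by omega)]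
    exact sub_mem hx (Submodule.smul_mem _ _ (c_mem L hi))
  have e0 : L.ρ (D.σ i) (L.c 0) = L.c 0 := by
    rw [K.ρσ i (by omega), K.ωc 0 i (by omega) (by omega), if_neg (by omega), if_neg (by omega),
      sub_zero, zero_smul, add_zero]
  have e5 : L.ρ (D.σ i) (L.c 0 + L.c 2 + L.c 4) = L.c 0 + L.c 2 + L.c 4 := by
    rw [K.ρσ i (by omega), ω_r5 K hi, zero_smul, add_zero]
  have eqv : ∀ x y m, D.π (D.σ i) (L.B x y m) =
      L.B (L.ρ (D.σ i) x) (L.ρ (D.σ i) y) (D.π (D.σ i) m) :=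
    fun x y m => LinearMap.congr_fun (L.eqv (D.σ i) x y) m
  have h := congrArg (D.π (D.σ i)) (hm _ (mem a ha) _ (mem b hb))
  rwa [eqv, eqv, inv, inv, e0, e5, map_zero] at h

theorem D_F (K : Kit3 L) (ξ : E) (h1 : L.ω ξ (L.c 0 + L.c 2 + L.c 4) = 0)
    (h2 : L.ω ξ (L.c 0 + L.c 2) = -1) :
    L.B (L.c 0 + L.c 2 + L.c 4) (L.c 0 + L.c 2) (L.F [ξ]) =
      -L.B (L.c 0) (L.c 0 + L.c 2 + L.c 4) D.t3 := by
  have h8 := D.h8
  have h0 : L.ω (L.c 0) (L.c 0 + L.c 2) = 0 := by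
    rw [map_add, K.ωc 0 0 (by omega) (by omega), K.ωc 0 2 (by omega) (by omega)]
    norm_num
  have h0' : L.ω (L.c 1) (L.c 0 + L.c 2) = 0 := by
    rw [map_add, K.ωc 1 0 (by omega) (by omega), K.ωc 1 2 (by omega) (by omega)]
    norm_num
  have h3 := K.sph3.2.2.2 (L.c 0 + L.c 2 + L.c 4) (L.c 0 + L.c 2) (ω_r5' K (by norm_num))
    (ω_r5' K (by norm_num)) h0 h0'
  have h4 := LinearMap.congr_fun
    (L.br (L.c 0 + L.c 2 + L.c 4) (L.c 0 + L.c 2) (L.c 0) ξ) D.t3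
  rw [ω_r5' K (by norm_num), h0, h1, h2] at h4
  simp only [zero_smul, zero_add, neg_smul, one_smul, LinearMap.sub_apply, Module.End.mul_apply,
    LinearMap.neg_apply, h3, map_zero, sub_zero] at h4
  simpa only [Lie.F, Sp.P, List.map_cons, List.map_nil, List.prod_cons, List.prod_nil,
    mul_one] using h4

end T3

open T3 in
theorem rowT3 : OfT3 := by
  intro hS1 hS2 hK3 hTR G H M E _ _ _ _ _ _ D L T hd
  have S1 : Sp1 L.toSp := hS1 E M L.toSp
  have S2 : Sp2 L.toSp := hS2 E M L.toSp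
  have K : Kit3 L := hK3 G H M E D L
  have h8 := D.h8
  have R := congrArg (L.B (L.c 0 + L.c 2 + L.c 4) (L.c 0 + L.c 2))
    (hTR G H M E D L T 1 hd le_rfl [(0, 1, 0)] rfl)
  have v : L.vec (0, 1, 0) = L.c 3 := by simp [Lie.vec]
  have v0 : L.p0 (0, 1, 0) = L.c 3 := by simp [Lie.p0, v]
  have v1 : L.p1 (0, 1, 0) = L.c 3 + (L.c 2 + L.c 4) := by
    rw [Lie.p1, v]; module
  have v2 : L.p2 (0, 1, 0) = L.c 3 + (L.c 2 + L.c 4) := by
    rw [Lie.p2, v]; module
  have v3 : L.p3 (0, 1, 0) = L.c 3 := by simp [Lie.p3, v]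
  have w : ∀ i, 2 ≤ i → i < 5 → L.ω (L.c i) (L.c 0 + L.c 2) = if i = 3 then -1 else 0 := by
    intro i h2 h5
    rw [map_add, K.ωc i 0 (by omega) (by omega), K.ωc i 2 (by omega) (by omega)]
    interval_cases i <;> norm_num
  have f1 := D_F K (L.c 3) (ω_r5' K (by norm_num)) (by rw [w 3 (by norm_num) (by norm_num)]; rfl)
  have f2 := D_F K (L.c 3 + (L.c 2 + L.c 4))
    (by rw [map_add L.ω, map_add L.ω, LinearMap.add_apply, LinearMap.add_apply,
      ω_r5' K (by norm_num), ω_r5' K (by norm_num), ω_r5' K (by norm_num)]; norm_num)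
    (by rw [map_add L.ω, map_add L.ω, LinearMap.add_apply, LinearMap.add_apply,
      w 3 (by norm_num) (by norm_num), w 2 (by norm_num) (by norm_num),
      w 4 (by norm_num) (by norm_num)]; norm_num)
  have q3 := Q_t5 S1 K hd
  have q2 := Q_σ K (i := 4) (by norm_num) (by norm_num) q3
  have q1 := Q_σ K (i := 3) (by norm_num) (by norm_num) q2
  have q0 := Q_σ K (i := 2) (by norm_num) (by norm_num) q1
  have hr : L.c 0 + L.c 2 ∈ W5 L := add_mem (c_mem L (by norm_num)) (c_mem L (by norm_num))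
  have h3 : L.c 3 ∈ W5 L := c_mem L (by norm_num)
  have a0 := q0 _ hr _ h3
  have a1 := q1 _ hr _ h3
  have a2 := q2 _ hr _ h3
  have a3 := q3 _ hr _ h3
  have hD := fun g m => ς_B T g (L.c 0 + L.c 2 + L.c 4) (L.c 0 + L.c 2) m
  have hY := fun g m => ς_B T g (L.c 0) (L.c 0 + L.c 2 + L.c 4) m
  refine S2.irr1 (L.c 0) (L.c 1) _ (L.c 0 + L.c 2 + L.c 4)
    (by rw [K.ωc 0 1 (by omega) (by omega)]; norm_num)
    (sph_sub (sph_sub (sph_add (sph_sub (sph_ς T _ K.sph3) (sph_ς T _ K.sph3))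
      (sph_ς T _ K.sph3)) (sph_ς T _ K.sph3)) (sph_sub (sph_sub (sph_add (sph_ς T _ K.sph3)
      (sph_ς T _ K.sph3)) (sph_ς T _ K.sph3)) K.sph3))
    (fun h => by simpa [h] using ω_r5_c5 K) (ω_r5' K (by norm_num)) (ω_r5' K (by norm_num)) ?_
  simp only [List.map_cons, List.map_nil, v, v0, v1, v2, v3] at R
  have hP : L.toSp.P (L.c 0) [L.c 3] = L.B (L.c 0) (L.c 3) := by simp [Sp.P]
  rw [hP, map_mul D.π, map_mul D.π, map_mul D.π] at R
  generalize L.B (L.c 0 + L.c 2 + L.c 4) (L.c 0 + L.c 2) = O at *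
  generalize L.B (L.c 0) (L.c 0 + L.c 2 + L.c 4) = Y at *
  generalize L.F [L.c 3] = F1 at *
  generalize L.F [L.c 3 + (L.c 2 + L.c 4)] = F2 at *
  simp only [Module.End.mul_apply, map_add, map_sub, map_smul, a0, a1, a2, a3, hD, f1, f2,
    map_neg] at R
  simp only [map_add, map_sub, hY]
  linear_combination (norm := module) -R

end Pool.Agent.MP_00906f_gt.H91
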