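import Pool.Agent.MP_00906f_gt.H91.Spec

/-! The factorisation of `π` into an algebraic part and a part commuting with the Lie algebra. -/

namespace Pool.Agent.MP_00906f_gt.H91

open H46 IsNilpotent

namespace TH

variable {G H M E : Type} [Group G] [AddCommGroup H] [AddCommGroup M] [Module ℚ M]
  [AddCommGroup E] [Module ℚ E]

theorem conj_exp {u y y' : Module.End ℚ M} (hy : IsNilpotent y) (hy' : IsNilpotent y')
    (h : u * y = y' * u) : u * exp y = exp y' * u :=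
  (Module.End.commute_exp_left_of_commute hy hy' h.symm).symm

theorem nilS {S : Sp E M} (h1 : Sp1 S) (s : ℚ) {a b : E} (h : S.ω a b = 0) :
    IsNilpotent (s • S.B a b) := (h1.nil a b h).smul s

theorem comm_exp {S : Sp E M} (h1 : Sp1 S) {Z : Module.End ℚ M}
    (hZ : ∀ a b, Z * S.B a b = S.B a b * Z) (s : ℚ) {a b : E} (h : S.ω a b = 0) :
    Z * exp (s • S.B a b) = exp (s • S.B a b) * Z :=
  conj_exp (nilS h1 s h) (nilS h1 s h) (by rw [mul_smul_comm, smul_mul_assoc, hZ])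

theorem X_B {S : Sp E M} (h1 : Sp1 S) (v a b : E) :
    exp ((1 / 2 : ℚ) • S.B v v) * S.B a b =
      S.B (a + S.ω a v • v) (b + S.ω b v • v) * exp ((1 / 2 : ℚ) • S.B v v) := by
  have e : ∀ x, x + (1 / 2 : ℚ) • S.act v v x = x + S.ω x v • v := fun x => by
    unfold Sp.act
    module
  rw [h1.expc v v (S.alt v), e, e]

theorem X_X {S : Sp E M} (h1 : Sp1 S) (v w w' : E) (h : w + S.ω w v • v = w') :
    exp ((1 / 2 : ℚ) • S.B v v) * exp ((1 / 2 : ℚ) • S.B w w) =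
      exp ((1 / 2 : ℚ) • S.B w' w') * exp ((1 / 2 : ℚ) • S.B v v) :=
  conj_exp (nilS h1 _ (S.alt _)) (nilS h1 _ (S.alt _))
    (by rw [mul_smul_comm, smul_mul_assoc, X_B h1, h])

variable {D : Dat G H M} {L : Lie D E}

theorem exists_θ (h1 : Sp1 L.toSp) (k3 : Kit3 L) : ∃ θ : G →* Module.End ℚ M,
    ∀ i, i < D.N → θ (D.σ i) = exp ((1 / 2 : ℚ) • L.B (L.c i) (L.c i)) := by
  have hu : ∀ i, IsUnit (exp ((1 / 2 : ℚ) • L.B (L.c i) (L.c i))) := fun i =>
    isUnit_exp (nilS h1 _ (L.alt _))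
  obtain ⟨f, hf⟩ := D.lift (Module.End ℚ M)ˣ (fun i => (hu i).unit) (by
    refine ⟨fun i hi => Units.ext ?_, fun i j hij hj => Units.ext ?_⟩
    · simp only [Units.val_mul, IsUnit.unit_spec]
      have a1 : L.ω (L.c i) (L.c (i + 1)) = 1 := by
        rw [k3.ωc i (i + 1) (by omega) hi, if_pos rfl, if_neg (by omega), sub_zero]
      have a2 : L.ω (L.c (i + 1)) (L.c i) = -1 := by
        rw [k3.ωc (i + 1) i hi (by omega), if_pos rfl, if_neg (by omega), zero_sub]
      have b1 := X_X h1 (L.c (i + 1)) (L.c i) (L.c i + L.c (i + 1)) (by rw [a1, one_smul])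
      have b2 := X_X h1 (L.c i) (L.c i + L.c (i + 1)) (L.c (i + 1)) (by
        rw [map_add, LinearMap.add_apply, L.alt, a2]
        module)
      conv_lhs => rw [mul_assoc, b1, ← mul_assoc, b2]
    · simp only [Units.val_mul, IsUnit.unit_spec]
      refine X_X h1 (L.c i) (L.c j) (L.c j) ?_
      rw [k3.ωc j i hj (by omega), if_neg (by omega), if_neg (by omega), sub_zero, zero_smul,
        add_zero])
  exact ⟨(Units.coeHom _).comp f, fun i hi => by
    rw [MonoidHom.comp_apply, hf i hi, Units.coeHom_apply, IsUnit.unit_spec]⟩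

theorem inv_mul' (θ : G →* Module.End ℚ M) (g : G) : θ g⁻¹ * θ g = 1 := by
  rw [← map_mul, inv_mul_cancel, map_one]

theorem mul_inv' (θ : G →* Module.End ℚ M) (g : G) : θ g * θ g⁻¹ = 1 := by
  rw [← map_mul, mul_inv_cancel, map_one]

theorem fix_inv (θ : G →* Module.End ℚ M) {g : G} {m : M} (h : θ g m = m) : θ g⁻¹ m = m := by
  conv_lhs => rw [← h]
  rw [← Module.End.mul_apply, inv_mul', Module.End.one_apply]

theorem ρ_inv (L : Lie D E) (g : G) (a : E) : L.ρ g (L.ρ g⁻¹ a) = a := by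
  rw [← Module.End.mul_apply, mul_inv', Module.End.one_apply]

section

variable {θ : G →* Module.End ℚ M}
  (hθ : ∀ i, i < D.N → θ (D.σ i) = exp ((1 / 2 : ℚ) • L.B (L.c i) (L.c i)))
include hθ

theorem θ_B (h1 : Sp1 L.toSp) (k3 : Kit3 L) (g : G) :
    ∀ a b, θ g * L.B a b = L.B (L.ρ g a) (L.ρ g b) * θ g := by
  induction D.hB g using Subgroup.closure_induction with
  | mem x hx =>
    obtain ⟨i, hi, rfl⟩ := hx
    intro a b
    rw [hθ i hi, k3.ρσ i hi, k3.ρσ i hi]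
    exact X_B h1 _ a b
  | one => intro a b; simp
  | mul x y _ _ hx hy =>
    intro a b
    rw [map_mul, map_mul, mul_assoc, hy, ← mul_assoc, hx, mul_assoc]
    rfl
  | inv x _ hx =>
    intro a b
    have := hx (L.ρ x⁻¹ a) (L.ρ x⁻¹ b)
    rw [ρ_inv, ρ_inv] at this
    calc θ x⁻¹ * L.B a b = θ x⁻¹ * (L.B a b * θ x) * θ x⁻¹ := by
          rw [mul_assoc, mul_assoc, mul_inv', mul_one]
      _ = _ := by rw [← this, ← mul_assoc, inv_mul', one_mul]

theorem comm_θ (h1 : Sp1 L.toSp) {Z : Module.End ℚ M} (hZ : ∀ a b, Z * L.B a b = L.B a b * Z)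
    (g : G) : Z * θ g = θ g * Z := by
  induction D.hB g using Subgroup.closure_induction with
  | mem x hx =>
    obtain ⟨i, hi, rfl⟩ := hx
    rw [hθ i hi]
    exact comm_exp h1 hZ _ (L.alt _)
  | one => simp
  | mul x y _ _ hx hy => rw [map_mul, ← mul_assoc, hx, mul_assoc, hy, mul_assoc]
  | inv x _ hx =>
    calc Z * θ x⁻¹ = θ x⁻¹ * (θ x * Z) * θ x⁻¹ := by
          rw [← mul_assoc, inv_mul', one_mul]
      _ = _ := by rw [← hx, mul_assoc, mul_assoc, mul_inv', mul_one]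

theorem ς_B (h1 : Sp1 L.toSp) (k3 : Kit3 L) (g : G) (a b : E) :
    D.π g * θ g⁻¹ * L.B a b = L.B a b * (D.π g * θ g⁻¹) := by
  rw [mul_assoc, θ_B hθ h1 k3, ← mul_assoc, L.eqv, ρ_inv, ρ_inv, mul_assoc]

theorem θ_stab (lg : Log) (h1 : Sp1 L.toSp) (U : Submodule ℚ M) (hU : L.toSp.Stab U) (g : G) :
    ∀ m ∈ U, θ g m ∈ U := by
  have key : ∀ (s : ℚ) (v : E), ∀ m ∈ U, exp (s • L.B v v) m ∈ U := fun s v m hm => by
    have a : ∀ x ∈ U, (s • L.B v v) x ∈ U := fun x hx => U.smul_mem s (hU v v x hx)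
    have := U.add_mem (lg.sub' M _ U m (nilS h1 s (L.alt v)) a (a m hm)) hm
    rwa [sub_add_cancel] at this
  induction D.hB g using Subgroup.closure_induction'' with
  | mem x hx =>
    obtain ⟨i, hi, rfl⟩ := hx
    rw [hθ i hi]
    exact key _ _
  | inv_mem x hx =>
    obtain ⟨i, hi, rfl⟩ := hx
    have e : θ (D.σ i)⁻¹ = exp ((-(1 / 2) : ℚ) • L.B (L.c i) (L.c i)) := by
      rw [neg_smul, ← one_mul (exp _), ← inv_mul' θ (D.σ i), mul_assoc, hθ i hi,
        exp_mul_exp_neg_self (nilS h1 _ (L.alt _)), mul_one]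
    rw [e]
    exact key _ _
  | one => intro m hm; simpa using hm
  | mul x y _ _ hx hy =>
    intro m hm
    rw [map_mul]
    exact hx _ (hy m hm)

theorem θ_t3 (lg : Log) (h1 : Sp1 L.toSp) (k3 : Kit3 L) {g : G} (hg : g ∈ Par D.σ D.N 2) :
    θ g D.t3 = D.t3 := by
  have h8 := D.h8
  induction hg using Subgroup.closure_induction with
  | mem x hx =>
    obtain ⟨i, ⟨hi, h2⟩, rfl⟩ := hx
    rw [hθ i hi, lg.fix M _ _ (nilS h1 _ (L.alt _)), LinearMap.smul_apply]
    have : L.B (L.c i) (L.c i) D.t3 = 0 := by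
      rcases (by omega : i = 0 ∨ i = 1 ∨ 3 ≤ i) with rfl | rfl | h3
      · exact k3.sph3.1
      · exact k3.sph3.2.2.1
      · have a0 : L.ω (L.c 0) (L.c i) = 0 := by
          rw [k3.ωc 0 i (by omega) hi, if_neg (by omega), if_neg (by omega), sub_zero]
        have a1 : L.ω (L.c 1) (L.c i) = 0 := by
          rw [k3.ωc 1 i (by omega) hi, if_neg (by omega), if_neg (by omega), sub_zero]
        exact k3.sph3.2.2.2 _ _ a0 a1 a0 a1
    rw [this, smul_zero]
  | one => simp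
  | mul x y _ _ hx hy => rw [map_mul, Module.End.mul_apply, hy, hx]
  | inv x _ hx => exact fix_inv θ hx

end

theorem conj_σ {σ : ℕ → G} {N : ℕ} (h : IsBF σ N) {i : ℕ} (hi : i < N) :
    ∃ g, σ i = g * σ 0 * g⁻¹ := by
  induction i with
  | zero => exact ⟨1, by simp⟩
  | succ i ih =>
    obtain ⟨g, hg⟩ := ih (by omega)
    refine ⟨σ i * σ (i + 1) * g, ?_⟩
    have := h.braid i hi
    calc σ (i + 1) = σ (i + 1) * σ i * σ (i + 1) * (σ i * σ (i + 1))⁻¹ := by group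
      _ = σ i * σ (i + 1) * σ i * (σ i * σ (i + 1))⁻¹ := by rw [this]
      _ = σ i * σ (i + 1) * (g * σ 0 * g⁻¹) * (σ i * σ (i + 1))⁻¹ := by rw [← hg]
      _ = _ := by group

theorem pure (ς : G →* Module.End ℚ M)
    (hB : ∀ g a b, ς g * L.B a b = L.B a b * ς g)
    (h0 : ∀ a b m, ς (D.σ 0 ^ 2) (L.B a b m) = L.B a b m) (g : G) (hg : g ∈ PP D.σ D.N) :
    ∀ a b m, ς g (L.B a b m) = L.B a b m := by
  have hB' : ∀ g a b m, ς g (L.B a b m) = L.B a b (ς g m) := fun g a b m =>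
    congrArg (fun u : Module.End ℚ M => u m) (hB g a b)
  induction hg using Subgroup.closure_induction with
  | mem x hx =>
    obtain ⟨u, i, hi, rfl⟩ := hx
    obtain ⟨w, hw⟩ := conj_σ D.bf hi
    intro a b m
    have e : u * D.σ i ^ 2 * u⁻¹ = u * w * D.σ 0 ^ 2 * (u * w)⁻¹ := by
      rw [hw, conj_pow]; group
    rw [e, map_mul, map_mul, Module.End.mul_apply, Module.End.mul_apply, hB' (u * w)⁻¹, h0,
      ← hB', ← Module.End.mul_apply, mul_inv', Module.End.one_apply]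
  | one => simp
  | mul x y _ _ hx hy => intro a b m; rw [map_mul, Module.End.mul_apply, hy, hx]
  | inv x _ hx => intro a b m; exact fix_inv ς (hx a b m)

theorem int (lg : Log) (h1 : Sp1 L.toSp) (k1 : Kit1 D) (k3 : Kit3 L) {Z : Module.End ℚ M}
    (hZ : Z ∈ Submonoid.closure {u : Module.End ℚ M | ∃ (s : ℚ) (a b : E),
      a ∈ Submodule.span ℚ (L.c '' {i | i < 4}) ∧ b ∈ Submodule.span ℚ (L.c '' {i | i < 4}) ∧
      L.ω a b = 0 ∧ u = exp (s • L.B a b)})
    (hπ : ∀ g, Z * D.π g = D.π g * Z) : Z = 1 := by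
  have h8 := D.h8
  have fix : ∀ m, (∀ a ∈ Submodule.span ℚ (L.c '' {i | i < 4}),
      ∀ b ∈ Submodule.span ℚ (L.c '' {i | i < 4}), L.B a b m = 0) → Z m = m := by
    intro m hm
    clear hπ
    induction hZ using Submonoid.closure_induction with
    | mem x hx =>
      obtain ⟨s, a, b, ha, hb, hab, rfl⟩ := hx
      rw [lg.fix M _ _ (nilS h1 _ hab), LinearMap.smul_apply, hm a ha b hb, smul_zero]
    | one => rfl
    | mul x y _ _ hx hy => rw [Module.End.mul_apply, hy, hx]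
  have hπ' : ∀ g m, Z (D.π g m) = D.π g (Z m) := fun g m =>
    congrArg (fun u : Module.End ℚ M => u m) (hπ g)
  have f5 : Z D.t5 = D.t5 := fix _ k3.in5
  obtain ⟨h, h5, h6⟩ := k1.adj (D.c 5) (D.c 6) (D.toSys.V_c D.hN (by omega))
    (D.toSys.V_c D.hN (by omega)) (D.ch1 5 (by omega))
  have perp : ∀ i j, 5 ≤ j → j < D.N → D.ρ h (D.c i) = D.c j →
      ∀ a ∈ Submodule.span ℚ (L.c '' {i | i < 4}), L.ω (L.c i) (L.ρ h⁻¹ a) = 0 := by
    intro i j hj hj' e a ha
    have e' : L.ρ h (L.c i) = L.c j := by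
      unfold Lie.c
      rw [L.ρ_ι, e]
    rw [← k3.ρ_ω h, ρ_inv, e']
    refine (Submodule.span_le (p := LinearMap.ker (L.ω (L.c j)))).2 ?_ ha
    rintro _ ⟨k, hk, rfl⟩
    have hk : k < 4 := hk
    change L.ω (L.c j) (L.c k) = 0
    rw [k3.ωc j k hj' (by omega), if_neg (by omega), if_neg (by omega), sub_zero]
  have f3 : Z D.t3 = D.t3 := by
    have := fix (D.π h D.t3) fun a ha b hb => by
      have e := L.eqv h (L.ρ h⁻¹ a) (L.ρ h⁻¹ b)
      rw [ρ_inv, ρ_inv] at e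
      rw [← Module.End.mul_apply, ← e, Module.End.mul_apply,
        k3.sph3.2.2.2 _ _ (perp 0 5 le_rfl (by omega) h5 a ha)
          (perp 1 6 (by omega) (by omega) h6 a ha) (perp 0 5 le_rfl (by omega) h5 b hb)
          (perp 1 6 (by omega) (by omega) h6 b hb), map_zero]
    have e := congrArg (D.π h⁻¹) this
    rwa [← hπ', ← Module.End.mul_apply (D.π h⁻¹), inv_mul', Module.End.one_apply] at e
  refine LinearMap.ext_on k1.gen ?_
  rintro _ (⟨g, rfl⟩ | ⟨g, rfl⟩)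
  · exact (hπ' g _).trans (congrArg _ f3)
  · exact (hπ' g _).trans (congrArg _ f5)

end TH

theorem rowTH : OfTH := by
  intro hK1 lg hSP1 hK3 hLS hCOX G H M E _ _ _ _ _ _ D L
  have k1 := hK1 G H M D
  have h1 := hSP1 E M L.toSp
  have k3 := hK3 G H M E D L
  have ls := hLS G H M E D L
  have cox := hCOX G H M D
  have h8 := D.h8
  obtain ⟨θ, hθ⟩ := TH.exists_θ h1 k3
  have sB := TH.ς_B hθ h1 k3
  have sθ : ∀ g h, D.π g * θ g⁻¹ * θ h = θ h * (D.π g * θ g⁻¹) := fun g h =>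
    TH.comm_θ hθ h1 (sB g) h
  let ς : G →* Module.End ℚ M :=
    { toFun := fun g => D.π g * θ g⁻¹
      map_one' := by simp
      map_mul' := fun g h => by
        rw [mul_inv_rev, map_mul, map_mul, mul_assoc (D.π g), mul_assoc (D.π g), ← sθ h g⁻¹,
          mul_assoc (D.π h)] }
  have fac : ∀ g, D.π g = ς g * θ g := fun g => by
    change D.π g = D.π g * θ g⁻¹ * θ g
    rw [mul_assoc, TH.inv_mul', mul_one]
  refine ⟨⟨θ, ς, hθ, fac, sB, TH.θ_B hθ h1 k3, sθ, TH.θ_stab hθ lg h1,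
    fun g hg => TH.θ_t3 hθ lg h1 k3 hg, fun g hg => ?_, fun g m hm => ?_,
    fun g hg => TH.pure ς sB (fun a b m => ?_) g (cox.ker g hg),
    fun Z hZ hB => TH.int lg h1 k1 k3 hZ fun g => ?_⟩⟩
  · change D.π g (θ g⁻¹ D.t3) = D.t3
    rw [TH.θ_t3 hθ lg h1 k3 (inv_mem hg), k1.par3 g hg]
  · exact k1.MU_π g _ (TH.θ_stab hθ lg h1 D.MU (fun a b m _ => k3.B_MU a b m) g⁻¹ m hm)
  · have e : exp (L.B (L.c 0) (L.c 0)) = θ (D.σ 0 ^ 2) := by
      rw [map_pow, hθ 0 (by omega), ← lg.nsmul M _ 2 (TH.nilS h1 _ (L.alt _)), smul_smul]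
      norm_num
    have := ls a b (θ (D.σ 0 ^ 2)⁻¹ m)
    rw [e, ← Module.End.mul_apply (θ _), TH.mul_inv', Module.End.one_apply, map_sub,
      sub_eq_zero] at this
    exact (congrArg (fun u : Module.End ℚ M => u m) (sB (D.σ 0 ^ 2) a b)).trans this
  · have c : Z * ς g = ς g * Z := by
      clear hB
      induction hZ using Submonoid.closure_induction with
      | mem x hx =>
        obtain ⟨s, a, b, -, -, hab, rfl⟩ := hx
        exact (TH.comm_exp h1 (sB g) s hab).symm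
      | one => simp
      | mul x y _ _ hx hy => rw [mul_assoc, hy, ← mul_assoc, hx, mul_assoc]
    rw [fac, ← mul_assoc, c, mul_assoc, TH.comm_θ hθ h1 hB, mul_assoc]

end Pool.Agent.MP_00906f_gt.H91
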