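import Pool.Agent.MP_00906f_gt.H91.Spec

/-! Top degree identities. -/

namespace Pool.Agent.MP_00906f_gt.H91

open H46 IsNilpotent

namespace TOP

section sp

variable {E M : Type} [AddCommGroup E] [Module ℚ E] [AddCommGroup M] [Module ℚ M] {S : Sp E M}

theorem skew (S : Sp E M) (x y : E) : S.ω x y = -S.ω y x := by
  have h := S.alt (x + y)
  simp only [map_add, LinearMap.add_apply, S.alt] at h
  linarith

theorem P_append (x : E) (l : List E) (ξ : E) (m : M) :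
    S.P x l (S.B x ξ m) = S.P x (l ++ [ξ]) m := by
  simp [Sp.P]

theorem P_cons (x ξ : E) (l : List E) (m : M) : S.P x (ξ :: l) m = S.B x ξ (S.P x l m) := by
  simp [Sp.P]

theorem P_rep (x ξ : E) (d : ℕ) : S.P x (List.replicate d ξ) = S.B x ξ ^ d := by
  simp [Sp.P]

/-- The vectors killed by all long products. -/
def UU (S : Sp E M) (x : E) (d : ℕ) : Submodule ℚ M where
  carrier := {v | ∀ l : List E, d ≤ l.length → (∀ ξ ∈ l, S.ω x ξ = 0) → S.P x l v = 0}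
  add_mem' := fun ha hb l h1 h2 => by rw [map_add, ha l h1 h2, hb l h1 h2, add_zero]
  zero_mem' := fun l _ _ => map_zero _
  smul_mem' := fun c v hv l h1 h2 => by rw [map_smul, hv l h1 h2, smul_zero]

theorem P_exp (hL : Log) (h1 : Sp1 S) {U : Submodule ℚ M} {d : ℕ} {x y ξ : E} {m : M}
    (hd : S.DegOn U d) (hxy : S.ω x y = 1) (hm : S.B x y m = 0) (hU : ∀ a b, S.B a b m ∈ U)
    (hξ : S.ω x ξ = 0) (s : ℚ) (l : List E) (hl : l.length = d) (hl' : ∀ ξ ∈ l, S.ω x ξ = 0) :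
    S.P x l (exp (s • S.B x ξ) m) = S.P x l m := by
  have happ : ∀ l : List E, (∀ η ∈ l, S.ω x η = 0) → ∀ η ∈ l ++ [ξ], S.ω x η = 0 := by
    intro l h η hη
    rcases List.mem_append.1 hη with h' | h'
    · exact h η h'
    · rw [List.mem_singleton.1 h', hξ]
  have h := hL.sub' M (s • S.B x ξ) (UU S x d) m ((h1.nil x ξ hξ).smul s)
    (fun v hv => (UU S x d).smul_mem s fun l h2 h3 => by
      rw [P_append]
      exact hv _ (by simp; omega) (happ l h3))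
    ((UU S x d).smul_mem s fun l h2 h3 => by
      rw [P_append]
      exact h1.top U d x y m hd hxy hm hU _ (by simp; omega) (happ l h3))
  have h2 := h l hl.ge hl'
  rwa [map_sub, sub_eq_zero] at h2

theorem exp_fix (hL : Log) (h1 : Sp1 S) {a b : E} (hab : S.ω a b = 0) {m : M}
    (hm : S.B a b m = 0) (s : ℚ) : exp (s • S.B a b) m = m :=
  (hL.fix M _ m ((h1.nil a b hab).smul s)).2 (by rw [LinearMap.smul_apply, hm, smul_zero])

theorem exp_sum (hL : Log) (h1 : Sp1 S) {a b : E} (hab : S.ω a b = 0) {m : M}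
    (ha : S.B a a m = 0) (hb : S.B b b m = 0) (s : ℚ) :
    exp (s • S.B (a + b) (a + b)) m = exp ((2 * s) • S.B a b) m := by
  have hba : S.ω b a = 0 := by rw [skew, hab, neg_zero]
  have e : s • S.B (a + b) (a + b) = (2 * s) • S.B a b + s • S.B a a + s • S.B b b := by
    simp only [map_add, LinearMap.add_apply, S.symm b a]
    module
  have c1 : Commute (S.B a b) (S.B a a) := by
    have := S.br a b a a
    simp only [S.alt, hab, zero_smul, add_zero] at this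
    exact sub_eq_zero.1 this
  have c2 : Commute (S.B a b) (S.B b b) := by
    have := S.br a b b b
    simp only [S.alt, hba, zero_smul, add_zero] at this
    exact sub_eq_zero.1 this
  have c3 : Commute (S.B a a) (S.B b b) := by
    have := S.br a a b b
    simp only [hba, zero_smul, add_zero] at this
    exact sub_eq_zero.1 this
  have n1 := (h1.nil a b hab).smul (2 * s)
  have n2 := (h1.nil a a (S.alt a)).smul s
  have n3 := (h1.nil b b (S.alt b)).smul s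
  have d1 := (c1.smul_left (2 * s)).smul_right s
  rw [e, exp_add_of_commute (((c2.smul_left _).add_left (c3.smul_left _)).smul_right s)
    (d1.isNilpotent_add n1 n2) n3, exp_add_of_commute d1 n1 n2, Module.End.mul_apply,
    Module.End.mul_apply, exp_fix hL h1 (S.alt b) hb, exp_fix hL h1 (S.alt a) ha]

end sp

variable {G H M E : Type} [Group G] [AddCommGroup H] [AddCommGroup M] [Module ℚ M]
  [AddCommGroup E] [Module ℚ E] {D : Dat G H M} {L : Lie D E}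

/-- The values of the form on the first vectors. -/
structure Tab (L : Lie D E) : Prop where
  w01 : L.ω (L.c 0) (L.c 1) = 1
  w02 : L.ω (L.c 0) (L.c 2) = 0
  w03 : L.ω (L.c 0) (L.c 3) = 0
  w04 : L.ω (L.c 0) (L.c 4) = 0
  w10 : L.ω (L.c 1) (L.c 0) = -1
  w12 : L.ω (L.c 1) (L.c 2) = 1
  w13 : L.ω (L.c 1) (L.c 3) = 0
  w14 : L.ω (L.c 1) (L.c 4) = 0
  w20 : L.ω (L.c 2) (L.c 0) = 0
  w21 : L.ω (L.c 2) (L.c 1) = -1
  w23 : L.ω (L.c 2) (L.c 3) = 1
  w30 : L.ω (L.c 3) (L.c 0) = 0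
  w31 : L.ω (L.c 3) (L.c 1) = 0
  w32 : L.ω (L.c 3) (L.c 2) = -1
  w34 : L.ω (L.c 3) (L.c 4) = 1

theorem tab (K : Kit3 L) : Tab L := by
  have h := D.h8
  constructor <;> rw [K.ωc _ _ (by omega) (by omega)] <;> norm_num

/-- A vector in coordinates. -/
def vv (L : Lie D E) (x : E) (a0 a1 a2 a3 : ℚ) : E :=
  x + a0 • L.c 0 + a1 • L.c 1 + a2 • L.c 2 + a3 • L.c 3

theorem om (K : Kit3 L) (x : E) (a0 a1 a2 a3 : ℚ) :
    L.ω (vv L x a0 a1 a2 a3) (L.c 0) = L.ω x (L.c 0) - a1 ∧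
    L.ω (vv L x a0 a1 a2 a3) (L.c 1) = L.ω x (L.c 1) + a0 - a2 ∧
    L.ω (vv L x a0 a1 a2 a3) (L.c 2) = L.ω x (L.c 2) + a1 - a3 ∧
    L.ω (vv L x a0 a1 a2 a3) (L.c 3) = L.ω x (L.c 3) + a2 := by
  have t := tab K
  simp only [vv, map_add, map_smul, LinearMap.add_apply, LinearMap.smul_apply, L.alt, t.w01, t.w02,
    t.w03, t.w10, t.w12, t.w13, t.w20, t.w21, t.w23, t.w30, t.w31, t.w32, smul_eq_mul]
  refine ⟨by ring, by ring, by ring, by ring⟩

theorem rho (K : Kit3 L) (x : E) (a0 a1 a2 a3 : ℚ) :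
    L.ρ (D.σ 0) (vv L x a0 a1 a2 a3) = vv L x (a0 + (L.ω x (L.c 0) - a1)) a1 a2 a3 ∧
    L.ρ (D.σ 1) (vv L x a0 a1 a2 a3) = vv L x a0 (a1 + (L.ω x (L.c 1) + a0 - a2)) a2 a3 ∧
    L.ρ (D.σ 2) (vv L x a0 a1 a2 a3) = vv L x a0 a1 (a2 + (L.ω x (L.c 2) + a1 - a3)) a3 ∧
    L.ρ (D.σ 3) (vv L x a0 a1 a2 a3) = vv L x a0 a1 a2 (a3 + (L.ω x (L.c 3) + a2)) ∧
    L.ρ (D.σ 2)⁻¹ (vv L x a0 a1 a2 a3) = vv L x a0 a1 (a2 - (L.ω x (L.c 2) + a1 - a3)) a3 ∧
    L.ρ (D.σ 3)⁻¹ (vv L x a0 a1 a2 a3) = vv L x a0 a1 a2 (a3 - (L.ω x (L.c 3) + a2)) := by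
  have h := D.h8
  obtain ⟨o0, o1, o2, o3⟩ := om K x a0 a1 a2 a3
  rw [K.ρσ 0 (by omega), K.ρσ 1 (by omega), K.ρσ 2 (by omega), K.ρσ 3 (by omega),
    K.ρσ_inv 2 (by omega), K.ρσ_inv 3 (by omega), o0, o1, o2, o3]
  unfold vv
  refine ⟨by module, by module, by module, by module, by module, by module⟩

/-- The action of an exponential. -/
def ea (L : Lie D E) (s : ℚ) (a b x : E) : E := x + s • L.toSp.act a b x

theorem eac (K : Kit3 L) (s : ℚ) (x : E) (a0 a1 a2 a3 : ℚ) :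
    ea L s (L.c 1) (L.c 1) (vv L x a0 a1 a2 a3) =
      vv L x a0 (a1 + 2 * s * (L.ω x (L.c 1) + a0 - a2)) a2 a3 ∧
    ea L s (L.c 1) (L.c 3) (vv L x a0 a1 a2 a3) =
      vv L x a0 (a1 + s * (L.ω x (L.c 3) + a2)) a2 (a3 + s * (L.ω x (L.c 1) + a0 - a2)) ∧
    ea L s (L.c 1) (L.c 0 + L.c 2) (vv L x a0 a1 a2 a3) =
      vv L x (a0 + s * (L.ω x (L.c 1) + a0 - a2)) (a1 + s * (L.ω x (L.c 0) + L.ω x (L.c 2) - a3))
        (a2 + s * (L.ω x (L.c 1) + a0 - a2)) a3 ∧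
    ea L s (L.c 3) (L.c 0) (vv L x a0 a1 a2 a3) =
      vv L x (a0 + s * (L.ω x (L.c 3) + a2)) a1 a2 (a3 + s * (L.ω x (L.c 0) - a1)) ∧
    ea L s (L.c 0) (L.c 0 + L.c 3) (vv L x a0 a1 a2 a3) =
      vv L x (a0 + s * (2 * (L.ω x (L.c 0) - a1) + L.ω x (L.c 3) + a2)) a1 a2
        (a3 + s * (L.ω x (L.c 0) - a1)) := by
  obtain ⟨o0, o1, o2, o3⟩ := om K x a0 a1 a2 a3
  simp only [ea, Sp.act, map_add, o0, o1, o2, o3]
  unfold vv
  refine ⟨by module, by module, by module, by module, by module⟩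

theorem vv_zero (x : E) : vv L x 0 0 0 0 = x := by simp [vv]

/-- The span of the first four vectors. -/
def W4 (L : Lie D E) : Submodule ℚ E := Submodule.span ℚ (L.c '' {i | i < 4})

theorem c_mem {i : ℕ} (hi : i < 4) : L.c i ∈ W4 L := Submodule.subset_span ⟨i, hi, rfl⟩

/-- Products of exponentials. -/
def Cl (L : Lie D E) : Submonoid (Module.End ℚ M) :=
  Submonoid.closure {u : Module.End ℚ M | ∃ (s : ℚ) (a b : E), a ∈ W4 L ∧ b ∈ W4 L ∧
    L.ω a b = 0 ∧ u = exp (s • L.B a b)}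

/-- A product of exponentials with its action. -/
structure Ok (L : Lie D E) (u : Module.End ℚ M) (f : E → E) : Prop where
  mem : u ∈ Cl L
  act : ∀ a b, u * L.B a b = L.B (f a) (f b) * u

theorem Ok.mul {u v : Module.End ℚ M} {f g : E → E} (hu : Ok L u f) (hv : Ok L v g) :
    Ok L (u * v) fun x => f (g x) :=
  ⟨mul_mem hu.mem hv.mem, fun a b => by
    rw [mul_assoc, hv.act, ← mul_assoc, hu.act, mul_assoc]⟩

theorem Ok.exp (h1 : Sp1 L.toSp) (s : ℚ) {a b : E} (ha : a ∈ W4 L) (hb : b ∈ W4 L)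
    (hab : L.ω a b = 0) : Ok L (exp (s • L.B a b)) (ea L s a b) :=
  ⟨Submonoid.subset_closure ⟨s, a, b, ha, hb, hab, rfl⟩, h1.expc a b hab s⟩

theorem Ok.one (T : Th L) {u : Module.End ℚ M} {f : E → E} (hu : Ok L u f) (hf : ∀ x, f x = x) :
    u = 1 :=
  T.int u hu.mem fun a b => by rw [hu.act, hf, hf]

theorem θ_cancel (T : Th L) (g : G) {m m' : M} (h : T.θ g m = T.θ g m') : m = m' := by
  have h1 := congrArg (T.θ g⁻¹) h
  rwa [← Module.End.mul_apply, ← Module.End.mul_apply, ← map_mul, inv_mul_cancel, map_one] at h1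

theorem θ_mem (T : Th L) {i : ℕ} (hi : i < 4) : T.θ (D.σ i) ∈ Cl L := by
  have h := D.h8
  rw [T.θ_σ i (by omega)]
  exact Submonoid.subset_closure ⟨_, _, _, c_mem hi, c_mem hi, L.alt _, rfl⟩

theorem θ_mem' (h1 : Sp1 L.toSp) (T : Th L) {i : ℕ} (hi : i < 4) : T.θ (D.σ i)⁻¹ ∈ Cl L := by
  have h := D.h8
  have h2 : T.θ (D.σ i)⁻¹ = exp ((-(1 / 2) : ℚ) • L.B (L.c i) (L.c i)) := by
    rw [← mul_one (T.θ _), ← exp_mul_exp_neg_self ((h1.nil _ _ (L.alt (L.c i))).smul (1 / 2 : ℚ)),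
      ← T.θ_σ i (by omega), ← mul_assoc, ← map_mul, inv_mul_cancel, map_one, one_mul, neg_smul]
  rw [h2]
  exact Submonoid.subset_closure ⟨_, _, _, c_mem hi, c_mem hi, L.alt _, rfl⟩

theorem θ_P (h1 : Sp1 L.toSp) (T : Th L) (g : G) (x : E) (l : List E) (m : M) :
    T.θ g (L.toSp.P x l m) = L.toSp.P (L.ρ g x) (l.map (L.ρ g)) (T.θ g m) :=
  LinearMap.congr_fun (h1.conj (T.θ g) (L.ρ g) (T.θ_B g) x l) m

theorem top_e (hL : Log) (h1 : Sp1 L.toSp) (K : Kit3 L) (T : Th L) (d : ℕ) (hd : L.Deg d) (g : G)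
    (hg : g ∈ Par D.σ D.N 1) : ∀ l : List E, l.length = d → (∀ ξ ∈ l, L.ω (L.c 0) ξ = 0) →
      L.toSp.P (L.c 0) l (T.θ g D.t3) = L.F l := by
  have t := tab K
  have hperp : ∀ g ∈ Par D.σ D.N 1, ∀ l : List E, (∀ ξ ∈ l, L.ω (L.c 0) ξ = 0) →
      ∀ ξ ∈ l.map (L.ρ g), L.ω (L.c 0) ξ = 0 := by
    intro g hg l hl ξ hξ
    obtain ⟨η, hη, rfl⟩ := List.mem_map.1 hξ
    rw [← K.par_c0 g hg, K.ρ_ω, hl η hη]
  unfold Lie.F
  induction hg using Subgroup.closure_induction with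
  | mem g hg =>
    obtain ⟨i, ⟨hi, hi1⟩, rfl⟩ := hg
    intro l hl hl'
    by_cases h2 : i = 2
    · subst h2
      have hr : L.ω (L.c 0) (-(L.c 0 + L.c 2)) = 0 := by simp [L.alt, t.w02]
      have h3 : L.B (L.c 2) (L.c 2) =
          L.B (L.c 0 + -(L.c 0 + L.c 2)) (L.c 0 + -(L.c 0 + L.c 2)) := by simp
      rw [T.θ_σ 2 hi, h3, exp_sum hL h1 hr K.sph3.1 (K.sph3.2.2.2 _ _ hr
        (by simp [t.w10, t.w12]) hr (by simp [t.w10, t.w12]))]
      exact P_exp hL h1 hd t.w01 K.sph3.2.1 (fun a b => K.B_MU a b _) hr _ l hl hl'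
    · rw [T.θ_t3 _ (Subgroup.subset_closure ⟨i, ⟨hi, h2⟩, rfl⟩)]
  | one => intro l _ _; rw [map_one]; rfl
  | mul g h hg hh ihg ihh =>
    intro l hl hl'
    have e : (l.map (L.ρ g⁻¹)).map (L.ρ g) = l := by
      rw [List.map_map]
      refine (List.map_congr_left fun ξ _ => ?_).trans (List.map_id l)
      rw [Function.comp_apply, ← Module.End.mul_apply, ← map_mul, mul_inv_cancel, map_one]
      rfl
    have k := θ_P h1 T g (L.c 0) (l.map (L.ρ g⁻¹))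
    rw [K.par_c0 g hg, e] at k
    rw [map_mul, Module.End.mul_apply, ← k, ihh _ (by simpa using hl)
      (hperp _ (inv_mem hg) l hl'), k, ihg l hl hl']
  | inv g hg ih =>
    intro l hl hl'
    refine θ_cancel T g ?_
    rw [θ_P h1, θ_P h1, K.par_c0 g hg, ih _ (by simpa using hl) (hperp g hg l hl'),
      ← Module.End.mul_apply (T.θ g), ← map_mul, mul_inv_cancel, map_one]
    rfl

theorem top_y (hL : Log) (h1 : Sp1 L.toSp) (K : Kit3 L) (hC : Cox D) (T : Th L) (d : ℕ)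
    (hd : L.Deg d) (hd1 : 1 ≤ d) (m : M) (y : E) (hy : L.ω (L.c 0) y = 1)
    (hm : L.B (L.c 0) y m = 0) (l : List E) (hl : l.length = d)
    (hl' : ∀ ξ ∈ l, L.ω (L.c 0) ξ = 0) :
    L.toSp.P (L.c 0) l (D.π (yy D.σ 1 * yy D.σ 2) m) = L.toSp.P (L.c 0) l m := by
  have t := tab K
  have h8 := D.h8
  have hξ : L.ω (L.c 0) (L.c 0 + L.c 3) = 0 := by simp [L.alt, t.w03]
  have m0 : T.θ (yy D.σ 0) ∈ Cl L := by
    simp only [yy, map_pow, map_mul]
    exact pow_mem (mul_mem (θ_mem T (by norm_num)) (θ_mem T (by norm_num))) _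
  have m1 : T.θ (yy D.σ 1) ∈ Cl L := by
    rw [yy, map_mul, map_mul]
    exact mul_mem (mul_mem (θ_mem T (by norm_num)) m0) (θ_mem' h1 T (by norm_num))
  have m2 : T.θ (yy D.σ 2) ∈ Cl L := by
    rw [yy, map_mul, map_mul]
    exact mul_mem (mul_mem (θ_mem T (by norm_num)) m1) (θ_mem' h1 T (by norm_num))
  have r0 : ∀ x a0 a1 a2 a3, L.ρ (yy D.σ 0) (vv L x a0 a1 a2 a3) =
      vv L x (a0 - 2 * (L.ω x (L.c 1) + a0 - a2)) (a1 + 2 * (L.ω x (L.c 0) - a1)) a2 a3 := by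
    intro x a0 a1 a2 a3
    rw [show yy D.σ 0 = D.σ 0 * D.σ 1 * (D.σ 0 * D.σ 1 * (D.σ 0 * D.σ 1)) from pow_three _]
    simp only [map_mul, Module.End.mul_apply, rho K]
    unfold vv
    module
  have ok : Ok L (T.θ (yy D.σ 1 * yy D.σ 2)) (L.ρ (yy D.σ 1 * yy D.σ 2)) :=
    ⟨by rw [map_mul]; exact mul_mem m1 m2, T.θ_B _⟩
  have h2 := (ok.mul (Ok.exp h1 (-2) (c_mem (by norm_num))
    (add_mem (c_mem (by norm_num)) (c_mem (by norm_num))) hξ)).one T fun x => by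
      have e1 : yy D.σ 1 = D.σ 2 * yy D.σ 0 * (D.σ 2)⁻¹ := rfl
      have e2 : yy D.σ 2 = D.σ 3 * (D.σ 2 * yy D.σ 0 * (D.σ 2)⁻¹) * (D.σ 3)⁻¹ := rfl
      conv_lhs => rw [← vv_zero (L := L) x]
      rw [e1, e2]
      simp only [map_mul, Module.End.mul_apply, eac K, rho K, r0]
      unfold vv
      module
  have h3 : T.θ (yy D.σ 1 * yy D.σ 2) = exp ((2 : ℚ) • L.B (L.c 0) (L.c 0 + L.c 3)) := by
    rw [← mul_one (T.θ _), ← exp_neg_mul_exp_self ((h1.nil _ _ hξ).smul (2 : ℚ)), ← mul_assoc,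
      ← neg_smul, h2, one_mul]
  have hp : D.perm (yy D.σ 1 * yy D.σ 2) = 1 := by
    rw [map_mul, hC.yy 1 (by omega), hC.yy 2 (by omega), one_mul]
  have h4 := fun v => LinearMap.congr_fun
    (h1.conj (T.ς (yy D.σ 1 * yy D.σ 2)) id (T.ς_B _) (L.c 0) l) v
  simp only [Module.End.mul_apply, List.map_id, id] at h4
  rw [T.fac, Module.End.mul_apply, ← h4, h3,
    P_exp hL h1 hd hy hm (fun a b => K.B_MU a b _) hξ _ l hl hl']
  obtain _ | ⟨ξ, l⟩ := l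
  · simp at hl
    omega
  · rw [P_cons, T.pure _ hp]

theorem top_b (hL : Log) (h1 : Sp1 L.toSp) (K : Kit3 L) (T : Th L) (d : ℕ) (hd : L.Deg d)
    (l : List E) (hl : l.length = d) (hl' : ∀ ξ ∈ l, ξ ∈ Submodule.span ℚ {L.c 2, L.c 3}) :
    L.toSp.P (L.c 0) l (T.θ (g0 D.σ) D.t3) = (-1 : ℚ) ^ d • L.F l := by
  have t := tab K
  have h8 := D.h8
  obtain ⟨s00, s01, -, sw⟩ := K.sph3
  have hMU := fun m a b => K.B_MU a b m
  have h1r : L.ω (L.c 1) (L.c 0 + L.c 2) = 0 := by simp [t.w10, t.w12]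
  have h0r : L.ω (L.c 0) (L.c 0 + L.c 2) = 0 := by simp [L.alt, t.w02]
  have k1 : ∀ ξ, L.ω (L.c 1) ξ = 0 → L.B (L.c 1) ξ ((L.B (L.c 1) (L.c 3) ^ d) D.t3) = 0 := by
    intro ξ hξ
    rw [← P_rep, ← P_cons]
    refine h1.top _ d (L.c 1) (-L.c 0) _ hd (by simp [t.w10]) (by simp [L.symm (L.c 1), s01])
      (hMU _) _ (by simp) fun η hη => ?_
    rcases List.mem_cons.1 hη with h | h
    · rw [h, hξ]
    · rw [List.eq_of_mem_replicate h, t.w13]
  have k2 : L.B (L.c 3) (L.c 0) ((L.B (L.c 1) (L.c 3) ^ d) D.t3) = 0 := by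
    rw [L.symm (L.c 1), ← P_rep, ← P_cons]
    refine h1.top _ d (L.c 3) (L.c 4) _ hd t.w34 (sw _ _ t.w03 t.w13 t.w04 t.w14)
      (hMU _) _ (by simp) fun η hη => ?_
    rcases List.mem_cons.1 hη with h | h
    · rw [h, t.w30]
    · rw [List.eq_of_mem_replicate h, t.w31]
  have c0 : L.c 0 ∈ W4 L := c_mem (by norm_num)
  have c1 : L.c 1 ∈ W4 L := c_mem (by norm_num)
  have c2 : L.c 2 ∈ W4 L := c_mem (by norm_num)
  have c3 : L.c 3 ∈ W4 L := c_mem (by norm_num)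
  have ok : Ok L (T.θ (D.σ 0 * D.σ 1 * g0 D.σ)) (L.ρ (D.σ 0 * D.σ 1 * g0 D.σ)) := by
    refine ⟨?_, T.θ_B _⟩
    simp only [g0, map_mul]
    repeat' apply mul_mem
    all_goals exact θ_mem T (by norm_num)
  have h2 := (ok.mul ((Ok.exp h1 (-1) c1 (add_mem c0 c2) h1r).mul
    ((Ok.exp h1 1 c3 c0 t.w30).mul ((Ok.exp h1 (-1) c1 (add_mem c0 c2) h1r).mul
      ((Ok.exp h1 1 c1 c3 t.w13).mul (Ok.exp h1 1 c1 c1 (L.alt _))))))).one T fun x => by
      conv_lhs => rw [← vv_zero (L := L) x]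
      simp only [g0, map_mul, Module.End.mul_apply, eac K, rho K]
      unfold vv
      module
  have h3 := LinearMap.congr_fun h2 ((L.B (L.c 1) (L.c 3) ^ d) D.t3)
  simp only [Module.End.mul_apply, Module.End.one_apply, exp_fix hL h1 (L.alt _) (k1 _ (L.alt _)),
    exp_fix hL h1 t.w13 (k1 _ t.w13), exp_fix hL h1 h1r (k1 _ h1r),
    exp_fix hL h1 t.w30 k2] at h3
  have v1 : L.ρ (D.σ 0 * D.σ 1) (L.c 0) = L.c 1 := by
    conv_lhs => rw [← vv_zero (L := L) (L.c 0)]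
    simp only [map_mul, Module.End.mul_apply, rho K, L.alt, t.w01]
    unfold vv
    module
  have v2 : L.ρ (D.σ 0 * D.σ 1) (L.c 3) = L.c 3 := by
    conv_lhs => rw [← vv_zero (L := L) (L.c 3)]
    simp only [map_mul, Module.End.mul_apply, rho K, t.w30, t.w31]
    unfold vv
    module
  have v3 : L.ρ (g0 D.σ) (L.c 0) = L.c 2 := by
    conv_lhs => rw [← vv_zero (L := L) (L.c 0)]
    simp only [g0, map_mul, Module.End.mul_apply, rho K, L.alt, t.w01, t.w02, t.w03]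
    unfold vv
    module
  have v4 : L.ρ (g0 D.σ) (L.c 1) = L.c 3 := by
    conv_lhs => rw [← vv_zero (L := L) (L.c 1)]
    simp only [g0, map_mul, Module.End.mul_apply, rho K, L.alt, t.w10, t.w12, t.w13]
    unfold vv
    module
  have v5 : L.ρ (g0 D.σ) (L.c 3) = -L.c 0 := by
    conv_lhs => rw [← vv_zero (L := L) (L.c 3)]
    simp only [g0, map_mul, Module.End.mul_apply, rho K, L.alt, t.w30, t.w31, t.w32]
    unfold vv
    module
  have p01 : D.σ 0 * D.σ 1 ∈ Par D.σ D.N 2 :=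
    mul_mem (Subgroup.subset_closure ⟨0, ⟨by omega, by omega⟩, rfl⟩)
      (Subgroup.subset_closure ⟨1, ⟨by omega, by omega⟩, rfl⟩)
  have h4 : T.θ (g0 D.σ) ((L.B (L.c 1) (L.c 3) ^ d) D.t3) = (L.B (L.c 0) (L.c 3) ^ d) D.t3 := by
    refine θ_cancel T (D.σ 0 * D.σ 1) ?_
    rw [← Module.End.mul_apply, ← map_mul, h3, ← P_rep (L.c 0), θ_P h1, List.map_replicate, v1, v2,
      T.θ_t3 _ p01, P_rep]
  rw [← P_rep, θ_P h1, List.map_replicate, v4, v5, P_rep, map_neg, L.symm (L.c 3),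
    ← neg_one_smul ℚ (L.B (L.c 0) (L.c 3)), smul_pow, LinearMap.smul_apply] at h4
  obtain ⟨m, hm⟩ : ∃ m, m = T.θ (g0 D.σ) D.t3 := ⟨_, rfl⟩
  have hB : ∀ a b, L.B a b D.t3 = 0 → L.B (L.ρ (g0 D.σ) a) (L.ρ (g0 D.σ) b) m = 0 := by
    intro a b h
    have := LinearMap.congr_fun (T.θ_B (g0 D.σ) a b) D.t3
    rw [Module.End.mul_apply, Module.End.mul_apply, h, map_zero] at this
    rw [hm, ← this]
  rw [← hm] at h4 ⊢
  have m00 : L.B (L.c 0) (L.c 0) m = 0 := by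
    simpa [v5] using hB _ _ (sw _ _ t.w03 t.w13 t.w03 t.w13)
  have m22 : L.B (L.c 2) (L.c 2) m = 0 := by simpa [v3] using hB _ _ s00
  have m0y : L.B (L.c 0) (L.ρ (g0 D.σ) (L.c 0 + L.c 2)) m = 0 := by
    have := hB _ _ (sw _ _ t.w03 t.w13 h0r h1r)
    rwa [v5, map_neg, LinearMap.neg_apply, LinearMap.neg_apply, neg_eq_zero] at this
  have w0y : L.ω (L.c 0) (L.ρ (g0 D.σ) (L.c 0 + L.c 2)) = 1 := by
    have := K.ρ_ω (g0 D.σ) (L.c 3) (L.c 0 + L.c 2)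
    rw [v5, map_neg, LinearMap.neg_apply, map_add (L.ω (L.c 3)), t.w30, t.w32] at this
    linarith
  obtain ⟨q, hq⟩ : ∃ q, q = m - (-1 : ℚ) ^ d • D.t3 := ⟨_, rfl⟩
  have q00 : L.B (L.c 0) (L.c 0) q = 0 := by rw [hq, map_sub, map_smul, m00, s00]; simp
  have q3 : (L.B (L.c 0) (L.c 3) ^ d) q = 0 := by
    rw [hq, map_sub, map_smul, ← h4, smul_smul, ← mul_pow]
    simp
  have qs : ∀ s : ℚ, (L.B (L.c 0) (L.c 3 + s • (L.c 0 + L.c 2)) ^ d) q = 0 := by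
    intro s
    have h5 := LinearMap.congr_fun (h1.conj _ _
      (h1.expc (L.c 0 + L.c 2) (L.c 0 + L.c 2) (L.alt _) (-s / 2)) (L.c 0)
        (List.replicate d (L.c 3))) q
    have e1 : L.c 0 + (-s / 2) • L.toSp.act (L.c 0 + L.c 2) (L.c 0 + L.c 2) (L.c 0) = L.c 0 := by
      simp [Sp.act, h0r]
    have e2 : L.c 3 + (-s / 2) • L.toSp.act (L.c 0 + L.c 2) (L.c 0 + L.c 2) (L.c 3) =
        L.c 3 + s • (L.c 0 + L.c 2) := by
      simp only [Sp.act, map_add, t.w30, t.w32]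
      module
    have hp : ∀ ξ ∈ List.replicate d (L.c 3 + s • (L.c 0 + L.c 2)), L.ω (L.c 0) ξ = 0 := by
      intro ξ hξ
      rw [List.eq_of_mem_replicate hξ, map_add, map_smul, h0r, t.w03]
      simp
    rw [Module.End.mul_apply, Module.End.mul_apply, P_rep, q3, map_zero, List.map_replicate, e1, e2,
      hq, map_sub, map_smul, exp_fix hL h1 (L.alt _) (sw _ _ h0r h1r h0r h1r),
      exp_sum hL h1 t.w02 m00 m22, map_sub,
      P_exp hL h1 hd w0y m0y (hMU _) t.w02 _ _ (by simp) hp, ← map_sub, ← hq, P_rep] at h5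
    exact h5.symm
  have qr : (L.B (L.c 0) (L.c 0 + L.c 2) ^ d) q = 0 :=
    h1.lim (L.c 0) q ⊥ (L.c 3) _ d q00 t.w03 h0r qs
  have hW : ∀ w ∈ Submodule.span ℚ {L.c 0 + L.c 2, L.c 3},
      L.ω (L.c 0) w = 0 ∧ (L.B (L.c 0) w ^ d) q ∈ (⊥ : Submodule ℚ M) := by
    intro w hw
    obtain ⟨a, b, rfl⟩ := Submodule.mem_span_pair.1 hw
    refine ⟨by rw [map_add, map_smul, map_smul, h0r, t.w03]; simp, ?_⟩
    rw [Submodule.mem_bot]
    by_cases hb : b = 0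
    · rw [hb, zero_smul, add_zero, map_smul, smul_pow, LinearMap.smul_apply, qr, smul_zero]
    · have e : a • (L.c 0 + L.c 2) + b • L.c 3 = b • (L.c 3 + (a / b) • (L.c 0 + L.c 2)) := by
        rw [smul_add b, smul_smul, mul_div_cancel₀ _ hb, add_comm]
      rw [e, map_smul, smul_pow, LinearMap.smul_apply, qs, smul_zero]
  have h6 : L.toSp.P (L.c 0) (l.map fun ξ => ξ + L.ω ξ (L.c 3) • L.c 0) q = 0 := by
    refine h1.pol (L.c 0) q ⊥ _ d q00 (fun w hw => (hW w hw).1) (fun w hw => (hW w hw).2) _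
      (by simpa using hl) fun ξ hξ => ?_
    obtain ⟨η, hη, rfl⟩ := List.mem_map.1 hξ
    obtain ⟨a, b, rfl⟩ := Submodule.mem_span_pair.1 (hl' η hη)
    refine Submodule.mem_span_pair.2 ⟨a, b, ?_⟩
    simp only [map_add, map_smul, LinearMap.add_apply, LinearMap.smul_apply, L.alt, t.w23]
    module
  rw [h1.congr E (L.c 0) q l _ id q00 fun η hη => by
    obtain ⟨a, b, rfl⟩ := Submodule.mem_span_pair.1 (hl' η hη)
    simp [L.alt, t.w02, t.w03, q00], List.map_id, hq, map_sub, map_smul, sub_eq_zero] at h6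
  exact h6

end TOP

theorem rowTOP : OfTOP := by
  intro _ _ hL hS hK hC G H M E _ _ _ _ _ _ D L T
  have h1 := hS E M L.toSp
  have K := hK G H M E D L
  exact ⟨TOP.top_e hL h1 K T, TOP.top_b hL h1 K T, fun d hd hd1 m _ ⟨y, hy, hm⟩ =>
    TOP.top_y hL h1 K (hC G H M D) T d hd hd1 m y hy hm⟩

end Pool.Agent.MP_00906f_gt.H91
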