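import Pool.Agent.MP_00906f_gt.H91.Spec

/-! The relation in top degree. -/

namespace Pool.Agent.MP_00906f_gt.H91

open H46 IsNilpotent

namespace TR

variable {G H M E : Type} [Group G] [AddCommGroup H] [AddCommGroup M] [Module ℚ M]
  [AddCommGroup E] [Module ℚ E] {D : Dat G H M} {L : Lie D E}

theorem par (D : Dat G H M) (i : ℕ) (h : 2 ≤ i ∧ i < 8) : D.σ i ∈ Par D.σ D.N 1 :=
  Subgroup.subset_closure ⟨i, ⟨by have := D.h8; omega, by omega⟩, rfl⟩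

theorem eqv (g : G) (a b : E) (m : M) :
    L.B (L.ρ g a) (L.ρ g b) (D.π g m) = D.π g (L.B a b m) :=
  (LinearMap.congr_fun (L.eqv g a b) m).symm

theorem ρ_inv (g : G) (x : E) : L.ρ g (L.ρ g⁻¹ x) = x := by
  rw [← Module.End.mul_apply, ← map_mul, mul_inv_cancel, map_one, Module.End.one_apply]

theorem kill (K : Kit3 L) (g : G) {x y : E} (h1 : L.ω (L.ρ g (L.c 0)) x = 0)
    (h2 : L.ω (L.ρ g (L.c 1)) x = 0) (h3 : L.ω (L.ρ g (L.c 0)) y = 0)
    (h4 : L.ω (L.ρ g (L.c 1)) y = 0) : L.B x y (D.π g D.t3) = 0 := by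
  rw [← ρ_inv (L := L) g x, K.ρ_ω] at h1 h2
  rw [← ρ_inv (L := L) g y, K.ρ_ω] at h3 h4
  rw [← ρ_inv (L := L) g x, ← ρ_inv (L := L) g y, eqv, K.sph3.2.2.2 _ _ h1 h2 h3 h4, map_zero]

theorem ω_val (K : Kit3 L) (i j : ℕ) (hi : i < 8) (hj : j < 8) :
    L.ω (L.c i) (L.c j) = (if j = i + 1 then 1 else 0) - (if i = j + 1 then 1 else 0) :=
  K.ωc i j (by have := D.h8; omega) (by have := D.h8; omega)

theorem ρ_val (K : Kit3 L) (i : ℕ) (hi : i < 8) (x : E) :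
    L.ρ (D.σ i) x = x + L.ω x (L.c i) • L.c i := K.ρσ i (by have := D.h8; omega) x

theorem g0_c (K : Kit3 L) :
    L.ρ (g0 D.σ) (L.c 0) = L.c 2 ∧ L.ρ (g0 D.σ) (L.c 1) = L.c 3 := by
  constructor <;> simp [g0, ρ_val K, ω_val K]

theorem ω_vec (K : Kit3 L) (l : List (ℚ × ℚ × ℚ)) : ∀ ξ ∈ l.map L.vec, L.ω (L.c 0) ξ = 0 := by
  intro ξ h
  obtain ⟨x, -, rfl⟩ := List.mem_map.1 h
  simp [Lie.vec, ω_val K]

theorem P_ς (T : Th L) (S : Sp1 L.toSp) (g : G) (x : E) (l : List E) (m : M) :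
    L.toSp.P x l (D.π g m) = T.ς g (L.toSp.P x l (T.θ g m)) := by
  have := LinearMap.congr_fun (S.conj (T.ς g) id (T.ς_B g) x l) (T.θ g m)
  rw [List.map_id] at this
  rw [T.fac]
  exact this.symm

theorem right (T : Th L) (S : Sp1 L.toSp) (t : Top T) {d : ℕ} (hd : L.Deg d) {g : G}
    (hg : g ∈ Par D.σ D.N 1) {l : List E} (hl : l.length = d)
    (h0 : ∀ ξ ∈ l, L.ω (L.c 0) ξ = 0) :
    L.toSp.P (L.c 0) l (D.π g D.t3) = T.ς g (L.F l) := by
  rw [P_ς T S, t.e d hd g hg l hl h0]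

theorem beta (T : Th L) (S : Sp1 L.toSp) (K : Kit3 L) (t : Top T) {d : ℕ} (hd : L.Deg d) {h : G}
    (hh : h ∈ Par D.σ D.N 1) (hr : L.ρ h (L.c 2 + L.c 4) = L.c 2 + L.c 4)
    {l : List (ℚ × ℚ × ℚ)} (hl : l.length = d) (p : ℚ × ℚ × ℚ → E) (s a b : ℚ × ℚ × ℚ → ℚ)
    (h1 : ∀ x, p x = L.vec x - s x • (L.c 2 + L.c 4))
    (h2 : ∀ x, p x = a x • L.ρ h (L.c 2) + b x • L.ρ h (L.c 3)) :
    L.toSp.P (L.c 0) (l.map L.vec) (D.π (h * g0 D.σ) D.t3) =
      (-1 : ℚ) ^ d • T.ς (h * g0 D.σ) (L.F (l.map p)) := by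
  have c0 := K.par_c0 h hh
  have k : ∀ y, L.ω (L.c 2) y = 0 → L.ω (L.c 3) y = 0 → L.ρ h y = y →
      L.B (L.c 0) y (D.π (h * g0 D.σ) D.t3) = 0 := fun y y1 y2 y3 => by
    rw [map_mul, Module.End.mul_apply, ← y3, ← c0, eqv,
      kill K _ _ _ (by rw [(g0_c K).1, y1]) (by rw [(g0_c K).2, y2]), map_zero]
    · simp [g0_c K, ω_val K]
    · simp [g0_c K, ω_val K]
  have hp : ∀ x, L.ω (L.c 0) (p x) = 0 := fun x => by simp [h1, Lie.vec, ω_val K]
  have e : l.map p = (l.map fun x => a x • L.c 2 + b x • L.c 3).map (L.ρ h) := by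
    rw [List.map_map]
    exact List.map_congr_left fun x _ => by simp [h2]
  have q := fun m => LinearMap.congr_fun
    (S.conj (T.θ h) (L.ρ h) (T.θ_B h) (L.c 0) (l.map fun x => a x • L.c 2 + b x • L.c 3)) m
  simp only [Module.End.mul_apply, c0, ← e] at q
  rw [S.congr _ _ _ l L.vec p (k _ (by simp [ω_val K]) (by simp [ω_val K]) c0) fun x hx =>
      ⟨ω_vec K l _ (List.mem_map_of_mem hx), hp x, by
        rw [h1, sub_sub_cancel, map_smul, LinearMap.smul_apply,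
          k _ (by simp [ω_val K]) (by simp [ω_val K]) hr, smul_zero]⟩,
    P_ς T S, map_mul T.θ, Module.End.mul_apply, ← q,
    t.b d hd _ (by rw [List.length_map, hl]), map_smul, map_smul, Lie.F, q,
    t.e d hd h hh _ (by rw [List.length_map, hl])]
  · intro ξ hξ
    obtain ⟨x, -, rfl⟩ := List.mem_map.1 hξ
    exact hp x
  · intro ξ hξ
    obtain ⟨x, -, rfl⟩ := List.mem_map.1 hξ
    exact Submodule.mem_span_pair.2 ⟨_, _, rfl⟩

theorem fx (K2 : Kit2 D) (g : G) (h0 : L.ω (L.c 0) (L.ρ g (L.c 0)) = 0)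
    (h1 : L.ω (L.c 0) (L.ρ g (L.c 1)) = 0) : D.Fx (D.π g D.t3) := by
  simp only [Lie.c, L.ρ_ι, L.ω_ι, Int.cast_eq_zero] at h0 h1
  exact (K2.τ_perp g 0 (by simp) h0 h1 (by simp) (by simp)).1

end TR

open TR in
theorem rowTR : OfTR := by
  intro _ hK2 hREL hSP1 hK3 hTOP G H M E _ _ _ _ _ _ D L T d hd d1 l hl
  have K2 : Kit2 D := hK2 G H M D
  have R : Rel D := hREL G H M D
  have S : Sp1 L.toSp := hSP1 E M L.toSp
  have K : Kit3 L := hK3 G H M E D L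
  have t : Top T := hTOP G H M E D L T
  have h8 := D.h8
  have hl' : (l.map L.vec).length = d := by rw [List.length_map, hl]
  have s2 := par D 2 (by omega)
  have s3 := par D 3 (by omega)
  have s4 := par D 4 (by omega)
  have y := fun m a b => t.y d hd d1 m a b _ hl' (ω_vec K l)
  have i5 : L.B (L.c 0) (L.c 1) D.t5 = 0 :=
    K.in5 _ (Submodule.subset_span ⟨0, by simp, rfl⟩) _ (Submodule.subset_span ⟨1, by simp, rfl⟩)
  have w01 : L.ω (L.c 0) (L.c 1) = 1 := by simp [ω_val K]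
  have y1 := y (D.π (D.σ 4) D.t5) (K2.Fx_π _ (.inl (by
      rw [D.ρσ 4 (by omega), D.ch2 0 4 (by omega) (by omega), zero_smul, add_zero])) _ K2.Fx_t5)
    ⟨L.c 1, w01, by
      have := eqv (L := L) (D.σ 4) (L.c 0) (L.c 1) D.t5
      simpa [ρ_val K, ω_val K, i5] using this⟩
  have y2 := y D.t5 K2.Fx_t5 ⟨L.c 1, w01, i5⟩
  have y3 := y (D.π (D.σ 4 * g0 D.σ) D.t3)
    (fx (L := L) K2 _ (by simp [g0_c K, ρ_val K, ω_val K]) (by simp [g0_c K, ρ_val K, ω_val K]))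
    ⟨L.c 1 + L.c 3 + L.c 4, by simp [ω_val K], by
      apply kill K <;> simp [g0_c K, ρ_val K, ω_val K]⟩
  have y4 := y (D.π (g0 D.σ) D.t3)
    (fx (L := L) K2 _ (by simp [g0_c K, ω_val K]) (by simp [g0_c K, ω_val K]))
    ⟨L.c 1 + L.c 3, by simp [ω_val K], by apply kill K <;> simp [g0_c K, ω_val K]⟩
  have b0 := beta T S K t hd (mul_mem (mul_mem s2 s3) s4) (by simp [ρ_val K, ω_val K]) hl L.p0
    _ (fun x => x.2.1) (fun x => x.2.2 - x.1) (fun _ => rfl) fun x => by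
      simp [ρ_val K, ω_val K, Lie.p0, Lie.vec]
      module
  have b1 := beta T S K t hd (mul_mem s3 s4) (by simp [ρ_val K, ω_val K]) hl L.p1
    _ (fun x => x.2.1) (fun x => x.2.2 - x.1 + x.2.1) (fun _ => rfl) fun x => by
      simp [ρ_val K, ω_val K, Lie.p1, Lie.vec]
      module
  have b2 := beta T S K t hd s4 (by simp [ρ_val K, ω_val K]) hl L.p2
    _ (fun x => x.1 - x.2.2 + x.2.1) (fun x => x.2.1) (fun _ => rfl) fun x => by
      simp [ρ_val K, ω_val K, Lie.p2, Lie.vec]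
      module
  have b3 := beta T S K t hd (one_mem _) (by simp) hl L.p3
    _ (fun x => x.1 - x.2.2) (fun x => x.2.1) (fun _ => rfl) fun x => by
      simp [Lie.p3, Lie.vec]
      module
  rw [one_mul] at b3
  have r1 := right T S t hd (g := w1 D.σ) (mul_mem (mul_mem (mul_mem (mul_mem (inv_mem s3)
    (inv_mem s4)) (inv_mem s4)) (inv_mem s3)) s2) hl' (ω_vec K l)
  have r2 := right T S t hd (g := w2 D.σ) (mul_mem s3 (inv_mem s2)) hl' (ω_vec K l)
  have r3 := right T S t hd (g := w3 D.σ) (mul_mem (mul_mem (inv_mem s4) (inv_mem s3)) s2) hl'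
    (ω_vec K l)
  rw [← Module.End.mul_apply (D.π _), ← map_mul] at y1 y3 y4
  have := congrArg (L.toSp.P (L.c 0) (l.map L.vec)) R
  rw [mul_assoc (yy D.σ 1 * _) (D.σ 4) (g0 D.σ)] at this
  simp only [map_add, map_sub, y1, y2, y3, y4, b0, b1, b2, b3, r1, r2, r3] at this
  simp only [map_add, map_sub, smul_add, smul_sub]
  exact this

end Pool.Agent.MP_00906f_gt.H91
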