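import Pool.Agent.MP_00906f_gt.H91.Spec

/-! The fourth power of a twist acts unipotently. -/

namespace Pool.Agent.MP_00906f_gt.H91

open H46

namespace U

variable {G H M : Type} [Group G] [AddCommGroup H] [AddCommGroup M] [Module ℚ M] {D : Dat G H M}

/-- The vectors fixed by the first generator. -/
def FF (D : Dat G H M) : Submodule ℚ M := LinearMap.ker (D.π (D.σ 0) - 1)

theorem mem_FF {m : M} : m ∈ FF D ↔ D.Fx m := by
  rw [FF, LinearMap.mem_ker, LinearMap.sub_apply, sub_eq_zero]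
  rfl

/-- The translations as a commutative ring acting on the fixed vectors. -/
structure Pk (D : Dat G H M) (R : Type) [CommRing R] where
  φ : R →+* Module.End ℚ (FF D)
  x : H → R
  φx : ∀ l, D.ω (D.c 0) l = 0 → ∀ m : FF D, (φ (x l) m : M) = D.τ l m
  add : ∀ l l', D.ω (D.c 0) l = 0 → D.ω (D.c 0) l' = 0 → x (l + l') = x l * x l'
  zero : x 0 = 1

theorem pack (K : Kit2 D) :
    Nonempty (Pk D (AddMonoidAlgebra ℚ (LinearMap.ker (D.ω (D.c 0))))) := by
  classical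
  let T : LinearMap.ker (D.ω (D.c 0)) → Module.End ℚ (FF D) := fun l =>
    (D.τ l).restrict fun m hm => mem_FF.2 (K.Fx_τ l l.2 m (mem_FF.1 hm))
  have hT : ∀ l (m : FF D), (T l m : M) = D.τ l m := fun _ _ => rfl
  let Θ : Multiplicative (LinearMap.ker (D.ω (D.c 0))) →* Module.End ℚ (FF D) :=
    { toFun := fun l => T l.toAdd
      map_one' := by
        refine LinearMap.ext fun m => Subtype.ext ?_
        rw [hT, toAdd_one, ZeroMemClass.coe_zero, K.τ_zero]
        rfl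
      map_mul' := fun a b => by
        refine LinearMap.ext fun m => Subtype.ext ?_
        rw [Module.End.mul_apply, hT, hT, hT, toAdd_mul, Submodule.coe_add]
        exact K.τ_add _ _ a.toAdd.2 b.toAdd.2 m (mem_FF.1 m.2) }
  refine ⟨⟨(AddMonoidAlgebra.lift ℚ _ _ Θ).toRingHom, fun l =>
    if h : D.ω (D.c 0) l = 0 then AddMonoidAlgebra.single ⟨l, h⟩ 1 else 1, ?_, ?_, ?_⟩⟩
  · intro l hl m
    rw [dif_pos hl]
    change (AddMonoidAlgebra.lift ℚ _ _ Θ (AddMonoidAlgebra.single ⟨l, hl⟩ 1) m : M) = _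
    rw [AddMonoidAlgebra.lift_single, one_smul]
    rfl
  · intro l l' hl hl'
    rw [dif_pos hl, dif_pos hl', dif_pos (by rw [map_add, hl, hl', add_zero]),
      AddMonoidAlgebra.single_mul_single, mul_one]
    rfl
  · rw [dif_pos (map_zero _)]
    rfl

variable {R : Type} [CommRing R] (P : Pk D R)

/-- `r` acts as `f`. -/
def Rep (r : R) (f : Module.End ℚ M) : Prop := ∀ m : FF D, (P.φ r m : M) = f m

theorem Rep.mul {r r' : R} {f f' : Module.End ℚ M} (h : Rep P r f) (h' : Rep P r' f') :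
    Rep P (r * r') (f * f') := fun m => by
  rw [map_mul, Module.End.mul_apply, h, h', Module.End.mul_apply]

theorem Rep.sub_one {r : R} {f : Module.End ℚ M} (h : Rep P r f) : Rep P (r - 1) (f - 1) :=
  fun m => by
    rw [map_sub, map_one, LinearMap.sub_apply, Submodule.coe_sub, h, LinearMap.sub_apply]
    rfl

theorem Rep.sq {r : R} {f : Module.End ℚ M} (h : Rep P r f) : Rep P (r ^ 2) (f ^ 2) := by
  rw [pow_two, pow_two]
  exact h.mul P h

/-- `g` conjugates `r` to `r'`. -/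
def Cj (g : G) (r r' : R) : Prop :=
  ∀ m m' : FF D, (m' : M) = D.π g m → (P.φ r' m' : M) = D.π g (P.φ r m)

theorem Cj.one (g : G) : Cj P g 1 1 := fun m m' h => by
  rw [map_one]
  exact h

theorem Cj.mul {g : G} {r r' s s' : R} (h : Cj P g r r') (h' : Cj P g s s') :
    Cj P g (r * s) (r' * s') := fun m m' e => by
  rw [map_mul, map_mul, Module.End.mul_apply, Module.End.mul_apply]
  exact h _ _ (h' m m' e)

theorem Cj.sub_one {g : G} {r r' : R} (h : Cj P g r r') : Cj P g (r - 1) (r' - 1) :=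
  fun m m' e => by
    rw [map_sub, map_sub, map_one, LinearMap.sub_apply, LinearMap.sub_apply, Submodule.coe_sub,
      Submodule.coe_sub, map_sub, h m m' e, Module.End.one_apply, Module.End.one_apply, e]

theorem Cj.pow {g : G} {r r' : R} (h : Cj P g r r') (n : ℕ) : Cj P g (r ^ n) (r' ^ n) := by
  induction n with
  | zero => rw [pow_zero, pow_zero]; exact Cj.one P g
  | succ n ih => rw [pow_succ, pow_succ]; exact ih.mul P h

variable (K : Kit2 D)

theorem perp_ρ {g : G} (hg : D.ρ g (D.c 0) = D.c 0) {l : H} (hl : D.ω (D.c 0) l = 0) :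
    D.ω (D.c 0) (D.ρ g l) = 0 := by
  rw [← hl, ← D.toSys.ρ_ω (D.hB g) (D.c 0) l, hg]

include K in
theorem Cj.x {g : G} (hg : D.ρ g (D.c 0) = D.c 0) {l l' : H} (hl : D.ω (D.c 0) l = 0)
    (e : D.ρ g l = l') : Cj P g (P.x l) (P.x l') := fun m m' h => by
  subst e
  rw [P.φx _ (perp_ρ hg hl), P.φx _ hl, h, ← Module.End.mul_apply, ← K.τ_conj g l hg hl,
    Module.End.mul_apply]

/-- The vector `t3` as a fixed vector. -/
def tt : FF D := ⟨D.t3, mem_FF.2 K.Fx_t3⟩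

/-- The annihilator of `t3`. -/
def Ann : Ideal R where
  carrier := {r | P.φ r (tt K) = 0}
  add_mem' := fun {a b} ha hb => by
    rw [Set.mem_setOf_eq] at *
    rw [map_add, LinearMap.add_apply, ha, hb, add_zero]
  zero_mem' := by rw [Set.mem_setOf_eq, map_zero, LinearMap.zero_apply]
  smul_mem' := fun c a ha => by
    rw [Set.mem_setOf_eq] at *
    rw [smul_eq_mul, map_mul, Module.End.mul_apply, ha, map_zero]

theorem mem_Ann {r : R} : r ∈ Ann P K ↔ P.φ r (tt K) = 0 := Iff.rfl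

theorem x_neg {l : H} (hl : D.ω (D.c 0) l = 0) : P.x (-l) * P.x l = 1 := by
  rw [← P.add _ _ (by rw [map_neg, hl, neg_zero]) hl, neg_add_cancel, P.zero]

theorem transfer {g : G} {l : H} (hl : D.ω (D.c 0) l = 0) (ht : D.π g D.t3 = D.τ l D.t3)
    {r r' : R} (h : Cj P g r r') (hr : r ∈ Ann P K) : r' ∈ Ann P K := by
  have h1 := h (tt K) (P.φ (P.x l) (tt K)) (by rw [P.φx l hl]; exact ht.symm)
  rw [(mem_Ann P K).1 hr, ZeroMemClass.coe_zero, map_zero, ZeroMemClass.coe_eq_zero,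
    ← Module.End.mul_apply, ← map_mul] at h1
  have h2 := (Ann P K).mul_mem_left (P.x (-l)) h1
  rwa [mul_left_comm, x_neg P hl, mul_one] at h2

include K in
theorem exγ {u b : H} (hu : D.toSys.V u) (hub : D.ω u b = 0) (hu0 : D.ω (D.c 0) u = 0)
    (hb0 : D.ω (D.c 0) b = 0) :
    ∃ γ, (∀ y, D.ρ γ y = y + (2 * D.ω u y) • b + (2 * D.ω b y) • u) ∧ D.ρ γ (D.c 0) = D.c 0 ∧
      ∃ l, D.ω (D.c 0) l = 0 ∧ D.π γ D.t3 = D.τ l D.t3 := by
  obtain ⟨γ, hγ⟩ := K.ex u b hu hub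
  have h0 : D.ρ γ (D.c 0) = D.c 0 := by
    rw [hγ, D.toSys.skew u, D.toSys.skew b, hu0, hb0]
    simp
  have hl : D.ω (D.c 0) (D.ω u (D.c 1) • b + D.ω b (D.c 1) • u) = 0 := by
    rw [map_add, map_smul, map_smul, hu0, hb0]
    simp
  refine ⟨γ, hγ, h0, _, hl, ?_⟩
  have := K.τ_t3 1 γ _ 0 hl (by simp) h0 (by rw [hγ, map_one, Module.End.one_apply]; module)
  rwa [map_one, Module.End.one_apply] at this

theorem ωc (D : Dat G H M) {i j : ℕ} (hi : i < 8) (hj : j < 8) :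
    D.ω (D.c i) (D.c j) = (if j = i + 1 then 1 else 0) - (if i = j + 1 then 1 else 0) :=
  D.toSys.lat_ωcc (hi.trans_le D.h8) (hj.trans_le D.h8)

theorem ρs (D : Dat G H M) {i : ℕ} (hi : i < 8) (y : H) :
    D.ρ (D.σ i) y = y + D.ω y (D.c i) • D.c i := D.ρσ i (hi.trans_le D.h8) y

theorem first (hS : S0 D) {z : H} (h0 : D.ω (D.c 0) z = 0) (h2 : D.ω (D.c 2) z = 0)
    (h3 : D.ω (D.c 3) z = 0) (h4 : D.ω (D.c 4) z = 0) (h5 : D.ω (D.c 5) z = 0) :
    (P.x (D.c 4) - 1) * ((P.x (D.c 2) - 1) ^ 2 * (P.x z - 1) ^ 2) ∈ Ann P K := by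
  have c02 : D.ω (D.c 0) (D.c 2) = 0 := by rw [ωc D] <;> norm_num
  have c03 : D.ω (D.c 0) (D.c 3) = 0 := by rw [ωc D] <;> norm_num
  have c04 : D.ω (D.c 0) (D.c 4) = 0 := by rw [ωc D] <;> norm_num
  have c34 : D.ω (D.c 3) (D.c 4) = 1 := by rw [ωc D] <;> norm_num
  have c43 : D.ω (D.c 4) (D.c 3) = -1 := by rw [ωc D] <;> norm_num
  have c42 : D.ω (D.c 4) (D.c 2) = 0 := by rw [ωc D] <;> norm_num
  have key : ∀ g, D.ρ g (D.c 0) = D.c 0 → D.ρ g (D.c 3) = D.c 4 →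
      (D.τ (D.c 4) - 1 : Module.End ℚ M) (D.π g D.t5) = 0 := by
    intro g e0 e3
    have h := K.τ_t5 0 1
    rw [zero_smul, one_smul, zero_add] at h
    rw [LinearMap.sub_apply, ← Module.End.mul_apply, ← e3, ← K.τ_conj g _ e0 c03,
      Module.End.mul_apply, h, Module.End.one_apply, sub_self]
  have a0 : D.ρ (D.σ 3 * D.σ 4) (D.c 0) = D.c 0 := by
    rw [D.toSys.lat_ρ_mul, ρs D (i := 4) (by norm_num), c04, zero_smul, add_zero,
      ρs D (by norm_num), c03, zero_smul, add_zero]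
  have a3 : D.ρ (D.σ 3 * D.σ 4) (D.c 3) = D.c 4 := by
    rw [D.toSys.lat_ρ_mul, ρs D (i := 4) (by norm_num), c34, ρs D (by norm_num), map_add,
      LinearMap.add_apply, D.alt, one_smul, c43]
    module
  have h := hS (D.τ (D.c 4) - 1) (fun g e0 e4 m _ => ?_) (fun l hl m hm => ?_)
    (key _ ?_ ?_) (key _ a0 a3) z h0 h2 h3 h4 h5
  · have hr : Rep P ((P.x (D.c 4) - 1) * ((P.x (D.c 2) - 1) ^ 2 * (P.x z - 1) ^ 2)) _ :=
      (Rep.sub_one P (P.φx _ c04)).mul P
        (((Rep.sub_one P (P.φx _ c02)).sq P).mul P ((Rep.sub_one P (P.φx _ h0)).sq P))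
    exact (mem_Ann P K).2 (Subtype.ext ((hr (tt K)).trans h))
  · have := K.τ_conj g _ e0 c04
    rw [e4] at this
    rw [LinearMap.sub_apply, LinearMap.sub_apply, map_sub, ← Module.End.mul_apply, ← this]
    rfl
  · rw [LinearMap.sub_apply, LinearMap.sub_apply, map_sub, ← K.τ_add _ _ c04 hl m hm,
      ← K.τ_add _ _ hl c04 m hm, add_comm]
    rfl
  · rw [mul_assoc, D.toSys.lat_ρ_mul, a0, ρs D (by norm_num), c02, zero_smul, add_zero]
  · rw [mul_assoc, D.toSys.lat_ρ_mul, a3, ρs D (by norm_num), c42, zero_smul, add_zero]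

theorem second (hS : S0 D) {z : H} (h0 : D.ω (D.c 0) z = 0) (h2 : D.ω (D.c 2) z = 0)
    (h3 : D.ω (D.c 3) z = 0) (h4 : D.ω (D.c 4) z = 0) (h5 : D.ω (D.c 5) z = 0) :
    P.x z ^ 2 - 1 ∈ (Ann P K).radical := by
  have h8 := D.h8
  have c02 : D.ω (D.c 0) (D.c 2) = 0 := by rw [ωc D] <;> norm_num
  have c03 : D.ω (D.c 0) (D.c 3) = 0 := by rw [ωc D] <;> norm_num
  have c04 : D.ω (D.c 0) (D.c 4) = 0 := by rw [ωc D] <;> norm_num
  have c05 : D.ω (D.c 0) (D.c 5) = 0 := by rw [ωc D] <;> norm_num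
  have c52 : D.ω (D.c 5) (D.c 2) = 0 := by rw [ωc D] <;> norm_num
  have c53 : D.ω (D.c 5) (D.c 3) = 0 := by rw [ωc D] <;> norm_num
  have c54 : D.ω (D.c 5) (D.c 4) = -1 := by rw [ωc D] <;> norm_num
  have c43 : D.ω (D.c 4) (D.c 3) = -1 := by rw [ωc D] <;> norm_num
  have c42 : D.ω (D.c 4) (D.c 2) = 0 := by rw [ωc D] <;> norm_num
  have c32 : D.ω (D.c 3) (D.c 2) = -1 := by rw [ωc D] <;> norm_num
  have z2 : D.ω z (D.c 2) = 0 := by rw [D.toSys.skew, h2, neg_zero]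
  have z4 : D.ω z (D.c 4) = 0 := by rw [D.toSys.skew, h4, neg_zero]
  have hz : D.ω (D.c 0) (-z) = 0 := by rw [map_neg, h0, neg_zero]
  have xx : ∀ l, D.ω (D.c 0) l = 0 → P.x (l + z + z) = P.x l * P.x z ^ 2 := fun l hl => by
    rw [P.add _ _ (by rw [map_add, hl, h0, add_zero]) h0, P.add _ _ hl h0]
    ring
  have r1 := first P K hS h0 h2 h3 h4 h5
  obtain ⟨γ, hγ, e0, l, hl, ht⟩ := exγ K (D.toSys.V_c D.hN (i := 5) (by omega))
    (by rw [map_neg, h5, neg_zero]) c05 hz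
  have r2 := transfer P K hl ht (((Cj.x P K e0 c04 (l' := D.c 4 + z + z)
    (by rw [hγ, c54, map_neg, LinearMap.neg_apply, z4]; module)).sub_one P).mul P
    ((((Cj.x P K e0 c02 (l' := D.c 2)
      (by rw [hγ, c52, map_neg, LinearMap.neg_apply, z2]; module)).sub_one P).pow P 2).mul P
    (((Cj.x P K e0 h0 (l' := z)
      (by rw [hγ, h5, map_neg, LinearMap.neg_apply, D.alt]; module)).sub_one P).pow P 2))) r1
  rw [xx _ c04] at r2
  have r3 : (P.x z ^ 2 - 1) * ((P.x (D.c 2) - 1) ^ 2 * (P.x z - 1) ^ 2) ∈ Ann P K := by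
    have := (Ann P K).sub_mem r2 ((Ann P K).mul_mem_left (P.x z ^ 2) r1)
    refine (congrArg (· ∈ Ann P K) ?_).mp this
    ring
  have hV : D.toSys.V (D.c 3 + D.c 4 + D.c 5) :=
    D.toSys.V_add (D.toSys.V_c D.hN (by omega)) (D.toSys.V_add (D.toSys.V_c D.hN (by omega))
      (D.toSys.V_c D.hN (by omega)) (by rw [c43]; norm_num)) (by rw [map_add, c53, c54]; norm_num)
  have uz : D.ω (D.c 3 + D.c 4 + D.c 5) z = 0 := by
    rw [map_add, map_add, LinearMap.add_apply, LinearMap.add_apply, h3, h4, h5]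
    norm_num
  have u2 : D.ω (D.c 3 + D.c 4 + D.c 5) (D.c 2) = -1 := by
    rw [map_add, map_add, LinearMap.add_apply, LinearMap.add_apply, c32, c42, c52]
    norm_num
  obtain ⟨γ, hγ, e0, l, hl, ht⟩ := exγ K hV (by rw [map_neg, uz, neg_zero])
    (by rw [map_add, map_add, c03, c04, c05]; norm_num) hz
  have cz := Cj.x P K e0 h0 (l' := z)
    (by rw [hγ, uz, map_neg, LinearMap.neg_apply, D.alt]; module)
  have r4 := transfer P K hl ht (((cz.pow P 2).sub_one P).mul P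
    ((((Cj.x P K e0 c02 (l' := D.c 2 + z + z)
      (by rw [hγ, u2, map_neg, LinearMap.neg_apply, z2]; module)).sub_one P).pow P 2).mul P
    ((cz.sub_one P).pow P 2))) r3
  rw [xx _ c02] at r4
  refine ⟨6, ?_⟩
  generalize P.x z = X at r3 r4 ⊢
  generalize P.x (D.c 2) = b at r3 r4
  have := (Ann P K).add_mem
    ((Ann P K).mul_mem_left ((X + 1) ^ 2 * ((b * X ^ 2 - 1) - 3 * X ^ 2 * (b - 1))) r4)
    ((Ann P K).mul_mem_left ((X + 1) ^ 2 * (3 * X ^ 4 * (b * X ^ 2 - 1) - X ^ 6 * (b - 1))) r3)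
  refine (congrArg (· ∈ Ann P K) ?_).mp this
  ring

/-- The translations whose squares are unipotent on `t3`. -/
def LL : AddSubgroup H where
  carrier := {l | D.ω (D.c 0) l = 0 ∧ P.x l ^ 2 - 1 ∈ (Ann P K).radical}
  zero_mem' := ⟨map_zero _, by rw [P.zero, one_pow, sub_self]; exact zero_mem _⟩
  add_mem' := fun {a b} ha hb => ⟨by rw [map_add, ha.1, hb.1, add_zero], by
    have := add_mem (Ideal.mul_mem_left _ (P.x a ^ 2) hb.2) ha.2
    rw [P.add _ _ ha.1 hb.1]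
    refine (congrArg (· ∈ (Ann P K).radical) ?_).mp this
    ring⟩
  neg_mem' := fun {a} ha => ⟨by rw [map_neg, ha.1, neg_zero], by
    have := Ideal.mul_mem_left _ (-P.x (-a) ^ 2) ha.2
    refine (congrArg (· ∈ (Ann P K).radical) ?_).mp this
    rw [mul_sub, neg_mul, ← mul_pow, x_neg P ha.1]
    ring⟩

theorem LL_σ (K1 : Kit1 D) {i : ℕ} (h3 : 3 ≤ i) (hi : i < D.N) {l : H} (hl : l ∈ LL P K) :
    l + D.ω l (D.c i) • D.c i ∈ LL P K := by
  have e0 : D.ρ (D.σ i) (D.c 0) = D.c 0 := by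
    rw [D.ρσ i hi, D.ch2 0 i (by omega) hi, zero_smul, add_zero]
  rw [← D.ρσ i hi]
  obtain ⟨n, hn⟩ := hl.2
  refine ⟨perp_ρ e0 hl.1, n, transfer P K (l := 0) (map_zero _) ?_
    ((((Cj.x P K e0 hl.1 rfl).pow P 2).sub_one P).pow P n) hn⟩
  rw [K.τ_zero, K1.par3 _ (Subgroup.subset_closure ⟨i, ⟨hi, by omega⟩, rfl⟩)]
  rfl

theorem all (K1 : Kit1 D) (hS : S0 D) {l : H} (hl : D.ω (D.c 0) l = 0) : l ∈ LL P K := by
  have h8 := D.h8
  have up : ∀ i, 3 ≤ i + 1 → i + 1 < D.N → D.c i ∈ LL P K → D.c (i + 1) ∈ LL P K := by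
    intro i h1 h2 h
    have := sub_mem (LL_σ P K K1 h1 h2 h) h
    rwa [D.ch1 i h2, one_smul, add_sub_cancel_left] at this
  have down : ∀ i, 3 ≤ i → i + 1 < D.N → D.c (i + 1) ∈ LL P K → D.c i ∈ LL P K := by
    intro i h1 h2 h
    have := sub_mem h (LL_σ P K K1 h1 (by omega) h)
    rwa [D.toSys.skew, D.ch1 i h2, neg_smul, one_smul, ← sub_eq_add_neg, sub_sub_cancel] at this
  have c7 : D.c 7 ∈ LL P K := by
    have h : ∀ i, i ≤ 5 → D.ω (D.c i) (D.c 7) = 0 := fun i hi => D.ch2 i 7 (by omega) (by omega)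
    exact ⟨h 0 (by omega), second P K hS (h 0 (by omega)) (h 2 (by omega)) (h 3 (by omega))
      (h 4 (by omega)) (h 5 (by omega))⟩
  have c6 := down 6 (by omega) (by omega) c7
  have c4 := down 4 (by omega) (by omega) (down 5 (by omega) (by omega) c6)
  have c2 : D.c 2 ∈ LL P K := by
    have h : ∀ i, i ≤ 5 → i ≠ 1 → D.ω (D.c i) (D.c 2 + D.c 4 + D.c 6) = 0 := by
      intro i h1 h2
      rw [map_add, map_add, ωc D (by omega) (by omega), ωc D (by omega) (by omega),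
        ωc D (by omega) (by omega)]
      interval_cases i <;> simp at h2 ⊢
    have h' : D.c 2 + D.c 4 + D.c 6 ∈ LL P K :=
      ⟨h 0 (by omega) (by omega), second P K hS (h 0 (by omega) (by omega))
        (h 2 (by omega) (by omega)) (h 3 (by omega) (by omega)) (h 4 (by omega) (by omega))
        (h 5 (by omega) (by omega))⟩
    have := sub_mem (sub_mem h' c6) c4
    rwa [add_sub_cancel_right, add_sub_cancel_right] at this
  have hc : ∀ i, i + 2 < D.N → D.c (i + 2) ∈ LL P K := by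
    intro i
    induction i with
    | zero => exact fun _ => c2
    | succ i ih => exact fun h => up (i + 2) (by omega) h (ih (by omega))
  have c0 : D.c 0 ∈ LL P K := by
    refine ⟨D.alt _, Ideal.le_radical ((mem_Ann P K).2 (Subtype.ext ?_))⟩
    have h := K.τ_c0 1 _ K.Fx_t3
    rw [one_smul] at h
    rw [(((Rep.sq P (P.φx _ (D.alt _))).sub_one P) (tt K) :), pow_two, LinearMap.sub_apply,
      Module.End.mul_apply]
    change D.τ _ (D.τ _ D.t3) - D.t3 = 0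
    rw [h, h, sub_self]
  obtain ⟨y, hy, j, rfl⟩ := D.toSys.decomp D.hN (by omega) (D.hL l) hl
  refine add_mem ?_ (zsmul_mem c0 j)
  refine D.toSys.shift.lat_ind (P := fun y => y ∈ LL P K) (fun i hi => hc i ?_) (zero_mem _)
    (fun _ _ _ _ => add_mem) (fun n _ _ h => zsmul_mem h n) hy
  have : i < D.N - 2 := hi
  omega

include P K in
theorem third (K1 : Kit1 D) (hS : S0 D) (h : G) (hv : D.ω (D.c 0) (D.ρ h (D.c 0)) = 0) :
    ∃ n, ((D.π (h * D.σ 0 ^ 4 * h⁻¹) - 1) ^ n : Module.End ℚ M) D.t3 = 0 := by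
  have hA := K1.conjσ h 4
  rw [show (4 : ℤ) = ((4 : ℕ) : ℤ) from rfl, zpow_natCast] at hA
  generalize h * D.σ 0 ^ 4 * h⁻¹ = A at hA ⊢
  generalize D.ρ h (D.c 0) = v at hA hv
  have e0 : D.ρ A (D.c 0) = D.c 0 := by rw [hA, hv, mul_zero, zero_smul, add_zero]
  set w := D.ω (D.c 1) v • v with hw
  have w0 : D.ω (D.c 0) w = 0 := by rw [hw, map_smul, hv, smul_zero]
  have ww0 : D.ω (D.c 0) (w + w) = 0 := by rw [map_add, w0, add_zero]
  have ht : D.π A D.t3 = D.τ (w + w) D.t3 := by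
    have := K.τ_t3 1 A _ 0 ww0 (by simp) e0
      (by rw [hA, map_one, Module.End.one_apply, hw]; push_cast; module)
    rwa [map_one, Module.End.one_apply] at this
  have hc : Cj P A (P.x (w + w)) (P.x (w + w)) := Cj.x P K e0 ww0 (by
    rw [hA, hw, ← add_smul, map_smul, LinearMap.smul_apply, D.alt]
    simp)
  have key : ∀ n, ((D.π A - 1) ^ n : Module.End ℚ M) D.t3 =
      P.φ ((P.x (w + w) - 1) ^ n) (tt K) := by
    intro n
    induction n with
    | zero => rw [pow_zero, pow_zero, map_one]; rfl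
    | succ n ih =>
      rw [pow_succ', Module.End.mul_apply, ih, LinearMap.sub_apply,
        ← (hc.sub_one P).pow P n (tt K) (P.φ (P.x (w + w)) (tt K))
          (by rw [P.φx _ ww0]; exact ht.symm), pow_succ, mul_sub, mul_one, map_sub, map_mul,
        LinearMap.sub_apply, Submodule.coe_sub]
      rfl
  obtain ⟨n, hn⟩ := (all P K K1 hS w0).2
  refine ⟨n, ?_⟩
  rw [key, P.add _ _ w0 w0, ← pow_two, (mem_Ann P K).1 hn, ZeroMemClass.coe_zero]

end U

open U in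
theorem rowU : OfU := by
  intro hK1 hK2 hS0 hW G H M _ _ _ _ D
  have K1 := hK1 G H M D
  have K := hK2 G H M D
  have hS := hS0 G H M D
  have hw := hW G H M D
  have := D.fin
  obtain ⟨P⟩ := pack K
  set ν : Module.End ℚ M := D.π (D.σ 0 ^ 4) - 1 with hν
  have mem : ∀ m, m ∈ ν.maxGenEigenspace 0 ↔ ∃ n, (ν ^ n) m = 0 := fun m => by
    rw [Module.End.mem_maxGenEigenspace]
    simp only [zero_smul, sub_zero]
  have h3 : ∀ g, D.π g D.t3 ∈ ν.maxGenEigenspace 0 := by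
    intro g
    obtain ⟨γ, hγ, h0⟩ := K1.gam (D.ρ g⁻¹ (D.c 0))
    obtain ⟨n, hn⟩ := third P K K1 hS (g * γ)⁻¹ (by
      rw [← D.toSys.ρ_ω (D.hB γ), mul_inv_rev, D.toSys.lat_ρ_mul, D.toSys.lat_ρ_ρ_inv, h0])
    have hs : SemiconjBy (D.π (g * γ)) (D.π ((g * γ)⁻¹ * D.σ 0 ^ 4 * (g * γ)⁻¹⁻¹) - 1) ν := by
      refine SemiconjBy.sub_right ?_ (SemiconjBy.one_right _)
      rw [SemiconjBy, ← map_mul, ← map_mul]
      congr 1
      group
    refine (mem _).2 ⟨n, ?_⟩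
    rw [← K1.par3 γ hγ, ← Module.End.mul_apply (D.π g), ← map_mul, ← Module.End.mul_apply,
      ← (hs.pow_right n).eq, Module.End.mul_apply, hn, map_zero]
  have hU : D.MU ≤ ν.maxGenEigenspace 0 := Submodule.span_le.2 (by
    rintro _ ⟨g, rfl⟩
    exact h3 g)
  have htop : (⊤ : Submodule ℚ M) ≤ ν.maxGenEigenspace 0 := by
    rw [← K1.gen]
    refine Submodule.span_le.2 ?_
    rintro _ (⟨g, rfl⟩ | ⟨g, rfl⟩)
    · exact h3 g
    · have h1 := sub_mem (hw (D.σ 0 ^ 4 * g)) (hw g)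
      rw [sub_sub_sub_cancel_right, map_mul, Module.End.mul_apply] at h1
      obtain ⟨n, hn⟩ := (mem _).1 (hU h1)
      exact (mem _).2 ⟨n + 1, by rw [pow_succ, Module.End.mul_apply]; exact hn⟩
  exact Module.End.isNilpotent_iff_of_finite.2 fun m => (mem m).1 (htop Submodule.mem_top)

end Pool.Agent.MP_00906f_gt.H91
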