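import Pool.Agent.MP_00906f_gt.H91.Spec

/-! The three layers are added. -/

namespace Pool.Agent.MP_00906f_gt.H91

namespace UP

theorem c2 (n : ℕ) : 2 * (n + 1).choose 2 = (n + 1) * n := by
  have := Nat.add_one_mul_choose_eq n 1
  rw [Nat.choose_one_right] at this
  linarith

theorem c4 (n : ℕ) : 24 * (n + 4).choose 4 = (n + 4) * (n + 3) * (n + 2) * (n + 1) := by
  have h1 := Nat.add_one_mul_choose_eq (n + 3) 3
  have h2 := Nat.add_one_mul_choose_eq (n + 2) 2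
  have h3 := c2 (n + 1)
  simp only [add_assoc, Nat.reduceAdd] at h1 h2 h3
  calc 24 * (n + 4).choose 4 = 6 * ((n + 4).choose 4 * 4) := by ring
    _ = 2 * (n + 4) * ((n + 3).choose 3 * 3) := by rw [← h1]; ring
    _ = (n + 4) * (n + 3) * (2 * (n + 2).choose 2) := by rw [← h2]; ring
    _ = _ := by rw [h3]; ring

end UP

theorem rowUP : OfUP := by
  intro hP2 hP1 hF2 hF5 G H M _ _ _ _ D g hg
  have := D.fin
  obtain ⟨S, hS, s2, h2⟩ := hP2 G H M D
  obtain ⟨S', hS', s1, h1⟩ := hP1 G H _ (D.quot S hS) fun h => by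
    have e : ∀ m, ((D.quot S hS).π ((D.quot S hS).σ 0 ^ 4) - 1) (S.mkQ m) =
        S.mkQ ((D.π (D.σ 0 ^ 4) - 1) m) := fun m => rfl
    have := (Submodule.Quotient.mk_eq_zero S).2 (h2 h)
    rwa [sq, Module.End.mul_apply, D.quot_t3, D.quot_π, e, e, ← Module.End.mul_apply, ← sq]
  obtain ⟨F, hF⟩ := hF2 G H _ ((D.quot S hS).quot S' hS') (by
    refine LinearMap.ext fun x => ?_
    obtain ⟨m, rfl⟩ := S'.mkQ_surjective x
    exact (Submodule.Quotient.eq S').2 (h1 m))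
  have s0 := hF5 _ F
  have e1 := S.finrank_quotient_add_finrank
  have e2 := S'.finrank_quotient_add_finrank
  have h8 := D.h8
  obtain ⟨m, rfl⟩ : ∃ m, g = m + 1 := ⟨g - 1, by omega⟩
  have n1 : D.N = 2 * m + 2 := by omega
  have n2 : (D.quot S hS).N = 2 * m + 2 := n1
  have n3 : F.N = 2 * m + 2 := hF.trans n1
  rw [n1, Nat.add_sub_cancel] at s2
  rw [n2, Nat.add_sub_cancel] at s1
  rw [n3] at s0
  have a2 := UP.c2 (2 * m + 2)
  have a4 := UP.c4 (2 * m)
  rw [show 2 * m + 2 + 2 = 2 * m + 4 from rfl] at s0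
  nlinarith

end Pool.Agent.MP_00906f_gt.H91
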