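import Pool.Agent.MP_00906f_gt.H91.Spec

/-! The module generated by a spherical vector of degree one. -/

namespace Pool.Agent.MP_00906f_gt.H91

namespace V11

variable {E M : Type} [AddCommGroup E] [Module ℚ E] [AddCommGroup M] [Module ℚ M] (S : Sp E M)

theorem skew (a b : E) : S.ω a b = -S.ω b a := by
  have := S.alt (a + b)
  simp only [map_add, LinearMap.add_apply, S.alt] at this
  linarith

theorem comm (a b c d : E) (m : M) : S.B a b (S.B c d m) = S.B c d (S.B a b m) +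
    (S.ω c a • S.B b d m + S.ω c b • S.B a d m + S.ω d a • S.B c b m + S.ω d b • S.B c a m) := by
  have := LinearMap.congr_fun (S.br a b c d) m
  simp only [LinearMap.sub_apply, LinearMap.add_apply, LinearMap.smul_apply,
    Module.End.mul_apply] at this
  rw [← this, add_sub_cancel]

theorem dec {x y : E} (h : S.ω x y = 1) (v : E) : ∃ (α β : ℚ) (u : E), S.ω x u = 0 ∧ S.ω y u = 0 ∧
    v = α • x + β • y + u := by
  have h' : S.ω y x = -1 := by rw [skew, h]
  refine ⟨-S.ω y v, S.ω x v, v + S.ω y v • x - S.ω x v • y, ?_, ?_, by module⟩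
  · simp [S.alt, h]
  · simp [S.alt, h']

theorem red {x y : E} (h : S.ω x y = 1) {T : Submodule ℚ M} {m : M} (h1 : S.B x x m ∈ T)
    (h2 : S.B x y m ∈ T) (h3 : S.B y y m ∈ T)
    (h4 : ∀ u, S.ω x u = 0 → S.ω y u = 0 → S.B x u m ∈ T)
    (h5 : ∀ u, S.ω x u = 0 → S.ω y u = 0 → S.B y u m ∈ T)
    (h6 : ∀ u u', S.ω x u = 0 → S.ω y u = 0 → S.ω x u' = 0 → S.ω y u' = 0 → S.B u u' m ∈ T)
    (a b : E) : S.B a b m ∈ T := by
  obtain ⟨α, β, u, u1, u2, rfl⟩ := dec S h a
  obtain ⟨α', β', u', u1', u2', rfl⟩ := dec S h b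
  have a1 := h4 u u1 u2
  have a2 := h5 u u1 u2
  simp only [map_add, map_smul, LinearMap.add_apply, LinearMap.smul_apply]
  refine T.add_mem (T.add_mem (T.smul_mem _ ?_) (T.smul_mem _ ?_)) ?_
  · exact T.add_mem (T.add_mem (T.smul_mem _ h1) (T.smul_mem _ (S.symm x y ▸ h2)))
      (S.symm x u ▸ a1)
  · exact T.add_mem (T.add_mem (T.smul_mem _ h2) (T.smul_mem _ h3)) (S.symm y u ▸ a2)
  · exact T.add_mem (T.add_mem (T.smul_mem _ (h4 u' u1' u2')) (T.smul_mem _ (h5 u' u1' u2')))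
      (h6 u u' u1 u2 u1' u2')

theorem comm_mem {T : Submodule ℚ M} {a b c d : E} {m : M} (h1 : S.B c d (S.B a b m) ∈ T)
    (h2 : ∀ a b, S.B a b m ∈ T) : S.B a b (S.B c d m) ∈ T := by
  rw [comm]
  exact T.add_mem h1 (T.add_mem (T.add_mem (T.add_mem (T.smul_mem _ (h2 _ _))
    (T.smul_mem _ (h2 _ _))) (T.smul_mem _ (h2 _ _))) (T.smul_mem _ (h2 _ _)))

end V11

open V11 in
theorem rowV11 : OfV11 := by
  intro hSP hD E M _ _ _ _ S x y q U n w hxy hq hU qU hw hsp
  have := S.fin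
  have hyx : S.ω y x = -1 := by rw [skew, hxy]
  obtain ⟨q1, q2, q3, q4⟩ := hq
  have top : ∀ a b ξ η, S.ω a b = 1 → S.B a b q = 0 → S.ω a ξ = 0 → S.ω a η = 0 →
      S.B a ξ (S.B a η q) = 0 := fun a b ξ η h1 h2 h3 h4 => by
    have := (hSP E M S).top U 1 a b q hU h1 h2 (fun a b => hU.1 a b q qU) [ξ, η] (by simp)
      (by simp [h3, h4])
    simpa [Sp.P] using this
  have tx := fun ξ η => top x y ξ η hxy q2
  have ty := fun ξ η => top y (-x) ξ η (by simp [hyx]) (by simp [S.symm y x, q2])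
  have anti : ∀ u, S.ω x u = 0 → S.ω y u = 0 → S.B y u (S.B x u q) = 0 := by
    intro u u1 u2
    by_cases hu : u = 0
    · simp [hu]
    obtain ⟨z, hz⟩ := S.nd u hu
    obtain ⟨α, β, z', z1, z2, rfl⟩ := dec S hxy z
    have a1 : S.ω u x = 0 := by rw [skew, u1, neg_zero]
    have a2 : S.ω u y = 0 := by rw [skew, u2, neg_zero]
    rw [S.symm y, S.symm x]
    exact top u z' y x (by simpa [a1, a2] using hz) (q4 u z' u1 u2 z1 z2) a2 a1
  obtain ⟨T, hT⟩ : ∃ T : Submodule ℚ M, T = Submodule.span ℚ (Set.range fun i => S.B x (w i) q) ⊔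
      Submodule.span ℚ (Set.range fun i => S.B y (w i) q) ⊔
      Submodule.span ℚ {m | ∃ i j, m = S.B y (w i) (S.B x (w j) q)} := ⟨_, rfl⟩
  have cf : ∀ u, S.ω x u = 0 → S.ω y u = 0 → ∃ c : Fin n → ℚ, ∑ i, c i • w i = u :=
    fun u u1 u2 => (Submodule.mem_span_range_iff_exists_fun ℚ).1 (hsp u u1 u2)
  have mA : ∀ u, S.ω x u = 0 → S.ω y u = 0 → S.B x u q ∈ T := fun u u1 u2 => by
    obtain ⟨c, rfl⟩ := cf u u1 u2
    simp only [map_sum, map_smul, LinearMap.sum_apply, LinearMap.smul_apply]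
    exact T.sum_mem fun i _ => T.smul_mem _ (hT ▸ Submodule.mem_sup_left
      (Submodule.mem_sup_left (Submodule.subset_span ⟨i, rfl⟩)))
  have mB : ∀ u, S.ω x u = 0 → S.ω y u = 0 → S.B y u q ∈ T := fun u u1 u2 => by
    obtain ⟨c, rfl⟩ := cf u u1 u2
    simp only [map_sum, map_smul, LinearMap.sum_apply, LinearMap.smul_apply]
    exact T.sum_mem fun i _ => T.smul_mem _ (hT ▸ Submodule.mem_sup_left
      (Submodule.mem_sup_right (Submodule.subset_span ⟨i, rfl⟩)))
  have mC : ∀ u u', S.ω x u = 0 → S.ω y u = 0 → S.ω x u' = 0 → S.ω y u' = 0 →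
      S.B y u (S.B x u' q) ∈ T := fun u u' u1 u2 u1' u2' => by
    obtain ⟨c, rfl⟩ := cf u u1 u2
    obtain ⟨c', rfl⟩ := cf u' u1' u2'
    simp only [map_sum, map_smul, LinearMap.sum_apply, LinearMap.smul_apply]
    exact T.sum_mem fun i _ => T.smul_mem _ (T.sum_mem fun j _ => T.smul_mem _
      (hT ▸ Submodule.mem_sup_right (Submodule.subset_span ⟨_, _, rfl⟩)))
  have s0 : ∀ a b, S.B a b q ∈ T := red S hxy (q1 ▸ T.zero_mem) (q2 ▸ T.zero_mem)
    (q3 ▸ T.zero_mem) mA mB fun u u' u1 u2 u1' u2' => q4 u u' u1 u2 u1' u2' ▸ T.zero_mem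
  have z : ∀ {a b c d : E}, S.B a b q = 0 → S.B a b (S.B c d q) ∈ T := fun h =>
    comm_mem S (by rw [h, map_zero]; exact T.zero_mem) s0
  have s1 : ∀ v, S.ω x v = 0 → S.ω y v = 0 → ∀ a b, S.B a b (S.B x v q) ∈ T := fun v v1 v2 =>
    red S hxy (z q1) (z q2) (z q3) (fun u u1 _ => tx u v u1 v1 ▸ T.zero_mem)
      (fun u u1 u2 => mC u v u1 u2 v1 v2) fun u u' u1 u2 u1' u2' => z (q4 u u' u1 u2 u1' u2')
  have s2 : ∀ v, S.ω x v = 0 → S.ω y v = 0 → ∀ a b, S.B a b (S.B y v q) ∈ T := fun v v1 v2 =>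
    red S hxy (z q1) (z q2) (z q3) (fun u u1 u2 => comm_mem S (mC v u v1 v2 u1 u2) s0)
      (fun u _ u2 => ty u v u2 v2 ▸ T.zero_mem) fun u u' u1 u2 u1' u2' => z (q4 u u' u1 u2 u1' u2')
  have s3 : ∀ v v', S.ω x v = 0 → S.ω y v = 0 → S.ω x v' = 0 → S.ω y v' = 0 →
      ∀ a b, S.B a b (S.B y v (S.B x v' q)) ∈ T := fun v v' v1 v2 v1' v2' => by
    have k := fun a b h => comm_mem S (a := a) (b := b) (c := y) (d := v) h (s1 v' v1' v2')
    have a1 : S.ω v' x = 0 := by rw [skew, v1', neg_zero]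
    have a2 : S.ω v' y = 0 := by rw [skew, v2', neg_zero]
    refine red S hxy (k _ _ ?_) (k _ _ ?_) (k _ _ ?_) (fun u u1 u2 => k _ _ ?_)
      (fun u u1 u2 => k _ _ ?_) fun u u' u1 u2 u1' u2' => k _ _ ?_
    · rw [tx x v' (S.alt x) v1', map_zero]; exact T.zero_mem
    · rw [comm S x y x v']
      simpa [q2, S.alt, hxy, a1, a2] using mC v v' v1 v2 v1' v2'
    · rw [comm S y y x v']
      simp [q3, hxy, a2, ty v v' v2 v2']
    · rw [tx u v' u1 v1', map_zero]; exact T.zero_mem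
    · rw [comm S y u x v']
      simp only [hxy, u1, a2, q2, q4 u v' u1 u2 v1' v2', smul_zero, zero_smul, add_zero]
      exact comm_mem S (by rw [ty v u v2 u2, map_zero]; exact T.zero_mem) (s2 u u1 u2)
    · rw [comm S u u' x v']
      simp only [u1, u1', q4 u u' u1 u2 u1' u2', zero_smul, map_zero, zero_add, map_add, map_smul]
      exact T.add_mem (T.smul_mem _ (mC v u' v1 v2 u1' u2')) (T.smul_mem _ (mC v u v1 v2 u1 u2))
  refine ⟨T, fun a b => ?_, s0, ?_⟩
  · change T ≤ T.comap (S.B a b)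
    conv_lhs => rw [hT]
    refine sup_le (sup_le (Submodule.span_le.2 ?_) (Submodule.span_le.2 ?_))
      (Submodule.span_le.2 ?_)
    · rintro _ ⟨i, rfl⟩
      exact s1 _ (hw i).1 (hw i).2 a b
    · rintro _ ⟨i, rfl⟩
      exact s2 _ (hw i).1 (hw i).2 a b
    · rintro _ ⟨i, j, rfl⟩
      exact s3 _ _ (hw i).1 (hw i).2 (hw j).1 (hw j).2 a b
  · have d1 := finrank_range_le_card (R := ℚ) fun i => S.B x (w i) q
    have d2 := finrank_range_le_card (R := ℚ) fun i => S.B y (w i) q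
    have d3 := hD.d11 M n (fun i j => S.B y (w i) (S.B x (w j) q)) fun i j => by
      have := anti (w i + w j) (by simp [(hw i).1, (hw j).1]) (by simp [(hw i).2, (hw j).2])
      simp only [map_add, LinearMap.add_apply, anti _ (hw i).1 (hw i).2,
        anti _ (hw j).1 (hw j).2, zero_add, add_zero] at this
      rwa [add_comm]
    have d4 := Submodule.finrank_add_le_finrank_add_finrank
      (Submodule.span ℚ (Set.range fun i => S.B x (w i) q))
      (Submodule.span ℚ (Set.range fun i => S.B y (w i) q))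
    have d5 := Submodule.finrank_add_le_finrank_add_finrank
      (Submodule.span ℚ (Set.range fun i => S.B x (w i) q) ⊔
        Submodule.span ℚ (Set.range fun i => S.B y (w i) q))
      (Submodule.span ℚ {m | ∃ i j, m = S.B y (w i) (S.B x (w j) q)})
    rw [Set.finrank, Fintype.card_fin] at d1 d2
    rw [← hT] at d5
    omega

end Pool.Agent.MP_00906f_gt.H91
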