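import Pool.Agent.MP_00906f_gt.H91.Spec

/-! The module generated by the top vectors of degree two. -/

namespace Pool.Agent.MP_00906f_gt.H91

namespace V22

open Module Submodule

variable {E M : Type} [AddCommGroup E] [Module ℚ E] [AddCommGroup M] [Module ℚ M] (S : Sp E M)

theorem skew (a b : E) : S.ω a b = -S.ω b a := by
  have h := S.alt (a + b)
  simp only [map_add, LinearMap.add_apply, S.alt] at h
  linarith

theorem cm (a b c d : E) (m : M) : S.B a b (S.B c d m) = S.B c d (S.B a b m) +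
    (S.ω c a • S.B b d m + S.ω c b • S.B a d m + S.ω d a • S.B c b m + S.ω d b • S.B c a m) :=
  sub_eq_iff_eq_add'.1 (LinearMap.congr_fun (S.br a b c d) m)

/-- the orthogonal complement of the plane -/
def Wm (x y w : E) : Prop := S.ω x w = 0 ∧ S.ω y w = 0

/-- weight vectors generated from the top vectors by the lowering operators -/
inductive Wd (x y : E) (q : M) : ℤ → M → Prop
  | base (a b : E) (ha : Wm S x y a) (hb : Wm S x y b) : Wd x y q 2 (S.B x a (S.B x b q))
  | low (w : E) (hw : Wm S x y w) {k j : ℤ} {v : M} (h : Wd x y q k v) (e : j + 1 = k) :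
      Wd x y q j (S.B y w v)
  | ff {k j : ℤ} {v : M} (h : Wd x y q k v) (e : j + 2 = k) : Wd x y q j (S.B y y v)
  | zero (k : ℤ) : Wd x y q k 0
  | add {k : ℤ} {u v : M} (hu : Wd x y q k u) (hv : Wd x y q k v) : Wd x y q k (u + v)
  | smul {k : ℤ} (c : ℚ) {v : M} (hv : Wd x y q k v) : Wd x y q k (c • v)

variable {S} {x y : E} {q : M} {U : Submodule ℚ M}

theorem Wm.x' {w : E} (h : Wm S x y w) : S.ω w x = 0 := by rw [skew, h.1, neg_zero]

theorem Wm.y' {w : E} (h : Wm S x y w) : S.ω w y = 0 := by rw [skew, h.2, neg_zero]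

theorem proj (h : S.ω x y = 1) (a : E) :
    ∃ w, Wm S x y w ∧ a = (-S.ω y a) • x + S.ω x a • y + w := by
  have h' : S.ω y x = -1 := by rw [skew, h]
  refine ⟨a - ((-S.ω y a) • x + S.ω x a • y), ⟨?_, ?_⟩, by abel⟩
  · simp [S.alt, h]
  · simp [S.alt, h']

theorem wt (h : S.ω x y = 1) (hq : S.Sph x y q) {k : ℤ} {v : M} (hv : Wd S x y q k v) :
    S.B x y v = (k : ℚ) • v := by
  have h' : S.ω y x = -1 := by rw [skew, h]
  induction hv with
  | base a b ha hb =>
    rw [cm S x y x a, cm S x y x b, hq.2.1]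
    simp only [S.alt, h, ha.x', ha.y', hb.x', hb.y', zero_smul, one_smul, map_zero, zero_add,
      add_zero]
    module
  | low w hw _ e ih =>
    rw [cm S x y y w, ih, ← e]
    simp only [S.alt, h', hw.x', hw.y', map_smul]
    module
  | ff _ e ih =>
    rw [cm S x y y y, ih, ← e]
    simp only [S.alt, h', map_smul]
    module
  | zero => simp
  | add _ _ h1 h2 => rw [map_add, h1, h2, smul_add]
  | smul c _ h1 => rw [map_smul, h1, smul_comm]

theorem zz (hq : S.Sph x y q) {a b : E} (ha : Wm S x y a) (hb : Wm S x y b) {k : ℤ} {v : M}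
    (hv : Wd S x y q k v) : Wd S x y q k (S.B a b v) := by
  induction hv with
  | base c d hc hd =>
    rw [cm S a b x c, cm S a b x d, hq.2.2.2 a b ha.1 ha.2 hb.1 hb.2]
    simp only [ha.1, hb.1, zero_smul, map_zero, zero_add, map_add, map_smul]
    exact (((Wd.base c b hc hb).smul _).add ((Wd.base c a hc ha).smul _)).add
      (((Wd.base b d hb hd).smul _).add ((Wd.base a d ha hd).smul _))
  | low w hw h e ih =>
    rw [cm S a b y w]
    simp only [ha.2, hb.2, zero_smul, zero_add]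
    exact (ih.low w hw e).add (((h.low b hb e).smul _).add ((h.low a ha e).smul _))
  | ff h e ih =>
    rw [cm S a b y y]
    simp only [ha.2, hb.2, zero_smul, add_zero]
    exact ih.ff e
  | zero => exact (map_zero (S.B a b)).symm ▸ Wd.zero _
  | add _ _ h1 h2 => exact map_add (S.B a b) _ _ ▸ h1.add h2
  | smul c _ h1 => exact map_smul (S.B a b) _ _ ▸ h1.smul c

theorem up (h1 : Sp1 S) (h : S.ω x y = 1) (hq : S.Sph x y q) (hU : S.DegOn U 2) (hqU : q ∈ U)
    {a : E} (ha : Wm S x y a) {k : ℤ} {v : M} (hv : Wd S x y q k v) :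
    Wd S x y q (k + 1) (S.B x a v) := by
  have h' : S.ω y x = -1 := by rw [skew, h]
  induction hv with
  | base c d hc hd =>
    have := h1.top U 2 x y q hU h hq.2.1 (fun a b => hU.1 a b q hqU) [a, c, d] le_rfl (by
      simp [ha.1, hc.1, hd.1])
    simp only [Sp.P, List.map, List.prod_cons, List.prod_nil, mul_one, Module.End.mul_apply] at this
    exact this ▸ Wd.zero _
  | low w hw hv e ih =>
    subst e
    rw [cm S x a y w, S.symm y x, wt h hq hv]
    simp only [ha.2, hw.x', zero_smul, add_zero]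
    exact (ih.low w hw rfl).add (((zz hq ha hw hv).smul _).add ((hv.smul _).smul _))
  | ff hv e ih =>
    subst e
    rw [cm S x a y y, S.symm a y]
    simp only [ha.2, zero_smul, add_zero]
    exact (ih.ff (by ring)).add (((hv.low a ha (by ring)).smul _).add
      ((hv.low a ha (by ring)).smul _))
  | zero => exact (map_zero (S.B x a)).symm ▸ Wd.zero _
  | add _ _ h1 h2 => exact map_add (S.B x a) _ _ ▸ h1.add h2
  | smul c _ h1 => exact map_smul (S.B x a) _ _ ▸ h1.smul c

theorem eX {a : E} (ha : S.ω x a = 0) (m : M) : S.B x x (S.B x a m) = S.B x a (S.B x x m) := by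
  rw [cm S x x x a, skew S a x, ha]
  simp [S.alt]

theorem ee (h1 : Sp1 S) (h : S.ω x y = 1) (hq : S.Sph x y q) (hU : S.DegOn U 2) (hqU : q ∈ U)
    {k : ℤ} {v : M} (hv : Wd S x y q k v) : Wd S x y q (k + 2) (S.B x x v) := by
  induction hv with
  | base c d hc hd =>
    rw [eX hc.1, eX hd.1, hq.1, map_zero, map_zero]
    exact Wd.zero _
  | @low w hw k j v hv e ih =>
    subst e
    have h2 := up h1 h hq hU hqU hw hv
    rw [add_assoc, one_add_one_eq_two] at h2
    rw [cm S x x y w]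
    simp only [hw.x', zero_smul, add_zero]
    exact (ih.low w hw (by ring)).add ((h2.smul _).add (h2.smul _))
  | ff hv e ih =>
    subst e
    rw [cm S x x y y, S.symm y x, wt h hq hv]
    exact (ih.ff rfl).add (((((hv.smul _).smul _).add ((hv.smul _).smul _)).add
      ((hv.smul _).smul _)).add ((hv.smul _).smul _))
  | zero => exact (map_zero (S.B x x)).symm ▸ Wd.zero _
  | add _ _ h1 h2 => exact map_add (S.B x x) _ _ ▸ h1.add h2
  | smul c _ h1 => exact map_smul (S.B x x) _ _ ▸ h1.smul c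

theorem memU (hU : S.Stab U) (hqU : q ∈ U) {k : ℤ} {v : M} (hv : Wd S x y q k v) : v ∈ U := by
  induction hv with
  | base c d _ _ => exact hU _ _ _ (hU _ _ _ hqU)
  | low w _ _ _ ih => exact hU _ _ _ ih
  | ff _ _ ih => exact hU _ _ _ ih
  | zero => exact U.zero_mem
  | add _ _ h1 h2 => exact U.add_mem h1 h2
  | smul c _ h1 => exact U.smul_mem c h1

theorem fe (h : S.ω x y = 1) (m : M) :
    S.B y y (S.B x x m) = S.B x x (S.B y y m) + (4 : ℚ) • S.B x y m := by
  rw [cm S y y x x, h, S.symm y x]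
  module

theorem neg3 (h1 : Sp1 S) (h : S.ω x y = 1) (hq : S.Sph x y q) (hU : S.DegOn U 2) (hqU : q ∈ U)
    {k : ℤ} {v : M} (hv : Wd S x y q k v) (hk : k ≤ -3) : v = 0 := by
  have key : ∀ (k : ℤ) (v : M), Wd S x y q k v → k ≤ -3 → S.B y y v = 0 → v = 0 := by
    intro k v hv hk hf
    have hk' : (k : ℚ) ≤ -3 := by exact_mod_cast hk
    have w1 := ee h1 h hq hU hqU hv
    have w2 := ee h1 h hq hU hqU w1
    have e3 : S.B x x (S.B x x (S.B x x v)) = 0 := hU.2 x v (memU hU.1 hqU hv)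
    have f1 : S.B y y (S.B x x v) = (4 * k : ℚ) • v := by
      rw [fe h, hf, wt h hq hv, map_zero]
      module
    have f2 : S.B y y (S.B x x (S.B x x v)) = (8 * k + 8 : ℚ) • S.B x x v := by
      rw [fe h, f1, wt h hq w1, map_smul]
      module
    have f3 : S.B y y (S.B x x (S.B x x (S.B x x v))) =
        (12 * k + 24 : ℚ) • S.B x x (S.B x x v) := by
      rw [fe h, f2, wt h hq w2, map_smul]
      module
    rw [e3, map_zero] at f3
    rw [(smul_eq_zero.1 f3.symm).resolve_left (by linarith), map_zero] at f2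
    rw [(smul_eq_zero.1 f2.symm).resolve_left (by linarith), map_zero] at f1
    exact (smul_eq_zero.1 f1.symm).resolve_left (by linarith)
  have w1 := hv.ff (j := k - 2) (by ring)
  have w2 := w1.ff (j := k - 4) (by ring)
  exact key _ _ hv hk (key _ _ w1 (by omega) (key _ _ w2 (by omega)
    (hU.2 y v (memU hU.1 hqU hv))))

theorem cube (h1 : Sp1 S) (h : S.ω x y = 1) (hq : S.Sph x y q) (hU : S.DegOn U 2) (hqU : q ∈ U)
    {w : E} (hw : Wm S x y w) : S.B y w (S.B x w (S.B x w q)) = 0 := by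
  by_cases h0 : w = 0
  · simp [h0]
  obtain ⟨z, hz⟩ := S.nd w h0
  obtain ⟨w', hw', e⟩ := proj h z
  rw [e] at hz
  simp only [map_add, map_smul, hw.x', hw.y', smul_zero, zero_add] at hz
  have := h1.top U 2 w w' q hU hz (hq.2.2.2 w w' hw.1 hw.2 hw'.1 hw'.2)
    (fun a b => hU.1 a b q hqU) [y, x, x] le_rfl (by simp [hw.x', hw.y'])
  simp only [Sp.P, List.map, List.prod_cons, List.prod_nil, mul_one, Module.End.mul_apply] at this
  rwa [S.symm y w, S.symm x w]

theorem sym2 (hq : S.Sph x y q) {a b : E} (ha : Wm S x y a) (hb : Wm S x y b) :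
    S.B x a (S.B x b q) = S.B x b (S.B x a q) := by
  rw [cm S x a x b, hq.1]
  simp [S.alt, ha.1, hb.x']

theorem Wm.add {a b : E} (ha : Wm S x y a) (hb : Wm S x y b) : Wm S x y (a + b) :=
  ⟨by rw [map_add, ha.1, hb.1, add_zero], by rw [map_add, ha.2, hb.2, add_zero]⟩

theorem rel3 (h1 : Sp1 S) (h : S.ω x y = 1) (hq : S.Sph x y q) (hU : S.DegOn U 2) (hqU : q ∈ U)
    {a b c : E} (ha : Wm S x y a) (hb : Wm S x y b) (hc : Wm S x y c) :
    S.B y a (S.B x b (S.B x c q)) + S.B y b (S.B x a (S.B x c q)) +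
      S.B y c (S.B x a (S.B x b q)) = 0 := by
  have c1 := cube h1 h hq hU hqU ((ha.add hb).add hc)
  have c2 := cube h1 h hq hU hqU (ha.add hb)
  have c3 := cube h1 h hq hU hqU (ha.add hc)
  have c4 := cube h1 h hq hU hqU (hb.add hc)
  have c5 := cube h1 h hq hU hqU ha
  have c6 := cube h1 h hq hU hqU hb
  have c7 := cube h1 h hq hU hqU hc
  simp only [map_add, LinearMap.add_apply, sym2 hq hb ha, sym2 hq hc ha, sym2 hq hc hb]
    at c1 c2 c3 c4
  linear_combination (norm := module) (1 / 2 : ℚ) • c1 - (1 / 2 : ℚ) • c2 - (1 / 2 : ℚ) • c3 -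
    (1 / 2 : ℚ) • c4 + (1 / 2 : ℚ) • c5 + (1 / 2 : ℚ) • c6 + (1 / 2 : ℚ) • c7

theorem lin {n : ℕ} {w : Fin n → E} {T : Submodule ℚ M} (φ : E →ₗ[ℚ] M) (h : ∀ i, φ (w i) ∈ T)
    {c : E} (hc : c ∈ span ℚ (Set.range w)) : φ c ∈ T :=
  (span_le.2 (Set.range_subset_iff.2 h) : span ℚ (Set.range w) ≤ T.comap φ) hc

theorem fr_comap [Module.Finite ℚ M] (N : Submodule ℚ M) (A : Submodule ℚ (M ⧸ N)) :
    finrank ℚ (A.comap N.mkQ) ≤ finrank ℚ A + finrank ℚ N := by
  rw [← LinearMap.finrank_range_add_finrank_ker (N.mkQ.domRestrict (A.comap N.mkQ))]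
  refine add_le_add (finrank_mono ?_) ?_
  · rintro _ ⟨v, rfl⟩
    exact v.2
  · rw [← finrank_map_subtype_eq]
    refine finrank_mono ?_
    rintro _ ⟨v, hv, rfl⟩
    exact (Quotient.mk_eq_zero N).1 hv

end V22

open V22 Module Submodule in
theorem rowV22 : OfV22 := by
  intro hS hD E M _ _ _ _ S x y q U n w h hq hU hqU hw hspan
  have h1 : Sp1 S := hS E M S
  have := S.fin
  have hw' : ∀ i, Wm S x y (w i) := hw
  refine ⟨span ℚ {v | ∃ k, Wd S x y q k v}, fun a b m hm => ?_, fun ξ η hξ hη => ?_, ?_⟩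
  · refine (span_le.2 ?_ : span ℚ {v | ∃ k, Wd S x y q k v} ≤
      (span ℚ {v | ∃ k, Wd S x y q k v}).comap (S.B a b)) hm
    rintro v ⟨k, hv⟩
    obtain ⟨a', ha, ea⟩ := proj h a
    obtain ⟨b', hb, eb⟩ := proj h b
    have mem : ∀ {j u}, Wd S x y q j u → u ∈ span ℚ {v | ∃ k, Wd S x y q k v} :=
      fun hu => subset_span ⟨_, hu⟩
    have m1 := mem (ee h1 h hq hU hqU hv)
    have m2 : S.B x y v ∈ span ℚ {v | ∃ k, Wd S x y q k v} := wt h hq hv ▸ mem (hv.smul _)
    have m3 := mem (hv.ff (j := k - 2) (by ring))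
    change S.B a b v ∈ span ℚ {v | ∃ k, Wd S x y q k v}
    rw [ea, eb]
    simp only [map_add, map_smul, LinearMap.add_apply, LinearMap.smul_apply, S.symm y x,
      S.symm a' x, S.symm a' y]
    exact add_mem (add_mem
      (smul_mem _ _ (add_mem (add_mem (smul_mem _ _ m1) (smul_mem _ _ m2))
        (mem (up h1 h hq hU hqU ha hv))))
      (smul_mem _ _ (add_mem (add_mem (smul_mem _ _ m2) (smul_mem _ _ m3))
        (mem (hv.low a' ha (j := k - 1) (by ring))))))
      (add_mem (add_mem (smul_mem _ _ (mem (up h1 h hq hU hqU hb hv)))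
        (smul_mem _ _ (mem (hv.low b' hb (j := k - 1) (by ring))))) (mem (zz hq ha hb hv)))
  · obtain ⟨a, ha, ea⟩ := proj h ξ
    obtain ⟨b, hb, eb⟩ := proj h η
    rw [ea, eb, hξ, hη]
    simp only [zero_smul, add_zero, map_add, map_smul, LinearMap.add_apply, LinearMap.smul_apply,
      hq.1, smul_zero, zero_add, eX hb.1, map_zero]
    exact subset_span ⟨_, Wd.base a b ha hb⟩
  · have d2 := hD.d2 M n (fun i j => S.B x (w i) (S.B x (w j) q))
      fun i j => sym2 hq (hw' i) (hw' j)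
    have d21 := hD.d21 M n (fun i j k => S.B y (w i) (S.B x (w j) (S.B x (w k) q)))
      (fun i j k => by rw [sym2 hq (hw' j) (hw' k)])
      fun i j k => rel3 h1 h hq hU hqU (hw' i) (hw' j) (hw' k)
    set T2 := span ℚ {v | ∃ i j, v = S.B x (w i) (S.B x (w j) q)} with hT2
    set T1 := span ℚ {v | ∃ i j k, v = S.B y (w i) (S.B x (w j) (S.B x (w k) q))} with hT1
    have d22 := hD.d22 (M ⧸ T2.map (S.B y y)) n (fun i j k l => (T2.map (S.B y y)).mkQ
      (S.B y (w i) (S.B y (w j) (S.B x (w k) (S.B x (w l) q)))))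
      (fun i j k l => by
        rw [cm S y (w i) y (w j), map_add, add_eq_left]
        simp only [S.alt, (hw' i).2, (hw' j).y', zero_smul, zero_add]
        exact (Quotient.mk_eq_zero _).2
          (smul_mem _ _ (mem_map_of_mem (subset_span ⟨k, l, rfl⟩))))
      (fun i j k l => by rw [sym2 hq (hw' k) (hw' l)])
      fun i j k l => by
        rw [← map_add, ← map_add, ← map_add, ← map_add,
          rel3 h1 h hq hU hqU (hw' j) (hw' k) (hw' l), map_zero, map_zero]
    set A := span ℚ {v | ∃ i j k l, v = (T2.map (S.B y y)).mkQ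
      (S.B y (w i) (S.B y (w j) (S.B x (w k) (S.B x (w l) q))))} with hA
    have inv : ∀ k v, Wd S x y q k v → (3 ≤ k → v = 0) ∧ (k = 2 → v ∈ T2) ∧ (k = 1 → v ∈ T1) ∧
        (k = 0 → v ∈ A.comap (T2.map (S.B y y)).mkQ) := by
      intro k v hv
      induction hv with
      | base a b ha hb =>
        refine ⟨by omega, fun _ => ?_, by omega, by omega⟩
        refine lin (LinearMap.flip (S.B x) (S.B x b q)) (fun i => ?_) (hspan a ha.1 ha.2)
        exact lin (T := T2) (S.B x (w i) ∘ₗ LinearMap.flip (S.B x) q)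
          (fun j => subset_span (by exact ⟨i, j, rfl⟩)) (hspan b hb.1 hb.2)
      | @low c hc k j v _ e ih =>
        refine ⟨fun hj => by rw [ih.1 (by omega), map_zero],
          fun hj => by rw [ih.1 (by omega), map_zero]; exact zero_mem _, fun hj => ?_, fun hj => ?_⟩
        · refine lin (LinearMap.flip (S.B y) v) (fun i => ?_) (hspan c hc.1 hc.2)
          refine (span_le.2 ?_ : T2 ≤ T1.comap (S.B y (w i))) (ih.2.1 (by omega))
          rintro _ ⟨j, k, rfl⟩
          exact subset_span ⟨i, j, k, rfl⟩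
        · refine lin (LinearMap.flip (S.B y) v) (fun i => ?_) (hspan c hc.1 hc.2)
          refine (span_le.2 ?_ : T1 ≤ (A.comap (T2.map (S.B y y)).mkQ).comap (S.B y (w i)))
            (ih.2.2.1 (by omega))
          rintro _ ⟨j, k, l, rfl⟩
          exact subset_span ⟨i, j, k, l, rfl⟩
      | ff _ e ih =>
        refine ⟨fun hj => by rw [ih.1 (by omega), map_zero],
          fun hj => by rw [ih.1 (by omega), map_zero]; exact zero_mem _,
          fun hj => by rw [ih.1 (by omega), map_zero]; exact zero_mem _, fun hj => ?_⟩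
        rw [mem_comap, mkQ_apply, (Quotient.mk_eq_zero _).2 (mem_map_of_mem (ih.2.1 (by omega)))]
        exact zero_mem _
      | zero => exact ⟨fun _ => rfl, fun _ => zero_mem _, fun _ => zero_mem _, fun _ => zero_mem _⟩
      | add _ _ i1 i2 =>
        exact ⟨fun hj => by rw [i1.1 hj, i2.1 hj, add_zero],
          fun hj => add_mem (i1.2.1 hj) (i2.2.1 hj), fun hj => add_mem (i1.2.2.1 hj) (i2.2.2.1 hj),
          fun hj => add_mem (i1.2.2.2 hj) (i2.2.2.2 hj)⟩
      | smul c _ i1 =>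
        exact ⟨fun hj => by rw [i1.1 hj, smul_zero], fun hj => smul_mem _ _ (i1.2.1 hj),
          fun hj => smul_mem _ _ (i1.2.2.1 hj), fun hj => smul_mem _ _ (i1.2.2.2 hj)⟩
    have hle : span ℚ {v | ∃ k, Wd S x y q k v} ≤ T2 ⊔ T1 ⊔ A.comap (T2.map (S.B y y)).mkQ ⊔
        T1.map (S.B y y) ⊔ (T2.map (S.B y y)).map (S.B y y) := by
      refine span_le.2 ?_
      rintro v ⟨k, hv⟩
      obtain ⟨i3, i2, i1, i0⟩ := inv k v hv
      have hk : 3 ≤ k ∨ k = 2 ∨ k = 1 ∨ k = 0 ∨ k = -1 ∨ k = -2 ∨ k ≤ -3 := by omega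
      rcases hk with hk | hk | hk | hk | rfl | rfl | hk
      · exact i3 hk ▸ zero_mem _
      · exact mem_sup_left (mem_sup_left (mem_sup_left (mem_sup_left (i2 hk))))
      · exact mem_sup_left (mem_sup_left (mem_sup_left (mem_sup_right (i1 hk))))
      · exact mem_sup_left (mem_sup_left (mem_sup_right (i0 hk)))
      · refine mem_sup_left (mem_sup_right ⟨(-1 / 4 : ℚ) • S.B x x v,
          smul_mem _ _ ((inv _ _ (ee h1 h hq hU hqU hv)).2.2.1 rfl), ?_⟩)
        rw [map_smul, fe h, neg3 h1 h hq hU hqU (hv.ff (j := -3) rfl) le_rfl, wt h hq hv, map_zero]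
        module
      · have w1 := ee h1 h hq hU hqU hv
        have f1 : S.B y y (S.B x x v) = (-8 : ℚ) • v := by
          rw [fe h, neg3 h1 h hq hU hqU (hv.ff (j := -4) rfl) (by norm_num), wt h hq hv, map_zero]
          module
        refine mem_sup_right ⟨_, ⟨(1 / 64 : ℚ) • S.B x x (S.B x x v),
          smul_mem _ _ ((inv _ _ (ee h1 h hq hU hqU w1)).2.1 rfl), rfl⟩, ?_⟩
        rw [map_smul, fe h, f1, wt h hq w1]
        simp only [map_smul, map_add, f1]
        module
      · exact neg3 h1 h hq hU hqU hv hk ▸ zero_mem _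
    have b1 := finrank_mono hle
    have b2 := finrank_add_le_finrank_add_finrank
      (T2 ⊔ T1 ⊔ A.comap (T2.map (S.B y y)).mkQ ⊔ T1.map (S.B y y))
      ((T2.map (S.B y y)).map (S.B y y))
    have b3 := finrank_add_le_finrank_add_finrank
      (T2 ⊔ T1 ⊔ A.comap (T2.map (S.B y y)).mkQ) (T1.map (S.B y y))
    have b4 := finrank_add_le_finrank_add_finrank (T2 ⊔ T1) (A.comap (T2.map (S.B y y)).mkQ)
    have b5 := finrank_add_le_finrank_add_finrank T2 T1
    have b6 := fr_comap (T2.map (S.B y y)) A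
    have b7 := finrank_map_le (S.B y y) T2
    have b8 := finrank_map_le (S.B y y) T1
    have b9 := finrank_map_le (S.B y y) (T2.map (S.B y y))
    omega

end Pool.Agent.MP_00906f_gt.H91
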