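import Pool.Agent.MP_00906f_gt.H91.Spec

/-! The braid group acts trivially on the class of `T5` modulo the orbit of `T3`. -/

namespace Pool.Agent.MP_00906f_gt.H91

open H46 H46.BW

namespace W

variable {G H M : Type} [Group G] [AddCommGroup H] [AddCommGroup M] [Module ℚ M] (D : Dat G H M)

theorem π_mul (a b : G) (m : M) : D.π (a * b) m = D.π a (D.π b m) := by rw [map_mul]; rfl

/-- The stabiliser of `t5`. -/
def St : Subgroup G where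
  carrier := {g | D.π g D.t5 = D.t5}
  one_mem' := by simp
  mul_mem' {a b} ha hb := by
    have ha : D.π a D.t5 = D.t5 := ha
    have hb : D.π b D.t5 = D.t5 := hb
    change D.π (a * b) D.t5 = D.t5
    rw [π_mul, hb, ha]
  inv_mem' {a} ha := by
    have ha : D.π a D.t5 = D.t5 := ha
    change D.π a⁻¹ D.t5 = D.t5
    conv_lhs => rw [← ha, ← π_mul, inv_mul_cancel, map_one]
    rfl

theorem mem_St {g : G} : g ∈ St D ↔ D.π g D.t5 = D.t5 := Iff.rfl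

theorem core (K1 : Kit1 D) (K2 : Kit2 D) (R : Rel D) (h3 : D.t3 = 0) (γ : G) :
    D.π γ D.t5 = D.t5 := by
  have h8 := D.h8
  have hω : ∀ i j, i < 8 → j < 8 → D.ω (D.c i) (D.c j) =
      (if j = i + 1 then 1 else 0) - (if i = j + 1 then 1 else 0) :=
    fun i j hi hj => D.toSys.lat_ωcc (by omega) (by omega)
  have w2 : D.ω (D.c 0) (D.c 2) = 0 := by simp [hω]
  have w3 : D.ω (D.c 0) (D.c 3) = 0 := by simp [hω]
  have w4 : D.ω (D.c 0) (D.c 4) = 0 := by simp [hω]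
  have w34 : D.ω (D.c 0) (D.c 3 + D.c 4) = 0 := by rw [map_add, w3, w4, add_zero]
  have r2 : D.ρ (D.σ 2) (D.c 0) = D.c 0 := by rw [D.ρσ 2 (by omega), w2, zero_smul, add_zero]
  have r3 : D.ρ (D.σ 3) (D.c 0) = D.c 0 := by rw [D.ρσ 3 (by omega), w3, zero_smul, add_zero]
  have r4 : D.ρ (D.σ 4) (D.c 0) = D.c 0 := by rw [D.ρσ 4 (by omega), w4, zero_smul, add_zero]
  have hs : ∀ i, i < D.N → i ≠ 4 → D.σ i ∈ St D := fun i h1 h2 =>
    K1.par5 _ (Subgroup.subset_closure ⟨i, ⟨h1, h2⟩, rfl⟩)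
  have s0 := hs 0 (by omega) (by omega)
  have s1 := hs 1 (by omega) (by omega)
  have s2 := hs 2 (by omega) (by omega)
  have s3 := hs 3 (by omega) (by omega)
  have y2 : yy D.σ 2 ∈ St D :=
    mul_mem (mul_mem s3 (mul_mem (mul_mem s2 (pow_mem (mul_mem s0 s1) 3)) (inv_mem s2)))
      (inv_mem s3)
  have conj : ∀ g l m, D.ρ g (D.c 0) = D.c 0 → D.ω (D.c 0) l = 0 → D.τ l m = m →
      D.τ (D.ρ g l) (D.π g m) = D.π g m := fun g l m h1 h2 h => by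
    have := LinearMap.congr_fun (K2.τ_conj g l h1 h2) m
    rw [Module.End.mul_apply, Module.End.mul_apply, h] at this
    exact this.symm
  have comm : ∀ l l' m, D.ω (D.c 0) l = 0 → D.ω (D.c 0) l' = 0 → D.Fx m →
      D.τ l (D.τ l' m) = D.τ l' (D.τ l m) := fun l l' m h1 h2 h => by
    rw [← K2.τ_add l l' h1 h2 m h, ← K2.τ_add l' l h2 h1 m h, add_comm]
  have Fa := K2.Fx_t5
  have ya : D.τ (D.c 3) D.t5 = D.t5 := by simpa using K2.τ_t5 0 1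
  have ya' : D.τ (-D.c 3) D.t5 = D.t5 := by simpa using K2.τ_t5 0 (-1)
  obtain ⟨b4, e4⟩ : ∃ b, b = D.π (D.σ 4) D.t5 := ⟨_, rfl⟩
  obtain ⟨b3, e3⟩ : ∃ b, b = D.π (D.σ 3) b4 := ⟨_, rfl⟩
  obtain ⟨b2, e2⟩ : ∃ b, b = D.π (D.σ 2) b3 := ⟨_, rfl⟩
  have F4 : D.Fx b4 := e4 ▸ K2.Fx_π _ (Or.inl r4) _ Fa
  have t4 : D.τ (D.c 3 + D.c 4) b4 = b4 := by
    have := conj _ _ _ r4 w3 ya
    rwa [D.ρσ 4 (by omega), ← e4, D.ch1 3 (by omega), one_smul] at this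
  have t3 : D.τ (D.c 4) b3 = b3 := by
    have := conj _ _ _ r3 w34 t4
    rwa [D.ρσ 3 (by omega), ← e3, map_add, LinearMap.add_apply, D.alt, D.toSys.skew,
      D.ch1 3 (by omega), zero_add, neg_one_smul, add_neg_cancel_comm] at this
  have t2 : D.τ (D.c 4) b2 = b2 := by
    have := conj _ _ _ r2 w4 t3
    rwa [D.ρσ 2 (by omega), ← e2, D.toSys.skew, D.ch2 2 4 le_rfl (by omega), neg_zero, zero_smul,
      add_zero] at this
  have q12 : ∀ m, D.Fx m → D.π (yy D.σ 1 * yy D.σ 2) m = D.τ (-D.c 3) m := fun m h => by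
    rw [K2.τ_yy 1 2 (by omega) (by omega) m h, D.toSys.lat_ww_succ 1, sub_add_cancel_left]
  have u4 : D.τ (-D.c 3) b4 = D.τ (D.c 4) b4 := by
    conv_lhs => rw [← t4, ← K2.τ_add _ _ (by rw [map_neg, w3, neg_zero]) w34 _ F4,
      neg_add_cancel_left]
  have rel : b2 - b3 + D.τ (D.c 4) b4 - D.t5 = 0 := by
    have := R
    rw [Rel, h3, q12 _ Fa, ya', π_mul D (_ * _) (D.σ 4), π_mul D _ (D.σ 4),
      π_mul D _ (D.σ 4), ← e4, q12 _ F4, u4, π_mul, ← e3, ← e2] at this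
    simpa using this
  obtain ⟨κ, eκ⟩ : ∃ κ, κ = D.τ (D.c 4) D.t5 - D.t5 := ⟨_, rfl⟩
  have Fκ : D.Fx κ := by
    have h1 : D.π (D.σ 0) _ = _ := K2.Fx_τ _ w4 _ Fa
    have h2 : D.π (D.σ 0) _ = _ := Fa
    rw [Dat.Fx, eκ, map_sub, h1, h2]
  have k1 : κ = D.τ (D.c 4) (D.τ (D.c 4) b4) - D.τ (D.c 4) b4 := by
    have := congrArg (D.τ (D.c 4)) rel
    simp only [map_sub, map_add, map_zero, t2, t3] at this
    rw [eκ]
    linear_combination (norm := module) rel - this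
  have k2 : D.τ (D.c 3) κ = κ := by rw [eκ, map_sub, comm _ _ _ w3 w4 Fa, ya]
  have k3 : D.τ (D.c 3 + D.c 4) κ = κ := by
    rw [k1, map_sub, comm _ _ _ w34 w4 (K2.Fx_τ _ w4 _ F4), comm _ _ _ w34 w4 F4, t4]
  have k4 : D.τ (D.c 4) κ = κ := by rwa [add_comm, K2.τ_add _ _ w4 w3 _ Fκ, k2] at k3
  have k5 : D.τ (D.c 4) b4 = b4 + κ := by
    have h1 : D.τ (D.c 4) (D.τ (D.c 4) b4) = D.τ (D.c 4) (b4 + κ) := by
      rw [map_add, k4, k1, add_sub_cancel]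
    have h2 := congrArg (D.τ (-D.c 4)) h1
    rwa [← Module.End.mul_apply, ← Module.End.mul_apply (D.τ (-D.c 4)), K2.τ_neg _ w4] at h2
  have v4 : D.π (yy D.σ 3) b4 = b4 := by
    rw [e4, ← π_mul, show yy D.σ 3 * D.σ 4 = D.σ 4 * yy D.σ 2 from inv_mul_cancel_right _ _,
      π_mul, (mem_St D).1 y2]
  have c3 : yy D.σ 3 * D.σ 3 = D.σ 3 * yy D.σ 3 :=
    eq_of_test D.bf 5 100000 (Y 3 * g 3) (g 3 * Y 3) (by omega) (by decide +kernel)
  have c2 : yy D.σ 3 * D.σ 2 = D.σ 2 * yy D.σ 3 :=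
    eq_of_test D.bf 5 100000 (Y 3 * g 2) (g 2 * Y 3) (by omega) (by decide +kernel)
  have v3 : D.π (yy D.σ 3) b3 = b3 := by rw [e3, ← π_mul, c3, π_mul, v4]
  have v2 : D.π (yy D.σ 3) b2 = b2 := by rw [e2, ← π_mul, c2, π_mul, v3]
  have va : D.π (yy D.σ 3) D.t5 = D.τ (D.c 4) D.t5 := by
    have := K2.τ_yy 3 2 (by omega) (by omega) _ Fa
    rwa [π_mul, (mem_St D).1 y2, D.toSys.lat_ww_succ 2, add_sub_cancel_left] at this
  have vz : D.π (yy D.σ 3) (D.τ (D.c 4) D.t5) = D.t5 := by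
    rw [← va, ← π_mul, K2.τ_yy 3 3 (by omega) (by omega) _ Fa, sub_self, K2.τ_zero]
    rfl
  have k0 : κ = 0 := by
    rw [k5] at rel
    have h1 := congrArg (D.π (yy D.σ 3)) rel
    rw [eκ] at h1
    simp only [map_sub, map_add, map_zero, v2, v3, v4, va, vz] at h1
    have h2 : (3 : ℚ) • κ = 0 := by
      rw [eκ] at rel ⊢
      linear_combination (norm := module) rel - h1
    simpa using h2
  have y3 : yy D.σ 3 ∈ St D := by
    rw [mem_St, va, ← sub_eq_zero, ← eκ, k0]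
  have q : D.σ 4 ^ 2 ∈ St D := by
    have e : (D.σ 0 * D.σ 1 * D.σ 2 * D.σ 3 * D.σ 4) ^ 6 =
        (D.σ 0 * D.σ 1 * D.σ 2 * D.σ 3) ^ 5 * ((D.σ 0 ^ 2)⁻¹ * yy D.σ 3) *
          (D.σ 1 * D.σ 2 * D.σ 0 * D.σ 1 * ((D.σ 0 ^ 2)⁻¹ * yy D.σ 3) *
            (D.σ 1 * D.σ 2 * D.σ 0 * D.σ 1)⁻¹) * D.σ 4 ^ 2 := by
      have := eq_of_test D.bf 5 1000000 ((g 0 * g 1 * g 2 * g 3 * g 4) ^ 6)
        ((g 0 * g 1 * g 2 * g 3) ^ 5 * ((g 0 ^ 2)⁻¹ * Y 3) *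
          (g 1 * g 2 * g 0 * g 1 * ((g 0 ^ 2)⁻¹ * Y 3) * (g 1 * g 2 * g 0 * g 1)⁻¹) * g 4 ^ 2)
        (by omega) (by decide +kernel)
      exact this
    have h1 := mul_mem (inv_mem (pow_mem s0 2)) y3
    have h2 := mul_mem (mul_mem (mul_mem s1 s2) s0) s1
    exact (mul_mem_cancel_left (mul_mem (mul_mem (pow_mem (mul_mem (mul_mem (mul_mem s0 s1) s2)
      s3) 5) h1) (mul_mem (mul_mem h2 h1) (inv_mem h2)))).1 (e ▸ (mem_St D).2 K1.D6_t5)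
  have s4 : D.σ 4 ∈ St D := by
    rw [k5, k0, add_zero] at rel
    have e : D.σ 2 * (D.σ 2 * (D.σ 3 * D.σ 4)) =
        D.σ 3 * (D.σ 4 * (D.σ 2 * D.σ 3 * D.σ 4 ^ 2 * (D.σ 2 * D.σ 3)⁻¹)) := by
      have := eq_of_test D.bf 5 100000 (g 2 * (g 2 * (g 3 * g 4)))
        (g 3 * (g 4 * (g 2 * g 3 * g 4 ^ 2 * (g 2 * g 3)⁻¹))) (by omega) (by decide +kernel)
      exact this
    have h1 : D.π (D.σ 2) b2 = b3 := by
      rw [e2, e3, e4, ← π_mul D (D.σ 3), ← π_mul D (D.σ 2) (_ * _), ← π_mul, e, π_mul, π_mul,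
        (mem_St D).1 (mul_mem (mul_mem (mul_mem s2 s3) q) (inv_mem (mul_mem s2 s3))), π_mul]
    have h2 : D.π (D.σ 2) b4 = b4 := by
      rw [e4, ← π_mul, D.bf.comm 2 4 le_rfl (by omega), π_mul, (mem_St D).1 s2]
    have h3 := congrArg (D.π (D.σ 2)) rel
    simp only [map_sub, map_add, map_zero, h1, h2, ← e2, (mem_St D).1 s2] at h3
    have h4 : (2 : ℚ) • (b4 - D.t5) = 0 := by linear_combination (norm := module) rel + h3
    rw [mem_St, ← e4, ← sub_eq_zero]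
    simpa using h4
  refine (mem_St D).1 ((Subgroup.closure_le (St D)).2 ?_ (D.hB γ))
  rintro _ ⟨i, hi, rfl⟩
  by_cases h : i = 4
  · exact h ▸ s4
  · exact hs i hi h

end W

theorem rowW : OfW := by
  intro hK1 hK2 hR G H M _ _ _ _ D γ
  have h := W.core (D.quot D.MU (hK1 G H M D).MU_π) (hK1 _ _ _ _) (hK2 _ _ _ _) (hR _ _ _ _)
    ((Submodule.Quotient.mk_eq_zero _).2 (Submodule.subset_span ⟨1, show D.π 1 D.t3 = D.t3 by simp⟩)) γ
  exact (Submodule.Quotient.eq _).1 h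

end Pool.Agent.MP_00906f_gt.H91
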