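import Pool.Agent.MP_00906f_gt.H91.K1
import Pool.Agent.MP_00906f_gt.H91.K2
import Pool.Agent.MP_00906f_gt.H91.REL
import Pool.Agent.MP_00906f_gt.H91.S0
import Pool.Agent.MP_00906f_gt.H91.W
import Pool.Agent.MP_00906f_gt.H91.U
import Pool.Agent.MP_00906f_gt.H91.LOG
import Pool.Agent.MP_00906f_gt.H91.PAR
import Pool.Agent.MP_00906f_gt.H91.BIL2
import Pool.Agent.MP_00906f_gt.H91.SP1
import Pool.Agent.MP_00906f_gt.H91.SP2
import Pool.Agent.MP_00906f_gt.H91.DIM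
import Pool.Agent.MP_00906f_gt.H91.V11
import Pool.Agent.MP_00906f_gt.H91.V22
import Pool.Agent.MP_00906f_gt.H91.K3
import Pool.Agent.MP_00906f_gt.H91.LS
import Pool.Agent.MP_00906f_gt.H91.COX
import Pool.Agent.MP_00906f_gt.H91.TH
import Pool.Agent.MP_00906f_gt.H91.TOP
import Pool.Agent.MP_00906f_gt.H91.TR
import Pool.Agent.MP_00906f_gt.H91.T2a
import Pool.Agent.MP_00906f_gt.H91.T2b
import Pool.Agent.MP_00906f_gt.H91.T3
import Pool.Agent.MP_00906f_gt.H91.T4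
import Pool.Agent.MP_00906f_gt.H91.P2
import Pool.Agent.MP_00906f_gt.H91.P1
import Pool.Agent.MP_00906f_gt.H91.F1
import Pool.Agent.MP_00906f_gt.H91.F2
import Pool.Agent.MP_00906f_gt.H91.F3b
import Pool.Agent.MP_00906f_gt.H91.F3
import Pool.Agent.MP_00906f_gt.H91.CUBE
import Pool.Agent.MP_00906f_gt.H91.F4
import Pool.Agent.MP_00906f_gt.H91.CNT
import Pool.Agent.MP_00906f_gt.H91.F5
import Pool.Agent.MP_00906f_gt.H91.UP
import Pool.Agent.MP_00906f_gt.H91.FIN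

/-! The upper bound. -/

namespace Pool.Agent.MP_00906f_gt.H91

theorem upper : StmtFIN := by
  have k1 := rowK1
  have k2 := rowK2 k1
  have rel := rowREL k1
  have s0 := rowS0 k1 k2 rel
  have w := rowW k1 k2 rel
  have u := rowU k1 k2 s0 w
  have lg := rowLOG
  have par := rowPAR k1 lg u
  have bil := rowBIL2 k1 lg u par
  have sp1 := rowSP1 lg
  have sp2 := rowSP2 lg sp1
  have v11 := rowV11 sp1 rowDIM
  have v22 := rowV22 sp1 rowDIM
  have k3 := rowK3 k1 w lg sp1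
  have ls := rowLS k1 k2 s0 lg sp1 sp2 k3
  have cox := rowCOX
  have th := rowTH k1 lg sp1 k3 ls cox
  have top := rowTOP k1 k2 lg sp1 k3 cox
  have tr := rowTR k1 k2 rel sp1 k3 top
  have t2a := rowT2a sp1 sp2 k3 cox tr
  have t2b := rowT2b sp1 sp2 k3 tr t2a
  have t3 := rowT3 sp1 sp2 k3 tr
  have p2 := rowP2 lg sp1 sp2 v22 bil k3 th t2a t2b
  have p1 := rowP1 k1 lg sp1 sp2 v11 bil k3 th cox t3 rowT4
  have f2 := rowF2 k1 rel w cox (rowF1 k1)
  have f5 := rowF5 (rowF3 rowF3b) (rowF4 rowCUBE) rowCNT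
  exact rowFIN (rowUP p2 p1 f2 f5)

end Pool.Agent.MP_00906f_gt.H91
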