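import Pool.Agent.MP_00906f_gt.H91.Spec

/-! Logarithms of the elements that act by `1 + k X`, `X * X = 0`. -/

namespace Pool.Agent.MP_00906f_gt.H91.PAR

open H46 IsNilpotent

variable {G H M : Type} [Group G] [AddCommGroup H] [AddCommGroup M] [Module ℚ M] (D : Dat G H M)

/-- `Y` is the logarithm attached to `X`. -/
def Lg (X : Module.End ℤ H) (Y : Module.End ℚ M) : Prop :=
  X * X = 0 ∧ IsNilpotent Y ∧ ∃ k : ℕ, 0 < k ∧ ∃ g, D.ρ g = 1 + k • X ∧ D.π g = exp ((k : ℚ) • Y)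

theorem pow_sq {R : Type} [Ring R] {X : R} (h : X * X = 0) (k n : ℕ) :
    (1 + k • X) ^ n = 1 + (k * n) • X := by
  induction n with
  | zero => simp
  | succ n ih =>
    rw [_root_.pow_succ, ih, add_mul, mul_add, mul_add, smul_mul_smul_comm, h, smul_zero, mul_add k,
      add_smul]
    simp only [one_mul, mul_one, add_zero]
    abel

variable {D}

theorem Lg.scale (hL : Log) {X : Module.End ℤ H} {Y : Module.End ℚ M} (hX : X * X = 0)
    (hY : IsNilpotent Y) {k : ℕ} {g : G} (h1 : D.ρ g = 1 + k • X)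
    (h2 : D.π g = exp ((k : ℚ) • Y)) (n : ℕ) :
    D.ρ (g ^ n) = 1 + (k * n) • X ∧ D.π (g ^ n) = exp (((k * n : ℕ) : ℚ) • Y) := by
  refine ⟨by rw [map_pow, h1, pow_sq hX], ?_⟩
  rw [map_pow, h2, ← hL.nsmul M _ n (hY.smul _), smul_smul, Nat.cast_mul, mul_comm]

theorem Lg.uniq (hK : Kit1 D) (hL : Log) {X : Module.End ℤ H} {Y Y' : Module.End ℚ M}
    (h : Lg D X Y) (h' : Lg D X Y') : Y = Y' := by
  obtain ⟨hX, hY, k, hk, g, h1, h2⟩ := h
  obtain ⟨-, hY', k', hk', g', h1', h2'⟩ := h'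
  obtain ⟨a1, a2⟩ := Lg.scale hL hX hY h1 h2 k'
  obtain ⟨b1, b2⟩ := Lg.scale hL hX hY' h1' h2' k
  rw [mul_comm k'] at b1 b2
  have e := hL.inj M _ _ (hY.smul _) (hY'.smul _)
    (a2.symm.trans ((hK.π_congr _ _ (a1.trans b1.symm)).trans b2))
  exact smul_right_injective _ (by positivity : ((k * k' : ℕ) : ℚ) ≠ 0) e

theorem Lg.add (hK : Kit1 D) (hL : Log) {X X' : Module.End ℤ H} {Y Y' : Module.End ℚ M}
    (h : Lg D X Y) (h' : Lg D X' Y') (e1 : X * X' = 0) (e2 : X' * X = 0) :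
    Lg D (X + X') (Y + Y') := by
  obtain ⟨hX, hY, k, hk, g, h1, h2⟩ := h
  obtain ⟨hX', hY', k', hk', g', h1', h2'⟩ := h'
  obtain ⟨a1, a2⟩ := Lg.scale hL hX hY h1 h2 k'
  obtain ⟨b1, b2⟩ := Lg.scale hL hX' hY' h1' h2' k
  rw [mul_comm k'] at b1 b2
  have hn : 0 < k * k' := by positivity
  generalize k * k' = n at *
  generalize g ^ k' = a at *
  generalize g' ^ k = b at *
  have r1 : D.ρ (a * b) = 1 + n • (X + X') := by
    rw [map_mul, a1, b1, add_mul, mul_add, mul_add, smul_mul_smul_comm, e1, smul_zero, smul_add]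
    simp only [one_mul, mul_one, add_zero]
    abel
  have r2 : D.ρ (b * a) = 1 + n • (X + X') := by
    rw [map_mul, a1, b1, add_mul, mul_add, mul_add, smul_mul_smul_comm, e2, smul_zero, smul_add]
    simp only [one_mul, mul_one, add_zero]
    abel
  have c0 := hK.π_congr _ _ (r2.trans r1.symm)
  rw [map_mul, map_mul, a2, b2] at c0
  have c1 := hL.tw M M _ _ _ (hY.smul (n : ℚ)) (hY.smul (n : ℚ)) c0
  have c2 : Commute ((n : ℚ) • Y) ((n : ℚ) • Y') :=
    hL.tw M M _ _ _ (hY'.smul (n : ℚ)) (hY'.smul (n : ℚ)) c1.symm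
  have c3 : Commute Y Y' := by
    have hn' : (n : ℚ) ≠ 0 := by positivity
    have := (c2.smul_left (n : ℚ)⁻¹).smul_right (n : ℚ)⁻¹
    rwa [inv_smul_smul₀ hn', inv_smul_smul₀ hn'] at this
  refine ⟨by rw [add_mul, mul_add, mul_add, hX, hX', e1, e2]; simp,
    c3.isNilpotent_add hY hY', n, hn, a * b, r1, ?_⟩
  rw [map_mul, a2, b2, smul_add, exp_add_of_commute c2 (hY.smul _) (hY'.smul _)]

theorem Lg.neg {X : Module.End ℤ H} {Y : Module.End ℚ M} (h : Lg D X Y) : Lg D (-X) (-Y) := by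
  obtain ⟨hX, hY, k, hk, g, h1, h2⟩ := h
  refine ⟨by rw [neg_mul_neg, hX], hY.neg, k, hk, g⁻¹, ?_, ?_⟩
  · have e : D.ρ g * (1 + k • -X) = 1 := by
      rw [h1, add_mul, mul_add, mul_add, smul_mul_smul_comm, mul_neg, hX]
      simp
    exact left_inv_eq_right_inv (by rw [← map_mul, inv_mul_cancel, map_one]) e
  · have e : D.π g * exp ((k : ℚ) • -Y) = 1 := by
      rw [h2, smul_neg, exp_mul_exp_neg_self (hY.smul _)]
    exact left_inv_eq_right_inv (by rw [← map_mul, inv_mul_cancel, map_one]) e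

theorem Lg.div {X : Module.End ℤ H} {Y : Module.End ℚ M} {n : ℕ} (hn : 0 < n) (hX : X * X = 0)
    (h : Lg D (n • X) Y) : Lg D X ((n : ℚ)⁻¹ • Y) := by
  obtain ⟨-, hY, k, hk, g, h1, h2⟩ := h
  refine ⟨hX, hY.smul _, k * n, by positivity, g, by rw [h1, smul_smul], ?_⟩
  have hn' : (n : ℚ) ≠ 0 := by positivity
  rw [h2, Nat.cast_mul, mul_smul, smul_inv_smul₀ hn']

variable (D)

/-- `act a b x = ω x a • b + ω x b • a`. -/
def act : H →ₗ[ℤ] H →ₗ[ℤ] Module.End ℤ H :=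
  LinearMap.mk₂ ℤ (fun a b => (D.ω.flip a).smulRight b + (D.ω.flip b).smulRight a)
    (fun a a' b => by ext x; simp [add_smul]; abel)
    (fun c a b => by ext x; simp [smul_smul, mul_comm])
    (fun a b b' => by ext x; simp [add_smul]; abel)
    (fun c a b => by ext x; simp [smul_smul, mul_comm])

theorem act_apply (a b x : H) : act D a b x = D.ω x a • b + D.ω x b • a := rfl

theorem act_symm (a b : H) : act D a b = act D b a := by
  ext x
  rw [act_apply, act_apply, add_comm]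

theorem act_mul {a b c d : H} (h1 : D.ω c a = 0) (h2 : D.ω c b = 0) (h3 : D.ω d a = 0)
    (h4 : D.ω d b = 0) : act D a b * act D c d = 0 := by
  ext x
  simp [act_apply, h1, h2, h3, h4]

open Classical in
/-- the logarithm as a total function -/
noncomputable def lg (a b : H) : Module.End ℚ M :=
  if h : ∃ Y, Lg D (act D a b) Y then h.choose else 0

/-- the logarithm exists -/
def Ok (a b : H) : Prop := Lg D (act D a b) (lg D a b)

variable {D}

theorem ok_of (hK : Kit1 D) (hL : Log) {a b : H} {Y : Module.End ℚ M} (h : Lg D (act D a b) Y) :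
    Ok D a b ∧ lg D a b = Y := by
  have e : ∃ Y, Lg D (act D a b) Y := ⟨Y, h⟩
  have h1 : Ok D a b := by
    unfold Ok lg
    rw [dif_pos e]
    exact e.choose_spec
  exact ⟨h1, Lg.uniq hK hL h1 h⟩

theorem Ok.symm (hK : Kit1 D) (hL : Log) {a b : H} (h : Ok D a b) :
    Ok D b a ∧ lg D b a = lg D a b := ok_of hK hL (act_symm D a b ▸ h)

theorem Ok.neg (hK : Kit1 D) (hL : Log) {a b : H} (h : Ok D a b) :
    Ok D (-a) b ∧ lg D (-a) b = -lg D a b :=
  ok_of hK hL (by rw [map_neg, LinearMap.neg_apply]; exact Lg.neg h)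

theorem lg_four {v : H} {γ : G} {y : Module.End ℚ M} (hy : IsNilpotent y) (h1 : exp y = D.π γ)
    (h2 : ∀ x, D.ρ γ x = x + (4 * D.ω x v) • v) : Lg D (act D v v) ((2 : ℚ)⁻¹ • y) := by
  have h0 := D.alt v
  refine ⟨act_mul D h0 h0 h0 h0, hy.smul _, 2, two_pos, γ, ?_, ?_⟩
  · ext x
    rw [h2, LinearMap.add_apply, LinearMap.smul_apply, act_apply, Module.End.one_apply]
    module
  · rw [← h1, Nat.cast_ofNat, smul_inv_smul₀ two_ne_zero]

theorem conj4 (hK : Kit1 D) (g : G) (x : H) : D.ρ (g * D.σ 0 ^ 4 * g⁻¹) x =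
    x + (4 * D.ω x (D.ρ g (D.c 0))) • D.ρ g (D.c 0) := by
  have := hK.conjσ g 4 x
  rwa [zpow_ofNat] at this

theorem ok_V (hK : Kit1 D) (hL : Log) (hU : Unip D) {v : H} (hv : D.toSys.V v) : Ok D v v := by
  obtain ⟨g, rfl⟩ := hK.trans v hv
  have hn : IsNilpotent (D.π (g * D.σ 0 ^ 4 * g⁻¹) - 1) := by
    obtain ⟨n, hn⟩ := hU
    generalize D.σ 0 ^ 4 = s at *
    have e1 : D.π g⁻¹ * D.π g = 1 := by rw [← map_mul, inv_mul_cancel, map_one]
    have e2 : D.π g * D.π g⁻¹ = 1 := by rw [← map_mul, mul_inv_cancel, map_one]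
    have e3 : ∀ k : ℕ, (D.π (g * s * g⁻¹) - 1) ^ k =
        D.π g * (D.π s - 1) ^ k * D.π g⁻¹ := fun k => by
      induction k with
      | zero => simp [e2]
      | succ k ih =>
        rw [_root_.pow_succ, _root_.pow_succ, ih, map_mul, map_mul]
        simp only [mul_sub, sub_mul, mul_one, mul_assoc]
        rw [← mul_assoc (D.π g⁻¹), e1, one_mul]
    exact ⟨n, by rw [e3, hn, mul_zero, zero_mul]⟩
  obtain ⟨y, hy, e⟩ := hL.ex M _ hn
  exact (ok_of hK hL (lg_four hy e (conj4 hK g))).1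

end Pool.Agent.MP_00906f_gt.H91.PAR
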