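import Pool.Agent.MP_00906f_gt.H91.Defs

/-! Statements of the steps of the upper bound. -/

namespace Pool.Agent.MP_00906f_gt.H91

open H46 IsNilpotent
open scoped TensorProduct

section facts

variable {G H M E : Type} [Group G] [AddCommGroup H] [AddCommGroup M] [Module ℚ M]
  [AddCommGroup E] [Module ℚ E]

/-- Basic facts on `π`, `t3`, `t5`. -/
structure Kit1 (D : Dat G H M) : Prop where
  π_congr : ∀ g g', D.ρ g = D.ρ g' → D.π g = D.π g'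
  cl_one : D.cl 1 = 0
  cl_inv : ∀ k ∈ D.ρ.ker, D.cl k⁻¹ = -D.cl k
  T3_ker : T3 D.σ ∈ D.ρ.ker
  T5_ker : T5 D.σ ∈ D.ρ.ker
  par3 : ∀ g ∈ Par D.σ D.N 2, D.π g D.t3 = D.t3
  par5 : ∀ g ∈ Par D.σ D.N 4, D.π g D.t5 = D.t5
  D4_t3 : D.π ((D.σ 0 * D.σ 1 * D.σ 2) ^ 4) D.t3 = D.t3
  D6_t5 : D.π ((D.σ 0 * D.σ 1 * D.σ 2 * D.σ 3 * D.σ 4) ^ 6) D.t5 = D.t5
  ρ_D4 : ∀ x, D.ρ ((D.σ 0 * D.σ 1 * D.σ 2) ^ 4) x =
    x + (2 * D.ω x (D.c 0 + D.c 2)) • (D.c 0 + D.c 2)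
  ρ_D6 : ∀ x, D.ρ ((D.σ 0 * D.σ 1 * D.σ 2 * D.σ 3 * D.σ 4) ^ 6) x =
    x + (2 * D.ω x (D.c 0 + D.c 2 + D.c 4)) • (D.c 0 + D.c 2 + D.c 4)
  gen : Submodule.span ℚ
    (Set.range (fun g => D.π g D.t3) ∪ Set.range fun g => D.π g D.t5) = ⊤
  MU_π : ∀ g, ∀ m ∈ D.MU, D.π g m ∈ D.MU
  conjσ : ∀ g (n : ℤ) x,
    D.ρ (g * D.σ 0 ^ n * g⁻¹) x = x + (n * D.ω x (D.ρ g (D.c 0))) • D.ρ g (D.c 0)
  trans : ∀ v, D.toSys.V v → ∃ g, D.ρ g (D.c 0) = v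
  adj : ∀ x y, D.toSys.V x → D.toSys.V y → D.ω x y = 1 →
    ∃ g, D.ρ g (D.c 0) = x ∧ D.ρ g (D.c 1) = y
  gam : ∀ y, ∃ γ ∈ Par D.σ D.N 2, D.ω (D.ρ γ (D.c 0)) y = 0
  twd : ∀ g g' (i : ℤ), D.ρ g (D.c 0) = D.ρ g' (D.c 0) →
    D.ρ g (D.c 1) = D.ρ g' (D.c 1) + i • D.ρ g' (D.c 0) → D.π g D.t3 = D.π g' D.t3

/-- The translations `τ`. -/
structure Kit2 (D : Dat G H M) : Prop where
  fE : ∀ l, D.ω (D.c 0) l = 0 → ∀ x, D.ρ (D.fE l) x = D.toSys.E l 0 x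
  τ_zero : D.τ 0 = 1
  τ_neg : ∀ l, D.ω (D.c 0) l = 0 → D.τ (-l) * D.τ l = 1
  Fx_t3 : D.Fx D.t3
  Fx_t5 : D.Fx D.t5
  Fx_π : ∀ g, PM (D.ρ g (D.c 0)) (D.c 0) → ∀ m, D.Fx m → D.Fx (D.π g m)
  Fx_τ : ∀ l, D.ω (D.c 0) l = 0 → ∀ m, D.Fx m → D.Fx (D.τ l m)
  τ_add : ∀ l l', D.ω (D.c 0) l = 0 → D.ω (D.c 0) l' = 0 → ∀ m, D.Fx m →
    D.τ (l + l') m = D.τ l (D.τ l' m)
  τ_c0 : ∀ (j : ℤ) m, D.Fx m → D.τ (j • D.c 0) m = m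
  τ_conj : ∀ g l, D.ρ g (D.c 0) = D.c 0 → D.ω (D.c 0) l = 0 →
    D.π g * D.τ l = D.τ (D.ρ g l) * D.π g
  τ_conj' : ∀ g l, D.ρ g (D.c 0) = -D.c 0 → D.ω (D.c 0) l = 0 →
    D.π g * D.τ l = D.τ (-D.ρ g l) * D.π g
  τ_eq : ∀ g l (k : ℤ), D.ω (D.c 0) l = 0 → (∀ x, D.ρ g x = D.toSys.E l k x) → ∀ m, D.Fx m →
    D.π g m = D.τ l m
  τ_yy : ∀ i j, i + 2 ≤ D.N → j + 2 ≤ D.N → ∀ m, D.Fx m →
    D.π (yy D.σ i * yy D.σ j) m = D.τ (D.toSys.ww i - D.toSys.ww j) m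
  τ_t3 : ∀ g g' l (i : ℤ), D.ω (D.c 0) l = 0 → D.ρ g (D.c 0) = D.c 0 → D.ρ g' (D.c 0) = D.c 0 →
    D.ρ g' (D.c 1) = D.ρ g (D.c 1) + (2 : ℤ) • l + i • D.c 0 → D.π g' D.t3 = D.τ l (D.π g D.t3)
  τ_perp : ∀ g l, D.ω (D.c 0) l = 0 → D.ω (D.c 0) (D.ρ g (D.c 0)) = 0 →
    D.ω (D.c 0) (D.ρ g (D.c 1)) = 0 → D.ω l (D.ρ g (D.c 0)) = 0 → D.ω l (D.ρ g (D.c 1)) = 0 →
    D.Fx (D.π g D.t3) ∧ D.τ l (D.π g D.t3) = D.π g D.t3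
  τ_t5 : ∀ a b : ℤ, D.τ (a • D.c 2 + b • D.c 3) D.t5 = D.t5
  ex : ∀ u b, D.toSys.V u → D.ω u b = 0 →
    ∃ g, ∀ x, D.ρ g x = x + (2 * D.ω u x) • b + (2 * D.ω b x) • u

/-- The relation. -/
def Rel (D : Dat G H M) : Prop :=
  D.π (D.σ 2 * D.σ 3 * D.σ 4) D.t5 - D.π (D.σ 3 * D.σ 4) D.t5
      + D.π (yy D.σ 1 * yy D.σ 2 * D.σ 4) D.t5 - D.π (yy D.σ 1 * yy D.σ 2) D.t5
    - (D.π (D.σ 2 * D.σ 3 * D.σ 4 * g0 D.σ) D.t3 - D.π (D.σ 3 * D.σ 4 * g0 D.σ) D.t3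
      + D.π (yy D.σ 1 * yy D.σ 2 * D.σ 4 * g0 D.σ) D.t3
      - D.π (yy D.σ 1 * yy D.σ 2 * g0 D.σ) D.t3)
    = D.π (w3 D.σ) D.t3 + D.π (w1 D.σ) D.t3 - D.π (w2 D.σ) D.t3 - D.t3

def S0 (D : Dat G H M) : Prop :=
  ∀ O : Module.End ℚ M,
    (∀ g, D.ρ g (D.c 0) = D.c 0 → D.ρ g (D.c 4) = D.c 4 → ∀ m, D.Fx m →
      O (D.π g m) = D.π g (O m)) →
    (∀ l, D.ω (D.c 0) l = 0 → ∀ m, D.Fx m → O (D.τ l m) = D.τ l (O m)) →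
    O (D.π (D.σ 2 * D.σ 3 * D.σ 4) D.t5) = 0 → O (D.π (D.σ 3 * D.σ 4) D.t5) = 0 →
    ∀ z, D.ω (D.c 0) z = 0 → D.ω (D.c 2) z = 0 → D.ω (D.c 3) z = 0 → D.ω (D.c 4) z = 0 →
      D.ω (D.c 5) z = 0 → O (((D.τ (D.c 2) - 1) ^ 2 * (D.τ z - 1) ^ 2 : Module.End ℚ M) D.t3) = 0

def WW (D : Dat G H M) : Prop := ∀ g, D.π g D.t5 - D.t5 ∈ D.MU

def Unip (D : Dat G H M) : Prop := IsNilpotent (D.π (D.σ 0 ^ 4) - 1)

def Par4 (D : Dat G H M) : Prop :=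
  ∀ y0 y1 y2 y3 : Module.End ℚ M, IsNilpotent y0 → IsNilpotent y1 → IsNilpotent y2 →
    IsNilpotent y3 → exp y0 = D.π (D.σ 0 ^ 4) → exp y1 = D.π (D.σ 1 ^ 4) →
    exp y2 = D.π (D.σ 1 * D.σ 0 ^ 4 * (D.σ 1)⁻¹) → exp y3 = D.π ((D.σ 1)⁻¹ * D.σ 0 ^ 4 * D.σ 1) →
    y2 + y3 = (2 : ℚ) • y0 + (2 : ℚ) • y1

/-- Permutations of the points. -/
structure Cox (D : Dat G H M) : Prop where
  ker : ∀ g, D.perm g = 1 → g ∈ PP D.σ D.N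
  bnd : ∀ g j, D.perm g j ≤ D.N ↔ j ≤ D.N
  par : ∀ k g, k < D.N → (∀ j, j ≤ k → D.perm g j ≤ k) →
    ∃ h ∈ Par D.σ D.N k, D.perm h = D.perm g
  lam : ∀ (Z : Type) (z : G → Z) (k : ℕ), k < D.N →
    (∀ g, ∀ h ∈ Par D.σ D.N k, z (g * h) = z g) → (∀ g a, D.perm a = 1 → z (g * a) = z g) →
    ∃ lam : Finset ℕ → Z, ∀ g, z g = lam (D.lab k g)
  label : ∀ l : List ℕ, l.Nodup → (∀ x ∈ l, x ≤ D.N) →
    ∃ g, ∀ j, (hj : j < l.length) → D.perm g j = l[j]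
  val : ∀ k g, k ≤ D.N → Val D.N (k + 1) (D.lab k g)
  lab_mul : ∀ k g h, D.lab k (g * h) = (D.lab k h).image (D.perm g)
  surj : ∀ k I, Val D.N (k + 1) I → ∃ g, D.lab k g = I
  yy : ∀ j, j + 2 ≤ D.N → D.perm (yy D.σ j) = 1
  l0 : D.lab 2 (D.σ 2 * D.σ 3 * D.σ 4 * g0 D.σ) = {3, 4, 5}
  l1 : D.lab 2 (D.σ 3 * D.σ 4 * g0 D.σ) = {2, 4, 5}
  l2 : D.lab 2 (D.σ 4 * g0 D.σ) = {2, 3, 5}
  l3 : D.lab 2 (g0 D.σ) = {2, 3, 4}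
  e0 : D.lab 2 1 = {0, 1, 2}
  e1 : D.lab 2 (w1 D.σ) = {0, 1, 3}
  e2 : D.lab 2 (w2 D.σ) = {0, 1, 4}
  e3 : D.lab 2 (w3 D.σ) = {0, 1, 5}
  a0 : D.lab 4 (D.σ 2 * D.σ 3 * D.σ 4) = {0, 1, 3, 4, 5}
  a1 : D.lab 4 (D.σ 3 * D.σ 4) = {0, 1, 2, 4, 5}
  a2 : D.lab 4 (D.σ 4) = {0, 1, 2, 3, 5}
  a3 : D.lab 4 1 = {0, 1, 2, 3, 4}

/-- First facts on modules over the symplectic Lie algebra. -/
structure Sp1 (S : Sp E M) : Prop where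
  nil : ∀ a b, S.ω a b = 0 → IsNilpotent (S.B a b)
  expc : ∀ a b, S.ω a b = 0 → ∀ (s : ℚ) x y, exp (s • S.B a b) * S.B x y =
    S.B (x + s • S.act a b x) (y + s • S.act a b y) * exp (s • S.B a b)
  top : ∀ U d x y m, S.DegOn U d → S.ω x y = 1 → S.B x y m = 0 → (∀ a b, S.B a b m ∈ U) →
    ∀ l : List E, d + 1 ≤ l.length → (∀ ξ ∈ l, S.ω x ξ = 0) → S.P x l m = 0
  xx : ∀ x (l : List E), (∀ ξ ∈ l, S.ω x ξ = 0) → S.B x x * S.P x l = S.P x l * S.B x x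
  perm : ∀ x m (l l' : List E), S.B x x m = 0 → (∀ ξ ∈ l, S.ω x ξ = 0) → l.Perm l' →
    S.P x l m = S.P x l' m
  kill : ∀ x m (l : List E), S.B x x m = 0 → (∀ ξ ∈ l, S.ω x ξ = 0) →
    (∃ ξ ∈ l, S.B x ξ m = 0) → S.P x l m = 0
  congr : ∀ (ι : Type) x m (l : List ι) (f f' : ι → E), S.B x x m = 0 →
    (∀ i ∈ l, S.ω x (f i) = 0 ∧ S.ω x (f' i) = 0 ∧ S.B x (f i - f' i) m = 0) →
    S.P x (l.map f) m = S.P x (l.map f') m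
  conj : ∀ (u : Module.End ℚ M) (f : E → E), (∀ a b, u * S.B a b = S.B (f a) (f b) * u) →
    ∀ x (l : List E), u * S.P x l = S.P (f x) (l.map f) * u
  pol : ∀ x q (U : Submodule ℚ M) (W : Submodule ℚ E) (d : ℕ), S.B x x q = 0 →
    (∀ w ∈ W, S.ω x w = 0) → (∀ w ∈ W, (S.B x w ^ d) q ∈ U) →
    ∀ l : List E, l.length = d → (∀ ξ ∈ l, ξ ∈ W) → S.P x l q ∈ U
  lim : ∀ x q (U : Submodule ℚ M) (w w' : E) (d : ℕ), S.B x x q = 0 → S.ω x w = 0 →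
    S.ω x w' = 0 → (∀ s : ℚ, (S.B x (w + s • w') ^ d) q ∈ U) → (S.B x w' ^ d) q ∈ U
  perf : ∀ (U : Submodule ℚ M) m, (∀ a b c d, S.B a b (S.B c d m) ∈ U) → ∀ a b, S.B a b m ∈ U

/-- Transitivity arguments. -/
structure Sp2 (S : Sp E M) : Prop where
  irr : ∀ x y q (U : Submodule ℚ M) (w : E) (d : ℕ), S.ω x y = 1 → S.Sph x y q → S.Stab U →
    w ≠ 0 → S.ω x w = 0 → S.ω y w = 0 → (S.B x w ^ d) q ∈ U →
    (∀ l : List E, l.length = d → (∀ ξ ∈ l, S.ω x ξ = 0) → S.P x l q ∈ U) ∧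
      ∀ v, (S.B v v ^ d) q ∈ U
  irr1 : ∀ x y q (w : E), S.ω x y = 1 → S.Sph x y q → w ≠ 0 → S.ω x w = 0 → S.ω y w = 0 →
    S.B x w q = 0 → ∀ a b, S.B a b q = 0
  deg : ∀ (U : Submodule ℚ M) x d, S.Stab U → x ≠ 0 → (∀ m ∈ U, (S.B x x ^ (d + 1)) m = 0) →
    S.DegOn U d

/-- The rational lattice, and the vectors killed by subalgebras. -/
structure Kit3 {D : Dat G H M} (L : Lie D E) : Prop where
  ωc : ∀ i j, i < D.N → j < D.N →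
    L.ω (L.c i) (L.c j) = (if j = i + 1 then 1 else 0) - (if i = j + 1 then 1 else 0)
  ρσ : ∀ i, i < D.N → ∀ x, L.ρ (D.σ i) x = x + L.ω x (L.c i) • L.c i
  ρσ_inv : ∀ i, i < D.N → ∀ x, L.ρ (D.σ i)⁻¹ x = x - L.ω x (L.c i) • L.c i
  ρ_ω : ∀ g x y, L.ω (L.ρ g x) (L.ρ g y) = L.ω x y
  span_c : Submodule.span ℚ (L.c '' {i | i < D.N}) = ⊤
  par_c0 : ∀ g ∈ Par D.σ D.N 1, L.ρ g (L.c 0) = L.c 0
  fam : ∃ w : Fin (D.N - 2) → E, (∀ i, L.ω (L.c 0) (w i) = 0 ∧ L.ω (L.c 1) (w i) = 0) ∧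
    ∀ v, L.ω (L.c 0) v = 0 → L.ω (L.c 1) v = 0 → v ∈ Submodule.span ℚ (Set.range w)
  four : ∀ g, D.π (g * D.σ 0 ^ 4 * g⁻¹) =
    exp ((2 : ℚ) • L.B (L.ρ g (L.c 0)) (L.ρ g (L.c 0)))
  Fx : ∀ m, D.Fx m → L.B (L.c 0) (L.c 0) m = 0
  sph3 : L.toSp.Sph (L.c 0) (L.c 1) D.t3
  in5 : ∀ u ∈ Submodule.span ℚ (L.c '' {i | i < 4}), ∀ u' ∈ Submodule.span ℚ (L.c '' {i | i < 4}),
    L.B u u' D.t5 = 0
  out5 : ∀ w w', (∀ i, i < 4 → L.ω (L.c i) w = 0) → (∀ i, i < 4 → L.ω (L.c i) w' = 0) →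
    L.B w w' D.t5 = 0
  B_MU : ∀ a b m, L.B a b m ∈ D.MU
  deg_ex : ∃ d, L.Deg d

def LS {D : Dat G H M} (L : Lie D E) : Prop :=
  ∀ a b m, L.B a b (D.π (D.σ 0 ^ 2) m - exp (L.B (L.c 0) (L.c 0)) m) = 0

/-- Top degree identities. -/
structure Top {D : Dat G H M} {L : Lie D E} (T : Th L) : Prop where
  e : ∀ d, L.Deg d → ∀ g ∈ Par D.σ D.N 1, ∀ l : List E, l.length = d →
    (∀ ξ ∈ l, L.ω (L.c 0) ξ = 0) → L.toSp.P (L.c 0) l (T.θ g D.t3) = L.F l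
  b : ∀ d, L.Deg d → ∀ l : List E, l.length = d →
    (∀ ξ ∈ l, ξ ∈ Submodule.span ℚ {L.c 2, L.c 3}) →
    L.toSp.P (L.c 0) l (T.θ (g0 D.σ) D.t3) = (-1 : ℚ) ^ d • L.F l
  y : ∀ d, L.Deg d → 1 ≤ d → ∀ m, D.Fx m → (∃ y, L.ω (L.c 0) y = 1 ∧ L.B (L.c 0) y m = 0) →
    ∀ l : List E, l.length = d → (∀ ξ ∈ l, L.ω (L.c 0) ξ = 0) →
    L.toSp.P (L.c 0) l (D.π (yy D.σ 1 * yy D.σ 2) m) = L.toSp.P (L.c 0) l m

/-- The relation in top degree. -/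
def TR {D : Dat G H M} {L : Lie D E} (T : Th L) : Prop :=
  ∀ d, L.Deg d → 1 ≤ d → ∀ l : List (ℚ × ℚ × ℚ), l.length = d →
    L.toSp.P (L.c 0) (l.map L.vec)
        (D.π (D.σ 2 * D.σ 3 * D.σ 4) D.t5 - D.π (D.σ 3 * D.σ 4) D.t5 + D.π (D.σ 4) D.t5 - D.t5)
      - (-1 : ℚ) ^ d • (T.ς (D.σ 2 * D.σ 3 * D.σ 4 * g0 D.σ) (L.F (l.map L.p0))
        - T.ς (D.σ 3 * D.σ 4 * g0 D.σ) (L.F (l.map L.p1))
        + T.ς (D.σ 4 * g0 D.σ) (L.F (l.map L.p2)) - T.ς (g0 D.σ) (L.F (l.map L.p3)))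
      = T.ς (w3 D.σ) (L.F (l.map L.vec)) + T.ς (w1 D.σ) (L.F (l.map L.vec))
        - T.ς (w2 D.σ) (L.F (l.map L.vec)) - L.F (l.map L.vec)

def T2a {D : Dat G H M} {L : Lie D E} (T : Th L) : Prop :=
  ∀ d, L.Deg d → 2 ≤ d → ∀ g (l : List E), l.length = d → (∀ ξ ∈ l, L.ω (L.c 0) ξ = 0) →
    T.ς g (L.F l) = L.F l

def T3r {D : Dat G H M} {L : Lie D E} (T : Th L) : Prop :=
  L.Deg 1 → ∀ a b, L.B a b (T.ς (D.σ 2 * D.σ 3 * D.σ 4 * g0 D.σ) D.t3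
    - T.ς (D.σ 3 * D.σ 4 * g0 D.σ) D.t3 + T.ς (D.σ 4 * g0 D.σ) D.t3 - T.ς (g0 D.σ) D.t3
    - (T.ς (w3 D.σ) D.t3 + T.ς (w1 D.σ) D.t3 - T.ς (w2 D.σ) D.t3 - D.t3)) = 0

def P2 (D : Dat G H M) : Prop :=
  ∃ S : Submodule ℚ M, (∀ g, ∀ m ∈ S, D.π g m ∈ S) ∧
    12 * Module.finrank ℚ S ≤
      (D.N - 2) ^ 4 + 8 * (D.N - 2) ^ 3 + 17 * (D.N - 2) ^ 2 + 10 * (D.N - 2) ∧
    ∀ h, ((D.π (D.σ 0 ^ 4) - 1) ^ 2 : Module.End ℚ M) (D.π h D.t3) ∈ S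

def P1 (D : Dat G H M) : Prop :=
  (∀ h, ((D.π (D.σ 0 ^ 4) - 1) ^ 2 : Module.End ℚ M) (D.π h D.t3) = 0) →
  ∃ S : Submodule ℚ M, (∀ g, ∀ m ∈ S, D.π g m ∈ S) ∧
    2 * Module.finrank ℚ S ≤ (D.N + 1) * ((D.N - 2) ^ 2 + 3 * (D.N - 2)) ∧
    ∀ m, D.π (D.σ 0 ^ 4) m - m ∈ S

/-- The commuting involutions. -/
structure Inv (D : Dat G H M) (s : ℕ → ℕ → Module.End ℚ M) : Prop where
  symm : ∀ i j, s i j = s j i
  sq : ∀ i j, i ≠ j → i ≤ D.N → j ≤ D.N → s i j * s i j = 1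
  comm : ∀ i j k l, i ≠ j → i ≤ D.N → j ≤ D.N → k ≠ l → k ≤ D.N → l ≤ D.N →
    s i j * s k l = s k l * s i j
  eqv : ∀ g i j, i ≠ j → i ≤ D.N → j ≤ D.N →
    D.π g * s i j = s (D.perm g i) (D.perm g j) * D.π g
  σ_sq : ∀ i, i < D.N → s i (i + 1) = D.π (D.σ i ^ 2)

end facts

/-! ### Pure statements -/

/-- Logarithms. -/
structure Log : Prop where
  ex : ∀ (V : Type) [AddCommGroup V] [Module ℚ V] (u : Module.End ℚ V), IsNilpotent (u - 1) →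
    ∃ y, IsNilpotent y ∧ exp y = u
  tw : ∀ (V W : Type) [AddCommGroup V] [Module ℚ V] [AddCommGroup W] [Module ℚ W]
    (φ : V →ₗ[ℚ] W) (y : Module.End ℚ V) (y' : Module.End ℚ W), IsNilpotent y → IsNilpotent y' →
    φ ∘ₗ exp y = exp y' ∘ₗ φ → φ ∘ₗ y = y' ∘ₗ φ
  inj : ∀ (V : Type) [AddCommGroup V] [Module ℚ V] (y y' : Module.End ℚ V), IsNilpotent y →
    IsNilpotent y' → exp y = exp y' → y = y'
  fix : ∀ (V : Type) [AddCommGroup V] [Module ℚ V] (y : Module.End ℚ V) (m : V), IsNilpotent y →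
    (exp y m = m ↔ y m = 0)
  sub : ∀ (V : Type) [AddCommGroup V] [Module ℚ V] (y : Module.End ℚ V) (U : Submodule ℚ V)
    (m : V), IsNilpotent y → (∀ x ∈ U, exp y x ∈ U) → exp y m - m ∈ U → y m ∈ U
  sub' : ∀ (V : Type) [AddCommGroup V] [Module ℚ V] (y : Module.End ℚ V) (U : Submodule ℚ V)
    (m : V), IsNilpotent y → (∀ x ∈ U, y x ∈ U) → y m ∈ U → exp y m - m ∈ U
  pow : ∀ (V : Type) [AddCommGroup V] [Module ℚ V] (y : Module.End ℚ V) (U : Submodule ℚ V)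
    (m : V) (k : ℕ), IsNilpotent y → (∀ x ∈ U, y x ∈ U) →
    ((y ^ k) m ∈ U ↔ ((exp y - 1) ^ k) m ∈ U)
  nsmul : ∀ (V : Type) [AddCommGroup V] [Module ℚ V] (y : Module.End ℚ V) (k : ℕ),
    IsNilpotent y → exp ((k : ℚ) • y) = exp y ^ k

/-- Dimension counts for tensors with symmetries. -/
structure Dim : Prop where
  d2 : ∀ (Y : Type) [AddCommGroup Y] [Module ℚ Y] (n : ℕ) (φ : Fin n → Fin n → Y),
    (∀ i j, φ i j = φ j i) →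
    2 * Module.finrank ℚ (Submodule.span ℚ {y | ∃ i j, y = φ i j}) ≤ n ^ 2 + n
  d11 : ∀ (Y : Type) [AddCommGroup Y] [Module ℚ Y] (n : ℕ) (φ : Fin n → Fin n → Y),
    (∀ i j, φ i j + φ j i = 0) →
    2 * Module.finrank ℚ (Submodule.span ℚ {y | ∃ i j, y = φ i j}) + n ≤ n ^ 2
  d21 : ∀ (Y : Type) [AddCommGroup Y] [Module ℚ Y] (n : ℕ) (φ : Fin n → Fin n → Fin n → Y),
    (∀ i j k, φ i j k = φ i k j) → (∀ i j k, φ i j k + φ j i k + φ k i j = 0) →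
    3 * Module.finrank ℚ (Submodule.span ℚ {y | ∃ i j k, y = φ i j k}) + n ≤ n ^ 3
  d22 : ∀ (Y : Type) [AddCommGroup Y] [Module ℚ Y] (n : ℕ)
    (φ : Fin n → Fin n → Fin n → Fin n → Y),
    (∀ i j k l, φ i j k l = φ j i k l) → (∀ i j k l, φ i j k l = φ i j l k) →
    (∀ i j k l, φ i j k l + φ i k j l + φ i l j k = 0) →
    12 * Module.finrank ℚ (Submodule.span ℚ {y | ∃ i j k l, y = φ i j k l}) + n ^ 2 ≤ n ^ 4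

def StmtLOG : Prop := Log

def StmtDIM : Prop := Dim

def StmtT4 : Prop :=
  ∀ (Y : Type) [AddCommGroup Y] [Module ℚ Y] (N : ℕ) (lam : Finset ℕ → Y), 8 ≤ N →
    (∀ a b p q r t, Six N a b p q r t →
      lam {q, r, t} - lam {p, r, t} + lam {p, q, t} - lam {p, q, r} =
        lam {a, b, t} + lam {a, b, q} - lam {a, b, r} - lam {a, b, p}) →
    Module.finrank ℚ (Submodule.span ℚ {y | ∃ I, Val N 3 I ∧ y = lam I}) ≤ N + 1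

def StmtCUBE : Prop :=
  ∀ (Y : Type) [AddCommGroup Y] [Module ℚ Y] (N : ℕ) (lam : Finset ℕ → Y), 4 ≤ N →
    (∀ a b p q r t, Six N a b p q r t →
      lam {r, t, q} - lam {r, t, p} + (lam {a, b, q} - lam {a, b, p}) =
        lam {a, t, q} - lam {a, t, p} + (lam {r, b, q} - lam {r, b, p})) →
    Module.finrank ℚ (Submodule.span ℚ {y | ∃ I, Val N 3 I ∧ y = lam I}) ≤ (N + 1).choose 2

def StmtF3b : Prop :=
  ∀ (Y : Type) [AddCommGroup Y] [Module ℚ Y] (N : ℕ) (adj : ℕ → ℕ → Prop) [DecidableRel adj]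
    (xT xA : Finset ℕ → Y), 8 ≤ N → (∀ i j, adj i j → adj j i) → (∀ i, ¬ adj i i) →
    (∀ i j, adj i j → i ≤ N + 1) →
    (∀ i, i ≤ N + 1 → Even ((Finset.range (N + 2)).filter fun j => adj i j).card) →
    (∃ i j, adj i j) →
    (∀ I, Val N 3 I → xT I ≠ 0 → Cut adj I) → (∀ J, Val N 5 J → xA J ≠ 0 → Cut adj J) →
    (∀ a b p q r t, Six N a b p q r t → ∃ ε : Fin 12 → ℚ, (∀ k, ε k ≠ 0) ∧
      ε 0 • xA {a, b, q, r, t} + ε 1 • xA {a, b, p, r, t} + ε 2 • xA {a, b, p, q, t}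
      + ε 3 • xA {a, b, p, q, r} + ε 4 • xT {q, r, t} + ε 5 • xT {p, r, t} + ε 6 • xT {p, q, t}
      + ε 7 • xT {p, q, r} + ε 8 • xT {a, b, p} + ε 9 • xT {a, b, q} + ε 10 • xT {a, b, r}
      + ε 11 • xT {a, b, t} = 0) →
    (¬ Cyc N adj → ∀ I, Val N 3 I → xT I = 0) ∧
      ∃ y, ∀ I, Val N 3 I → xT I ∈ Submodule.span ℚ {y}

def StmtF3 : Prop :=
  ∀ (M : Type) [AddCommGroup M] [Module ℚ M] (F : FA M) (χ : Finset (ℕ × ℕ))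
    (P : Module.End ℚ M), χ ⊆ pairs F.N → χ.Nonempty →
    (∀ p ∈ pairs F.N, ∀ m, P (F.s p.1 p.2 m) = (if p ∈ χ then (-1 : ℚ) else 1) • P m) →
    (¬ Cyc F.N (adjX F.N χ) → P = 0) ∧ Module.finrank ℚ (LinearMap.range P) ≤ 1

def StmtF4 : Prop :=
  ∀ (M : Type) [AddCommGroup M] [Module ℚ M] (F : FA M) (P : Module.End ℚ M),
    (∀ p ∈ pairs F.N, ∀ m, P (F.s p.1 p.2 m) = P m) →
    Module.finrank ℚ (LinearMap.range P) ≤ (F.N + 1).choose 2 + 1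

open Classical in
def StmtCNT : Prop :=
  ∀ N, ((pairs N).powerset.filter fun χ => Cyc N (adjX N χ)).card ≤ 3 * (N + 2).choose 4

def StmtF5 : Prop :=
  ∀ (M : Type) [AddCommGroup M] [Module ℚ M] (F : FA M),
    Module.finrank ℚ M ≤ (F.N + 1).choose 2 + 1 + 3 * (F.N + 2).choose 4

/-- A statement for every module over a symplectic Lie algebra. -/
def AllSp (p : ∀ (E M : Type) [AddCommGroup E] [Module ℚ E] [AddCommGroup M] [Module ℚ M],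
    Sp E M → Prop) : Prop :=
  ∀ (E M : Type) [AddCommGroup E] [Module ℚ E] [AddCommGroup M] [Module ℚ M] (S : Sp E M),
    p E M S

def StmtSP1 : Prop := AllSp fun _ _ _ _ _ _ S => Sp1 S

def StmtSP2 : Prop := AllSp fun _ _ _ _ _ _ S => Sp2 S

def StmtV11 : Prop := AllSp fun E M _ _ _ _ S =>
  ∀ (x y : E) (q : M) (U : Submodule ℚ M) (n : ℕ) (w : Fin n → E), S.ω x y = 1 → S.Sph x y q →
    S.DegOn U 1 → q ∈ U → (∀ i, S.ω x (w i) = 0 ∧ S.ω y (w i) = 0) →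
    (∀ v, S.ω x v = 0 → S.ω y v = 0 → v ∈ Submodule.span ℚ (Set.range w)) →
    ∃ T : Submodule ℚ M, S.Stab T ∧ (∀ a b, S.B a b q ∈ T) ∧
      2 * Module.finrank ℚ T ≤ n ^ 2 + 3 * n

def StmtV22 : Prop := AllSp fun E M _ _ _ _ S =>
  ∀ (x y : E) (q : M) (U : Submodule ℚ M) (n : ℕ) (w : Fin n → E), S.ω x y = 1 → S.Sph x y q →
    S.DegOn U 2 → q ∈ U → (∀ i, S.ω x (w i) = 0 ∧ S.ω y (w i) = 0) →
    (∀ v, S.ω x v = 0 → S.ω y v = 0 → v ∈ Submodule.span ℚ (Set.range w)) →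
    ∃ T : Submodule ℚ M, S.Stab T ∧
      (∀ ξ η, S.ω x ξ = 0 → S.ω x η = 0 → S.B x ξ (S.B x η q) ∈ T) ∧
      12 * Module.finrank ℚ T ≤ n ^ 4 + 8 * n ^ 3 + 17 * n ^ 2 + 10 * n

/-! ### Statements on data -/

/-- A statement for every `Dat`. -/
def AllD (p : ∀ (G H M : Type) [Group G] [AddCommGroup H] [AddCommGroup M] [Module ℚ M],
    Dat G H M → Prop) : Prop :=
  ∀ (G H M : Type) [Group G] [AddCommGroup H] [AddCommGroup M] [Module ℚ M] (D : Dat G H M),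
    p G H M D

/-- A statement for every `Lie`. -/
def AllL (p : ∀ (G H M E : Type) [Group G] [AddCommGroup H] [AddCommGroup M] [Module ℚ M]
    [AddCommGroup E] [Module ℚ E] (D : Dat G H M), Lie D E → Prop) : Prop :=
  ∀ (G H M E : Type) [Group G] [AddCommGroup H] [AddCommGroup M] [Module ℚ M]
    [AddCommGroup E] [Module ℚ E] (D : Dat G H M) (L : Lie D E), p G H M E D L

/-- A statement for every `Th`. -/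
def AllT (p : ∀ (G H M E : Type) [Group G] [AddCommGroup H] [AddCommGroup M] [Module ℚ M]
    [AddCommGroup E] [Module ℚ E] (D : Dat G H M) (L : Lie D E), Th L → Prop) : Prop :=
  ∀ (G H M E : Type) [Group G] [AddCommGroup H] [AddCommGroup M] [Module ℚ M]
    [AddCommGroup E] [Module ℚ E] (D : Dat G H M) (L : Lie D E) (T : Th L), p G H M E D L T

def StmtK1 : Prop := AllD fun _ _ _ _ _ _ _ D => Kit1 D
def StmtK2 : Prop := AllD fun _ _ _ _ _ _ _ D => Kit2 D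
def StmtREL : Prop := AllD fun _ _ _ _ _ _ _ D => Rel D
def StmtS0 : Prop := AllD fun _ _ _ _ _ _ _ D => S0 D
def StmtW : Prop := AllD fun _ _ _ _ _ _ _ D => WW D
def StmtU : Prop := AllD fun _ _ _ _ _ _ _ D => Unip D
def StmtPAR : Prop := AllD fun _ _ _ _ _ _ _ D => Par4 D
def StmtCOX : Prop := AllD fun _ _ _ _ _ _ _ D => Cox D
def StmtBIL : Prop := AllD fun _ H _ _ _ _ _ D => Nonempty (Lie D (ℚ ⊗[ℤ] H))
def StmtK3 : Prop := AllL fun _ _ _ _ _ _ _ _ _ _ _ L => Kit3 L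
def StmtLS : Prop := AllL fun _ _ _ _ _ _ _ _ _ _ _ L => LS L
def StmtTH : Prop := AllL fun _ _ _ _ _ _ _ _ _ _ _ L => Nonempty (Th L)
def StmtTOP : Prop := AllT fun _ _ _ _ _ _ _ _ _ _ _ _ T => Top T
def StmtTR : Prop := AllT fun _ _ _ _ _ _ _ _ _ _ _ _ T => TR T
def StmtT2a : Prop := AllT fun _ _ _ _ _ _ _ _ _ _ _ _ T => T2a T
def StmtT2b : Prop := AllT fun _ _ _ _ _ _ _ _ _ _ _ L _ => L.Deg 2
def StmtT3 : Prop := AllT fun _ _ _ _ _ _ _ _ _ _ _ _ T => T3r T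
def StmtP2 : Prop := AllD fun _ _ _ _ _ _ _ D => P2 D
def StmtP1 : Prop := AllD fun _ _ _ _ _ _ _ D => P1 D
def StmtF1 : Prop := AllD fun _ _ _ _ _ _ _ D => D.π (D.σ 0 ^ 4) = 1 → ∃ s, Inv D s
def StmtF2 : Prop := AllD fun _ _ M _ _ _ _ D => D.π (D.σ 0 ^ 4) = 1 → ∃ F : FA M, F.N = D.N
def StmtUP : Prop := AllD fun _ _ M _ _ _ _ D => ∀ g, D.N = 2 * g →
  6 * Module.finrank ℚ M + 5 * g ^ 2 + 9 * g ≤ 20 * g ^ 4 + 36 * g ^ 3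

def StmtFIN : Prop :=
  ∀ g, 4 ≤ g → ∀ ρ : HT.HypMCG g →* Equiv.Perm (HT.Hom1 g), HT.IsHomologyAction g ρ →
    6 * Module.finrank ℤ (Additive (Abelianization ρ.ker)) + 5 * g ^ 2 + 9 * g + 6 ≤
      20 * g ^ 4 + 36 * g ^ 3

/-! ### The rows -/

def OfK1 : Prop := StmtK1
def OfK2 : Prop := StmtK1 → StmtK2
def OfREL : Prop := StmtK1 → StmtREL
def OfS0 : Prop := StmtK1 → StmtK2 → StmtREL → StmtS0
def OfW : Prop := StmtK1 → StmtK2 → StmtREL → StmtW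
def OfU : Prop := StmtK1 → StmtK2 → StmtS0 → StmtW → StmtU
def OfLOG : Prop := StmtLOG
def OfPAR : Prop := StmtK1 → StmtLOG → StmtU → StmtPAR
def OfBIL : Prop := StmtK1 → StmtLOG → StmtU → StmtPAR → StmtBIL
def OfSP1 : Prop := StmtLOG → StmtSP1
def OfSP2 : Prop := StmtLOG → StmtSP1 → StmtSP2
def OfDIM : Prop := StmtDIM
def OfV11 : Prop := StmtSP1 → StmtDIM → StmtV11
def OfV22 : Prop := StmtSP1 → StmtDIM → StmtV22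
def OfK3 : Prop := StmtK1 → StmtW → StmtLOG → StmtSP1 → StmtK3
def OfLS : Prop := StmtK1 → StmtK2 → StmtS0 → StmtLOG → StmtSP1 → StmtSP2 → StmtK3 → StmtLS
def OfCOX : Prop := StmtCOX
def OfTH : Prop := StmtK1 → StmtLOG → StmtSP1 → StmtK3 → StmtLS → StmtCOX → StmtTH
def OfTOP : Prop := StmtK1 → StmtK2 → StmtLOG → StmtSP1 → StmtK3 → StmtCOX → StmtTOP
def OfTR : Prop := StmtK1 → StmtK2 → StmtREL → StmtSP1 → StmtK3 → StmtTOP → StmtTR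
def OfT2a : Prop := StmtSP1 → StmtSP2 → StmtK3 → StmtCOX → StmtTR → StmtT2a
def OfT2b : Prop := StmtSP1 → StmtSP2 → StmtK3 → StmtTR → StmtT2a → StmtT2b
def OfT3 : Prop := StmtSP1 → StmtSP2 → StmtK3 → StmtTR → StmtT3
def OfT4 : Prop := StmtT4
def OfP2 : Prop := StmtLOG → StmtSP1 → StmtSP2 → StmtV22 → StmtBIL → StmtK3 → StmtTH →
  StmtT2a → StmtT2b → StmtP2
def OfP1 : Prop := StmtK1 → StmtLOG → StmtSP1 → StmtSP2 → StmtV11 → StmtBIL → StmtK3 → StmtTH →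
  StmtCOX → StmtT3 → StmtT4 → StmtP1
def OfF1 : Prop := StmtK1 → StmtF1
def OfF2 : Prop := StmtK1 → StmtREL → StmtW → StmtCOX → StmtF1 → StmtF2
def OfF3b : Prop := StmtF3b
def OfF3 : Prop := StmtF3b → StmtF3
def OfCUBE : Prop := StmtCUBE
def OfF4 : Prop := StmtCUBE → StmtF4
def OfCNT : Prop := StmtCNT
def OfF5 : Prop := StmtF3 → StmtF4 → StmtCNT → StmtF5
def OfUP : Prop := StmtP2 → StmtP1 → StmtF2 → StmtF5 → StmtUP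
def OfFIN : Prop := StmtUP → StmtFIN

end Pool.Agent.MP_00906f_gt.H91
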