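import Pool.Agent.MP_00906f_gt.H91.Spec

/-! The four-term relation on triples leaves a space of dimension at most `N + 1`. -/

namespace Pool.Agent.MP_00906f_gt.H91

namespace T4

/-- Three free points outside a set of at most six points. -/
theorem free3 {N : ℕ} (hN : 8 ≤ N) (S : Finset ℕ) (hS : S.card ≤ 6) :
    ∃ u v w : ℕ, u ≤ N ∧ v ≤ N ∧ w ≤ N ∧ u ∉ S ∧ v ∉ S ∧ w ∉ S ∧ u ≠ v ∧ u ≠ w ∧ v ≠ w := by
  have h1 : 2 < (Finset.range (N + 1) \ S).card := by
    have := Finset.le_card_sdiff S (Finset.range (N + 1))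
    rw [Finset.card_range] at this
    omega
  obtain ⟨u, v, w, hu, hv, hw, huv, huw, hvw⟩ := Finset.two_lt_card_iff.1 h1
  rw [Finset.mem_sdiff, Finset.mem_range] at hu hv hw
  exact ⟨u, v, w, by omega, by omega, by omega, hu.2, hv.2, hw.2, huv, huw, hvw⟩

theorem card6 (a b c d e f : ℕ) : ({a, b, c, d, e, f} : Finset ℕ).card ≤ 6 := Finset.card_le_six

theorem s132 (a b c : ℕ) : ({a, c, b} : Finset ℕ) = {a, b, c} := by
  ext x; simp only [Finset.mem_insert, Finset.mem_singleton]; omega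

theorem s312 (a b c : ℕ) : ({c, a, b} : Finset ℕ) = {a, b, c} := by
  ext x; simp only [Finset.mem_insert, Finset.mem_singleton]; omega

theorem s321 (a b c : ℕ) : ({c, b, a} : Finset ℕ) = {a, b, c} := by
  ext x; simp only [Finset.mem_insert, Finset.mem_singleton]; omega

theorem s231 (a b c : ℕ) : ({b, c, a} : Finset ℕ) = {a, b, c} := by
  ext x; simp only [Finset.mem_insert, Finset.mem_singleton]; omega

theorem s213 (a b c : ℕ) : ({b, a, c} : Finset ℕ) = {a, b, c} := by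
  ext x; simp only [Finset.mem_insert, Finset.mem_singleton]; omega

theorem six_of {N a b p q r t : ℕ} (ha : a ≤ N) (hb : b ≤ N) (hp : p ≤ N) (hq : q ≤ N)
    (hr : r ≤ N) (ht : t ≤ N) (hab : a ≠ b) (hap : a ≠ p) (haq : a ≠ q) (har : a ≠ r)
    (hat : a ≠ t) (hbp : b ≠ p) (hbq : b ≠ q) (hbr : b ≠ r) (hbt : b ≠ t) (hpq : p ≠ q)
    (hpr : p ≠ r) (hpt : p ≠ t) (hqr : q ≠ r) (hqt : q ≠ t) (hrt : r ≠ t) :
    Six N a b p q r t := by
  refine ⟨?_, ?_⟩
  · simp [*]
  · intro x hx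
    simp only [List.mem_cons, List.not_mem_nil, or_false] at hx
    omega

variable {Y : Type} [AddCommGroup Y] [Module ℚ Y] {N : ℕ} {lam : Finset ℕ → Y}

/-- The relation of the statement. -/
def Rel4 (N : ℕ) (lam : Finset ℕ → Y) : Prop :=
  ∀ a b p q r t, Six N a b p q r t →
    lam {q, r, t} - lam {p, r, t} + lam {p, q, t} - lam {p, q, r} =
      lam {a, b, t} + lam {a, b, q} - lam {a, b, r} - lam {a, b, p}

theorem step (h : Rel4 N lam) {a b p q r t : ℕ} (ha : a ≤ N) (hb : b ≤ N) (hp : p ≤ N)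
    (hq : q ≤ N) (hr : r ≤ N) (ht : t ≤ N) (hab : a ≠ b) (hap : a ≠ p) (haq : a ≠ q)
    (har : a ≠ r) (hat : a ≠ t) (hbp : b ≠ p) (hbq : b ≠ q) (hbr : b ≠ r) (hbt : b ≠ t)
    (hpq : p ≠ q) (hpr : p ≠ r) (hpt : p ≠ t) (hqr : q ≠ r) (hqt : q ≠ t) (hrt : r ≠ t) :
    lam {r, t, p} - lam {r, t, q} = lam {a, b, p} - lam {a, b, q} := by
  have h1 := h a b p q r t
    (six_of ha hb hp hq hr ht hab hap haq har hat hbp hbq hbr hbt hpq hpr hpt hqr hqt hrt)
  have h2 := h a b p q t r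
    (six_of ha hb hp hq ht hr hab hap haq hat har hbp hbq hbt hbr hpq hpt hpr hqt hqr hrt.symm)
  rw [s312 r t q, s312 r t p] at h1
  rw [s321 r t q, s321 r t p] at h2
  have h3 : (2 : ℚ) • (lam {r, t, p} - lam {r, t, q}) =
      (2 : ℚ) • (lam {a, b, p} - lam {a, b, q}) := by
    linear_combination (norm := module) -h1 - h2
  exact smul_right_injective Y (by norm_num : (2 : ℚ) ≠ 0) h3

/-- The difference does not depend on the pair. -/
theorem indep (hN : 8 ≤ N) (h : Rel4 N lam) {a b c d p q : ℕ} (ha : a ≤ N) (hb : b ≤ N)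
    (hc : c ≤ N) (hd : d ≤ N) (hp : p ≤ N) (hq : q ≤ N) (hab : a ≠ b) (hap : a ≠ p)
    (haq : a ≠ q) (hbp : b ≠ p) (hbq : b ≠ q) (hcd : c ≠ d) (hcp : c ≠ p) (hcq : c ≠ q)
    (hdp : d ≠ p) (hdq : d ≠ q) :
    lam {a, b, p} - lam {a, b, q} = lam {c, d, p} - lam {c, d, q} := by
  by_cases hpq : p = q
  · subst hpq; simp
  obtain ⟨u, v, -, hu, hv, -, hu', hv', -, huv, -, -⟩ := free3 hN _ (card6 a b c d p q)
  simp only [Finset.mem_insert, Finset.mem_singleton, not_or] at hu' hv'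
  obtain ⟨u1, u2, u3, u4, u5, u6⟩ := hu'
  obtain ⟨v1, v2, v3, v4, v5, v6⟩ := hv'
  have e1 := step h hu hv hp hq ha hb huv u5 u6 u1 u2 v5 v6 v1 v2 hpq hap.symm hbp.symm
    haq.symm hbq.symm hab
  have e2 := step h hu hv hp hq hc hd huv u5 u6 u3 u4 v5 v6 v3 v4 hpq hcp.symm hdp.symm
    hcq.symm hdq.symm hcd
  rw [e1, e2]

theorem exists_d (hN : 8 ≤ N) (h : Rel4 N lam) (p : ℕ) :
    ∃ y : Y, ∀ a b : ℕ, a ≤ N → b ≤ N → p ≤ N → a ≠ b → a ≠ p → a ≠ 0 → b ≠ p → b ≠ 0 →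
      lam {a, b, p} - lam {a, b, 0} = y := by
  obtain ⟨u, v, -, hu, hv, -, hu', hv', -, huv, -, -⟩ := free3 hN _ (card6 p 0 0 0 0 0)
  simp only [Finset.mem_insert, Finset.mem_singleton, not_or] at hu' hv'
  refine ⟨lam {u, v, p} - lam {u, v, 0}, fun a b ha hb hp hab hap ha0 hbp hb0 => ?_⟩
  exact indep hN h ha hb hu hv hp (Nat.zero_le N) hab hap ha0 hbp hb0 huv hu'.1 hu'.2.1
    hv'.1 hv'.2.1

theorem main (hN : 8 ≤ N) (h : Rel4 N lam) :
    Module.finrank ℚ (Submodule.span ℚ {y | ∃ I, Val N 3 I ∧ y = lam I}) ≤ N + 1 := by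
  choose d hd using exists_d hN h
  let g : Fin (N + 1) → Y := fun i => if (i : ℕ) = 0 then lam {0, 1, 2} else d i
  let W : Submodule ℚ Y := Submodule.span ℚ (Set.range g)
  have hW0 : lam {0, 1, 2} ∈ W :=
    Submodule.subset_span ⟨⟨0, by omega⟩, by simp [g]⟩
  have hWd : ∀ a b p : ℕ, a ≤ N → b ≤ N → p ≤ N → a ≠ b → a ≠ p → a ≠ 0 → b ≠ p → b ≠ 0 →
      lam {a, b, p} - lam {a, b, 0} ∈ W := by
    intro a b p ha hb hp hab hap ha0 hbp hb0
    by_cases hp0 : p = 0
    · subst hp0; simp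
    rw [hd p a b ha hb hp hab hap ha0 hbp hb0]
    exact Submodule.subset_span ⟨⟨p, by omega⟩, by simp [g, hp0]⟩
  have hsw : ∀ a b p q : ℕ, a ≤ N → b ≤ N → p ≤ N → q ≤ N → a ≠ b → a ≠ p → a ≠ q → b ≠ p →
      b ≠ q → lam {a, b, q} ∈ W → lam {a, b, p} ∈ W := by
    intro a b p q ha hb hp hq hab hap haq hbp hbq hm
    obtain ⟨u, v, -, hu, hv, -, hu', hv', -, huv, -, -⟩ := free3 hN _ (card6 p q 0 0 0 0)
    simp only [Finset.mem_insert, Finset.mem_singleton, not_or] at hu' hv'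
    have e := indep hN h ha hb hu hv hp hq hab hap haq hbp hbq huv hu'.1 hu'.2.1 hv'.1 hv'.2.1
    have m1 := hWd u v p hu hv hp huv hu'.1 hu'.2.2.1 hv'.1 hv'.2.2.1
    have m2 := hWd u v q hu hv hq huv hu'.2.1 hu'.2.2.1 hv'.2.1 hv'.2.2.1
    have e' : lam {a, b, p} = lam {a, b, q} + ((lam {u, v, p} - lam {u, v, 0}) -
        (lam {u, v, q} - lam {u, v, 0})) := by
      linear_combination (norm := module) e
    rw [e']
    exact W.add_mem hm (W.sub_mem m1 m2)
  have hle : Submodule.span ℚ {y | ∃ I, Val N 3 I ∧ y = lam I} ≤ W := by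
    rw [Submodule.span_le]
    rintro y ⟨I, ⟨hI, hc⟩, rfl⟩
    obtain ⟨x, y, z, hxy, hxz, hyz, rfl⟩ := Finset.card_eq_three.1 hc
    have hx : x ≤ N := by
      have := Finset.mem_range.1 (hI (by simp : x ∈ ({x, y, z} : Finset ℕ))); omega
    have hy : y ≤ N := by
      have := Finset.mem_range.1 (hI (by simp : y ∈ ({x, y, z} : Finset ℕ))); omega
    have hz : z ≤ N := by
      have := Finset.mem_range.1 (hI (by simp : z ∈ ({x, y, z} : Finset ℕ))); omega
    obtain ⟨u, v, w, hu, hv, hw, hu', hv', hw', huv, huw, hvw⟩ :=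
      free3 hN _ (card6 x y z 0 1 2)
    simp only [Finset.mem_insert, Finset.mem_singleton, not_or] at hu' hv' hw'
    obtain ⟨u1, u2, u3, u4, u5, u6⟩ := hu'
    obtain ⟨v1, v2, v3, v4, v5, v6⟩ := hv'
    obtain ⟨w1, w2, w3, w4, w5, w6⟩ := hw'
    have m1 : lam {0, 1, u} ∈ W :=
      hsw 0 1 u 2 (by omega) (by omega) hu (by omega) (by omega) (by omega) (by omega)
        (by omega) (by omega) hW0
    have m2 : lam {0, u, v} ∈ W := by
      refine hsw 0 u v 1 (by omega) hu hv (by omega) (by omega) (by omega) (by omega)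
        (by omega) (by omega) ?_
      rw [s132 0 1 u]; exact m1
    have m3 : lam {u, v, w} ∈ W := by
      refine hsw u v w 0 hu hv hw (by omega) (by omega) (by omega) (by omega)
        (by omega) (by omega) ?_
      rw [s231 0 u v]; exact m2
    have m4 : lam {u, v, x} ∈ W :=
      hsw u v x w hu hv hx hw (by omega) (by omega) (by omega) (by omega) (by omega) m3
    have m5 : lam {u, x, y} ∈ W := by
      refine hsw u x y v hu hx hy hv (by omega) (by omega) (by omega)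
        (by omega) (by omega) ?_
      rw [s132 u v x]; exact m4
    refine hsw x y z u hx hy hz hu (by omega) (by omega) (by omega) (by omega) (by omega) ?_
    rw [s231 u x y]; exact m5
  have : Module.Finite ℚ W := Module.Finite.span_of_finite ℚ (Set.finite_range g)
  refine (Submodule.finrank_mono hle).trans ?_
  have := finrank_range_le_card (R := ℚ) g
  rw [Fintype.card_fin] at this
  exact this

end T4

theorem rowT4 : OfT4 := fun _ _ _ _ _ hN h => T4.main hN h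

end Pool.Agent.MP_00906f_gt.H91
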